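import Pool.Agent.H79.ES.NCT
import Pool.Agent.H91.CS.EDefs
import Pool.Agent.H44.RR.CNT
import Pool.Agent.H61.TT.Surj

/-!
# Module NCP: critical points persist

PROOF. `root_near`: `WP v` (H91/CS/EDefs) has degree at most `2 d - 2` (its coefficient of `X ^ (2 d - 1)` is `d v1 v2 - v1 d v2 = 0`, `v1 = v.1 (last)`, ..; compare `wr_reflect`, `coeff_two` in H44/RG/PLA; its coefficient `l v` of `X ^ (2 d - 2)` is, up to sign, `wv (rv v) 0`), `l` is continuous, `l v0 ≠ 0` by `hinf` (`crit_infty_of_wr`, as in `crit_stay`, H44/RG/CST). Let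
`R > 0`. If `v` is near `v0`: `‖l v‖ ≥ ‖l v0‖ / 2` and `‖wv v c‖ < (‖l v0‖ / 2) R ^ (2 d - 2)` (`wv_cont`). `WP v` splits (`IsAlgClosed.splits`, `eval = leadingCoeff * product over the roots`: `Polynomial.Splits.eval_eq_prod_roots`, `2 d - 2` roots): if all roots had distance `≥ R` from `c`, then `‖wv v c‖ ≥ ‖l v‖ R ^ (2 d - 2)`. So there is a root `z` with `‖z - c‖ < R`,
`wv v z = (WP v).eval z = 0`. `crit_pers`: chart (`chart_av`) with `s` outside of `c` and of the finite set of critical points (`crit_finite`): then `c1 = φ c` is finite, `∞ = φ s` is not critical for `Lin s v0` (`isCrit_conj`), `wv (Lin s v0) c1 = 0` (`crit_coe`, `wv_cf`, `cf_pol`); the preimage of `φ '' W` in the plane is a neighbourhood of `c1`, take a ball. For `v`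
near `v0`, `Lin s v` is near `Lin s v0` (`lin_inv`: continuous), `cop_near`, so there is `z` in the ball with `wv (Lin s v) z = 0`: critical (`crit_of_wr`), so `φ⁻¹ z ∈ W` is critical for `Rf v`.
-/

set_option autoImplicit false

open Filter Topology Polynomial Metric Set

namespace Pool.Agent.H79.ES

open Pool.Agent.H44.Fatou Pool.Agent.H32.BT Pool.Agent.H79.Eul Pool.Agent.H79.Par Pool.Agent.H35.EX
open Pool.Agent.H44.RG Pool.Agent.H44.RR

variable {d : ℕ}

private theorem coeff_two {P Q : Polynomial ℂ} {e : ℕ} (hP : P.natDegree ≤ e + 1)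
    (hQ : Q.natDegree ≤ e + 2) :
    (P * Q).coeff (2 * e + 2) = P.coeff e * Q.coeff (e + 2) + P.coeff (e + 1) * Q.coeff (e + 1) := by
  rw [coeff_mul, Finset.Nat.sum_antidiagonal_eq_sum_range_succ
    (fun i j => P.coeff i * Q.coeff j), Finset.sum_eq_add e (e + 1)]
  · have e1 : 2 * e + 2 - e = e + 2 := by omega
    have e2 : 2 * e + 2 - (e + 1) = e + 1 := by omega
    rw [e1, e2]
  · omega
  · intro k hk hne
    rcases Nat.lt_or_ge k e with h1 | h1
    · rw [coeff_eq_zero_of_natDegree_lt (p := Q) (by omega), mul_zero]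
    · rw [coeff_eq_zero_of_natDegree_lt (p := P) (by omega), zero_mul]
  · intro h
    exact absurd (Finset.mem_range.2 (by omega)) h
  · intro h
    exact absurd (Finset.mem_range.2 (by omega)) h

private theorem wr_reflect {a b : Polynomial ℂ} {e : ℕ} (ha : a.natDegree ≤ e + 2)
    (hb : b.natDegree ≤ e + 2) :
    (Wr (reflect (e + 2) a) (reflect (e + 2) b)).eval 0 =
      -(Pool.Agent.H61.TT.ww a b).coeff (2 * e + 2) := by
  have hA : (derivative a).natDegree ≤ e + 1 := (natDegree_derivative_le a).trans (by omega)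
  have hB : (derivative b).natDegree ≤ e + 1 := (natDegree_derivative_le b).trans (by omega)
  have h1 : (Pool.Agent.H61.TT.ww a b).coeff (2 * e + 2) =
      (derivative a).coeff e * b.coeff (e + 2) + (derivative a).coeff (e + 1) * b.coeff (e + 1) -
      ((derivative b).coeff e * a.coeff (e + 2) +
        (derivative b).coeff (e + 1) * a.coeff (e + 1)) := by
    unfold Pool.Agent.H61.TT.ww
    rw [coeff_sub, coeff_two hA hb, mul_comm a, coeff_two hB ha]
  rw [h1, coeff_derivative, coeff_derivative, coeff_derivative, coeff_derivative]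
  have h0 : ∀ P : Polynomial ℂ, (reflect (e + 2) P).eval 0 = P.coeff (e + 2) := by
    intro P
    rw [← coeff_zero_eq_eval_zero, coeff_reflect, revAt_zero]
  have h2 : ∀ P : Polynomial ℂ, (derivative (reflect (e + 2) P)).eval 0 = P.coeff (e + 1) := by
    intro P
    rw [← coeff_zero_eq_eval_zero, coeff_derivative, coeff_reflect, revAt_le (by omega)]
    have : e + 2 - (0 + 1) = e + 1 := by omega
    rw [this]
    simp
  unfold Wr
  rw [eval_sub, eval_mul, eval_mul, h0, h0, h2, h2]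
  push_cast
  ring

private theorem prod_low {c : ℂ} {R : ℝ} (hR : 0 < R) (s : Multiset ℂ) (h : ∀ r ∈ s, R ≤ ‖c - r‖) :
    R ^ s.card ≤ ‖(s.map (fun r => c - r)).prod‖ := by
  induction s using Multiset.induction with
  | empty => simp
  | cons a s ih =>
    rw [Multiset.map_cons, Multiset.prod_cons, Multiset.card_cons, norm_mul, pow_succ, mul_comm]
    exact mul_le_mul (h a (Multiset.mem_cons_self a s))
      (ih fun r hr => h r (Multiset.mem_cons_of_mem hr)) (by positivity) (norm_nonneg _)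

theorem root_near {v0 : E d} (hd : 2 ≤ d) (hcop : IsCoprime (pol v0.1) (pol v0.2))
    (hdeg : max (pol v0.1).natDegree (pol v0.2).natDegree = d)
    (hinf : ¬ IsCrit (Rf v0) OnePoint.infty) {c : ℂ} (hc : wv v0 c = 0) {R : ℝ} (hR : 0 < R) :
    ∀ᶠ v in 𝓝 v0, ∃ z ∈ ball c R, wv v z = 0 := by
  have hd1 : 1 ≤ max (pol v0.1).natDegree (pol v0.2).natDegree := by rw [hdeg]; omega
  have h0 : wv (rv v0) 0 ≠ 0 := by
    intro h
    apply hinf
    apply crit_infty_of_wr hcop hd1
    have hdg : dg (pol v0.1) (pol v0.2) = d := hdeg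
    rw [hdg, ← wv_cf (natDegree_reflect_le' (pol_deg _)) (natDegree_reflect_le' (pol_deg _)),
      ← rv_cf, cf_pol, cf_pol]
    exact h
  have hl0 : 0 < ‖wv (rv v0) 0‖ := norm_pos_iff.2 h0
  have hc1 : Tendsto (fun v : E d => ‖wv (rv v) 0‖) (𝓝 v0) (𝓝 ‖wv (rv v0) 0‖) := by
    have h3 : Continuous (fun v : E d => ((v, (0 : ℂ)) : E d × ℂ)) :=
      Continuous.prodMk continuous_id continuous_const
    have h2 := (rv2_cont (d := d)).comp h3
    exact (h2.norm).tendsto v0
  have hc2 : Tendsto (fun v : E d => ‖wv v c‖) (𝓝 v0) (𝓝 0) := by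
    have h4 : Continuous (fun v : E d => ((v, c) : E d × ℂ)) :=
      Continuous.prodMk continuous_id continuous_const
    have h2 := (wv_cont (d := d)).comp h4
    have h3 : Tendsto (fun v : E d => ‖wv v c‖) (𝓝 v0) (𝓝 ‖wv v0 c‖) := (h2.norm).tendsto v0
    rw [hc, norm_zero] at h3
    exact h3
  have e1 : ∀ᶠ v : E d in 𝓝 v0, ‖wv (rv v0) 0‖ / 2 < ‖wv (rv v) 0‖ :=
    hc1.eventually (lt_mem_nhds (half_lt_self hl0))
  have e2 : ∀ᶠ v : E d in 𝓝 v0, ‖wv v c‖ < ‖wv (rv v0) 0‖ / 2 * R ^ (2 * d - 2) :=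
    hc2.eventually (gt_mem_nhds (show 0 < ‖wv (rv v0) 0‖ / 2 * R ^ (2 * d - 2) by positivity))
  filter_upwards [e1, e2, cop_near hcop hdeg (by omega)] with v h1 h2 h3
  by_contra hcon
  push Not at hcon
  have hrat : Pool.Agent.H61.TT.RatD d (pol v.1) (pol v.2) := ⟨hd, h3.1, h3.2⟩
  have hdeg1 := Pool.Agent.H44.RR.ww_deg hrat
  obtain ⟨P, hP⟩ : ∃ P, P = Pool.Agent.H61.TT.ww (pol v.1) (pol v.2) := ⟨_, rfl⟩
  rw [← hP] at hdeg1
  have hco : P.coeff (2 * d - 2) = -wv (rv v) 0 := by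
    obtain ⟨e, rfl⟩ : ∃ e, d = e + 2 := ⟨d - 2, by omega⟩
    have h4 := wr_reflect (pol_deg v.1) (pol_deg v.2)
    rw [← wv_cf (natDegree_reflect_le' (pol_deg _)) (natDegree_reflect_le' (pol_deg _)),
      ← rv_cf, cf_pol, cf_pol] at h4
    have h5 : 2 * (e + 2) - 2 = 2 * e + 2 := by omega
    rw [h5, hP]
    have h6 : wv (rv v) 0 = -(Pool.Agent.H61.TT.ww (pol v.1) (pol v.2)).coeff (2 * e + 2) := h4
    rw [h6, neg_neg]
  have hco0 : P.coeff (2 * d - 2) ≠ 0 := by
    rw [hco, neg_ne_zero]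
    intro h4
    rw [h4, norm_zero] at h1
    linarith
  have hnd : P.natDegree = 2 * d - 2 := natDegree_eq_of_le_of_coeff_ne_zero hdeg1 hco0
  have hsp := IsAlgClosed.splits P
  have hcard : P.natDegree = P.roots.card := hsp.natDegree_eq_card_roots
  have hev := hsp.eval_eq_prod_roots c
  have hroots : ∀ r ∈ P.roots, R ≤ ‖c - r‖ := by
    intro r hr
    have hP0 : P ≠ 0 := by
      intro h4
      rw [h4, coeff_zero] at hco0
      exact hco0 rfl
    rw [mem_roots hP0, IsRoot.def, hP, ← Pool.Agent.H61.TT.wv_pol] at hr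
    by_contra hlt
    refine hcon r ?_ hr
    rw [mem_ball, dist_comm, dist_eq_norm]
    exact not_le.1 hlt
  have hlow := prod_low hR P.roots hroots
  rw [← hcard, hnd] at hlow
  have hnorm : ‖wv v c‖ = ‖P.leadingCoeff‖ * ‖(P.roots.map (fun r => c - r)).prod‖ := by
    rw [Pool.Agent.H61.TT.wv_pol, ← hP, hev, norm_mul]
  have hlc : ‖P.leadingCoeff‖ = ‖wv (rv v) 0‖ := by
    rw [leadingCoeff, hnd, hco, norm_neg]
  rw [hnorm, hlc] at h2
  have h5 : ‖wv (rv v0) 0‖ / 2 * R ^ (2 * d - 2) ≤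
      ‖wv (rv v) 0‖ * ‖(P.roots.map (fun r => c - r)).prod‖ :=
    mul_le_mul h1.le hlow (by positivity) (norm_nonneg _)
  linarith

theorem crit_pers {v0 : E d} (hd : 2 ≤ d) (hcop : IsCoprime (pol v0.1) (pol v0.2))
    (hdeg : max (pol v0.1).natDegree (pol v0.2).natDegree = d) {c : OnePoint ℂ} (hc : IsCrit (Rf v0) c)
    {W : Set (OnePoint ℂ)} (hW : W ∈ 𝓝 c) : ∀ᶠ v in 𝓝 v0, ∃ z ∈ W, IsCrit (Rf v) z := by
  have hd1 : 1 ≤ max (pol v0.1).natDegree (pol v0.2).natDegree := by rw [hdeg]; omega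
  have hfin : {c | IsCrit (Rf v0) c}.Finite := crit_finite hcop hd1
  obtain ⟨s, φ, L, hs, hφs, hall, -, -⟩ := chart_av {c | IsCrit (Rf v0) c} hfin.countable hd
  obtain ⟨hcop', hdeg', hconj⟩ := hall v0 hcop hdeg
  have hcs : φ c ≠ OnePoint.infty := by
    intro h
    apply hs
    rw [← hφs] at h
    rw [← φ.injective h]
    exact hc
  obtain ⟨c1, hc1⟩ := OnePoint.ne_infty_iff_exists.1 hcs
  have hinf : ¬ IsCrit (Rf (Lin s v0)) OnePoint.infty := by
    rw [← hφs, isCrit_conj φ hconj]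
    exact hs
  have hwv : wv (Lin s v0) c1 = 0 := by
    rw [Pool.Agent.H61.TT.wv_pol]
    have h1 : IsCrit (Rf (Lin s v0)) (c1 : OnePoint ℂ) := by
      rw [hc1, isCrit_conj φ hconj]
      exact hc
    exact crit_coe h1
  have hpre : (fun z : ℂ => φ.symm (z : OnePoint ℂ)) ⁻¹' W ∈ 𝓝 c1 := by
    refine (φ.symm.continuous.comp OnePoint.continuous_coe).continuousAt.preimage_mem_nhds ?_
    rw [Function.comp_apply, hc1, φ.symm_apply_apply]
    exact hW
  obtain ⟨R, hR, hball⟩ := Metric.mem_nhds_iff.1 hpre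
  have h1 := root_near hd hcop' hdeg' hinf hwv hR
  have h2 := ((lin_cont s (d := d)).tendsto v0).eventually h1
  filter_upwards [h2, cop_near hcop hdeg (by omega)] with v hv h3
  obtain ⟨z, hz, hz0⟩ := hv
  obtain ⟨h4, h5, h6⟩ := hall v h3.1 h3.2
  refine ⟨φ.symm (z : OnePoint ℂ), hball hz, ?_⟩
  rw [← isCrit_conj φ h6, φ.apply_symm_apply]
  refine crit_of_wr h4 (by rw [h5]; omega) ?_
  rw [Pool.Agent.H61.TT.wv_pol] at hz0
  exact hz0

end Pool.Agent.H79.ES
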