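import Pool.Agent.H79.ES.NCT
import Pool.Agent.H79.Par.AttGood
import Pool.Agent.H91.CS.ECRIT

/-!
# Module NAP: attraction persists, periodic critical points are attracted

PROOF. `att_pers`: a sink `z`, `n` attracting `c`. Chart (`chart_av`) with `s` outside of the orbits of `c` and `z` (countable): for `v1 = Lin s v0`, all `(Rf v1)^[j] (φ c)`, `(Rf v1)^[j] (φ z)` are finite (`iter_conj`), `φ z` is a sink attracting `φ c` (`isSink_conj`, `att_conj` or directly by continuity of `φ`). `att_good` (H79/Par/AttGood) with `y j = it v1 j c1`, `c1 = φ c`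
(`orb_of_fin`): `Att (Rf w.1) w.2` for `w` near `(v1, c1)`: product neighbourhoods (`nhds_prod_eq`, `Filter.mem_prod_iff`); pull back by `φ` and `Lin s` (continuous, `lin_inv`), `cop_near`, `att_conj`. `per_att`: chart with `s ≠ z`: `super_att` (H91/CS/ECRIT) for `Lin s v` and the finite point `φ z` (`wv = 0`: `isCrit_conj`, `crit_coe`, `wv_cf`, `cf_pol`; periodic: `iter_conj`), `att_conj`.
-/

set_option autoImplicit false

open Filter Topology Polynomial Metric Set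

namespace Pool.Agent.H79.ES

open Pool.Agent.H44.Fatou Pool.Agent.H32.BT Pool.Agent.H79.Eul Pool.Agent.H79.Par Pool.Agent.H35.EX
open Pool.Agent.H44.RG Pool.Agent.H44.RR

variable {d : ℕ}

theorem att_pers {v0 : E d} (hd : 2 ≤ d) (hcop : IsCoprime (pol v0.1) (pol v0.2))
    (hdeg : max (pol v0.1).natDegree (pol v0.2).natDegree = d) {c : OnePoint ℂ} (hc : Att (Rf v0) c) :
    ∃ W ∈ 𝓝 c, ∀ᶠ v in 𝓝 v0, ∀ z ∈ W, Att (Rf v) z := by
  obtain ⟨z, n, hz, hlim⟩ := hc
  have hS : (Set.range (fun j => (Rf v0)^[j] c) ∪ Set.range (fun j => (Rf v0)^[j] z)).Countable :=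
    (Set.countable_range _).union (Set.countable_range _)
  obtain ⟨s, φ, L, hs, hφs, hφ, -, -⟩ := chart_av (d := d) _ hS hd
  obtain ⟨hcop1, hdeg1, hconj⟩ := hφ v0 hcop hdeg
  have hfinc : ∀ j, (Rf (Lin s v0))^[j] (φ c) ≠ OnePoint.infty := by
    intro j h0
    rw [iter_conj φ hconj, ← hφs] at h0
    exact hs (Or.inl ⟨j, φ.injective h0⟩)
  have hfinz : ∀ j, (Rf (Lin s v0))^[j] (φ z) ≠ OnePoint.infty := by
    intro j h0
    rw [iter_conj φ hconj, ← hφs] at h0
    exact hs (Or.inr ⟨j, φ.injective h0⟩)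
  obtain ⟨c1, hc1⟩ : ∃ c1 : ℂ, (c1 : OnePoint ℂ) = φ c := OnePoint.ne_infty_iff_exists.1 (hfinc 0)
  obtain ⟨z1, hz1⟩ : ∃ z1 : ℂ, (z1 : OnePoint ℂ) = φ z := OnePoint.ne_infty_iff_exists.1 (hfinz 0)
  have h1 := att_good hd hcop1 hdeg1 (z := z1) (n := n)
    (by rw [hz1]; exact (isSink_conj φ hconj z n).2 hz) (by rw [hz1]; exact hfinz)
    (y := fun j => it (Lin s v0) j c1)
    (fun j => (orb_all (by rw [hc1]; exact hfinc)).1 j)
    (by
      show Tendsto (fun j => (Rf (Lin s v0))^[n * j] (c1 : OnePoint ℂ)) atTop (𝓝 (z1 : OnePoint ℂ))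
      rw [hc1, hz1]
      have h2 := (φ.continuous.tendsto z).comp hlim
      refine h2.congr fun k => ?_
      rw [iter_conj φ hconj]
      rfl)
  rw [nhds_prod_eq, Filter.eventually_prod_iff] at h1
  obtain ⟨pa, hpa, pb, hpb, hab⟩ := h1
  have hpb' : ∀ᶠ w in 𝓝 c1, pb w := hpb
  obtain ⟨G, -, hLc, -, -⟩ := lin_inv s d
  refine ⟨φ ⁻¹' (((↑) : ℂ → OnePoint ℂ) '' {w | pb w}), ?_, ?_⟩
  · apply φ.continuous.continuousAt.preimage_mem_nhds
    rw [← hc1, ← OnePoint.isOpenEmbedding_coe.map_nhds_eq c1]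
    exact Filter.image_mem_map hpb'
  · filter_upwards [(hLc.tendsto v0).eventually hpa, cop_near hcop hdeg (by omega)] with v hv hv2
    rintro x ⟨w, hw, hwx⟩
    obtain ⟨-, -, hcj⟩ := hφ v hv2.1 hv2.2
    have h3 : Att (Rf (Lin s v)) (w : OnePoint ℂ) := hab hv hw
    rw [hwx] at h3
    exact (att_conj φ hcj x).1 h3

theorem per_att {v : E d} (hd : 2 ≤ d) (hcop : IsCoprime (pol v.1) (pol v.2))
    (hdeg : max (pol v.1).natDegree (pol v.2).natDegree = d) {z : OnePoint ℂ} (hz : IsCrit (Rf v) z)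
    {n : ℕ} (hn : 0 < n) (hp : (Rf v)^[n] z = z) : Att (Rf v) z := by
  obtain ⟨s, φ, L, hs, hφs, hφ, -, -⟩ := chart_av (d := d) {z} (Set.countable_singleton z) hd
  obtain ⟨hcop1, hdeg1, hconj⟩ := hφ v hcop hdeg
  have hfin : φ z ≠ OnePoint.infty := by
    intro h0
    rw [← hφs] at h0
    exact hs (φ.injective h0).symm
  obtain ⟨z1, hz1⟩ := OnePoint.ne_infty_iff_exists.1 hfin
  have hcr : IsCrit (Rf (Lin s v)) (z1 : OnePoint ℂ) := by
    rw [hz1]
    exact (isCrit_conj φ hconj z).2 hz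
  have hw : wv (Lin s v) z1 = 0 := by
    have h1 := crit_coe hcr
    rw [← wv_cf (pol_deg (Lin s v).1) (pol_deg (Lin s v).2), cf_pol, cf_pol] at h1
    exact h1
  have h2 := Pool.Agent.H91.CS.super_att hd hcop1 hdeg1 hw hn (by
    rw [hz1, iter_conj φ hconj, hp])
  rw [hz1] at h2
  exact (att_conj φ hconj z).1 h2

end Pool.Agent.H79.ES
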