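import Pool.Agent.H79.ES.NCP
import Pool.Agent.H79.ES.NAP

/-!
# Module NNA: the number of attracted critical points

PROOF. `na_le`: the finite critical points are roots of `WP v` (`crit_coe`), a nonzero polynomial (otherwise all points are critical, `crit_of_wr`, but `crit_finite`) of degree at most `2 d - 1` (`natDegree_mul_le`, `natDegree_derivative_le`), so there are at most `2 d` critical points with `∞` (`Set.ncard_le_ncard`, `Set.ncard_image_of_injective`,
`Multiset.toFinset_card_le`, `card_roots'`). `ac_pers`: `crit_pers` in the neighbourhood `W ∩ W'`, `W'` from `att_pers`. `na_low`: `A = {z | IsCrit (Rf v0) z ∧ Att (Rf v0) z}` is finite (`crit_finite`); disjoint open neighbourhoods `U z ∋ z`, `z ∈ A` (`Set.Finite.t2_separation`); `ac_pers` in `U z` for the finitely many `z ∈ A` (`Filter.eventually_all_finite`); choose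
`g z ∈ U z` critical and attracted for `v`: `g` is injective on `A` (disjointness), so `A.ncard ≤ (NA v)` (`Set.ncard_le_ncard_of_injOn`, the target is finite by `cop_near`, `crit_finite`). `na_up`: the same with the finite set `insert c A` (`c ∉ A`): for `ε` small `{c' | chord c c' < ε} ⊆ U c` (the complement of the open set `U c` is compact, `chord c` is continuous
(`chord_cont`, H44/RR/CHC) and positive on it (`chord_pos`), minimum), put `g c = c'`: injective on `insert c A`, `Set.ncard_insert_of_notMem`.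
-/

set_option autoImplicit false

open Filter Topology Polynomial Metric Set

namespace Pool.Agent.H79.ES

open Pool.Agent.H44.Fatou Pool.Agent.H32.BT Pool.Agent.H79.Eul Pool.Agent.H79.Par Pool.Agent.H35.EX
open Pool.Agent.H44.RG Pool.Agent.H44.RR

variable {d : ℕ}

/-- the number of attracted critical points -/
noncomputable def NA (v : E d) : ℕ := {z : OnePoint ℂ | IsCrit (Rf v) z ∧ Att (Rf v) z}.ncard

private theorem set_fin {v : E d} (hd : 2 ≤ d) (hcop : IsCoprime (pol v.1) (pol v.2))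
    (hdeg : max (pol v.1).natDegree (pol v.2).natDegree = d) :
    {z : OnePoint ℂ | IsCrit (Rf v) z ∧ Att (Rf v) z}.Finite := by
  have h : {z : OnePoint ℂ | IsCrit (Rf v) z}.Finite := crit_finite hcop (by rw [hdeg]; omega)
  exact h.subset fun z hz => hz.1

theorem na_le {v : E d} (hd : 2 ≤ d) (hcop : IsCoprime (pol v.1) (pol v.2))
    (hdeg : max (pol v.1).natDegree (pol v.2).natDegree = d) : NA v ≤ 2 * d := by
  classical
  obtain ⟨W, hW⟩ : ∃ W, W = Wr (pol v.1) (pol v.2) := ⟨_, rfl⟩
  have hd1 : 1 ≤ max (pol v.1).natDegree (pol v.2).natDegree := by rw [hdeg]; omega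
  have hW0 : W ≠ 0 := by
    intro h0
    have h : {z : OnePoint ℂ | IsCrit (Rf v) z}.Finite := crit_finite hcop hd1
    have h1 : ∀ z : ℂ, IsCrit (Rf v) (z : OnePoint ℂ) := by
      intro z
      refine crit_of_wr hcop hd1 ?_
      rw [← hW, h0, eval_zero]
    have h2 : (Set.range ((↑) : ℂ → OnePoint ℂ)).Finite := h.subset (by
      rintro _ ⟨z, rfl⟩
      exact h1 z)
    exact (Set.infinite_range_of_injective OnePoint.coe_injective) h2
  have hWd : W.natDegree ≤ 2 * d - 1 := by
    rw [hW]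
    unfold Wr
    have e1 := pol_deg v.1
    have e2 := pol_deg v.2
    have e3 := natDegree_derivative_le (pol v.1)
    have e4 := natDegree_derivative_le (pol v.2)
    refine (natDegree_sub_le _ _).trans (max_le ?_ ?_)
    · refine natDegree_mul_le.trans ?_
      omega
    · refine natDegree_mul_le.trans ?_
      omega
  let F : Finset (OnePoint ℂ) := insert OnePoint.infty
    (W.roots.toFinset.image ((↑) : ℂ → OnePoint ℂ))
  have hsub : {z : OnePoint ℂ | IsCrit (Rf v) z ∧ Att (Rf v) z} ⊆ (F : Set (OnePoint ℂ)) := by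
    rintro z ⟨hz, -⟩
    induction z using OnePoint.rec with
    | infty => exact Finset.mem_coe.2 (Finset.mem_insert_self _ _)
    | coe z =>
      refine Finset.mem_coe.2 (Finset.mem_insert_of_mem (Finset.mem_image_of_mem _ ?_))
      rw [Multiset.mem_toFinset, mem_roots hW0, IsRoot.def, hW]
      exact crit_coe hz
  have h1 := Set.ncard_le_ncard hsub F.finite_toSet
  rw [Set.ncard_coe_finset] at h1
  have h2 : F.card ≤ (W.roots.toFinset.image ((↑) : ℂ → OnePoint ℂ)).card + 1 :=
    Finset.card_insert_le _ _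
  have h3 : (W.roots.toFinset.image ((↑) : ℂ → OnePoint ℂ)).card ≤ W.roots.toFinset.card :=
    Finset.card_image_le
  have h4 := Multiset.toFinset_card_le W.roots
  have h5 := card_roots' W
  unfold NA
  omega

/-- attracted critical points persist -/
private theorem ac_pers {v0 : E d} (hd : 2 ≤ d) (hcop : IsCoprime (pol v0.1) (pol v0.2))
    (hdeg : max (pol v0.1).natDegree (pol v0.2).natDegree = d) {c : OnePoint ℂ}
    (hc : IsCrit (Rf v0) c) (ha : Att (Rf v0) c) {W : Set (OnePoint ℂ)} (hW : W ∈ 𝓝 c) :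
    ∀ᶠ v in 𝓝 v0, ∃ z ∈ W, IsCrit (Rf v) z ∧ Att (Rf v) z := by
  obtain ⟨W', hW', h1⟩ := att_pers hd hcop hdeg ha
  filter_upwards [h1, crit_pers hd hcop hdeg hc (inter_mem hW hW')] with v h2 h3
  obtain ⟨z, hz, h4⟩ := h3
  exact ⟨z, hz.1, h4, h2 z hz.2⟩

theorem na_low {v0 : E d} (hd : 2 ≤ d) (hcop : IsCoprime (pol v0.1) (pol v0.2))
    (hdeg : max (pol v0.1).natDegree (pol v0.2).natDegree = d) : ∀ᶠ v in 𝓝 v0, NA v0 ≤ NA v := by
  have hA := set_fin hd hcop hdeg
  obtain ⟨U, hU, hdis⟩ := hA.t2_separation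
  have h1 : ∀ᶠ v in 𝓝 v0, ∀ z ∈ {z : OnePoint ℂ | IsCrit (Rf v0) z ∧ Att (Rf v0) z},
      ∃ w ∈ U z, IsCrit (Rf v) w ∧ Att (Rf v) w := by
    rw [Filter.eventually_all_finite hA]
    intro z hz
    exact ac_pers hd hcop hdeg hz.1 hz.2 ((hU z).2.mem_nhds (hU z).1)
  filter_upwards [h1, cop_near hcop hdeg (by omega)] with v h2 h3
  choose! g hg using h2
  unfold NA
  refine Set.ncard_le_ncard_of_injOn g (fun z hz => (hg z hz).2) ?_ (set_fin hd h3.1 h3.2)
  intro z hz w hw hzw
  by_contra hne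
  have h4 := hdis hz hw hne
  rw [Function.onFun, Set.disjoint_left] at h4
  refine h4 (hg z hz).1 ?_
  rw [hzw]
  exact (hg w hw).1

/-- chordal balls in a neighbourhood -/
private theorem chord_ball {c : OnePoint ℂ} {U : Set (OnePoint ℂ)} (hU : IsOpen U) (hc : c ∈ U) :
    ∃ ε : ℝ, 0 < ε ∧ ∀ x, chord c x < ε → x ∈ U := by
  by_cases hne : (Uᶜ).Nonempty
  · have hcomp : IsCompact Uᶜ := hU.isClosed_compl.isCompact
    have hcont : Continuous (fun x : OnePoint ℂ => chord c x) :=
      chord_cont.comp (Continuous.prodMk continuous_const continuous_id)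
    obtain ⟨y, hy, hmin⟩ := hcomp.exists_isMinOn hne hcont.continuousOn
    refine ⟨chord c y, chord_pos ?_, ?_⟩
    · intro h
      rw [h] at hc
      exact hy hc
    · intro x hx
      by_contra hxU
      have := hmin (show x ∈ Uᶜ from hxU)
      exact absurd hx (not_lt.2 this)
  · refine ⟨1, one_pos, fun x _ => ?_⟩
    by_contra hx
    exact hne ⟨x, hx⟩

theorem na_up {v0 : E d} (hd : 2 ≤ d) (hcop : IsCoprime (pol v0.1) (pol v0.2))
    (hdeg : max (pol v0.1).natDegree (pol v0.2).natDegree = d) {c : OnePoint ℂ}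
    (hn : ¬ Att (Rf v0) c) : ∃ ε : ℝ, 0 < ε ∧ ∀ v ∈ ball v0 ε,
      ∀ c' : OnePoint ℂ, chord c c' < ε → IsCrit (Rf v) c' → Att (Rf v) c' → NA v0 + 1 ≤ NA v := by
  classical
  have hA := set_fin hd hcop hdeg
  have hcA : c ∉ {z : OnePoint ℂ | IsCrit (Rf v0) z ∧ Att (Rf v0) z} := fun h => hn h.2
  obtain ⟨U, hU, hdis⟩ := (hA.insert c).t2_separation
  have h1 : ∀ᶠ v in 𝓝 v0, ∀ z ∈ {z : OnePoint ℂ | IsCrit (Rf v0) z ∧ Att (Rf v0) z},
      ∃ w ∈ U z, IsCrit (Rf v) w ∧ Att (Rf v) w := by
    rw [Filter.eventually_all_finite hA]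
    intro z hz
    exact ac_pers hd hcop hdeg hz.1 hz.2 ((hU z).2.mem_nhds (hU z).1)
  obtain ⟨ε1, hε1, h2⟩ := Metric.eventually_nhds_iff_ball.1
    (h1.and (cop_near hcop hdeg (by omega)))
  obtain ⟨ε2, hε2, h3⟩ := chord_ball (hU c).2 (hU c).1
  refine ⟨min ε1 ε2, lt_min hε1 hε2, fun v hv c' hc' hcr hat => ?_⟩
  have hv1 : v ∈ ball v0 ε1 := ball_subset_ball (min_le_left _ _) hv
  obtain ⟨h4, h5⟩ := h2 v hv1
  have hc'U := h3 c' (lt_of_lt_of_le hc' (min_le_right _ _))
  choose! g hg using h4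
  unfold NA
  rw [← Set.ncard_insert_of_notMem hcA hA]
  refine Set.ncard_le_ncard_of_injOn (fun z => if z = c then c' else g z) ?_ ?_
    (set_fin hd h5.1 h5.2)
  · intro z hz
    by_cases hzc : z = c
    · simp only [hzc, if_true]
      exact ⟨hcr, hat⟩
    · simp only [hzc, if_false]
      exact (hg z (Set.mem_of_mem_insert_of_ne hz hzc)).2
  · have hmem : ∀ z ∈ insert c {z : OnePoint ℂ | IsCrit (Rf v0) z ∧ Att (Rf v0) z},
        (if z = c then c' else g z) ∈ U z := by
      intro z hz
      by_cases hzc : z = c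
      · rw [if_pos hzc, hzc]
        exact hc'U
      · rw [if_neg hzc]
        exact (hg z (Set.mem_of_mem_insert_of_ne hz hzc)).1
    intro z hz w hw hzw
    by_contra hne
    have h6 := hdis hz hw hne
    rw [Function.onFun, Set.disjoint_left] at h6
    have h7 := hmem z hz
    have h8 := hmem w hw
    simp only at hzw
    rw [← hzw] at h8
    exact h6 h7 h8

end Pool.Agent.H79.ES
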