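import Pool.Agent.H79.ES.EDf

/-!
# Module EBN: the measure `nu`: finite, linear bounds for discs and for the neighbourhoods of infinity

PROOF. `eb_ker`: private theorem `atm_ker` of H44/RR/ATM. `nu_ball'`: `‖qs‖ₑ ≤ ∑' ‖β k‖ₑ * ‖x - P k‖⁻¹`. `eb_ktail`: dyadic annuli.
`nu_tail'`: `β / (x - p) = β / x + β p / x ^ 2 + β p ^ 2 / (x ^ 2 (x - p))` and the two moments vanish.
-/

set_option autoImplicit false

open MeasureTheory Metric Set Polynomial Filter Topology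

namespace Pool.Agent.H79.ES

open Pool.Agent.H61.TT Pool.Agent.H35.EX

variable {d : ℕ} {a b : Polynomial ℂ} {P β : ℕ → ℂ}

private theorem ebn_ker_zero {δ : ℝ} (hδ : 0 < δ) :
    ∫⁻ x in ball (0 : ℂ) δ, ENNReal.ofReal (‖x‖⁻¹) ≤ ENNReal.ofReal (2 * Real.pi * δ) := by
  rw [← lintegral_indicator measurableSet_ball, ← Complex.lintegral_comp_polarCoord_symm]
  have h1 : (∫⁻ q in polarCoord.target, ENNReal.ofReal q.1 •
      (ball (0 : ℂ) δ).indicator (fun x => ENNReal.ofReal (‖x‖⁻¹)) (Complex.polarCoord.symm q)) ≤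
      ∫⁻ q in polarCoord.target, (Iio δ ×ˢ (univ : Set ℝ)).indicator 1 q := by
    refine setLIntegral_mono' polarCoord.open_target.measurableSet fun q hq => ?_
    have hq1 : 0 < q.1 := hq.1
    by_cases h : q.1 < δ
    · have hm : q ∈ Iio δ ×ˢ (univ : Set ℝ) := ⟨h, mem_univ _⟩
      have hb : Complex.polarCoord.symm q ∈ ball (0 : ℂ) δ := by
        rw [mem_ball_zero_iff, Complex.norm_polarCoord_symm, abs_of_pos hq1]
        exact h
      rw [indicator_of_mem hm, indicator_of_mem hb, Complex.norm_polarCoord_symm, abs_of_pos hq1,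
        smul_eq_mul, ← ENNReal.ofReal_mul hq1.le, mul_inv_cancel₀ hq1.ne', ENNReal.ofReal_one]
      exact le_refl _
    · have hb : Complex.polarCoord.symm q ∉ ball (0 : ℂ) δ := by
        rw [mem_ball_zero_iff, Complex.norm_polarCoord_symm, abs_of_pos hq1]
        exact h
      rw [indicator_of_notMem hb, smul_zero]
      exact bot_le
  have hms : MeasurableSet (Iio δ ×ˢ (univ : Set ℝ)) := measurableSet_Iio.prod MeasurableSet.univ
  rw [lintegral_indicator_one hms, Measure.restrict_apply hms] at h1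
  refine (h1.trans (measure_mono (t := Ioo (0 : ℝ) δ ×ˢ Ioo (-Real.pi) Real.pi) ?_)).trans ?_
  · rintro q ⟨h2, h3⟩
    exact ⟨⟨h3.1, h2.1⟩, h3.2⟩
  · rw [Measure.volume_eq_prod, Measure.prod_prod, Real.volume_Ioo, Real.volume_Ioo,
      ← ENNReal.ofReal_mul (by linarith)]
    apply le_of_eq
    congr 1
    ring

theorem eb_ker (c p : ℂ) {δ : ℝ} (hδ : 0 < δ) :
    ∫⁻ x in ball c δ, ENNReal.ofReal (‖x - p‖⁻¹) ≤ ENNReal.ofReal (3 * Real.pi * δ) := by
  have h1 : ∀ x : ℂ, ENNReal.ofReal (‖x - p‖⁻¹) ≤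
      (ball (0 : ℂ) δ).indicator (fun x => ENNReal.ofReal (‖x‖⁻¹)) (x - p) +
        ENNReal.ofReal δ⁻¹ := by
    intro x
    by_cases h : x - p ∈ ball (0 : ℂ) δ
    · rw [indicator_of_mem h]
      exact le_self_add
    · rw [indicator_of_notMem h, zero_add]
      rw [mem_ball_zero_iff, not_lt] at h
      exact ENNReal.ofReal_le_ofReal (inv_anti₀ hδ h)
  calc ∫⁻ x in ball c δ, ENNReal.ofReal (‖x - p‖⁻¹)
      ≤ ∫⁻ x in ball c δ, ((ball (0 : ℂ) δ).indicator
          (fun x => ENNReal.ofReal (‖x‖⁻¹)) (x - p) + ENNReal.ofReal δ⁻¹) :=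
        lintegral_mono fun x => h1 x
    _ = (∫⁻ x in ball c δ, (ball (0 : ℂ) δ).indicator
          (fun x => ENNReal.ofReal (‖x‖⁻¹)) (x - p)) + ∫⁻ x in ball c δ, ENNReal.ofReal δ⁻¹ :=
        lintegral_add_right _ measurable_const
    _ ≤ (∫⁻ x, (ball (0 : ℂ) δ).indicator
          (fun x => ENNReal.ofReal (‖x‖⁻¹)) (x - p)) + ENNReal.ofReal (Real.pi * δ) := by
        refine add_le_add (setLIntegral_le_lintegral _ _) ?_
        rw [setLIntegral_const, Complex.volume_ball]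
        have h2 : ((NNReal.pi : NNReal) : ENNReal) = ENNReal.ofReal Real.pi := by
          rw [← NNReal.coe_real_pi, ENNReal.ofReal_coe_nnreal]
        rw [h2, ← ENNReal.ofReal_pow hδ.le, ← ENNReal.ofReal_mul (by positivity),
          ← ENNReal.ofReal_mul (by positivity)]
        apply le_of_eq
        congr 1
        field_simp
    _ = (∫⁻ x in ball (0 : ℂ) δ, ENNReal.ofReal (‖x‖⁻¹)) + ENNReal.ofReal (Real.pi * δ) := by
        congr 1
        rw [lintegral_sub_right_eq_self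
          (fun x => (ball (0 : ℂ) δ).indicator (fun x => ENNReal.ofReal (‖x‖⁻¹)) x) p,
          lintegral_indicator measurableSet_ball]
    _ ≤ ENNReal.ofReal (2 * Real.pi * δ) + ENNReal.ofReal (Real.pi * δ) :=
        add_le_add (ebn_ker_zero hδ) le_rfl
    _ = ENNReal.ofReal (3 * Real.pi * δ) := by
        rw [← ENNReal.ofReal_add (by positivity) (by positivity)]
        congr 1
        ring

theorem eb_ktail (p : ℂ) {T : ℝ} (hT : 0 < T) :
    ∫⁻ x in {x : ℂ | T < ‖x‖}, ENNReal.ofReal ((‖x‖ ^ 2 * ‖x - p‖)⁻¹) ≤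
      ENNReal.ofReal (24 * Real.pi / T) := by
  have hcov : {x : ℂ | T < ‖x‖} ⊆ ⋃ j : ℕ, {x : ℂ | 2 ^ j * T < ‖x‖} ∩ ball 0 (2 ^ (j + 2) * T) := by
    intro x hx
    rw [mem_ofPred_eq] at hx
    obtain ⟨n, hn⟩ := pow_unbounded_of_one_lt (‖x‖ / T) (one_lt_two : (1 : ℝ) < 2)
    rw [div_lt_iff₀ hT] at hn
    have hex : ∃ n : ℕ, ‖x‖ < 2 ^ n * T := ⟨n, hn⟩
    classical
    have h1 := Nat.find_spec hex
    have h0 : Nat.find hex ≠ 0 := by
      intro h
      rw [h, pow_zero, one_mul] at h1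
      linarith
    obtain ⟨m, hm⟩ := Nat.exists_eq_succ_of_ne_zero h0
    have h2 := Nat.find_min hex (m := m) (by omega)
    rw [not_lt] at h2
    rw [hm, Nat.succ_eq_add_one, pow_succ] at h1
    rw [mem_iUnion]
    rcases eq_or_lt_of_le h2 with h3 | h3
    · cases m with
      | zero =>
        rw [pow_zero, one_mul] at h3
        linarith
      | succ m =>
        refine ⟨m, ?_, ?_⟩
        · rw [mem_ofPred_eq, ← h3, pow_succ]
          have : (0 : ℝ) < 2 ^ m * T := by positivity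
          nlinarith
        · rw [mem_ball_zero_iff, ← h3]
          have : (0 : ℝ) < 2 ^ m * T := by positivity
          rw [pow_succ, pow_add]
          nlinarith
    · refine ⟨m, h3, ?_⟩
      rw [mem_ball_zero_iff, pow_add]
      have : (0 : ℝ) < 2 ^ m * T := by positivity
      nlinarith
  have hj : ∀ j : ℕ, ∫⁻ x in {x : ℂ | 2 ^ j * T < ‖x‖} ∩ ball 0 (2 ^ (j + 2) * T),
      ENNReal.ofReal ((‖x‖ ^ 2 * ‖x - p‖)⁻¹) ≤ ENNReal.ofReal (12 * Real.pi / T * (1 / 2) ^ j) := by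
    intro j
    have hjT : (0 : ℝ) < 2 ^ j * T := by positivity
    have hm : MeasurableSet ({x : ℂ | 2 ^ j * T < ‖x‖} ∩ ball 0 (2 ^ (j + 2) * T)) :=
      (measurableSet_lt measurable_const measurable_norm).inter measurableSet_ball
    calc ∫⁻ x in {x : ℂ | 2 ^ j * T < ‖x‖} ∩ ball 0 (2 ^ (j + 2) * T),
        ENNReal.ofReal ((‖x‖ ^ 2 * ‖x - p‖)⁻¹)
        ≤ ∫⁻ x in {x : ℂ | 2 ^ j * T < ‖x‖} ∩ ball 0 (2 ^ (j + 2) * T),
            ENNReal.ofReal (((2 ^ j * T) ^ 2)⁻¹) * ENNReal.ofReal (‖x - p‖⁻¹) := by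
          refine setLIntegral_mono' hm fun x hx => ?_
          rw [← ENNReal.ofReal_mul (by positivity), mul_inv]
          apply ENNReal.ofReal_le_ofReal
          apply mul_le_mul_of_nonneg_right _ (by positivity)
          exact inv_anti₀ (by positivity) (pow_le_pow_left₀ hjT.le hx.1.le 2)
      _ ≤ ∫⁻ x in ball (0 : ℂ) (2 ^ (j + 2) * T),
            ENNReal.ofReal (((2 ^ j * T) ^ 2)⁻¹) * ENNReal.ofReal (‖x - p‖⁻¹) :=
          lintegral_mono_set inter_subset_right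
      _ = ENNReal.ofReal (((2 ^ j * T) ^ 2)⁻¹) * ∫⁻ x in ball (0 : ℂ) (2 ^ (j + 2) * T),
            ENNReal.ofReal (‖x - p‖⁻¹) := lintegral_const_mul' _ _ ENNReal.ofReal_ne_top
      _ ≤ ENNReal.ofReal (((2 ^ j * T) ^ 2)⁻¹) *
            ENNReal.ofReal (3 * Real.pi * (2 ^ (j + 2) * T)) := by
          gcongr
          exact eb_ker 0 p (by positivity)
      _ = ENNReal.ofReal (12 * Real.pi / T * (1 / 2) ^ j) := by
          rw [← ENNReal.ofReal_mul (by positivity)]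
          congr 1
          rw [pow_add, one_div, inv_pow]
          field_simp
          ring
  calc ∫⁻ x in {x : ℂ | T < ‖x‖}, ENNReal.ofReal ((‖x‖ ^ 2 * ‖x - p‖)⁻¹)
      ≤ ∫⁻ x in ⋃ j : ℕ, {x : ℂ | 2 ^ j * T < ‖x‖} ∩ ball 0 (2 ^ (j + 2) * T),
          ENNReal.ofReal ((‖x‖ ^ 2 * ‖x - p‖)⁻¹) := lintegral_mono_set hcov
    _ ≤ ∑' j : ℕ, ∫⁻ x in {x : ℂ | 2 ^ j * T < ‖x‖} ∩ ball 0 (2 ^ (j + 2) * T),
          ENNReal.ofReal ((‖x‖ ^ 2 * ‖x - p‖)⁻¹) := lintegral_iUnion_le _ _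
    _ ≤ ∑' j : ℕ, ENNReal.ofReal (12 * Real.pi / T * (1 / 2) ^ j) := ENNReal.tsum_le_tsum hj
    _ = ENNReal.ofReal (24 * Real.pi / T) := by
        rw [← ENNReal.ofReal_tsum_of_nonneg (fun j => by positivity)
          (summable_geometric_two.mul_left _), tsum_mul_left, tsum_geometric_two]
        congr 1
        ring

theorem eb_B (h : PS d a b P β) : Summable fun k => ‖β k‖ := by
  refine Summable.of_nonneg_of_le (fun k => norm_nonneg _) (fun k => ?_) h.wt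
  nlinarith [norm_nonneg (β k), mul_nonneg (norm_nonneg (β k)) (sq_nonneg ‖P k‖)]

theorem eb_P (h : PS d a b P β) : Summable fun k => β k * P k := by
  refine Summable.of_norm_bounded h.wt (fun k => ?_)
  rw [norm_mul]
  refine mul_le_mul_of_nonneg_left ?_ (norm_nonneg _)
  nlinarith [sq_nonneg (‖P k‖ - 1)]

theorem eb_PP (h : PS d a b P β) : Summable fun k => ‖β k‖ * ‖P k‖ ^ 2 := by
  refine Summable.of_nonneg_of_le (fun k => by positivity) (fun k => ?_) h.wt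
  nlinarith [norm_nonneg (β k), mul_nonneg (norm_nonneg (β k)) (sq_nonneg ‖P k‖)]

theorem eb_fin (h : PS d a b P β) : ∫⁻ x : ℂ, ‖qs β P x‖ₑ ≠ ⊤ :=
  Pool.Agent.H91.CS.qs_fin' h.wt h.s0 h.s1

theorem eb_ball' (hβ : Summable fun k => ‖β k‖) (x : ℂ) {s : ℝ} (hs : 0 < s) :
    ∫⁻ y in ball x s, ‖qs β P y‖ₑ ≤
      ENNReal.ofReal ((∑' k, ‖β k‖) * (3 * Real.pi) * s) := by
  have hm : ∀ k, Measurable fun x : ℂ => ‖β k / (x - P k)‖ₑ := fun k =>
    (measurable_const.div (measurable_id.sub_const (P k))).enorm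
  calc ∫⁻ y in ball x s, ‖qs β P y‖ₑ ≤ ∫⁻ y in ball x s, ∑' k, ‖β k / (y - P k)‖ₑ :=
        lintegral_mono fun y => enorm_tsum_le_tsum_enorm
    _ = ∑' k, ∫⁻ y in ball x s, ‖β k / (y - P k)‖ₑ := lintegral_tsum fun k => (hm k).aemeasurable
    _ ≤ ∑' k, ENNReal.ofReal (‖β k‖ * (3 * Real.pi * s)) := by
        refine ENNReal.tsum_le_tsum fun k => ?_
        have h2 : ∀ y : ℂ, ‖β k / (y - P k)‖ₑ =
            ENNReal.ofReal ‖β k‖ * ENNReal.ofReal (‖y - P k‖⁻¹) := by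
          intro y
          rw [← ofReal_norm, norm_div, div_eq_mul_inv, ENNReal.ofReal_mul (norm_nonneg _)]
        simp_rw [h2]
        rw [lintegral_const_mul' _ _ ENNReal.ofReal_ne_top, ENNReal.ofReal_mul (norm_nonneg _)]
        gcongr
        exact eb_ker x (P k) hs
    _ = ENNReal.ofReal ((∑' k, ‖β k‖) * (3 * Real.pi) * s) := by
        rw [← ENNReal.ofReal_tsum_of_nonneg (fun k => by positivity) (hβ.mul_right _),
          tsum_mul_right]
        congr 1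
        ring

theorem eb_ball (h : PS d a b P β) (x : ℂ) {s : ℝ} (hs : 0 < s) :
    ∫⁻ y in ball x s, ‖qs β P y‖ₑ ≤
      ENNReal.ofReal ((∑' k, ‖β k‖) * (3 * Real.pi) * s) := eb_ball' (eb_B h) x hs

private theorem ebn_alg (β p x : ℂ) (h0 : x ≠ 0) (hp : x ≠ p) :
    β * p ^ 2 / (x ^ 2 * (x - p)) = β / (x - p) - (β * x⁻¹ + β * p * (x ^ 2)⁻¹) := by
  have e2 : x - p ≠ 0 := sub_ne_zero.2 hp
  field_simp
  ring

theorem eb_tail (h : PS d a b P β) {T : ℝ} (hT : 0 < T) :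
    ∫⁻ y in {x : ℂ | T < ‖x‖}, ‖qs β P y‖ₑ ≤
      ENNReal.ofReal ((∑' k, ‖β k‖ * ‖P k‖ ^ 2) * (24 * Real.pi) / T) := by
  have hcount : ∀ᵐ x : ℂ, ∀ k, x ≠ P k := by
    rw [ae_all_iff]
    intro k
    exact compl_mem_ae_iff.2 (measure_singleton (P k))
  have hz : ∀ᵐ x : ℂ, x ≠ 0 := compl_mem_ae_iff.2 (measure_singleton (0 : ℂ))
  have hle : ∀ᵐ x : ℂ, ‖qs β P x‖ₑ ≤ ∑' k, ‖β k * P k ^ 2 / (x ^ 2 * (x - P k))‖ₑ := by
    filter_upwards [hcount, hz, ae_sum (p := P) (eb_B h)] with x hx hx0 hxs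
    have h2 : ∑' k, β k * P k ^ 2 / (x ^ 2 * (x - P k)) = qs β P x := by
      have h3 : ∀ k, β k * P k ^ 2 / (x ^ 2 * (x - P k)) =
          β k / (x - P k) - (β k * x⁻¹ + β k * P k * (x ^ 2)⁻¹) :=
        fun k => ebn_alg _ _ _ hx0 (hx k)
      simp_rw [h3]
      have s1 : Summable fun k => β k * x⁻¹ := (eb_B h).of_norm.mul_right _
      have s2 : Summable fun k => β k * P k * (x ^ 2)⁻¹ := (eb_P h).mul_right _
      rw [Summable.tsum_sub hxs (s1.add s2), Summable.tsum_add s1 s2, tsum_mul_right,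
        tsum_mul_right, h.s0, h.s1]
      simp [qs]
    rw [← h2]
    exact enorm_tsum_le_tsum_enorm
  have hm : ∀ k, Measurable fun x : ℂ => ‖β k * P k ^ 2 / (x ^ 2 * (x - P k))‖ₑ := by
    intro k
    have h2 : Measurable fun x : ℂ => x ^ 2 * (x - P k) :=
      (measurable_id.pow_const 2).mul (measurable_id.sub_const (P k))
    exact (measurable_const.div h2).enorm
  calc ∫⁻ y in {x : ℂ | T < ‖x‖}, ‖qs β P y‖ₑ
      ≤ ∫⁻ y in {x : ℂ | T < ‖x‖}, ∑' k, ‖β k * P k ^ 2 / (y ^ 2 * (y - P k))‖ₑ :=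
        lintegral_mono_ae (ae_restrict_of_ae hle)
    _ = ∑' k, ∫⁻ y in {x : ℂ | T < ‖x‖}, ‖β k * P k ^ 2 / (y ^ 2 * (y - P k))‖ₑ :=
        lintegral_tsum fun k => (hm k).aemeasurable
    _ ≤ ∑' k, ENNReal.ofReal (‖β k‖ * ‖P k‖ ^ 2 * (24 * Real.pi / T)) := by
        refine ENNReal.tsum_le_tsum fun k => ?_
        have h2 : ∀ y : ℂ, ‖β k * P k ^ 2 / (y ^ 2 * (y - P k))‖ₑ =
            ENNReal.ofReal (‖β k‖ * ‖P k‖ ^ 2) * ENNReal.ofReal ((‖y‖ ^ 2 * ‖y - P k‖)⁻¹) := by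
          intro y
          rw [← ofReal_norm, norm_div, div_eq_mul_inv, ENNReal.ofReal_mul (norm_nonneg _), norm_mul,
            norm_pow, norm_mul, norm_pow]
        simp_rw [h2]
        rw [lintegral_const_mul' _ _ ENNReal.ofReal_ne_top,
          ENNReal.ofReal_mul (p := ‖β k‖ * ‖P k‖ ^ 2) (by positivity)]
        exact mul_le_mul' le_rfl (eb_ktail (P k) hT)
    _ = ENNReal.ofReal ((∑' k, ‖β k‖ * ‖P k‖ ^ 2) * (24 * Real.pi) / T) := by
        rw [← ENNReal.ofReal_tsum_of_nonneg (fun k => by positivity) ((eb_PP h).mul_right _),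
          tsum_mul_right]
        congr 1
        ring

end Pool.Agent.H79.ES
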