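import Pool.Agent.H35.EX.SerM
import Pool.Agent.H91.CS.TINT
import Pool.Agent.H91.CS.TEQ
import Pool.Agent.H44.RR.AL2

/-!
# THEOREM E (one summable critical point): definitions

`qs β P x = ∑' k, β k / (x - P k)` (H35/EX/SerD). `PS d a b P β`: this sum of simple poles (infinitely many, distinct, nonzero residues) is
integrable and fixed by the push forward of `gg a b = a / b`. `PO d a b P β σ`: the poles are mapped to poles, `P 0` is a first one.
`nu β P`: the invariant measure `|qs| dx dy`; `rh` the weights, `qs x = rh x * dg x ^ 2 * qs (gg x)` almost everywhere.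
`Uni`: a univalent branch of the inverse of the `n`-th iterate. `RH`: on the open set `U` `qs` is real times holomorphic.
`CrS v0 c`: in a chart, `c` is a critical point with summable value, the orbit is in the plane (it may be unbounded).
-/

set_option autoImplicit false

open MeasureTheory Metric Set Polynomial Filter Topology

namespace Pool.Agent.H79.ES

open Pool.Agent.H44.Fatou Pool.Agent.H32.BT Pool.Agent.H79.Eul Pool.Agent.H79.Par Pool.Agent.H61.TT
open Pool.Agent.H35.EX

/-- a sum of infinitely many simple poles, integrable and fixed by the push forward -/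
structure PS (d : ℕ) (a b : Polynomial ℂ) (P β : ℕ → ℂ) : Prop where
  rat : RatD d a b
  inj : Function.Injective P
  ne : ∀ k, β k ≠ 0
  wt : Summable fun k => ‖β k‖ * (1 + ‖P k‖ ^ 2)
  s0 : ∑' k, β k = 0
  s1 : ∑' k, β k * P k = 0
  push : ∀ᵐ x : ℂ, qs β P x = ∑ y ∈ fs a b x, qs β P y / Pool.Agent.H61.TT.dg a b y ^ 2

/-- the poles are permuted forward (`σ`), `P 0` has no pole above it, and the residues are transported, up to finitely
many exceptions. (One summable critical value: `σ = succ`.) -/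
structure PO (d : ℕ) (a b : Polynomial ℂ) (P β : ℕ → ℂ) (σ : ℕ → ℕ) : Prop where
  bb : ∀ k, b.eval (P k) ≠ 0
  orb : ∀ k, gg a b (P k) = P (σ k)
  hB : ∀ᶠ k in atTop, β (σ k) * Pool.Agent.H61.TT.dg a b (P k) = β k
  hreg : ∀ k, (fib a b (P k)).natDegree = d
  hσ : Function.Injective σ
  h0 : ∀ k, σ k ≠ 0

/-- the invariant measure -/
noncomputable def nu (β P : ℕ → ℂ) : Measure ℂ := volume.withDensity fun x => ‖qs β P x‖ₑ

/-- the weights -/
noncomputable def rh (a b : Polynomial ℂ) (β P : ℕ → ℂ) (x : ℂ) : ℝ :=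
  ‖qs β P x‖ / (‖Pool.Agent.H61.TT.dg a b x‖ ^ 2 * ‖qs β P (gg a b x)‖)

/-- a univalent branch `g` of the inverse of the `n`-th iterate, on the ball of radius `δ` about the `n`-th point of
the orbit of `z`, with `g` of this point equal to `z` -/
structure Uni (a b : Polynomial ℂ) (δ : ℝ) (n : ℕ) (z : ℂ) (g : ℂ → ℂ) : Prop where
  diff : DifferentiableOn ℂ g (ball ((gg a b)^[n] z) δ)
  cen : g ((gg a b)^[n] z) = z
  den : ∀ w ∈ ball ((gg a b)^[n] z) δ, ∀ j < n, b.eval ((gg a b)^[j] (g w)) ≠ 0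
  inv : ∀ w ∈ ball ((gg a b)^[n] z) δ, (gg a b)^[n] (g w) = w

/-- `q` is real times holomorphic without zeros on `U`, almost everywhere not zero -/
def RH (q : ℂ → ℂ) (U : Set ℂ) : Prop :=
  ∃ H : ℂ → ℂ, DifferentiableOn ℂ H U ∧ (∀ z ∈ U, H z ≠ 0) ∧
    ∀ᵐ z : ℂ, z ∈ U → ∃ r : ℝ, r ≠ 0 ∧ q z = r * H z

/-- a critical point with summable value, in a chart: the orbit is in the plane, possibly unbounded -/
structure CrS {d : ℕ} (v0 : E d) (c : ℂ) : Prop where
  crit : wv v0 c = 0
  den : ∀ k, ev v0.2 (it v0 k c) ≠ 0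
  tr : ∀ k, trD v0 k (it v0 1 c) ≠ 0
  sm : Summable fun k => (1 + ‖it v0 (k + 1) c‖ ^ 2) / ‖trD v0 k (it v0 1 c)‖
  reg : ∀ k, (fib (pol v0.1) (pol v0.2) (it v0 (k + 1) c)).natDegree = d

/-- moreover `α ↦ c`, `γ ↦ α` in the plane, and all critical points are in the plane and no poles -/
structure Ch {d : ℕ} (v0 : E d) (c α γ : ℂ) : Prop where
  cr : CrS v0 c
  a1 : ev v0.2 α ≠ 0
  a2 : it v0 1 α = c
  g1 : ev v0.2 γ ≠ 0
  g2 : it v0 1 γ = α
  rc : (fib (pol v0.1) (pol v0.2) c).natDegree = d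
  ra : (fib (pol v0.1) (pol v0.2) α).natDegree = d
  ni : ¬ IsCrit (rat (pol v0.1) (pol v0.2)) OnePoint.infty
  cb : ∀ x, (ww (pol v0.1) (pol v0.2)).eval x = 0 → (pol v0.2).eval x ≠ 0

end Pool.Agent.H79.ES
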