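import Pool.Agent.H44.RR.CHT
import Pool.Agent.H44.RG.BLP
import Pool.Agent.H79.ES.EDf

/-!
# Module NCT: charts avoiding a countable set

PROOF. As `chart_ex` (H44/RR/CHT): `s : ℂ` with `(s : OnePoint ℂ) ∉ S` exists because `S` is countable (`countable_coe`, the complement of a countable set is dense); `φ` from `exists_mob s`; the conjugation with `chartNull_pol1`, `chartNull_pol2`; `chord_bilip` for the last claim. `lin_inv`: as `lin_linv` (the same linear equivalence: `LinearEquiv.ofInjectiveEndo`, `apply_symm_apply`).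
-/

set_option autoImplicit false

open Filter Topology Polynomial Metric Set

namespace Pool.Agent.H79.ES

open Pool.Agent.H44.Fatou Pool.Agent.H32.BT Pool.Agent.H79.Eul Pool.Agent.H79.Par Pool.Agent.H35.EX
open Pool.Agent.H44.RG Pool.Agent.H44.RR

variable {d : ℕ}

theorem chart_av (S : Set (OnePoint ℂ)) (hS : S.Countable) (hd : 2 ≤ d) :
    ∃ (s : ℂ) (φ : OnePoint ℂ ≃ₜ OnePoint ℂ) (L : ℝ), (s : OnePoint ℂ) ∉ S ∧ φ s = OnePoint.infty ∧
      (∀ v : E d, IsCoprime (pol v.1) (pol v.2) →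
        max (pol v.1).natDegree (pol v.2).natDegree = d →
        IsCoprime (pol (Lin s v).1) (pol (Lin s v).2) ∧
        max (pol (Lin s v).1).natDegree (pol (Lin s v).2).natDegree = d ∧
        ∀ x, Rf (Lin s v) (φ x) = φ (Rf v x)) ∧
      1 ≤ L ∧ ∀ x y, chord (φ x) (φ y) ≤ L * chord x y ∧ chord x y ≤ L * chord (φ x) (φ y) := by
  have hbad : {b : ℂ | (b : OnePoint ℂ) ∈ S}.Countable := countable_coe hS
  obtain ⟨s, hsS⟩ := (hbad.dense_compl ℂ).nonempty
  obtain ⟨φ, hφ1, hφs, hφi, hφ⟩ := exists_mob s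
  have hall : ∀ v : E d, IsCoprime (pol v.1) (pol v.2) →
      max (pol v.1).natDegree (pol v.2).natDegree = d →
      IsCoprime (pol (Lin s v).1) (pol (Lin s v).2) ∧
      max (pol (Lin s v).1).natDegree (pol (Lin s v).2).natDegree = d ∧
      ∀ x, Rf (Lin s v) (φ x) = φ (Rf v x) := by
    intro v hc he
    obtain ⟨h1, h2, h3⟩ := hφ d _ _ hc he (by omega)
    unfold Rf
    rw [chartNull_pol1, chartNull_pol2]
    exact ⟨h1, h2, h3⟩
  obtain ⟨L, hL, hL2⟩ := chord_bilip hφs hφ1 hφi
  exact ⟨s, φ, L, hsS, hφs, hall, hL, hL2⟩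

theorem lin_inv (s : ℂ) (d : ℕ) : ∃ G : E d → E d, Continuous G ∧ Continuous (Lin s : E d → E d) ∧
    (∀ v, G (Lin s v) = v) ∧ ∀ v, Lin s (G v) = v := by
  let g : E d →ₗ[ℂ] E d :=
    { toFun := Lin s
      map_add' := lin_add s
      map_smul' := fun c v => by rw [lin_smul, RingHom.id_apply] }
  have hg : Function.Injective g := lin_inj s
  let e := LinearEquiv.ofInjectiveEndo g hg
  have he : ∀ v, e v = Lin s v := fun v => rfl
  refine ⟨e.symm, LinearMap.continuous_of_finiteDimensional e.symm.toLinearMap,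
    LinearMap.continuous_of_finiteDimensional g, fun v => ?_, fun v => ?_⟩
  · rw [← he]
    exact e.symm_apply_apply v
  · rw [← he]
    exact e.apply_symm_apply v

end Pool.Agent.H79.ES
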