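import Pool.Agent.H79.ES.NTR
import Pool.Agent.H79.ES.NCT
import Pool.Agent.H32.BT.Stable

/-!
# Module NSA: summable values are not attracted

PROOF. Suppose `c` is attracted: a sink `z` of `Rf v0`, `n` (`Att`, `IsSink`). Chart of `chart_av` for the countable set `S` = orbit of `c` and orbit of `z` (both countable, ranges of sequences). So (`att_conj`, `isSink_conj`, H32/BT/Top, `summ_conj`, `iter_conj`) for `v1 = Lin s v0`, `f = Rf v1`, `c1 = φ c` finite (`c ≠ s`), `z1 = φ z` finite: all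
`f^[j] c1` are finite, `IsSink f z1 n`, `Tendsto (fun k => f^[n * k] c1) atTop (𝓝 z1)`, `Summ f (f c1)` with numbers `a k`. `tr_low`: `a k ≤ (1 + ‖x‖ ^ 2) * ‖trD v1 k x‖`, `x = it v1 1 c1`, and `a k → ∞` (`1 / a k → 0`), so `‖trD v1 k x‖ → ∞`. (1) If some point of the sphere is not attracted, `sink_stable` with `N = {w | ‖w - z1‖ < 1}`
(image of the ball in the sphere): `V ∈ 𝓝 z1` with `f^[n * k] w ∈ N` for all `w ∈ V`, all `k`. There is such a point: not all points of the sphere are attracted (search `exists` `¬ Att` in H32/BT: Julia sets are not empty; else use `sink_of_mult` (H32/BT/TrapSink) with `sink_mult_fin` (H79/Par/SinkMult) as in H79/Par/AttGood, which needs no such point: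
all `f^[n * k] w`, `w ∈ ball z1 r`, stay in `ball z1 1`). (2) The points `u k = it v1 (n * k) c1 → z1` (plane). Take `K ≥ 1` with `ball (u K) δ ⊆ V` (plane). For every `k` `it v1 (n * k)` is differentiable on `ball (u K) δ` (all `f^[j] w`, `j ≤ n * k`, are finite for `w` in a smaller ball? To be safe use the homogeneous `perRS`, H79/Par/PerFin: `f^[n * k] w = pt (R w) (S w)`
with polynomials, values in the ball of radius 1 around `z1`, so `S w ≠ 0` and `R / S` is holomorphic on `ball (u K) δ` with values in `ball z1 1`, and equal to `it v1 (n * k)` near `u K`, `orb_near`, `rat_it`), so `‖trD v1 (n * k) (u K)‖ ≤ 2 / δ`-like bound (Cauchy: `Complex.norm_deriv_le_of_forall_mem_sphere_norm_le` applied to `R / S - z1` on the sphere of radius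
`δ / 2`; `tr_hasDerivAt`). (3) `trD v1 (n * k + m) x = trD v1 (n * k) (it v1 m x) * trD v1 m x` with `m = n * K - 1` (`it v1 m x = it v1 (n * K) c1 = u K`; compare `MNEAR_trD`, H91/CS/MNEAR) is bounded in `k`: a contradiction.
-/

set_option autoImplicit false

open Filter Topology Polynomial Metric Set

namespace Pool.Agent.H79.ES

open Pool.Agent.H44.Fatou Pool.Agent.H32.BT Pool.Agent.H79.Eul Pool.Agent.H79.Par Pool.Agent.H35.EX
open Pool.Agent.H44.RG Pool.Agent.H44.RR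

variable {d : ℕ}

private theorem nsa_core {v : E d} (hd : 2 ≤ d) (hcop : IsCoprime (pol v.1) (pol v.2))
    (hdeg : max (pol v.1).natDegree (pol v.2).natDegree = d) {c z : ℂ} {n : ℕ}
    (hz : IsSink (Rf v) (z : OnePoint ℂ) n)
    (hlim : Tendsto (fun k => (Rf v)^[n * k] (c : OnePoint ℂ)) atTop (𝓝 (z : OnePoint ℂ)))
    (hc : ∀ j, (Rf v)^[j] (c : OnePoint ℂ) ≠ OnePoint.infty)
    (hzf : ∀ j, (Rf v)^[j] (z : OnePoint ℂ) ≠ OnePoint.infty)
    (hs : Summ (Rf v) (Rf v (c : OnePoint ℂ))) : False := by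
  have hf : Continuous (Rf v) := rat_continuous hcop
  have hn : 0 < n := hz.1
  have hdd : 2 ≤ max (pol v.1).natDegree (pol v.2).natDegree := by omega
  have hN1 : ({w : OnePoint ℂ | ∀ j ∈ Finset.range n, (Rf v)^[j] w ≠ OnePoint.infty} ∩
      ((↑) : ℂ → OnePoint ℂ) '' ball z 1) ∈ 𝓝 (z : OnePoint ℂ) := by
    refine Filter.inter_mem ?_ ?_
    · have h1 : ∀ᶠ w in 𝓝 (z : OnePoint ℂ), ∀ j ∈ Finset.range n,
          (Rf v)^[j] w ≠ OnePoint.infty := by
        rw [Filter.eventually_all_finset]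
        intro j _
        exact (hf.iterate j).continuousAt.eventually_ne (hzf j)
      exact h1
    · exact (OnePoint.isOpenMap_coe _ isOpen_ball).mem_nhds ⟨z, mem_ball_self one_pos, rfl⟩
  obtain ⟨V, hV, hVN⟩ := sink_stable hcop (by omega) (exists_not_att hcop hdd) hz _ hN1
  obtain ⟨V', hV'V, hV'o, hzV'⟩ := mem_nhds_iff.1 hV
  have hWo : IsOpen {w : ℂ | (w : OnePoint ℂ) ∈ V'} := hV'o.preimage OnePoint.continuous_coe
  have hWfin : ∀ w : ℂ, (w : OnePoint ℂ) ∈ V' → ∀ j,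
      (Rf v)^[j] (w : OnePoint ℂ) ≠ OnePoint.infty := by
    intro w hw j
    have h1 := (hVN _ (hV'V hw) (j / n)).1 (j % n) (Finset.mem_range.2 (Nat.mod_lt j hn))
    have h2 : j % n + n * (j / n) = j := Nat.mod_add_div j n
    have h3 : (Rf v)^[j % n + n * (j / n)] (w : OnePoint ℂ) ≠ OnePoint.infty := by
      rw [Function.iterate_add_apply]
      exact h1
    rwa [h2] at h3
  obtain ⟨K, hK, hK1⟩ :=
    ((hlim.eventually (hV'o.mem_nhds hzV')).and (eventually_ge_atTop 1)).exists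
  obtain ⟨u, hu⟩ : ∃ u, u = it v (n * K) c := ⟨_, rfl⟩
  have huV : (u : OnePoint ℂ) ∈ V' := by
    rw [hu, ← (orb_all hc).2]
    exact hK
  obtain ⟨δ, hδ, hδW⟩ := Metric.nhds_basis_closedBall.mem_iff.1 (hWo.mem_nhds huV)
  have hder : ∀ k, ∀ w ∈ closedBall u δ, HasDerivAt (fun x => it v (n * k) x) (trD v (n * k) w) w := by
    intro k w hw
    have h1 := (orb_all (hWfin w (hδW hw))).1 (n * k)
    exact tr_hasDerivAt v w (n * k) fun i hi => (h1 i hi).1
  have hval : ∀ k, ∀ w ∈ closedBall u δ, ‖it v (n * k) w‖ ≤ ‖z‖ + 1 := by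
    intro k w hw
    obtain ⟨y, hy, hyw⟩ := (hVN _ (hV'V (hδW hw)) k).2
    have h1 : y = it v (n * k) w :=
      OnePoint.coe_injective (hyw.trans ((orb_all (hWfin w (hδW hw))).2 (n * k)))
    rw [← h1]
    rw [mem_ball, dist_eq_norm] at hy
    calc ‖y‖ = ‖z + (y - z)‖ := by congr 1; ring
      _ ≤ ‖z‖ + ‖y - z‖ := norm_add_le _ _
      _ ≤ ‖z‖ + 1 := by linarith
  have hbd : ∀ k, ‖trD v (n * k) u‖ ≤ (‖z‖ + 1) / δ := by
    intro k
    have h1 : DiffContOnCl ℂ (fun x => it v (n * k) x) (ball u δ) := by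
      refine DifferentiableOn.diffContOnCl ?_
      rw [closure_ball u hδ.ne']
      exact fun w hw => (hder k w hw).differentiableAt.differentiableWithinAt
    have h2 := Complex.norm_deriv_le_of_forall_mem_sphere_norm_le hδ h1
      (fun w hw => hval k w (sphere_subset_closedBall hw))
    rwa [(hder k u (mem_closedBall_self hδ.le)).deriv] at h2
  obtain ⟨a, ha, hsum, hev⟩ := hs
  obtain ⟨m, hm⟩ : ∃ m, m + 1 = n * K :=
    ⟨n * K - 1, Nat.sub_add_cancel (Nat.mul_pos hn (by omega))⟩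
  have hmu : it v m (it v 1 c) = u := by
    rw [← it_add, hm, hu]
  obtain ⟨B, hB⟩ : ∃ B, B = (1 + ‖it v 1 c‖ ^ 2) * ((‖z‖ + 1) / δ * ‖trD v m (it v 1 c)‖) + 1 :=
    ⟨_, rfl⟩
  have hB0 : 0 < B := by
    rw [hB]
    positivity
  have haB : ∀ k, a (m + n * k) ≤ B := by
    intro k
    have h1 := tr_low hc hev (m + n * k)
    rw [trD_add, hmu, norm_mul] at h1
    have h2 : a (m + n * k) ≤ a (m + n * k) * (1 + ‖it v (m + n * k + 1) c‖ ^ 2) := by
      have h3 := (ha (m + n * k)).le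
      have h4 := sq_nonneg ‖it v (m + n * k + 1) c‖
      nlinarith
    have h5 : (1 + ‖it v 1 c‖ ^ 2) * (‖trD v (n * k) u‖ * ‖trD v m (it v 1 c)‖) ≤
        (1 + ‖it v 1 c‖ ^ 2) * ((‖z‖ + 1) / δ * ‖trD v m (it v 1 c)‖) := by
      gcongr
      exact hbd k
    rw [hB]
    linarith
  have h1 : Tendsto (fun k => 1 / a (m + n * k)) atTop (𝓝 0) := by
    have h2 := hsum.tendsto_atTop_zero
    refine h2.comp (f := fun k : ℕ => m + n * k) ?_
    refine tendsto_atTop_mono (fun k => ?_) tendsto_id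
    show k ≤ m + n * k
    have := Nat.le_mul_of_pos_left k hn
    omega
  have h3 : (1 : ℝ) / B ≤ 0 := by
    refine ge_of_tendsto' h1 fun k => ?_
    exact one_div_le_one_div_of_le (ha _) (haB k)
  have h4 : (0 : ℝ) < 1 / B := by positivity
  linarith

theorem not_att {v0 : E d} (hd : 2 ≤ d) (hcop : IsCoprime (pol v0.1) (pol v0.2))
    (hdeg : max (pol v0.1).natDegree (pol v0.2).natDegree = d) {c : OnePoint ℂ}
    (hs : Summ (Rf v0) (Rf v0 c)) : ¬ Att (Rf v0) c := by
  rintro ⟨z, n, hz, hlim⟩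
  have hS : (Set.range (fun j => (Rf v0)^[j] c) ∪ Set.range (fun j => (Rf v0)^[j] z)).Countable :=
    (Set.countable_range _).union (Set.countable_range _)
  obtain ⟨s, φ, L, hns, hφs, hφ, hL, hbl⟩ := chart_av (d := d) _ hS hd
  obtain ⟨hcop1, hdeg1, hconj⟩ := hφ v0 hcop hdeg
  have hfinc : ∀ j, (Rf (Lin s v0))^[j] (φ c) ≠ OnePoint.infty := by
    intro j h0
    rw [iter_conj φ hconj, ← hφs] at h0
    exact hns (Or.inl ⟨j, φ.injective h0⟩)
  have hfinz : ∀ j, (Rf (Lin s v0))^[j] (φ z) ≠ OnePoint.infty := by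
    intro j h0
    rw [iter_conj φ hconj, ← hφs] at h0
    exact hns (Or.inr ⟨j, φ.injective h0⟩)
  obtain ⟨c1, hc1⟩ : ∃ c1 : ℂ, (c1 : OnePoint ℂ) = φ c := OnePoint.ne_infty_iff_exists.1 (hfinc 0)
  obtain ⟨z1, hz1⟩ : ∃ z1 : ℂ, (z1 : OnePoint ℂ) = φ z := OnePoint.ne_infty_iff_exists.1 (hfinz 0)
  have hsum := summ_conj hL hbl hconj hs
  rw [← hconj] at hsum
  rw [← hc1] at hsum hfinc
  rw [← hz1] at hfinz
  refine nsa_core hd hcop1 hdeg1 (z := z1) (n := n) ?_ ?_ hfinc hfinz hsum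
  · rw [hz1]
    exact (isSink_conj φ hconj z n).2 hz
  · rw [hc1, hz1]
    have h2 := (φ.continuous.tendsto z).comp hlim
    refine h2.congr fun k => ?_
    rw [iter_conj φ hconj]
    rfl

end Pool.Agent.H79.ES
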