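import Pool.Agent.H79.ES.EDf
import Pool.Agent.H79.Par.PerFin

/-!
# Module MRS: homogeneous iterates along a curve of maps

PROOF. `R t = (perRS (pol (x t).1) (pol (x t).2) n).1.eval c`, `S t` the second (H79/Par/PerFin); the last two claims are `perRS_spec`. Differentiability by induction on `n`: `dg (pol (x t).1) (pol (x t).2) = d` on the ball, so (unfold `perRS`, `eval_finset_sum`) `R_(n+1) t = ∑ i ∈ range (d + 1), (pol (x t).1).coeff i * R_n t ^ i * S_n t ^ (d - i)` on the ball
(`DifferentiableOn.congr`), and the coefficients `(pol (x t).1).coeff i = (x t).1 i` (for `i : Fin (d + 1)`; `cf_pol`, `cf`) are differentiable (coordinates of `x`).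
-/

set_option autoImplicit false

open Filter Topology Polynomial Metric Set

namespace Pool.Agent.H79.ES

open Pool.Agent.H44.Fatou Pool.Agent.H32.BT Pool.Agent.H79.Eul Pool.Agent.H79.Par Pool.Agent.H61.TT
open Pool.Agent.H35.EX

variable {d : ℕ} {v0 : E d} {c α γ : ℂ}

theorem hom_curve {x : ℂ → E d} {r : ℝ} (hx : DifferentiableOn ℂ x (ball 0 r))
    (hcop : ∀ t ∈ ball (0 : ℂ) r, IsCoprime (pol (x t).1) (pol (x t).2) ∧
      max (pol (x t).1).natDegree (pol (x t).2).natDegree = d) (c : ℂ) (n : ℕ) :
    ∃ R S : ℂ → ℂ, DifferentiableOn ℂ R (ball 0 r) ∧ DifferentiableOn ℂ S (ball 0 r) ∧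
      ∀ t ∈ ball (0 : ℂ) r, (R t ≠ 0 ∨ S t ≠ 0) ∧ (Rf (x t))^[n] (c : OnePoint ℂ) = pt (R t) (S t) := by
  have hdg : ∀ t ∈ ball (0 : ℂ) r, Pool.Agent.H44.Fatou.dg (pol (x t).1) (pol (x t).2) = d := fun t ht => (hcop t ht).2
  have hc1 : ∀ i : ℕ, DifferentiableOn ℂ (fun t => (pol (x t).1).coeff i) (ball 0 r) := by
    intro i
    by_cases hi : i < d + 1
    · have h1 : (fun t => (pol (x t).1).coeff i) = fun t => (x t).1 ⟨i, hi⟩ := by
        funext t
        exact pol_coeff (x t).1 ⟨i, hi⟩
      rw [h1]
      exact (differentiableOn_pi.1 hx.fst) ⟨i, hi⟩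
    · have h1 : (fun t => (pol (x t).1).coeff i) = fun _ => 0 := by
        funext t
        rw [pol_coeff', dif_neg hi]
      rw [h1]
      exact differentiableOn_const _
  have hc2 : ∀ i : ℕ, DifferentiableOn ℂ (fun t => (pol (x t).2).coeff i) (ball 0 r) := by
    intro i
    by_cases hi : i < d + 1
    · have h1 : (fun t => (pol (x t).2).coeff i) = fun t => (x t).2 ⟨i, hi⟩ := by
        funext t
        exact pol_coeff (x t).2 ⟨i, hi⟩
      rw [h1]
      exact (differentiableOn_pi.1 hx.snd) ⟨i, hi⟩
    · have h1 : (fun t => (pol (x t).2).coeff i) = fun _ => 0 := by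
        funext t
        rw [pol_coeff', dif_neg hi]
      rw [h1]
      exact differentiableOn_const _
  have key : ∀ n : ℕ,
      DifferentiableOn ℂ (fun t => (perRS (pol (x t).1) (pol (x t).2) n).1.eval c) (ball 0 r) ∧
      DifferentiableOn ℂ (fun t => (perRS (pol (x t).1) (pol (x t).2) n).2.eval c) (ball 0 r) := by
    intro n
    induction n with
    | zero =>
      constructor
      · have h1 : (fun t => (perRS (pol (x t).1) (pol (x t).2) 0).1.eval c) = fun _ => c := by
          funext t
          show (X : Polynomial ℂ).eval c = c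
          simp
        rw [h1]
        exact differentiableOn_const _
      · have h1 : (fun t => (perRS (pol (x t).1) (pol (x t).2) 0).2.eval c) = fun _ => 1 := by
          funext t
          show (1 : Polynomial ℂ).eval c = 1
          simp
        rw [h1]
        exact differentiableOn_const _
    | succ n ih =>
      obtain ⟨ih1, ih2⟩ := ih
      constructor
      · have h1 : DifferentiableOn ℂ (fun t => ∑ i ∈ Finset.range (d + 1),
            (pol (x t).1).coeff i * (perRS (pol (x t).1) (pol (x t).2) n).1.eval c ^ i *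
              (perRS (pol (x t).1) (pol (x t).2) n).2.eval c ^ (d - i)) (ball 0 r) := by
          apply DifferentiableOn.fun_sum
          intro i _
          exact ((hc1 i).mul (ih1.pow i)).mul (ih2.pow (d - i))
        refine h1.congr fun t ht => ?_
        show (∑ i ∈ Finset.range (Pool.Agent.H44.Fatou.dg (pol (x t).1) (pol (x t).2) + 1),
          C ((pol (x t).1).coeff i) * (perRS (pol (x t).1) (pol (x t).2) n).1 ^ i *
            (perRS (pol (x t).1) (pol (x t).2) n).2 ^
              (Pool.Agent.H44.Fatou.dg (pol (x t).1) (pol (x t).2) - i)).eval c = _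
        rw [hdg t ht, eval_finset_sum]
        refine Finset.sum_congr rfl fun i _ => ?_
        rw [eval_mul, eval_mul, eval_C, eval_pow, eval_pow]
      · have h1 : DifferentiableOn ℂ (fun t => ∑ i ∈ Finset.range (d + 1),
            (pol (x t).2).coeff i * (perRS (pol (x t).1) (pol (x t).2) n).1.eval c ^ i *
              (perRS (pol (x t).1) (pol (x t).2) n).2.eval c ^ (d - i)) (ball 0 r) := by
          apply DifferentiableOn.fun_sum
          intro i _
          exact ((hc2 i).mul (ih1.pow i)).mul (ih2.pow (d - i))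
        refine h1.congr fun t ht => ?_
        show (∑ i ∈ Finset.range (Pool.Agent.H44.Fatou.dg (pol (x t).1) (pol (x t).2) + 1),
          C ((pol (x t).2).coeff i) * (perRS (pol (x t).1) (pol (x t).2) n).1 ^ i *
            (perRS (pol (x t).1) (pol (x t).2) n).2 ^
              (Pool.Agent.H44.Fatou.dg (pol (x t).1) (pol (x t).2) - i)).eval c = _
        rw [hdg t ht, eval_finset_sum]
        refine Finset.sum_congr rfl fun i _ => ?_
        rw [eval_mul, eval_mul, eval_C, eval_pow, eval_pow]
  exact ⟨_, _, (key n).1, (key n).2, fun t ht => perRS_spec (hcop t ht).1 c n⟩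

end Pool.Agent.H79.ES
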