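import Pool.Agent.H79.ES.CDf
import Pool.Agent.H44.RR.ATM

/-!
# Chapter EC, module CAA: the mass near a point

PROOF. `atm` (H44/RR/ATM) for the sequence `p` with `p (k + 1) = P k` (`p = fun n => P (n - 1)`; `qq p β = qs β P` by definition) and `B = β` (summable: `h.wt`, `‖β k‖ ≤ ‖β k‖ * (1 + ‖P k‖ ^ 2)`).
`Rs p β x = 0` if `x` is no `P k` (all terms are `0`), and `Rs p β (P k) = β k` as `P` is injective (`tsum_eq_single`). `(∫ ..) / ofReal s → 0` in `ENNReal`: eventually `≤ ofReal ε`, multiply by `ofReal s`.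
-/

set_option autoImplicit false

open MeasureTheory Metric Set Polynomial Filter Topology

namespace Pool.Agent.H79.ES

open Pool.Agent.H61.TT Pool.Agent.H35.EX

variable {d : ℕ} {a b : Polynomial ℂ} {P β : ℕ → ℂ} {σ : ℕ → ℕ}

private theorem ca_sum (h : PS d a b P β) : Summable fun k => ‖β k‖ := by
  refine Summable.of_nonneg_of_le (fun k => norm_nonneg _) (fun k => ?_) h.wt
  have h1 : (1 : ℝ) ≤ 1 + ‖P k‖ ^ 2 := by
    have := sq_nonneg ‖P k‖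
    linarith
  exact le_mul_of_one_le_right (norm_nonneg _) h1

private theorem ca_lim {f : ℝ → ENNReal}
    (hf : Tendsto (fun s => f s / ENNReal.ofReal s) (𝓝[>] 0) (𝓝 0)) {ε : ℝ} (hε : 0 < ε) :
    ∀ᶠ s : ℝ in 𝓝[>] 0, f s ≤ ENNReal.ofReal (ε * s) := by
  have h1 : ∀ᶠ s : ℝ in 𝓝[>] 0, f s / ENNReal.ofReal s < ENNReal.ofReal ε :=
    hf.eventually (gt_mem_nhds (ENNReal.ofReal_pos.2 hε))
  filter_upwards [h1, self_mem_nhdsWithin] with s hs hs0
  have hs1 : 0 < s := hs0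
  have h2 := (ENNReal.div_le_iff (ENNReal.ofReal_pos.2 hs1).ne' ENNReal.ofReal_ne_top).1 hs.le
  rw [ENNReal.ofReal_mul hε.le]
  exact h2

private theorem ca_gen (h : PS d a b P β) (x : ℂ) :
    Tendsto (fun δ : ℝ => (∫⁻ z in ball x δ,
      ‖qs β P z - Pool.Agent.H44.RR.Rs (fun n => P (n - 1)) β x / (z - x)‖ₑ) / ENNReal.ofReal δ)
      (𝓝[>] 0) (𝓝 0) :=
  Pool.Agent.H44.RR.atm (p := fun n => P (n - 1)) (ca_sum h) x

theorem ca0 (h : PS d a b P β) {x : ℂ} (hx : ∀ k, P k ≠ x) {ε : ℝ} (hε : 0 < ε) :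
    ∀ᶠ s : ℝ in 𝓝[>] 0, ∫⁻ z in ball x s, ‖qs β P z‖ₑ ≤ ENNReal.ofReal (ε * s) := by
  have hR : Pool.Agent.H44.RR.Rs (fun n => P (n - 1)) β x = 0 := by
    unfold Pool.Agent.H44.RR.Rs
    refine (tsum_congr fun k => ?_).trans (tsum_zero (α := ℂ) (β := ℕ))
    exact if_neg (hx k)
  have h1 := ca_gen h x
  rw [hR] at h1
  simp only [zero_div, sub_zero] at h1
  exact ca_lim h1 hε

theorem ca1 (h : PS d a b P β) (k : ℕ) {ε : ℝ} (hε : 0 < ε) :
    ∀ᶠ s : ℝ in 𝓝[>] 0, ∫⁻ z in ball (P k) s, ‖qs β P z - β k / (z - P k)‖ₑ ≤ ENNReal.ofReal (ε * s) := by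
  have hR : Pool.Agent.H44.RR.Rs (fun n => P (n - 1)) β (P k) = β k := by
    unfold Pool.Agent.H44.RR.Rs
    rw [tsum_eq_single k]
    · exact if_pos rfl
    · intro j hj
      exact if_neg fun he => hj (h.inj he)
  have h1 := ca_gen h (P k)
  rw [hR] at h1
  exact ca_lim h1 hε

end Pool.Agent.H79.ES
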