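import Pool.Agent.H79.ES.CDf

/-!
# Chapter EC, module CCO: the preimage of a small disc is near the fibre

PROOF. `F = fib a b v = a - v b` has degree `d` and `natDegree b ≤ d`. Let `K = (⋃ y ∈ fs a b v, ball y (r y))ᶜ`, closed. On `K` `F` has no zero. `‖F.eval x‖ ≥ c1 ‖x‖^d` and `‖b.eval x‖ ≤ c2 ‖x‖^d` for `‖x‖ ≥ R` (leading coefficients; `Polynomial.tendsto_norm_atTop`, `isEquivalent_atTop_lead`, or
`Polynomial.isBigO_of_degree_le`), and on the compact set `K ∩ closedBall 0 R` `‖F.eval x‖ ≥ c3 > 0`, `‖b.eval x‖ ≤ c4`. So `‖gg a b x - v‖ = ‖F.eval x‖ / ‖b.eval x‖ ≥ δ` for `x ∈ K`, `b.eval x ≠ 0`. (If `K ∩ closedBall` is empty any `c3` will do. Alternatively: by contradiction with a sequence `x_n ∈ K`,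
`gg a b (x_n) → v`: bounded subsequence or `x_n → ∞`, `gg a b x_n → a_d / b_d ≠ v` (or `∞`).)
-/

set_option autoImplicit false

open MeasureTheory Metric Set Polynomial Filter Topology

namespace Pool.Agent.H79.ES

open Pool.Agent.H61.TT Pool.Agent.H35.EX

variable {d : ℕ} {a b : Polynomial ℂ} {P β : ℕ → ℂ} {σ : ℕ → ℕ}

private theorem cco_up (b : Polynomial ℂ) {d : ℕ} (hb : b.natDegree ≤ d) :
    ∃ C : ℝ, 0 < C ∧ ∀ x : ℂ, ‖b.eval x‖ ≤ C * (1 + ‖x‖) ^ d := by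
  refine ⟨(∑ i ∈ Finset.range (d + 1), ‖b.coeff i‖) + 1, ?_, fun x => ?_⟩
  · have : 0 ≤ ∑ i ∈ Finset.range (d + 1), ‖b.coeff i‖ := Finset.sum_nonneg fun i _ => norm_nonneg _
    linarith
  · have hx : 1 ≤ 1 + ‖x‖ := by
      have := norm_nonneg x
      linarith
    rw [eval_eq_sum_range' (Nat.lt_succ_of_le hb)]
    refine (norm_sum_le _ _).trans ?_
    rw [add_mul, Finset.sum_mul]
    have h1 : ∑ i ∈ Finset.range (d + 1), ‖b.coeff i * x ^ i‖ ≤
        ∑ i ∈ Finset.range (d + 1), ‖b.coeff i‖ * (1 + ‖x‖) ^ d := by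
      refine Finset.sum_le_sum fun i hi => ?_
      rw [norm_mul, norm_pow]
      refine mul_le_mul_of_nonneg_left ?_ (norm_nonneg _)
      refine (pow_le_pow_left₀ (norm_nonneg _) (by linarith) i).trans
        (pow_le_pow_right₀ hx ?_)
      have := Finset.mem_range.1 hi
      omega
    have h2 : 0 ≤ 1 * (1 + ‖x‖) ^ d := by positivity
    linarith

private theorem cco_ms (s : Multiset ℂ) (x : ℂ) {c : ℝ} (hc : 0 ≤ c)
    (h : ∀ y ∈ s, c ≤ ‖x - y‖) : c ^ s.card ≤ ‖(s.map fun y => x - y).prod‖ := by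
  induction s using Multiset.induction_on with
  | empty => simp
  | cons y s ih =>
    rw [Multiset.card_cons, Multiset.map_cons, Multiset.prod_cons, norm_mul, pow_succ']
    exact mul_le_mul (h y (Multiset.mem_cons_self y s))
      (ih fun z hz => h z (Multiset.mem_cons_of_mem hz)) (pow_nonneg hc _) (norm_nonneg _)

theorem cco (h : RatD d a b) {v : ℂ} (hreg : (fib a b v).natDegree = d) {r : ℂ → ℝ} (hr : ∀ y ∈ fs a b v, 0 < r y) :
    ∃ δ : ℝ, 0 < δ ∧ pre a b (ball v δ) ⊆ ⋃ y ∈ fs a b v, ball y (r y) := by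
  classical
  have hbd : b.natDegree ≤ d := by
    rw [← h.deg]
    exact le_max_right _ _
  obtain ⟨C, hC, hup⟩ := cco_up b hbd
  have hF0 : fib a b v ≠ 0 := by
    intro h0
    rw [h0, natDegree_zero] at hreg
    have := h.hd
    omega
  have hsp : (fib a b v).Splits := IsAlgClosed.splits _
  have hcard : (fib a b v).roots.card = d := by rw [← hreg]; exact hsp.natDegree_eq_card_roots.symm
  have hne : (fs a b v).Nonempty := by
    rw [Finset.nonempty_iff_ne_empty]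
    intro h0
    unfold fs at h0
    rw [Multiset.toFinset_eq_empty] at h0
    rw [h0, Multiset.card_zero] at hcard
    have := h.hd
    omega
  obtain ⟨r0, hr0, hr0'⟩ : ∃ r0 : ℝ, 0 < r0 ∧ ∀ y ∈ fs a b v, r0 ≤ r y := by
    refine ⟨(fs a b v).inf' hne r, ?_, fun y hy => Finset.inf'_le _ hy⟩
    rw [Finset.lt_inf'_iff]
    exact hr
  obtain ⟨M, hM, hM'⟩ : ∃ M : ℝ, 0 ≤ M ∧ ∀ y ∈ fs a b v, ‖y‖ ≤ M := by
    refine ⟨∑ y ∈ fs a b v, ‖y‖, Finset.sum_nonneg fun i _ => norm_nonneg _, fun y hy => ?_⟩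
    exact Finset.single_le_sum (f := fun y : ℂ => ‖y‖) (fun i _ => norm_nonneg _) hy
  obtain ⟨c, hc⟩ : ∃ c : ℝ, c = ((1 + M) / r0 + 1)⁻¹ := ⟨_, rfl⟩
  have hc0 : 0 < c := by rw [hc]; positivity
  have hL : 0 < ‖(fib a b v).leadingCoeff‖ := norm_pos_iff.2 (leadingCoeff_ne_zero.2 hF0)
  refine ⟨‖(fib a b v).leadingCoeff‖ * c ^ d / C, by positivity, ?_⟩
  rintro x ⟨hbx, hx⟩
  by_contra hcon
  rw [mem_iUnion₂] at hcon
  push Not at hcon
  have hfar : ∀ y ∈ fs a b v, c * (1 + ‖x‖) ≤ ‖x - y‖ := by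
    intro y hy
    have h1 : r0 ≤ ‖x - y‖ := by
      have h2 := hcon y hy
      rw [mem_ball_iff_norm, not_lt] at h2
      exact (hr0' y hy).trans h2
    have h3 : 1 + ‖x‖ ≤ ((1 + M) / r0 + 1) * ‖x - y‖ := by
      have h4 : ‖x‖ ≤ ‖x - y‖ + ‖y‖ := by
        have := norm_add_le (x - y) y
        rwa [sub_add_cancel] at this
      have h5 := hM' y hy
      have h6 : 1 + M ≤ (1 + M) / r0 * ‖x - y‖ := by
        rw [div_mul_eq_mul_div, le_div_iff₀ hr0]
        exact mul_le_mul_of_nonneg_left h1 (by linarith)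
      have h7 : ((1 + M) / r0 + 1) * ‖x - y‖ = (1 + M) / r0 * ‖x - y‖ + ‖x - y‖ := by ring
      linarith
    rw [hc, inv_mul_le_iff₀ (by positivity)]
    exact h3
  have hlow : ‖(fib a b v).leadingCoeff‖ * (c * (1 + ‖x‖)) ^ d ≤ ‖(fib a b v).eval x‖ := by
    rw [hsp.eval_eq_prod_roots, norm_mul, ← hcard]
    refine mul_le_mul_of_nonneg_left ?_ (norm_nonneg _)
    refine cco_ms _ x (by positivity) fun y hy => hfar y ?_
    unfold fs
    rw [Multiset.mem_toFinset]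
    exact hy
  have hval : ‖(fib a b v).eval x‖ = ‖gg a b x - v‖ * ‖b.eval x‖ := by
    rw [← norm_mul]
    congr 1
    unfold fib gg
    rw [eval_sub, eval_mul, eval_C, sub_mul, div_mul_cancel₀ _ hbx]
  rw [mem_ball_iff_norm] at hx
  have hb0 : 0 < ‖b.eval x‖ := norm_pos_iff.2 hbx
  have h8 : ‖gg a b x - v‖ * ‖b.eval x‖ <
      ‖(fib a b v).leadingCoeff‖ * c ^ d / C * ‖b.eval x‖ := mul_lt_mul_of_pos_right hx hb0
  have h9 : ‖(fib a b v).leadingCoeff‖ * c ^ d / C * ‖b.eval x‖ ≤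
      ‖(fib a b v).leadingCoeff‖ * c ^ d / C * (C * (1 + ‖x‖) ^ d) :=
    mul_le_mul_of_nonneg_left (hup x) (by positivity)
  have h10 : ‖(fib a b v).leadingCoeff‖ * c ^ d / C * (C * (1 + ‖x‖) ^ d) =
      ‖(fib a b v).leadingCoeff‖ * (c * (1 + ‖x‖)) ^ d := by
    rw [mul_pow]
    field_simp
  rw [hval] at hlow
  linarith

end Pool.Agent.H79.ES
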