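import Pool.Agent.H79.ES.CDf

/-!
# Chapter EC, module CDI: a holomorphic function close to `ρ g (z - c')^k` with `ρ ∈ {0, 1}` is close to `0` or to `g (z - c')^k`

PROOF. `G z = g (z - c')^k`, `g0 = ‖g‖ > 0`, `ρ` the factor. (1) `∫_(ball c' t) ‖F‖ ≤ ε t^(k + 2) + g0 t^k π t^2`, so by the mean value inequality (`‖F x‖ ≤ (π r^2)⁻¹ ∫_(ball x r) ‖F‖`, `r = t / 2`; area mean value: compare H44/RR/MN1 or prove it from `Complex.circleAverage`/`circleIntegral` or
from `AnalyticOnNhd` mean value property by polar coordinates, see the library) `‖F x‖ ≤ M t^k` for `‖x - c'‖ ≤ t / 2`, `M = 4 (1 + π g0) / π` if `ε ≤ 1`. (2) `F (F - G) = (F - ρ G)(F - G) + ρ G (F - ρ G)` as `ρ^2 = ρ`, so on `ball c' (t / 2)` `‖F (F - G)‖ ≤ (M + 2 g0) t^k ‖F - ρ G‖`,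
and again by the mean value inequality (`r = t / 4`) `‖F x (F x - G x)‖ ≤ δ^2 t^(2 k)` for `‖x - c'‖ ≤ t / 4`, `δ^2 = 16 (M + 2 g0) ε / π`. Choose `ε` with `δ ≤ η` and `2 δ < g0 8^(-k)`. (3) On the circle `‖x - c'‖ = t / 8`: `‖G x‖ = g0 (t / 8)^k`; `‖F x‖ ≤ δ t^k` or
`‖F x - G x‖ ≤ δ t^k`, not both. Both conditions are closed, the circle is preconnected (`isPreconnected_sphere`, real dimension 2: `Complex.rank_real_complex`), so one of them holds on the whole circle, and on the closed disc by the maximum principle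
(`Complex.norm_le_of_forall_mem_frontier_norm_le`, `frontier_ball`/`frontier_closedBall`).
-/

set_option autoImplicit false

open MeasureTheory Metric Set Polynomial Filter Topology

namespace Pool.Agent.H79.ES

open Pool.Agent.H61.TT Pool.Agent.H35.EX

/-- Area mean value inequality. -/
private theorem cdi_amv {F : ℂ → ℂ} {x : ℂ} {r : ℝ} (hF : DifferentiableOn ℂ F (ball x r)) :
    volume (ball (0 : ℂ) r) * ‖F x‖ₑ ≤ ∫⁻ z in ball x r, ‖F z‖ₑ := by
  obtain ⟨G, hG⟩ : ∃ G : ℂ → ENNReal, G = (ball (0 : ℂ) r).indicator (fun w => ‖F (x + w)‖ₑ) :=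
    ⟨_, rfl⟩
  have hsub : ∀ w ∈ ball (0 : ℂ) r, x + w ∈ ball x r := by
    intro w hw
    rw [mem_ball_zero_iff] at hw
    rw [mem_ball, dist_eq_norm, add_sub_cancel_left]
    exact hw
  have hcont : ContinuousOn (fun w => F (x + w)) (ball (0 : ℂ) r) :=
    hF.continuousOn.comp (by fun_prop) hsub
  have hGm : Measurable G := by
    have h1 : ContinuousOn (fun w => ‖F (x + w)‖ₑ) (ball (0 : ℂ) r) := hcont.enorm
    classical
    have h2 : G = (ball (0 : ℂ) r).piecewise (fun w => ‖F (x + w)‖ₑ) (fun _ => 0) := by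
      rw [hG]
      exact (Set.piecewise_eq_indicator).symm
    rw [h2]
    exact h1.measurable_piecewise continuousOn_const measurableSet_ball
  have hI : ∫⁻ z in ball x r, ‖F z‖ₑ = ∫⁻ w, G w := by
    rw [← lintegral_indicator measurableSet_ball,
      ← lintegral_add_left_eq_self (μ := (volume : Measure ℂ))
        ((ball x r).indicator fun z => ‖F z‖ₑ) x]
    refine lintegral_congr fun w => ?_
    rw [hG]
    by_cases h : w ∈ ball (0 : ℂ) r
    · rw [indicator_of_mem (hsub w h), indicator_of_mem h]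
    · have h' : x + w ∉ ball x r := by
        intro h1
        apply h
        rw [mem_ball, dist_eq_norm, add_sub_cancel_left] at h1
        rwa [mem_ball_zero_iff]
      rw [indicator_of_notMem h', indicator_of_notMem h]
  have hrot : ∀ θ : ℝ, ∫⁻ w, G (Complex.exp (θ * Complex.I) * w) = ∫⁻ w, G w := by
    intro θ
    have hom : ‖Complex.exp (θ * Complex.I)‖ = 1 := Complex.norm_exp_ofReal_mul_I θ
    have h1 : MeasurePreserving (fun w : ℂ => Complex.exp (θ * Complex.I) * w) volume volume := by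
      let a : Circle := ⟨Complex.exp (θ * Complex.I), mem_sphere_zero_iff_norm.mpr hom⟩
      exact (rotation a).measurePreserving
    exact h1.lintegral_comp hGm
  have hpt : ∀ w ∈ ball (0 : ℂ) r, ENNReal.ofReal (2 * Real.pi) * ‖F x‖ₑ ≤
      ∫⁻ θ in Ioc 0 (2 * Real.pi), G (Complex.exp ((θ : ℝ) * Complex.I) * w) := by
    intro w hw
    rw [mem_ball_zero_iff] at hw
    have habs : |‖w‖| = ‖w‖ := abs_of_nonneg (norm_nonneg w)
    have hcl : DiffContOnCl ℂ F (ball x |‖w‖|) := by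
      rw [habs]
      refine (hF.mono ?_).diffContOnCl
      refine closure_ball_subset_closedBall.trans ?_
      exact closedBall_subset_ball hw
    have h1 : Real.circleAverage F x ‖w‖ = F x := hcl.circleAverage
    rw [Real.circleAverage_eq_integral_add (Complex.arg w)] at h1
    have h2 : (∫ θ in (0 : ℝ)..2 * Real.pi, F (circleMap x ‖w‖ (θ + Complex.arg w))) =
        (2 * Real.pi) • F x := by
      rw [← h1, smul_smul, mul_inv_cancel₀ (by positivity), one_smul]
    have h3 : ∀ θ : ℝ, circleMap x ‖w‖ (θ + Complex.arg w) = x + Complex.exp (θ * Complex.I) * w := by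
      intro θ
      rw [circleMap]
      congr 1
      have h4 : (w : ℂ) = ‖w‖ * Complex.exp (Complex.arg w * Complex.I) :=
        (Complex.norm_mul_exp_arg_mul_I w).symm
      conv_rhs => rw [h4]
      push_cast
      rw [add_mul, Complex.exp_add]
      ring
    have h5 : ∀ θ : ℝ, G (Complex.exp (θ * Complex.I) * w) =
        ‖F (circleMap x ‖w‖ (θ + Complex.arg w))‖ₑ := by
      intro θ
      rw [h3, hG, indicator_of_mem]
      rw [mem_ball_zero_iff, norm_mul, Complex.norm_exp_ofReal_mul_I, one_mul]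
      exact hw
    calc ENNReal.ofReal (2 * Real.pi) * ‖F x‖ₑ = ‖(2 * Real.pi) • F x‖ₑ := by
          rw [enorm_smul, Real.enorm_eq_ofReal (by positivity)]
      _ = ‖∫ θ in (0 : ℝ)..2 * Real.pi, F (circleMap x ‖w‖ (θ + Complex.arg w))‖ₑ := by rw [h2]
      _ = ‖∫ θ in Ioc 0 (2 * Real.pi), F (circleMap x ‖w‖ (θ + Complex.arg w))‖ₑ := by
          rw [intervalIntegral.integral_of_le (by positivity)]
      _ ≤ ∫⁻ θ in Ioc 0 (2 * Real.pi), ‖F (circleMap x ‖w‖ (θ + Complex.arg w))‖ₑ :=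
          enorm_integral_le_lintegral_enorm _
      _ = _ := by
          refine lintegral_congr fun θ => ?_
          rw [h5]
  have hmeas : Measurable (Function.uncurry fun (θ : ℝ) (w : ℂ) =>
      G (Complex.exp ((θ : ℝ) * Complex.I) * w)) := by
    refine hGm.comp ?_
    have : Continuous (fun q : ℝ × ℂ => Complex.exp ((q.1 : ℝ) * Complex.I) * q.2) := by fun_prop
    exact this.measurable
  have hpi : (0 : ℝ) < 2 * Real.pi := by positivity
  have hfub : ENNReal.ofReal (2 * Real.pi) * ∫⁻ w, G w =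
      ∫⁻ w, ∫⁻ θ in Ioc 0 (2 * Real.pi), G (Complex.exp ((θ : ℝ) * Complex.I) * w) := by
    rw [← lintegral_lintegral_swap hmeas.aemeasurable]
    simp only [hrot]
    rw [lintegral_const, Measure.restrict_apply_univ, Real.volume_Ioc, sub_zero, mul_comm]
  have hkey : ENNReal.ofReal (2 * Real.pi) * (volume (ball (0 : ℂ) r) * ‖F x‖ₑ) ≤
      ENNReal.ofReal (2 * Real.pi) * ∫⁻ w, G w := by
    rw [hfub]
    calc ENNReal.ofReal (2 * Real.pi) * (volume (ball (0 : ℂ) r) * ‖F x‖ₑ)
        = ∫⁻ _w in ball (0 : ℂ) r, ENNReal.ofReal (2 * Real.pi) * ‖F x‖ₑ := by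
          rw [lintegral_const, Measure.restrict_apply_univ]
          ring
      _ ≤ ∫⁻ w in ball (0 : ℂ) r, ∫⁻ θ in Ioc 0 (2 * Real.pi),
            G (Complex.exp ((θ : ℝ) * Complex.I) * w) :=
          setLIntegral_mono' measurableSet_ball hpt
      _ ≤ _ := setLIntegral_le_lintegral _ _
  rw [hI]
  exact (ENNReal.mul_le_mul_iff_right (by simpa using hpi) ENNReal.ofReal_ne_top).mp hkey

private theorem cdi_pt {F : ℂ → ℂ} {x : ℂ} {r K : ℝ} (hr : 0 < r) (hF : DifferentiableOn ℂ F (ball x r))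
    (hK : 0 ≤ K) (h : ∫⁻ z in ball x r, ‖F z‖ₑ ≤ ENNReal.ofReal (Real.pi * r ^ 2 * K)) :
    ‖F x‖ ≤ K := by
  have h1 := (cdi_amv hF).trans h
  rw [Complex.volume_ball] at h1
  have h2 : ENNReal.ofReal r ^ 2 * (NNReal.pi : ENNReal) = ENNReal.ofReal (Real.pi * r ^ 2) := by
    rw [mul_comm Real.pi, ENNReal.ofReal_mul (by positivity), ENNReal.ofReal_pow hr.le]
    congr 1
    rw [← NNReal.coe_real_pi, ENNReal.ofReal_coe_nnreal]
  have hp : (0 : ℝ) < Real.pi * r ^ 2 := by positivity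
  rw [h2, show ENNReal.ofReal (Real.pi * r ^ 2 * K) = ENNReal.ofReal (Real.pi * r ^ 2) *
    ENNReal.ofReal K from ENNReal.ofReal_mul hp.le] at h1
  have h3 := (ENNReal.mul_le_mul_iff_right (by simpa using hp) ENNReal.ofReal_ne_top).mp h1
  rw [← ofReal_norm] at h3
  exact (ENNReal.ofReal_le_ofReal_iff hK).mp h3

theorem cdi {g : ℂ} (hg : g ≠ 0) (k : ℕ) {η : ℝ} (hη : 0 < η) : ∃ ε : ℝ, 0 < ε ∧
    ∀ (c' : ℂ) (t : ℝ), 0 < t → ∀ F ρ : ℂ → ℂ, DifferentiableOn ℂ F (ball c' t) → (∀ x, ρ x = 0 ∨ ρ x = 1) →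
      ∫⁻ x in ball c' t, ‖F x - ρ x * (g * (x - c') ^ k)‖ₑ ≤ ENNReal.ofReal (ε * t ^ (k + 2)) →
      (∀ x ∈ closedBall c' (t / 8), ‖F x‖ ≤ η * t ^ k) ∨
        ∀ x ∈ closedBall c' (t / 8), ‖F x - g * (x - c') ^ k‖ ≤ η * t ^ k := by
  have hg0 : 0 < ‖g‖ := norm_pos_iff.mpr hg
  have hpi := Real.pi_pos
  obtain ⟨M, hM⟩ : ∃ M : ℝ, M = 4 * (1 + Real.pi * ‖g‖) / Real.pi := ⟨_, rfl⟩
  have hM0 : 0 < M := by rw [hM]; positivity
  obtain ⟨K, hK⟩ : ∃ K : ℝ, K = 16 * (M + 2 * ‖g‖) / Real.pi := ⟨_, rfl⟩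
  have hK0 : 0 < K := by rw [hK]; positivity
  obtain ⟨δ, hδ⟩ : ∃ δ : ℝ, δ = min η (‖g‖ * (1 / 8) ^ k / 4) := ⟨_, rfl⟩
  have hδ0 : 0 < δ := by rw [hδ]; positivity
  have hδη : δ ≤ η := by rw [hδ]; exact min_le_left _ _
  have hδg : 4 * δ ≤ ‖g‖ * (1 / 8) ^ k := by
    have : δ ≤ ‖g‖ * (1 / 8) ^ k / 4 := by rw [hδ]; exact min_le_right _ _
    linarith
  refine ⟨min 1 (δ ^ 2 / K), by positivity, ?_⟩
  intro c' t ht F ρ hF hρ hint
  obtain ⟨ε, hε⟩ : ∃ ε : ℝ, ε = min 1 (δ ^ 2 / K) := ⟨_, rfl⟩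
  rw [← hε] at hint
  have hε0 : 0 < ε := by rw [hε]; positivity
  have hε1 : ε ≤ 1 := by rw [hε]; exact min_le_left _ _
  have hεK : K * ε ≤ δ ^ 2 := by
    have : ε ≤ δ ^ 2 / K := by rw [hε]; exact min_le_right _ _
    rwa [le_div_iff₀ hK0, mul_comm] at this
  have htk : 0 < t ^ k := pow_pos ht k
  have hG : ∀ x ∈ ball c' t, ‖g * (x - c') ^ k‖ ≤ ‖g‖ * t ^ k := by
    intro x hx
    rw [mem_ball, dist_eq_norm] at hx
    rw [norm_mul, norm_pow]
    gcongr
  have hρn : ∀ x, ‖ρ x‖ ≤ 1 := by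
    intro x
    rcases hρ x with h | h <;> rw [h] <;> simp
  have hGd : Differentiable ℂ (fun x : ℂ => g * (x - c') ^ k) := by fun_prop
  -- (1)
  have hF1 : ∀ x ∈ closedBall c' (t / 2), ‖F x‖ ≤ M * t ^ k := by
    intro x hx
    rw [mem_closedBall, dist_eq_norm] at hx
    have hsub : ball x (t / 2) ⊆ ball c' t := by
      refine ball_subset_ball' ?_
      rw [dist_eq_norm]
      linarith
    refine cdi_pt (r := t / 2) (by positivity) (hF.mono hsub) (by positivity) ?_
    calc ∫⁻ z in ball x (t / 2), ‖F z‖ₑ ≤ ∫⁻ z in ball c' t, ‖F z‖ₑ :=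
          lintegral_mono_set hsub
      _ ≤ ∫⁻ z in ball c' t, (‖F z - ρ z * (g * (z - c') ^ k)‖ₑ + ENNReal.ofReal (‖g‖ * t ^ k)) := by
          refine setLIntegral_mono' measurableSet_ball fun z hz => ?_
          have h1 : F z = (F z - ρ z * (g * (z - c') ^ k)) + ρ z * (g * (z - c') ^ k) := by ring
          calc ‖F z‖ₑ = ‖(F z - ρ z * (g * (z - c') ^ k)) + ρ z * (g * (z - c') ^ k)‖ₑ := by
                rw [← h1]
            _ ≤ ‖F z - ρ z * (g * (z - c') ^ k)‖ₑ + ‖ρ z * (g * (z - c') ^ k)‖ₑ :=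
                enorm_add_le _ _
            _ ≤ _ := by
                gcongr
                rw [← ofReal_norm, norm_mul]
                refine ENNReal.ofReal_le_ofReal ?_
                calc ‖ρ z‖ * ‖g * (z - c') ^ k‖ ≤ 1 * (‖g‖ * t ^ k) := by
                      gcongr
                      · exact hρn z
                      · exact hG z hz
                  _ = _ := one_mul _
      _ = (∫⁻ z in ball c' t, ‖F z - ρ z * (g * (z - c') ^ k)‖ₑ) +
            ENNReal.ofReal (‖g‖ * t ^ k) * volume (ball c' t) := by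
          rw [lintegral_add_right _ measurable_const, lintegral_const, Measure.restrict_apply_univ]
      _ ≤ ENNReal.ofReal (ε * t ^ (k + 2)) +
            ENNReal.ofReal (‖g‖ * t ^ k) * ENNReal.ofReal (Real.pi * t ^ 2) := by
          refine add_le_add hint (le_of_eq ?_)
          congr 1
          rw [Complex.volume_ball, mul_comm Real.pi, ENNReal.ofReal_mul (by positivity),
            ENNReal.ofReal_pow ht.le]
          congr 1
          rw [← NNReal.coe_real_pi, ENNReal.ofReal_coe_nnreal]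
      _ = ENNReal.ofReal (ε * t ^ (k + 2) + ‖g‖ * t ^ k * (Real.pi * t ^ 2)) := by
          rw [← ENNReal.ofReal_mul (by positivity), ← ENNReal.ofReal_add (by positivity) (by positivity)]
      _ ≤ _ := by
          refine ENNReal.ofReal_le_ofReal ?_
          have h2 : Real.pi * (t / 2) ^ 2 * (M * t ^ k) = (1 + Real.pi * ‖g‖) * t ^ (k + 2) := by
            rw [hM]
            field_simp
            ring
          rw [h2]
          have h3 : ε * t ^ (k + 2) ≤ 1 * t ^ (k + 2) := by gcongr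
          have h4 : ‖g‖ * t ^ k * (Real.pi * t ^ 2) = Real.pi * ‖g‖ * t ^ (k + 2) := by ring
          rw [h4]
          linarith
  -- (2)
  have hF2 : ∀ x ∈ closedBall c' (t / 4), ‖F x * (F x - g * (x - c') ^ k)‖ ≤ δ ^ 2 * t ^ (2 * k) := by
    intro x hx
    rw [mem_closedBall, dist_eq_norm] at hx
    have hsub : ball x (t / 4) ⊆ ball c' (t / 2) := by
      refine ball_subset_ball' ?_
      rw [dist_eq_norm]
      linarith
    have hsub2 : ball c' (t / 2) ⊆ ball c' t := ball_subset_ball (by linarith)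
    have hd : DifferentiableOn ℂ (fun x => F x * (F x - g * (x - c') ^ k)) (ball x (t / 4)) := by
      have h1 : DifferentiableOn ℂ F (ball x (t / 4)) := hF.mono (hsub.trans hsub2)
      exact h1.mul (h1.sub hGd.differentiableOn)
    refine cdi_pt (F := fun x => F x * (F x - g * (x - c') ^ k)) (r := t / 4) (by positivity) hd
      (by positivity) ?_
    calc ∫⁻ z in ball x (t / 4), ‖F z * (F z - g * (z - c') ^ k)‖ₑ
        ≤ ∫⁻ z in ball c' (t / 2), ‖F z * (F z - g * (z - c') ^ k)‖ₑ := lintegral_mono_set hsub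
      _ ≤ ∫⁻ z in ball c' (t / 2), ENNReal.ofReal ((M + 2 * ‖g‖) * t ^ k) *
            ‖F z - ρ z * (g * (z - c') ^ k)‖ₑ := by
          refine setLIntegral_mono' measurableSet_ball fun z hz => ?_
          have hz1 := hF1 z (ball_subset_closedBall hz)
          have hz2 := hG z (hsub2 hz)
          have h1 : F z * (F z - g * (z - c') ^ k) =
              (F z - ρ z * (g * (z - c') ^ k)) *
                ((F z - g * (z - c') ^ k) + ρ z * (g * (z - c') ^ k)) := by
            rcases hρ z with h | h <;> rw [h] <;> ring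
          rw [h1, ← ofReal_norm, ← ofReal_norm, norm_mul, ← ENNReal.ofReal_mul (by positivity)]
          refine ENNReal.ofReal_le_ofReal ?_
          rw [mul_comm]
          refine mul_le_mul_of_nonneg_right ?_ (norm_nonneg _)
          calc ‖(F z - g * (z - c') ^ k) + ρ z * (g * (z - c') ^ k)‖
              ≤ ‖F z - g * (z - c') ^ k‖ + ‖ρ z * (g * (z - c') ^ k)‖ := norm_add_le _ _
            _ ≤ (‖F z‖ + ‖g * (z - c') ^ k‖) + ‖ρ z‖ * ‖g * (z - c') ^ k‖ := by
                rw [norm_mul (ρ z)]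
                gcongr
                exact norm_sub_le _ _
            _ ≤ (M * t ^ k + ‖g‖ * t ^ k) + 1 * (‖g‖ * t ^ k) := by
                gcongr
                exact hρn z
            _ = _ := by ring
      _ = ENNReal.ofReal ((M + 2 * ‖g‖) * t ^ k) *
            ∫⁻ z in ball c' (t / 2), ‖F z - ρ z * (g * (z - c') ^ k)‖ₑ := by
          rw [lintegral_const_mul' _ _ ENNReal.ofReal_ne_top]
      _ ≤ ENNReal.ofReal ((M + 2 * ‖g‖) * t ^ k) * ENNReal.ofReal (ε * t ^ (k + 2)) := by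
          gcongr
          exact (lintegral_mono_set hsub2).trans hint
      _ = ENNReal.ofReal ((M + 2 * ‖g‖) * t ^ k * (ε * t ^ (k + 2))) := by
          rw [← ENNReal.ofReal_mul (by positivity)]
      _ ≤ _ := by
          refine ENNReal.ofReal_le_ofReal ?_
          have h2 : (M + 2 * ‖g‖) * t ^ k * (ε * t ^ (k + 2)) =
              Real.pi * (t / 4) ^ 2 * (K * ε * t ^ (2 * k)) := by
            rw [hK]
            field_simp
            ring
          rw [h2]
          gcongr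
  -- (3)
  have hdich : ∀ x ∈ closedBall c' (t / 4), ‖F x‖ ≤ δ * t ^ k ∨ ‖F x - g * (x - c') ^ k‖ ≤ δ * t ^ k := by
    intro x hx
    by_contra hcon
    push Not at hcon
    have h1 := hF2 x hx
    rw [norm_mul] at h1
    have h2 : (δ * t ^ k) * (δ * t ^ k) < ‖F x‖ * ‖F x - g * (x - c') ^ k‖ :=
      mul_lt_mul'' hcon.1 hcon.2 (by positivity) (by positivity)
    have h3 : (δ * t ^ k) * (δ * t ^ k) = δ ^ 2 * t ^ (2 * k) := by ring
    linarith
  have hcb : closedBall c' (t / 4) ⊆ ball c' t := closedBall_subset_ball (by linarith)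
  have hFc : ContinuousOn F (closedBall c' (t / 4)) := (hF.mono hcb).continuousOn
  have hFG : ContinuousOn (fun x => F x - g * (x - c') ^ k) (closedBall c' (t / 4)) :=
    hFc.sub hGd.continuous.continuousOn
  have hA : IsClosed (closedBall c' (t / 4) ∩ {x | ‖F x‖ ≤ δ * t ^ k}) :=
    hFc.norm.preimage_isClosed_of_isClosed isClosed_closedBall (isClosed_Iic (a := δ * t ^ k))
  have hB : IsClosed (closedBall c' (t / 4) ∩ {x | ‖F x - g * (x - c') ^ k‖ ≤ δ * t ^ k}) :=
    hFG.norm.preimage_isClosed_of_isClosed isClosed_closedBall (isClosed_Iic (a := δ * t ^ k))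
  have hsph : sphere c' (t / 8) ⊆ closedBall c' (t / 4) :=
    sphere_subset_closedBall.trans (closedBall_subset_closedBall (by linarith))
  have hconn : IsPreconnected (sphere c' (t / 8)) := by
    refine isPreconnected_sphere ?_ c' (t / 8)
    rw [Complex.rank_real_complex]
    exact Cardinal.one_lt_two
  have hne8 : t / 8 ≠ 0 := by positivity
  have hmax : ∀ H : ℂ → ℂ, DifferentiableOn ℂ H (ball c' t) →
      (∀ x ∈ sphere c' (t / 8), ‖H x‖ ≤ δ * t ^ k) → ∀ x ∈ closedBall c' (t / 8), ‖H x‖ ≤ η * t ^ k := by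
    intro H hH hs x hx
    have h1 : ‖H x‖ ≤ δ * t ^ k := by
      refine Complex.norm_le_of_forall_mem_frontier_norm_le (U := ball c' (t / 8)) isBounded_ball
        ?_ ?_ ?_
      · refine (hH.mono ?_).diffContOnCl
        rw [closure_ball _ hne8]
        exact closedBall_subset_ball (by linarith)
      · rw [frontier_ball _ hne8]
        exact hs
      · rw [closure_ball _ hne8]
        exact hx
    exact h1.trans (by gcongr)
  by_cases h1 : ∀ x ∈ sphere c' (t / 8), ‖F x‖ ≤ δ * t ^ k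
  · exact Or.inl (hmax F hF h1)
  by_cases h2 : ∀ x ∈ sphere c' (t / 8), ‖F x - g * (x - c') ^ k‖ ≤ δ * t ^ k
  · exact Or.inr (hmax _ (hF.sub hGd.differentiableOn) h2)
  exfalso
  push Not at h1 h2
  obtain ⟨x1, hx1, hx1'⟩ := h1
  obtain ⟨x2, hx2, hx2'⟩ := h2
  rw [isPreconnected_closed_iff] at hconn
  obtain ⟨x, hx, hxA, hxB⟩ := hconn _ _ hA hB
    (fun x hx => by
      rcases hdich x (hsph hx) with h | h
      · exact Or.inl ⟨hsph hx, h⟩
      · exact Or.inr ⟨hsph hx, h⟩)
    ⟨x2, hx2, hsph hx2, (hdich x2 (hsph hx2)).resolve_right (not_le.mpr hx2')⟩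
    ⟨x1, hx1, hsph hx1, (hdich x1 (hsph hx1)).resolve_left (not_le.mpr hx1')⟩
  have h3 : ‖F x‖ ≤ δ * t ^ k := hxA.2
  have h4 : ‖F x - g * (x - c') ^ k‖ ≤ δ * t ^ k := hxB.2
  have h5 : ‖g * (x - c') ^ k‖ = ‖g‖ * (1 / 8) ^ k * t ^ k := by
    rw [mem_sphere, dist_eq_norm] at hx
    rw [norm_mul, norm_pow, hx, div_eq_mul_one_div, mul_pow]
    ring
  have h6 : ‖g * (x - c') ^ k‖ ≤ ‖F x‖ + ‖F x - g * (x - c') ^ k‖ := by
    have : g * (x - c') ^ k = F x - (F x - g * (x - c') ^ k) := by ring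
    calc ‖g * (x - c') ^ k‖ = ‖F x - (F x - g * (x - c') ^ k)‖ := by rw [← this]
      _ ≤ _ := norm_sub_le _ _
  rw [h5] at h6
  have h7 : 4 * δ * t ^ k ≤ ‖g‖ * (1 / 8) ^ k * t ^ k := by gcongr
  have h8 : 0 < δ * t ^ k := by positivity
  linarith

end Pool.Agent.H79.ES
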