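import Pool.Agent.H79.ES.CDf

/-!
# Chapter EC, module CLO: the local form at a point

PROOF. `m` = multiplicity of the root `c'` of `fib a b v = a - v b` (not the zero polynomial: `a, b` are coprime and `d ≥ 2`), `a - v b = (X - c')^m p`, `p.eval c' ≠ 0`; `m ≥ 1`. `A = p.eval c' / b.eval c'`, `g z = p.eval z / b.eval z` (analytic near `c'`, `g c' = A`):
`gg a b z - v = (z - c')^m g z` where `b.eval z ≠ 0`. `lo`: `‖g z‖ ≥ ‖A‖ / 2` near `c'`. `up`: `‖g z‖ ≤ (1 + ε) ‖A‖` near `c'`, `‖z - c'‖ < t` (for `z = c'` the left side is `0`). `dg a b z` is the derivative of `gg a b` (`hasDerivAt_gg`):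
`dg a b z = (z - c')^(m - 1) (m g z + (z - c') g' z)`, bounded factor on a small closed ball. `uu`: for `z ≠ c'` `dg^2 / (gg - v) = (z - c')^(m - 2) (m g z + (z - c') g' z)^2 / g z`, and the factor tends to `m^2 A` as `z → c'`;
`‖z - c'‖^(m - 2) ≤ t^(m - 2)`.
-/

set_option autoImplicit false

open MeasureTheory Metric Set Polynomial Filter Topology

namespace Pool.Agent.H79.ES

open Pool.Agent.H61.TT Pool.Agent.H35.EX

variable {d : ℕ} {a b : Polynomial ℂ} {P β : ℕ → ℂ} {σ : ℕ → ℕ}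

private theorem clo_ev {Q : ℝ → Prop} {r : ℝ} (hr : 0 < r) (h : ∀ t : ℝ, 0 < t → t < r → Q t) :
    ∀ᶠ t : ℝ in 𝓝[>] 0, Q t := by
  filter_upwards [Ioo_mem_nhdsGT hr] with t ht
  exact h t ht.1 ht.2

theorem loc_ex (h : RatD d a b) {c' v : ℂ} (hb : b.eval c' ≠ 0) (hv : gg a b c' = v) :
    ∃ (A : ℂ) (m : ℕ) (C r0 : ℝ), Loc a b c' v A m C r0 := by
  have hp0 : fib a b v ≠ 0 := fib_ne h v
  obtain ⟨q, hq, hnd⟩ := Polynomial.exists_eq_pow_rootMultiplicity_mul_and_not_dvd (fib a b v) hp0 c'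
  obtain ⟨m, hm⟩ : ∃ m, m = (fib a b v).rootMultiplicity c' := ⟨_, rfl⟩
  rw [← hm] at hq
  have hqc : q.eval c' ≠ 0 := fun h0 => hnd (dvd_iff_isRoot.2 h0)
  have hac : a.eval c' = v * b.eval c' := (div_eq_iff hb).1 hv
  have hroot : (fib a b v).eval c' = 0 := by
    unfold fib
    rw [eval_sub, eval_mul, eval_C, hac, sub_self]
  have hm1 : 1 ≤ m := by
    rw [hm]
    exact (rootMultiplicity_pos hp0).2 hroot
  obtain ⟨k, rfl⟩ : ∃ k, m = k + 1 := ⟨m - 1, by omega⟩
  have e0 : ∀ z, a.eval z - v * b.eval z = (z - c') ^ (k + 1) * q.eval z := by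
    intro z
    have := congrArg (Polynomial.eval z) hq
    rw [eval_mul, eval_pow, eval_sub, eval_X, eval_C] at this
    unfold fib at this
    rw [eval_sub, eval_mul, eval_C] at this
    exact this
  have e1 : ∀ z, (derivative a).eval z - v * (derivative b).eval z =
      ((k : ℂ) + 1) * (z - c') ^ k * q.eval z + (z - c') ^ (k + 1) * (derivative q).eval z := by
    intro z
    have := congrArg (fun r : Polynomial ℂ => (derivative r).eval z) hq
    beta_reduce at this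
    unfold fib at this
    rw [derivative_sub, derivative_C_mul, derivative_mul, derivative_pow, derivative_sub, derivative_X,
      derivative_C] at this
    simp only [eval_sub, eval_mul, eval_C, eval_add, eval_pow, eval_X, eval_natCast, eval_one, sub_zero,
      mul_one, Nat.add_sub_cancel, Nat.cast_add, Nat.cast_one, map_add, map_natCast, map_one] at this
    rw [this]
  obtain ⟨g, hg⟩ : ∃ g : ℂ → ℂ, g = fun z => q.eval z / b.eval z := ⟨_, rfl⟩
  obtain ⟨K, hK⟩ : ∃ K : ℂ → ℂ, K = fun z => ((((k : ℂ) + 1) * q.eval z + (z - c') * (derivative q).eval z) * b.eval z -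
    (z - c') * q.eval z * (derivative b).eval z) / b.eval z ^ 2 := ⟨_, rfl⟩
  have f1 : ∀ z, b.eval z ≠ 0 → gg a b z - v = (z - c') ^ (k + 1) * g z := by
    intro z hz
    rw [hg]
    simp only
    unfold gg
    rw [div_sub' hz, mul_comm (b.eval z) v, e0 z, mul_div_assoc]
  have f2 : ∀ z, b.eval z ≠ 0 → dg a b z = (z - c') ^ k * K z := by
    intro z hz
    rw [hK]
    simp only
    unfold dg ww
    rw [eval_sub, eval_mul, eval_mul, mul_div_assoc']
    congr 1
    have h1 : a.eval z = v * b.eval z + (z - c') ^ (k + 1) * q.eval z := by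
      rw [← e0 z]
      ring
    have h2 : (derivative a).eval z = v * (derivative b).eval z + (((k : ℂ) + 1) * (z - c') ^ k * q.eval z +
        (z - c') ^ (k + 1) * (derivative q).eval z) := by
      rw [← e1 z]
      ring
    rw [h1, h2]
    ring
  obtain ⟨A, hA⟩ : ∃ A : ℂ, A = g c' := ⟨_, rfl⟩
  have hA0 : A ≠ 0 := by
    rw [hA, hg]
    exact div_ne_zero hqc hb
  have hKc : K c' = ((k : ℂ) + 1) * A := by
    rw [hA, hK, hg]
    simp only [sub_self, zero_mul, add_zero, sub_zero]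
    field_simp
  have cb : ContinuousAt (fun z : ℂ => b.eval z) c' := b.continuous.continuousAt
  have cg : ContinuousAt g c' := by
    rw [hg]
    exact (q.continuous.continuousAt).div cb hb
  have cK : ContinuousAt K c' := by
    rw [hK]
    refine ContinuousAt.div ?_ (cb.pow 2) (pow_ne_zero 2 hb)
    have c1 : Continuous fun z : ℂ => (((k : ℂ) + 1) * q.eval z + (z - c') * (derivative q).eval z) * b.eval z -
      (z - c') * q.eval z * (derivative b).eval z := by fun_prop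
    exact c1.continuousAt
  have eb : ∀ᶠ z in 𝓝 c', b.eval z ≠ 0 := cb.eventually_ne hb
  have eg : ∀ᶠ z in 𝓝 c', ‖A‖ / 2 ≤ ‖g z‖ := by
    have h1 : ‖A‖ / 2 < ‖g c'‖ := by
      rw [← hA]
      have := norm_pos_iff.2 hA0
      linarith
    filter_upwards [cg.norm.eventually (lt_mem_nhds h1)] with z hz
    exact hz.le
  have eK : ∀ᶠ z in 𝓝 c', ‖K z‖ ≤ ‖K c'‖ + 1 := by
    filter_upwards [cK.norm.eventually (gt_mem_nhds (lt_add_one ‖K c'‖))] with z hz
    exact hz.le
  obtain ⟨r0, hr0, hall⟩ := Metric.eventually_nhds_iff_ball.1 (eb.and (eg.and eK))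
  refine ⟨A, k + 1, ‖K c'‖ + 1, r0, hr0, hm1, hA0, fun z hz => (hall z hz).1, ?_, ?_, ?_, ?_⟩
  · intro z hz
    obtain ⟨h1, h2, h3⟩ := hall z hz
    rw [f1 z h1, norm_mul, norm_pow, mul_comm]
    exact mul_le_mul_of_nonneg_left h2 (by positivity)
  · intro ε hε
    have hA1 : 0 < ‖A‖ := norm_pos_iff.2 hA0
    have h1 : ‖g c'‖ < (1 + ε) * ‖A‖ := by
      rw [← hA]
      nlinarith
    obtain ⟨r, hr, hr2⟩ := Metric.eventually_nhds_iff_ball.1 (eb.and (cg.norm.eventually (gt_mem_nhds h1)))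
    refine clo_ev hr ?_
    intro t ht0 htr z hz
    obtain ⟨h2, h3⟩ := hr2 z (ball_subset_ball htr.le hz)
    rw [f1 z h2, norm_mul, norm_pow]
    have h4 : ‖z - c'‖ ^ (k + 1) ≤ t ^ (k + 1) := by
      refine pow_le_pow_left₀ (norm_nonneg _) ?_ _
      rw [mem_ball_iff_norm] at hz
      exact hz.le
    have h5 : 0 < t ^ (k + 1) := by positivity
    calc ‖z - c'‖ ^ (k + 1) * ‖g z‖ ≤ t ^ (k + 1) * ‖g z‖ := mul_le_mul_of_nonneg_right h4 (norm_nonneg _)
      _ < t ^ (k + 1) * ((1 + ε) * ‖A‖) := mul_lt_mul_of_pos_left h3 h5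
      _ = (1 + ε) * ‖A‖ * t ^ (k + 1) := by ring
  · intro z hz
    obtain ⟨h1, h2, h3⟩ := hall z hz
    rw [f2 z h1, norm_mul, norm_pow, mul_comm, Nat.add_sub_cancel]
    exact mul_le_mul_of_nonneg_right h3 (by positivity)
  · intro hm2 ε hε
    obtain ⟨j, rfl⟩ : ∃ j, k = j + 1 := ⟨k - 1, by omega⟩
    have cq : ContinuousAt (fun z => K z ^ 2 / g z) c' := by
      refine (cK.pow 2).div cg ?_
      rw [← hA]
      exact hA0
    have hval : K c' ^ 2 / g c' = (((j + 1 + 1 : ℕ) : ℂ)) ^ 2 * A := by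
      rw [hKc, ← hA]
      push_cast
      field_simp
    have h1 : ∀ᶠ z in 𝓝 c', ‖K z ^ 2 / g z - (((j + 1 + 1 : ℕ) : ℂ)) ^ 2 * A‖ < ε := by
      rw [← hval]
      have := Metric.tendsto_nhds.1 cq ε hε
      filter_upwards [this] with z hz
      rw [dist_eq_norm] at hz
      exact hz
    obtain ⟨r, hr, hr2⟩ := Metric.eventually_nhds_iff_ball.1 (eb.and h1)
    refine clo_ev hr ?_
    intro t ht0 htr z hz hzc
    obtain ⟨h2, h3⟩ := hr2 z (ball_subset_ball htr.le hz)
    have hz0 : z - c' ≠ 0 := sub_ne_zero.2 hzc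
    have e2 : dg a b z ^ 2 / (gg a b z - v) = (z - c') ^ (j + 1 + 1 - 2) * (K z ^ 2 / g z) := by
      rw [f1 z h2, f2 z h2]
      have e3 : j + 1 + 1 - 2 = j := by omega
      rw [e3]
      have e4 : ((z - c') ^ (j + 1) * K z) ^ 2 = (z - c') ^ (j + 1 + 1) * ((z - c') ^ j * K z ^ 2) := by ring
      rw [e4, mul_div_mul_left _ _ (pow_ne_zero _ hz0), mul_div_assoc]
    rw [e2]
    have e5 : (z - c') ^ (j + 1 + 1 - 2) * (K z ^ 2 / g z) - (((j + 1 + 1 : ℕ) : ℂ)) ^ 2 * A * (z - c') ^ (j + 1 + 1 - 2) =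
        (z - c') ^ (j + 1 + 1 - 2) * (K z ^ 2 / g z - (((j + 1 + 1 : ℕ) : ℂ)) ^ 2 * A) := by ring
    rw [e5, norm_mul, norm_pow, mul_comm]
    have h4 : ‖z - c'‖ ^ (j + 1 + 1 - 2) ≤ t ^ (j + 1 + 1 - 2) := by
      refine pow_le_pow_left₀ (norm_nonneg _) ?_ _
      rw [mem_ball_iff_norm] at hz
      exact hz.le
    exact mul_le_mul h3.le h4 (by positivity) hε.le

end Pool.Agent.H79.ES
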