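import Pool.Agent.H79.ES.CFR
import Pool.Agent.H79.ES.CDI
import Pool.Agent.H79.ES.CLO

/-!
# Chapter EC, module CCR: the mass at a critical preimage of `P 0`

PROOF. `nu β P S = ∫⁻ x in S, ‖qs β P x‖ₑ` for measurable `S` (`withDensity_apply`). It is enough to bound `nu (ball c' (t / 8))` by `ofReal (ε t^m)` for all small `t` (then replace `t` by `8 t` and `ε` by `ε / 8^m`). Let `k = m - 2`, `g = β 0 * m^2 * A ≠ 0` (`h.ne`), `η` small. On `ball c' t` (`t` small)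
`ρ β_0 f'^2 / (f - v)` differs from `ρ g (x - c')^k` by at most `‖β 0‖ ε' t^k` (`hl.uu`; `x ≠ c'`), so with `ce_far` the hypothesis of `cdi` holds for `F = qfar β P c' t` (`qfar_diff`, `ball c' t ⊆ ball c' (2 t)`) for all small `t` (`π t^2 * t^k = π t^m`, `Complex.volume_ball`).
Case 1: `‖F‖ ≤ η t^k` on `closedBall c' (t / 8)`: `nu (ball c' (t / 8)) ≤ ∫ ‖qs - F‖ + ∫ ‖F‖ ≤ ε' t^m + η t^k π (t / 8)^2` (`ce_near`): small.
Case 2: `‖F x - g (x - c')^k‖ ≤ η t^k`: `∫_(ball c' (t / 8)) ‖g‖ ‖x - c'‖^k ≤ nu (ball c' (t / 8)) + ε' t^m + η t^k π (t / 8)^2`, and the left side is `‖β 0‖ m^2 ‖A‖ 2 π (t / 8)^m / m = 2 π m ‖β 0‖ ‖A‖ (t / 8)^m` (`ci_pow`, `k + 2 = m`). But `ball c' (t / 8) ⊆ pre a b (ball (P 0) s)` with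
`s = (1 + ε') ‖A‖ (t / 8)^m` (`hl.up`, `hl.bb`; `pre a b T ⊆ (gg a b) ⁻¹' T`), so `nu (ball c' (t / 8)) ≤ nu (gg ⁻¹' ball (P 0) s) = nu (ball (P 0) s)` (`nu_pres`) `≤ 2 π ‖β 0‖ s + ε' s` (`ca1`, `ci_inv`). Since `m ≥ 2` this is impossible if `η`, `ε'` are small (compare the factors of
`(t / 8)^m`: `2 π m ‖β 0‖ ‖A‖ ≤ (2 π ‖β 0‖ + ε') (1 + ε') ‖A‖ + 8^m (ε' + η π)`; `m ≥ 2`).
-/

set_option autoImplicit false

open MeasureTheory Metric Set Polynomial Filter Topology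

namespace Pool.Agent.H79.ES

open Pool.Agent.H61.TT Pool.Agent.H35.EX

variable {d : ℕ} {a b : Polynomial ℂ} {P β : ℕ → ℂ} {σ : ℕ → ℕ}

private theorem ccr_vol (c : ℂ) {r : ℝ} (hr : 0 ≤ r) :
    volume (ball c r) = ENNReal.ofReal (Real.pi * r ^ 2) := by
  rw [Complex.volume_ball, mul_comm, ENNReal.ofReal_mul Real.pi_pos.le, ENNReal.ofReal_pow hr]
  congr 1
  rw [ENNReal.ofReal, Real.toNNReal_of_nonneg Real.pi_pos.le]
  rfl

private theorem ccr_const (c : ℂ) {r u : ℝ} (hr : 0 ≤ r) (hu : 0 ≤ u) :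
    ∫⁻ _ in ball c r, ENNReal.ofReal u = ENNReal.ofReal (u * (Real.pi * r ^ 2)) := by
  rw [lintegral_const, Measure.restrict_apply_univ, ccr_vol c hr, ENNReal.ofReal_mul hu]

private theorem ccr_tend (c : ℝ) (hc : 0 < c) (m : ℕ) (hm : 1 ≤ m) :
    Tendsto (fun t : ℝ => c * t ^ m) (𝓝[>] 0) (𝓝[>] 0) := by
  rw [tendsto_nhdsWithin_iff]
  refine ⟨?_, ?_⟩
  · have h1 : Continuous fun t : ℝ => c * t ^ m := by fun_prop
    have h2 := h1.tendsto 0
    rw [zero_pow (by omega), mul_zero] at h2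
    exact h2.mono_left nhdsWithin_le_nhds
  · filter_upwards [self_mem_nhdsWithin] with t ht
    exact mul_pos hc (pow_pos ht m)

open Classical in
/-- the hypothesis of `cdi` -/
private theorem ccr_hyp (h : PS d a b P β) (ho : PO d a b P β σ) (hz : Zer a b β P) {c' A : ℂ} {m : ℕ}
    {C r0 : ℝ} (hl : Loc a b c' (P 0) A m C r0) (hm : 2 ≤ m) (hc : ∀ k, P k ≠ c') {ε : ℝ} (hε : 0 < ε) :
    ∀ᶠ t : ℝ in 𝓝[>] 0, ∫⁻ x in ball c' t, ‖qfar β P c' t x - (if qs β P x = 0 then 0 else 1) *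
      (β 0 * (m : ℂ) ^ 2 * A * (x - c') ^ (m - 2))‖ₑ ≤ ENNReal.ofReal (ε * t ^ (m - 2 + 2)) := by
  have hb0 : 0 ≤ ‖β 0‖ := norm_nonneg _
  have hpi := Real.pi_pos
  have h1 := ce_far h ho hz hl hc (half_pos hε)
  have h2 := hl.uu hm (ε / (2 * Real.pi * (‖β 0‖ + 1))) (by positivity)
  filter_upwards [h1, h2, self_mem_nhdsWithin] with t g1 g2 ht
  have ht0 : 0 < t := ht
  have hu0 : 0 ≤ ‖β 0‖ * (ε / (2 * Real.pi * (‖β 0‖ + 1)) * t ^ (m - 2)) := by positivity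
  have key : ∫⁻ x in ball c' t, ‖qfar β P c' t x - (if qs β P x = 0 then 0 else 1) *
      (β 0 * (m : ℂ) ^ 2 * A * (x - c') ^ (m - 2))‖ₑ ≤
      ∫⁻ x in ball c' t, (‖qfar β P c' t x - (if qs β P x = 0 then 0 else 1) *
      (β 0 * (Pool.Agent.H61.TT.dg a b x ^ 2 / (gg a b x - P 0)))‖ₑ +
        ENNReal.ofReal (‖β 0‖ * (ε / (2 * Real.pi * (‖β 0‖ + 1)) * t ^ (m - 2)))) := by
    have hne : ∀ᵐ x : ℂ ∂(volume.restrict (ball c' t)), x ≠ c' :=
      ae_restrict_of_ae (by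
        rw [ae_iff]
        simp)
    refine lintegral_mono_ae ?_
    filter_upwards [hne, ae_restrict_mem measurableSet_ball] with x hx hxb
    have g3 := g2 x hxb hx
    obtain ⟨ρ, hρ⟩ : ∃ ρ : ℂ, ρ = if qs β P x = 0 then 0 else 1 := ⟨_, rfl⟩
    have hρ1 : ‖ρ‖ ≤ 1 := by
      rw [hρ]
      split_ifs
      · simp
      · simp
    rw [← hρ]
    have e1 : qfar β P c' t x - ρ * (β 0 * (m : ℂ) ^ 2 * A * (x - c') ^ (m - 2)) =
        (qfar β P c' t x - ρ * (β 0 * (Pool.Agent.H61.TT.dg a b x ^ 2 / (gg a b x - P 0)))) +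
        ρ * (β 0 * (Pool.Agent.H61.TT.dg a b x ^ 2 / (gg a b x - P 0) -
          (m : ℂ) ^ 2 * A * (x - c') ^ (m - 2))) := by ring
    rw [e1]
    refine (enorm_add_le _ _).trans (add_le_add le_rfl ?_)
    rw [← ofReal_norm_eq_enorm]
    refine ENNReal.ofReal_le_ofReal ?_
    rw [norm_mul, norm_mul]
    calc ‖ρ‖ * (‖β 0‖ * ‖Pool.Agent.H61.TT.dg a b x ^ 2 / (gg a b x - P 0) -
          (m : ℂ) ^ 2 * A * (x - c') ^ (m - 2)‖)
        ≤ 1 * (‖β 0‖ * (ε / (2 * Real.pi * (‖β 0‖ + 1)) * t ^ (m - 2))) := by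
          refine mul_le_mul hρ1 (mul_le_mul_of_nonneg_left g3 hb0) (by positivity) zero_le_one
      _ = _ := one_mul _
  refine key.trans ?_
  rw [lintegral_add_right _ measurable_const, ccr_const c' ht0.le hu0]
  refine (add_le_add g1 le_rfl).trans ?_
  rw [← ENNReal.ofReal_add (by positivity) (by positivity)]
  refine ENNReal.ofReal_le_ofReal ?_
  have hmm : m - 2 + 2 = m := by omega
  have e2 : ‖β 0‖ * (ε / (2 * Real.pi * (‖β 0‖ + 1)) * t ^ (m - 2)) * (Real.pi * t ^ 2) =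
      ε / 2 * (‖β 0‖ / (‖β 0‖ + 1)) * t ^ (m - 2 + 2) := by
    rw [pow_add]
    field_simp
  rw [e2, hmm]
  have e3 : ‖β 0‖ / (‖β 0‖ + 1) ≤ 1 := (div_le_one (by positivity)).2 (by linarith)
  have e4 : 0 < t ^ m := pow_pos ht0 m
  have e5 : ε / 2 * (‖β 0‖ / (‖β 0‖ + 1)) ≤ ε / 2 := by
    have := mul_le_mul_of_nonneg_left e3 (half_pos hε).le
    linarith
  have e6 := mul_le_mul_of_nonneg_right e5 e4.le
  linarith

private theorem ccr_nu (β P : ℕ → ℂ) (c : ℂ) (r : ℝ) :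
    nu β P (ball c r) = ∫⁻ x in ball c r, ‖qs β P x‖ₑ := by
  unfold nu
  rw [withDensity_apply _ measurableSet_ball]

/-- the mass of a small disc about the first pole -/
private theorem ccr_pole (h : PS d a b P β) {ε : ℝ} (hε : 0 < ε) :
    ∀ᶠ s : ℝ in 𝓝[>] 0, nu β P (ball (P 0) s) ≤ ENNReal.ofReal ((2 * Real.pi * ‖β 0‖ + ε) * s) := by
  filter_upwards [ca1 h 0 hε, self_mem_nhdsWithin] with s g1 hs
  have hs0 : 0 < s := hs
  have hpi := Real.pi_pos
  rw [ccr_nu]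
  have h1 : ∫⁻ x in ball (P 0) s, ‖qs β P x‖ₑ ≤ ∫⁻ x in ball (P 0) s,
      (‖qs β P x - β 0 / (x - P 0)‖ₑ + ENNReal.ofReal ‖β 0‖ * ENNReal.ofReal (‖x - P 0‖⁻¹)) := by
    refine lintegral_mono fun x => ?_
    have e1 : qs β P x = (qs β P x - β 0 / (x - P 0)) + β 0 / (x - P 0) := by ring
    conv_lhs => rw [e1]
    refine (enorm_add_le _ _).trans (add_le_add le_rfl ?_)
    rw [← ENNReal.ofReal_mul (norm_nonneg _), ← div_eq_mul_inv, ← norm_div, ofReal_norm_eq_enorm]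
  refine h1.trans ?_
  rw [lintegral_add_right _ (by fun_prop), lintegral_const_mul _ (by fun_prop), ci_inv _ hs0]
  refine (add_le_add g1 le_rfl).trans ?_
  rw [← ENNReal.ofReal_mul (norm_nonneg _), ← ENNReal.ofReal_add (by positivity) (by positivity)]
  refine ENNReal.ofReal_le_ofReal (le_of_eq ?_)
  ring

private theorem ccr_small (h : PS d a b P β) (ho : PO d a b P β σ) (hz : Zer a b β P) {c' A : ℂ} {m : ℕ}
    {C r0 : ℝ} (hl : Loc a b c' (P 0) A m C r0) (hm : 2 ≤ m) (hc : ∀ k, P k ≠ c') {ε : ℝ} (hε : 0 < ε) :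
    ∀ᶠ t : ℝ in 𝓝[>] 0, nu β P (ball c' (t / 8)) ≤ ENNReal.ofReal (ε * t ^ m) := by
  classical
  have hpi := Real.pi_pos
  have hpi3 := Real.pi_gt_three
  have hpi4 := Real.pi_le_four
  have hmC : (m : ℂ) ≠ 0 := by
    have : m ≠ 0 := by omega
    exact_mod_cast this
  have hm0 : (0 : ℝ) < m := by
    have : 0 < m := by omega
    exact_mod_cast this
  have hm2 : (2 : ℝ) ≤ m := by exact_mod_cast hm
  have hg : β 0 * (m : ℂ) ^ 2 * A ≠ 0 :=
    mul_ne_zero (mul_ne_zero (h.ne 0) (pow_ne_zero 2 hmC)) hl.An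
  have hb0 : 0 < ‖β 0‖ := norm_pos_iff.2 (h.ne 0)
  have hA0 : 0 < ‖A‖ := norm_pos_iff.2 hl.An
  obtain ⟨δ, hδ⟩ : ∃ δ, δ = min ε (‖A‖ * ‖β 0‖ / 8 ^ m) := ⟨_, rfl⟩
  have hδ0 : 0 < δ := by rw [hδ]; exact lt_min hε (by positivity)
  have hδε : δ ≤ ε := by rw [hδ]; exact min_le_left _ _
  have hδ8 : δ * 8 ^ m ≤ ‖A‖ * ‖β 0‖ := by
    have : δ ≤ ‖A‖ * ‖β 0‖ / 8 ^ m := by rw [hδ]; exact min_le_right _ _
    rwa [le_div_iff₀ (by positivity)] at this
  obtain ⟨εc, hεc, hcdi⟩ := cdi hg (m - 2) (η := δ / 8) (by positivity)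
  have ev1 := ccr_hyp h ho hz hl hm hc hεc
  have ev2 := ce_near h ho hl hc (half_pos hδ0)
  have ev3 := (ccr_tend (1 / 8) (by norm_num) 1 le_rfl).eventually (hl.up (1 / 4) (by norm_num))
  have ev4 := (ccr_tend ((1 + 1 / 4) * ‖A‖ * (1 / 8) ^ m) (by positivity) m (by omega)).eventually
    (ccr_pole h (half_pos hb0))
  filter_upwards [ev1, ev2, ev3, ev4, self_mem_nhdsWithin] with t g1 g2 g3 g4 ht
  have ht0 : 0 < t := ht
  have htm : 0 < t ^ m := pow_pos ht0 m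
  have hmm : m - 2 + 2 = m := by omega
  have htk : t ^ (m - 2) * t ^ 2 = t ^ m := by rw [← pow_add, hmm]
  have ht8 : 1 / 8 * t ^ 1 = t / 8 := by ring
  rw [ht8] at g3
  have hsub : ball c' (t / 8) ⊆ ball c' t := ball_subset_ball (by linarith)
  have hnear : ∫⁻ x in ball c' (t / 8), ‖qs β P x - qfar β P c' t x‖ₑ ≤ ENNReal.ofReal (δ / 2 * t ^ m) :=
    (lintegral_mono_set hsub).trans g2
  have hηπ : δ / 8 * t ^ (m - 2) * (Real.pi * (t / 8) ^ 2) ≤ δ / 2 * t ^ m := by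
    have e1 : δ / 8 * t ^ (m - 2) * (Real.pi * (t / 8) ^ 2) = δ * Real.pi / 512 * (t ^ (m - 2) * t ^ 2) := by
      ring
    rw [e1, htk]
    refine mul_le_mul_of_nonneg_right ?_ htm.le
    nlinarith
  have hdich := hcdi c' t ht0 (qfar β P c' t) (fun x => if qs β P x = 0 then 0 else 1)
    ((qfar_diff h c' t).mono (ball_subset_ball (by linarith))) (fun x => by
      by_cases hq : qs β P x = 0
      · exact Or.inl (if_pos hq)
      · exact Or.inr (if_neg hq)) g1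
  rcases hdich with hF | hF
  · rw [ccr_nu]
    have h1 : ∫⁻ x in ball c' (t / 8), ‖qs β P x‖ₑ ≤ ∫⁻ x in ball c' (t / 8),
        (‖qs β P x - qfar β P c' t x‖ₑ + ENNReal.ofReal (δ / 8 * t ^ (m - 2))) := by
      refine setLIntegral_mono_ae' measurableSet_ball (Eventually.of_forall fun x hx => ?_)
      have e1 : qs β P x = (qs β P x - qfar β P c' t x) + qfar β P c' t x := by ring
      conv_lhs => rw [e1]
      refine (enorm_add_le _ _).trans (add_le_add le_rfl ?_)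
      rw [← ofReal_norm_eq_enorm]
      exact ENNReal.ofReal_le_ofReal (hF x (ball_subset_closedBall hx))
    refine h1.trans ?_
    rw [lintegral_add_right _ measurable_const, ccr_const c' (by positivity) (by positivity)]
    refine (add_le_add hnear le_rfl).trans ?_
    rw [← ENNReal.ofReal_add (by positivity) (by positivity)]
    refine ENNReal.ofReal_le_ofReal ?_
    have := mul_le_mul_of_nonneg_right hδε htm.le
    linarith
  · exfalso
    -- upper bound of the mass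
    have hup : nu β P (ball c' (t / 8)) ≤
        ENNReal.ofReal ((2 * Real.pi * ‖β 0‖ + ‖β 0‖ / 2) * ((1 + 1 / 4) * ‖A‖ * (1 / 8) ^ m * t ^ m)) := by
      refine le_trans (measure_mono ?_) ((nu_pres h measurableSet_ball).trans_le g4)
      intro z hz'
      show gg a b z ∈ ball (P 0) _
      rw [mem_ball, dist_eq_norm]
      have := g3 z hz'
      rw [div_pow] at this
      have e : (1 + 1 / 4) * ‖A‖ * (1 / 8) ^ m * t ^ m = (1 + 1 / 4) * ‖A‖ * (t ^ m / 8 ^ m) := by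
        rw [div_pow, one_pow]
        ring
      rw [e]
      exact this
    -- lower bound of the mass
    have hlow : ∫⁻ x in ball c' (t / 8), ‖β 0 * (m : ℂ) ^ 2 * A * (x - c') ^ (m - 2)‖ₑ ≤
        nu β P (ball c' (t / 8)) + ENNReal.ofReal (δ / 2 * t ^ m) + ENNReal.ofReal (δ / 2 * t ^ m) := by
      have h1 : ∫⁻ x in ball c' (t / 8), ‖β 0 * (m : ℂ) ^ 2 * A * (x - c') ^ (m - 2)‖ₑ ≤
          ∫⁻ x in ball c' (t / 8), (‖qs β P x‖ₑ + ‖qs β P x - qfar β P c' t x‖ₑ +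
            ENNReal.ofReal (δ / 8 * t ^ (m - 2))) := by
        refine setLIntegral_mono_ae' measurableSet_ball (Eventually.of_forall fun x hx => ?_)
        have e1 : β 0 * (m : ℂ) ^ 2 * A * (x - c') ^ (m - 2) = qs β P x -
            (qs β P x - qfar β P c' t x) -
            (qfar β P c' t x - β 0 * (m : ℂ) ^ 2 * A * (x - c') ^ (m - 2)) := by ring
        conv_lhs => rw [e1]
        refine (enorm_sub_le).trans (add_le_add (enorm_sub_le) ?_)
        rw [← ofReal_norm_eq_enorm]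
        exact ENNReal.ofReal_le_ofReal (hF x (ball_subset_closedBall hx))
      refine h1.trans ?_
      rw [lintegral_add_right _ measurable_const, lintegral_add_left (qs_meas β P).enorm,
        ccr_const c' (by positivity) (by positivity), ← ccr_nu]
      exact add_le_add (add_le_add le_rfl hnear) (ENNReal.ofReal_le_ofReal hηπ)
    have hint : ∫⁻ x in ball c' (t / 8), ‖β 0 * (m : ℂ) ^ 2 * A * (x - c') ^ (m - 2)‖ₑ =
        ENNReal.ofReal (2 * Real.pi * m * (‖β 0‖ * ‖A‖) * ((1 / 8) ^ m * t ^ m)) := by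
      have h1 : ∀ x : ℂ, ‖β 0 * (m : ℂ) ^ 2 * A * (x - c') ^ (m - 2)‖ₑ =
          ENNReal.ofReal (‖β 0‖ * (m : ℝ) ^ 2 * ‖A‖) * ENNReal.ofReal (‖x - c'‖ ^ (m - 2)) := by
        intro x
        rw [← ENNReal.ofReal_mul (by positivity), ← ofReal_norm_eq_enorm, norm_mul, norm_mul, norm_mul,
          norm_pow, norm_pow, Complex.norm_natCast]
      rw [lintegral_congr h1, lintegral_const_mul _ (by fun_prop), ci_pow c' (m - 2) (by positivity),
        ← ENNReal.ofReal_mul (by positivity)]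
      congr 1
      have e1 : ((m - 2 : ℕ) : ℝ) + 2 = m := by
        have : ((m - 2 + 2 : ℕ) : ℝ) = m := by rw [hmm]
        push_cast at this
        exact this
      rw [e1, hmm, div_pow, div_pow, one_pow]
      field_simp
    rw [hint] at hlow
    have h2 := hlow.trans (add_le_add (add_le_add hup le_rfl) le_rfl)
    rw [← ENNReal.ofReal_add (by positivity) (by positivity),
      ← ENNReal.ofReal_add (by positivity) (by positivity),
      ENNReal.ofReal_le_ofReal_iff (by positivity)] at h2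
    obtain ⟨w, hw⟩ : ∃ w : ℝ, w = (1 / 8) ^ m * t ^ m := ⟨_, rfl⟩
    have hw0 : 0 < w := by rw [hw]; positivity
    have htw : t ^ m = 8 ^ m * w := by
      rw [hw, ← mul_assoc, ← mul_pow]
      norm_num
    have e1 : (1 + 1 / 4) * ‖A‖ * (1 / 8) ^ m * t ^ m = (1 + 1 / 4) * ‖A‖ * w := by
      rw [hw]
      ring
    rw [e1, ← hw, htw] at h2
    have e2 : δ / 2 * (8 ^ m * w) ≤ ‖A‖ * ‖β 0‖ / 2 * w := by
      have := mul_le_mul_of_nonneg_right hδ8 hw0.le
      linarith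
    have hAB : 0 < ‖A‖ * ‖β 0‖ * w := by positivity
    have e3 : 2 * Real.pi * 2 * (‖β 0‖ * ‖A‖) * w ≤ 2 * Real.pi * m * (‖β 0‖ * ‖A‖) * w := by
      have : (0 : ℝ) ≤ 2 * Real.pi * (‖β 0‖ * ‖A‖) * w := by positivity
      nlinarith
    nlinarith

theorem ccr (h : PS d a b P β) (ho : PO d a b P β σ) (hz : Zer a b β P) {c' A : ℂ} {m : ℕ} {C r0 : ℝ}
    (hl : Loc a b c' (P 0) A m C r0) (hm : 2 ≤ m) (hc : ∀ k, P k ≠ c') {ε : ℝ} (hε : 0 < ε) :
    ∀ᶠ t : ℝ in 𝓝[>] 0, nu β P (ball c' t) ≤ ENNReal.ofReal (ε * t ^ m) := by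
  have h1 := (ccr_tend 8 (by norm_num) 1 le_rfl).eventually
    (ccr_small h ho hz hl hm hc (show 0 < ε / 8 ^ m by positivity))
  filter_upwards [h1] with t ht
  have e1 : 8 * t ^ 1 / 8 = t := by ring
  have e2 : ε / 8 ^ m * (8 * t ^ 1) ^ m = ε * t ^ m := by
    rw [pow_one, mul_pow]
    field_simp
  rw [e1, e2] at ht
  exact ht

end Pool.Agent.H79.ES
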