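import Pool.Agent.H79.ES.CDf

/-!
# Chapter EC, module CCV: change of variables

PROOF. `area` (H61/TT/Area) with `F = G ∘ gg a b` (measurable: `gg a b` is a quotient of polynomials): `∫⁻ x in V, ∑ y ∈ fs a b x, G (gg a b y) = ∫⁻ y in pre a b V, G (gg a b y) * ofReal (‖dg a b y‖ ^ 2)`; for almost every `x` (`fs` is the set of roots of
`fib a b x ≠ 0`; `mem_fs`: `b.eval y ≠ 0`, `gg a b y = x`) the sum is `card (fs a b x) * G x ≤ d * G x` (`Multiset.toFinset_card_le`, `card_roots'`, `natDegree (fib a b x) ≤ d`).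
-/

set_option autoImplicit false

open MeasureTheory Metric Set Polynomial Filter Topology

namespace Pool.Agent.H79.ES

open Pool.Agent.H61.TT Pool.Agent.H35.EX

variable {d : ℕ} {a b : Polynomial ℂ} {P β : ℕ → ℂ} {σ : ℕ → ℕ}

theorem ccv (h : RatD d a b) {V : Set ℂ} (hV : MeasurableSet V) {G : ℂ → ENNReal} (hG : Measurable G) :
    ∫⁻ y in pre a b V, G (gg a b y) * ENNReal.ofReal (‖Pool.Agent.H61.TT.dg a b y‖ ^ 2) ≤ d * ∫⁻ x in V, G x := by
  have h1 := area h hV (F := fun y => G (gg a b y)) (hG.comp measurable_gg)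
  rw [← h1, ← lintegral_const_mul _ hG]
  refine lintegral_mono fun x => ?_
  have h2 : ∑ y ∈ fs a b x, G (gg a b y) = ∑ y ∈ fs a b x, G x :=
    Finset.sum_congr rfl fun y hy => by rw [((mem_fs h x y).1 hy).2]
  show ∑ y ∈ fs a b x, G (gg a b y) ≤ d * G x
  rw [h2, Finset.sum_const, nsmul_eq_mul]
  have h3 : (fs a b x).card ≤ d := by
    unfold fs
    refine (Multiset.toFinset_card_le _).trans ((Polynomial.card_roots' _).trans ?_)
    unfold fib
    refine (natDegree_sub_le _ _).trans (max_le ?_ ?_)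
    · exact (le_max_left _ _).trans h.deg.le
    · exact (natDegree_C_mul_le _ _).trans ((le_max_right _ _).trans h.deg.le)
  exact mul_le_mul_left (by exact_mod_cast h3) _

end Pool.Agent.H79.ES
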