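import Pool.Agent.H79.ES.EB

/-!
# Chapter EC (positive entropy): definitions

Idea (step (3) of think 635): if `ρ = 1` almost everywhere where `q = qs β P ≠ 0`, then near a critical preimage `c'` of `v = P 0` (local degree
`m ≥ 2`) `q` is close in `L^1` to `ρ β_0 f'^2 / (f - v)`, `ρ ∈ {0, 1}`, and to a holomorphic function (the poles near `c'` are negligible). So the holomorphic
function is close to `0` or to `m^2 A β_0 (z - c')^(m - 2)`; the second case has too much mass. So `nu (ball c' t) = o(t^m)`, and the same at the simple preimages; but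
`nu (ball v s) ~ 2 π |β_0| s` is the sum of the masses of the preimages.
-/

set_option autoImplicit false

open MeasureTheory Metric Set Polynomial Filter Topology

namespace Pool.Agent.H79.ES

open Pool.Agent.H61.TT Pool.Agent.H35.EX

variable {d : ℕ} {a b : Polynomial ℂ} {P β : ℕ → ℂ} {σ : ℕ → ℕ}

/-- `f = a / b` near `c'`: `f z = v + A (z - c')^m + ...` -/
structure Loc (a b : Polynomial ℂ) (c' v A : ℂ) (m : ℕ) (C r0 : ℝ) : Prop where
  rp : 0 < r0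
  m1 : 1 ≤ m
  An : A ≠ 0
  bb : ∀ z ∈ ball c' r0, b.eval z ≠ 0
  lo : ∀ z ∈ ball c' r0, ‖A‖ / 2 * ‖z - c'‖ ^ m ≤ ‖gg a b z - v‖
  up : ∀ ε : ℝ, 0 < ε → ∀ᶠ t : ℝ in 𝓝[>] 0, ∀ z ∈ ball c' t, ‖gg a b z - v‖ < (1 + ε) * ‖A‖ * t ^ m
  dl : ∀ z ∈ ball c' r0, ‖Pool.Agent.H61.TT.dg a b z‖ ≤ C * ‖z - c'‖ ^ (m - 1)
  uu : 2 ≤ m → ∀ ε : ℝ, 0 < ε → ∀ᶠ t : ℝ in 𝓝[>] 0, ∀ z ∈ ball c' t, z ≠ c' →
    ‖Pool.Agent.H61.TT.dg a b z ^ 2 / (gg a b z - v) - (m : ℂ) ^ 2 * A * (z - c') ^ (m - 2)‖ ≤ ε * t ^ (m - 2)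

/-- the part of `qs β P` with the poles outside of `ball c' (2 * t)` -/
noncomputable def qfar (β P : ℕ → ℂ) (c' : ℂ) (t : ℝ) (x : ℂ) : ℂ := by
  classical
  exact qs (fun k => if ‖P k - c'‖ < 2 * t then 0 else β k) P x

/-- the assumption of the contradiction: `q = f'^2 q ∘ f` where `q ≠ 0` -/
def Zer (a b : Polynomial ℂ) (β P : ℕ → ℂ) : Prop :=
  ∀ᵐ x : ℂ, qs β P x ≠ 0 → qs β P x = Pool.Agent.H61.TT.dg a b x ^ 2 * qs β P (gg a b x)

end Pool.Agent.H79.ES
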