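import Pool.Agent.H79.ES.CDf

/-!
# Chapter EC, module CIN: three integrals

PROOF. Translate to `x = 0` (`lintegral_sub_right_eq_self` on the indicator functions). Polar coordinates: `Complex.lintegral_comp_polarCoord_symm` as in the private theorem `atm_ker_zero` (H44/RR/ATM), or `∫⁻ x, f ‖x‖ = 2 π ∫⁻ r in Ioi 0, r f r`
(`MeasureTheory.integral_fun_norm_addHaar`, `Measure.addHaar`), with `∫ r in 0..R, r ^ (k + 1) = R ^ (k + 2) / (k + 2)`. `ci_le`: `‖z - p‖⁻¹ ≤ 1_(ball p r) ‖z - p‖⁻¹ + r⁻¹`: `2 π r + π r` (private theorem `atm_ker` in H44/RR/ATM, copy it).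
-/

set_option autoImplicit false

open MeasureTheory Metric Set Polynomial Filter Topology

namespace Pool.Agent.H79.ES

open Pool.Agent.H61.TT Pool.Agent.H35.EX

/-- polar coordinates -/
private theorem ci_polar (x : ℂ) {r : ℝ} {f : ℝ → ENNReal} (hf : Measurable f) :
    ∫⁻ z in ball x r, f ‖z - x‖ = ENNReal.ofReal (2 * Real.pi) * ∫⁻ t in Ioo 0 r, ENNReal.ofReal t * f t := by
  have h1 : ∫⁻ z in ball x r, f ‖z - x‖ = ∫⁻ z : ℂ, (Iio r).indicator f ‖z‖ := by
    rw [← lintegral_indicator measurableSet_ball]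
    rw [← lintegral_sub_right_eq_self (fun z : ℂ => (Iio r).indicator f ‖z‖) x]
    refine lintegral_congr fun z => ?_
    by_cases hz : z ∈ ball x r
    · rw [indicator_of_mem hz, indicator_of_mem]
      rw [mem_ball, dist_eq_norm] at hz
      exact hz
    · rw [indicator_of_notMem hz, indicator_of_notMem]
      rw [mem_ball, dist_eq_norm] at hz
      exact hz
  rw [h1, ← Complex.lintegral_comp_polarCoord_symm]
  have hmf : Measurable fun t : ℝ => ENNReal.ofReal t * (Iio r).indicator f t :=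
    ENNReal.measurable_ofReal.mul (hf.indicator measurableSet_Iio)
  have h2 : (∫⁻ q in polarCoord.target, ENNReal.ofReal q.1 • (Iio r).indicator f ‖Complex.polarCoord.symm q‖) =
      ∫⁻ q in polarCoord.target, (fun t : ℝ => ENNReal.ofReal t * (Iio r).indicator f t) q.1 * (fun _ : ℝ => (1 : ENNReal)) q.2 := by
    refine setLIntegral_congr_fun polarCoord.open_target.measurableSet fun q hq => ?_
    have hq1 : 0 < q.1 := hq.1
    simp only
    rw [Complex.norm_polarCoord_symm, abs_of_pos hq1, smul_eq_mul, mul_one]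
  rw [h2, polarCoord_target, Measure.volume_eq_prod, ← Measure.prod_restrict,
    lintegral_prod_mul hmf.aemeasurable measurable_const.aemeasurable]
  rw [lintegral_one, Measure.restrict_apply_univ, Real.volume_Ioo, mul_comm]
  congr 1
  · congr 1
    ring
  · have h3 : (fun t : ℝ => ENNReal.ofReal t * (Iio r).indicator f t) =
        (Iio r).indicator (fun t => ENNReal.ofReal t * f t) := by
      funext t
      by_cases ht : t ∈ Iio r
      · rw [indicator_of_mem ht, indicator_of_mem ht]
      · rw [indicator_of_notMem ht, indicator_of_notMem ht, mul_zero]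
    rw [h3, lintegral_indicator measurableSet_Iio, Measure.restrict_restrict measurableSet_Iio]
    congr 2
    ext t
    constructor
    · rintro ⟨h4, h5⟩
      exact ⟨h5, h4⟩
    · rintro ⟨h4, h5⟩
      exact ⟨h5, h4⟩

theorem ci_inv (x : ℂ) {r : ℝ} (hr : 0 < r) :
    ∫⁻ z in ball x r, ENNReal.ofReal (‖z - x‖⁻¹) = ENNReal.ofReal (2 * Real.pi * r) := by
  have h1 := ci_polar x (r := r) (f := fun t => ENNReal.ofReal t⁻¹) (ENNReal.measurable_ofReal.comp measurable_inv)
  rw [h1]
  have h2 : (∫⁻ t in Ioo 0 r, ENNReal.ofReal t * ENNReal.ofReal t⁻¹) = ∫⁻ t in Ioo 0 r, 1 := by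
    refine setLIntegral_congr_fun measurableSet_Ioo fun t ht => ?_
    have ht0 : 0 < t := ht.1
    rw [← ENNReal.ofReal_mul ht0.le, mul_inv_cancel₀ ht0.ne', ENNReal.ofReal_one]
  rw [h2, setLIntegral_one, Real.volume_Ioo, ← ENNReal.ofReal_mul (by positivity), sub_zero]

theorem ci_pow (x : ℂ) (k : ℕ) {r : ℝ} (hr : 0 < r) :
    ∫⁻ z in ball x r, ENNReal.ofReal (‖z - x‖ ^ k) = ENNReal.ofReal (2 * Real.pi * r ^ (k + 2) / (k + 2)) := by
  have h1 := ci_polar x (r := r) (f := fun t => ENNReal.ofReal (t ^ k))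
    (ENNReal.measurable_ofReal.comp (measurable_id.pow_const k))
  rw [h1]
  have h2 : (∫⁻ t in Ioo 0 r, ENNReal.ofReal t * ENNReal.ofReal (t ^ k)) = ∫⁻ t in Ioo 0 r, ENNReal.ofReal (t ^ (k + 1)) := by
    refine setLIntegral_congr_fun measurableSet_Ioo fun t ht => ?_
    have ht0 : 0 < t := ht.1
    rw [← ENNReal.ofReal_mul ht0.le, pow_succ']
  have hint : IntegrableOn (fun t : ℝ => t ^ (k + 1)) (Ioo 0 r) :=
    ((continuous_pow (k + 1)).integrableOn_Icc).mono_set Ioo_subset_Icc_self
  have h3 : (∫⁻ t in Ioo 0 r, ENNReal.ofReal (t ^ (k + 1))) = ENNReal.ofReal (r ^ (k + 2) / (k + 2)) := by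
    rw [← ofReal_integral_eq_lintegral_ofReal hint]
    · rw [← integral_Ioc_eq_integral_Ioo, ← intervalIntegral.integral_of_le hr.le, integral_pow]
      congr 1
      push_cast
      rw [zero_pow (by omega), sub_zero]
      congr 1
      ring
    · refine (ae_restrict_iff' measurableSet_Ioo).2 (Eventually.of_forall fun t ht => ?_)
      have ht0 : 0 < t := ht.1
      show 0 ≤ t ^ (k + 1)
      positivity
  rw [h2, h3, ← ENNReal.ofReal_mul (by positivity)]
  congr 1
  ring

theorem ci_le (x p : ℂ) {r : ℝ} (hr : 0 < r) :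
    ∫⁻ z in ball x r, ENNReal.ofReal (‖z - p‖⁻¹) ≤ ENNReal.ofReal (3 * Real.pi * r) := by
  have h1 : ∀ z : ℂ, ENNReal.ofReal (‖z - p‖⁻¹) ≤
      (ball p r).indicator (fun z => ENNReal.ofReal (‖z - p‖⁻¹)) z + ENNReal.ofReal r⁻¹ := by
    intro z
    by_cases h : z ∈ ball p r
    · rw [indicator_of_mem h]
      exact le_self_add
    · rw [indicator_of_notMem h, zero_add]
      rw [mem_ball, dist_eq_norm, not_lt] at h
      exact ENNReal.ofReal_le_ofReal (inv_anti₀ hr h)
  calc ∫⁻ z in ball x r, ENNReal.ofReal (‖z - p‖⁻¹)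
      ≤ ∫⁻ z in ball x r, ((ball p r).indicator (fun z => ENNReal.ofReal (‖z - p‖⁻¹)) z + ENNReal.ofReal r⁻¹) :=
        lintegral_mono fun z => h1 z
    _ = (∫⁻ z in ball x r, (ball p r).indicator (fun z => ENNReal.ofReal (‖z - p‖⁻¹)) z) +
        ∫⁻ z in ball x r, ENNReal.ofReal r⁻¹ := lintegral_add_right _ measurable_const
    _ ≤ (∫⁻ z, (ball p r).indicator (fun z => ENNReal.ofReal (‖z - p‖⁻¹)) z) + ENNReal.ofReal (Real.pi * r) := by
        refine add_le_add (setLIntegral_le_lintegral _ _) ?_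
        rw [setLIntegral_const, Complex.volume_ball]
        have h2 : ((NNReal.pi : NNReal) : ENNReal) = ENNReal.ofReal Real.pi := by
          rw [← NNReal.coe_real_pi, ENNReal.ofReal_coe_nnreal]
        rw [h2, ← ENNReal.ofReal_pow hr.le, ← ENNReal.ofReal_mul (by positivity),
          ← ENNReal.ofReal_mul (by positivity)]
        apply le_of_eq
        congr 1
        field_simp
    _ = ENNReal.ofReal (2 * Real.pi * r) + ENNReal.ofReal (Real.pi * r) := by
        rw [lintegral_indicator measurableSet_ball, ci_inv p hr]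
    _ = ENNReal.ofReal (3 * Real.pi * r) := by
        rw [← ENNReal.ofReal_add (by positivity) (by positivity)]
        congr 1
        ring

end Pool.Agent.H79.ES
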