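import Pool.Agent.H79.ES.CPO
import Pool.Agent.H79.ES.CIN
import Pool.Agent.H79.ES.CCV
import Pool.Agent.H79.ES.CAA

/-!
# Chapter EC, module CFR: near a critical preimage `c'` of `P 0` the far part is close to `ρ β_0 f'^2 / (f - v)`

PROOF. `qfar_diff`: on `ball c' (2 t)` the series `∑ β' k / (z - P k)` (`β' k = 0` for the near poles) converges locally uniformly: on `ball c' r`, `r < 2 t`, the terms are at most `‖β k‖ / (2 t - r)` (`differentiableOn_tsum_of_summable_norm`; every term is differentiable on the ball: `β' k = 0` or `P k ∉ ball`).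
`ce_near`: almost everywhere the series of `qs β P` converges absolutely (`ae_sum`, H35/EX/SerA, for `‖β‖` summable), so `qs β P x - qfar x = ∑' k, near β k / (x - P k)` (`Summable.tsum_sub`), its `‖ ‖ₑ` is at most `∑' ‖β k‖ₑ ofReal ‖x - P k‖⁻¹` over the near `k` (`enorm_tsum_le_tsum_enorm`);
integrate (`lintegral_tsum`, `ci_le`): `≤ 3 π t ∑_near ‖β k‖ ≤ 3 π t * ε' t^(m - 1)` by `cpo`, `t * t^(m - 1) = t^m` (`m ≥ 1`).
`ce_far`: put `r y = qs β P y - β 0 / (y - P 0)`, `ρ x = if qs β P x = 0 then 0 else 1`. For almost every `x ∈ ball c' t` (`t < r0`: `b.eval x ≠ 0`; `x ≠ c'`, so `gg a b x ≠ P 0` by `lo`): `‖qs β P x - ρ x * (β 0 * (dg x ^ 2 / (gg x - P 0)))‖ ≤ ‖dg x‖ ^ 2 ‖r (gg x)‖` (if `qs β P x = 0` the left side is `0`, otherwise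
it is equal by `hz`). `ball c' t ⊆ pre a b (ball (P 0) (2 ‖A‖ t^m))` (`hl.up` with `ε = 1`, `hl.bb`), so by `ccv` (`G = ‖r ·‖ₑ`) and `ca1` (`k = 0`, `s = 2 ‖A‖ t^m → 0+`) the integral is at most `d * ofReal (ε' * 2 ‖A‖ t^m)`. Add `ce_near` (`‖qfar - ..‖ ≤ ‖qs - qfar‖ + ‖qs - ..‖`).
-/

set_option autoImplicit false

open MeasureTheory Metric Set Polynomial Filter Topology

namespace Pool.Agent.H79.ES

open Pool.Agent.H61.TT Pool.Agent.H35.EX

variable {d : ℕ} {a b : Polynomial ℂ} {P β : ℕ → ℂ} {σ : ℕ → ℕ}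

private theorem cfr_sb (h : PS d a b P β) : Summable fun k => ‖β k‖ := by
  refine Summable.of_nonneg_of_le (fun k => norm_nonneg _) (fun k => ?_) h.wt
  have h1 : 0 ≤ ‖β k‖ * ‖P k‖ ^ 2 := by positivity
  nlinarith [norm_nonneg (β k)]

theorem qfar_diff (h : PS d a b P β) (c' : ℂ) (t : ℝ) :
    DifferentiableOn ℂ (qfar β P c' t) (ball c' (2 * t)) := by
  intro x hx
  rw [mem_ball, dist_eq_norm] at hx
  obtain ⟨r, hr1, hr2⟩ := exists_between hx
  have hxr : x ∈ ball c' r := by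
    rw [mem_ball, dist_eq_norm]
    exact hr1
  have hd : DifferentiableOn ℂ (qfar β P c' t) (ball c' r) := by
    unfold qfar qs
    refine Complex.differentiableOn_tsum_of_summable_norm (u := fun k => ‖β k‖ / (2 * t - r))
      ((cfr_sb h).div_const _) ?_ isOpen_ball ?_
    · intro k
      by_cases hk : ‖P k - c'‖ < 2 * t
      · simp only [if_pos hk, zero_div]
        exact differentiableOn_const 0
      · simp only [if_neg hk]
        intro z hz
        rw [mem_ball, dist_eq_norm] at hz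
        have hne : z - P k ≠ 0 := by
          intro h0
          rw [sub_eq_zero] at h0
          rw [← h0] at hk
          linarith
        have h1 : DifferentiableAt ℂ (fun w : ℂ => β k / (w - P k)) z :=
          (differentiableAt_const (β k)).fun_div (differentiableAt_id.sub_const (P k)) hne
        exact h1.differentiableWithinAt
    · intro k z hz
      rw [mem_ball, dist_eq_norm] at hz
      have h0 : 0 < 2 * t - r := by linarith
      by_cases hk : ‖P k - c'‖ < 2 * t
      · simp only [if_pos hk]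
        rw [zero_div, norm_zero]
        positivity
      · simp only [if_neg hk]
        push Not at hk
        have h1 : 2 * t - r ≤ ‖z - P k‖ := by
          have h2 : ‖P k - c'‖ ≤ ‖z - c'‖ + ‖z - P k‖ := by
            have : P k - c' = (z - c') - (z - P k) := by ring
            rw [this]
            exact norm_sub_le _ _
          linarith
        rw [norm_div]
        gcongr
  exact (hd.differentiableAt (isOpen_ball.mem_nhds hxr)).differentiableWithinAt

theorem qfar_meas (β P : ℕ → ℂ) (c' : ℂ) (t : ℝ) : Measurable (qfar β P c' t) := by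
  unfold qfar
  exact qs_meas _ _

theorem ce_near (h : PS d a b P β) (ho : PO d a b P β σ) {c' v A : ℂ} {m : ℕ} {C r0 : ℝ} (hl : Loc a b c' v A m C r0)
    (hc : ∀ k, P k ≠ c') {ε : ℝ} (hε : 0 < ε) :
    ∀ᶠ t : ℝ in 𝓝[>] 0, ∫⁻ x in ball c' t, ‖qs β P x - qfar β P c' t x‖ₑ ≤ ENNReal.ofReal (ε * t ^ m) := by
  have hε' : 0 < ε / (3 * Real.pi) := by positivity
  filter_upwards [cpo h ho hl hc hε', self_mem_nhdsWithin] with t ht ht0
  have ht0' : 0 < t := ht0
  have hb := cfr_sb h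
  obtain ⟨nr, hnr⟩ : ∃ nr : ℕ → ℂ, nr = fun k => if ‖P k - c'‖ < 2 * t then β k else 0 := ⟨_, rfl⟩
  have hnn : ∀ k, ‖nr k‖ = if ‖P k - c'‖ < 2 * t then ‖β k‖ else 0 := by
    intro k
    rw [hnr]
    dsimp only
    split_ifs <;> simp
  have hnle : ∀ k, ‖nr k‖ ≤ ‖β k‖ := by
    intro k
    rw [hnn]
    split_ifs
    · exact le_rfl
    · exact norm_nonneg _
  have hns : Summable fun k => ‖nr k‖ := Summable.of_nonneg_of_le (fun k => norm_nonneg _) hnle hb
  have hnt : ∑' k, ‖nr k‖ ≤ ε / (3 * Real.pi) * t ^ (m - 1) := by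
    simp only [hnn]
    exact ht
  have hae : ∀ᵐ x : ℂ, ‖qs β P x - qfar β P c' t x‖ₑ ≤
      ∑' k, ENNReal.ofReal ‖nr k‖ * ENNReal.ofReal (‖x - P k‖⁻¹) := by
    filter_upwards [ae_sum (p := P) hb] with x hx
    have h1 : Summable fun k => (if ‖P k - c'‖ < 2 * t then 0 else β k) / (x - P k) := by
      refine Summable.of_norm_bounded hx.norm ?_
      intro k
      split_ifs
      · rw [zero_div, norm_zero]
        exact norm_nonneg _
      · exact le_rfl
    have h2 : qs β P x - qfar β P c' t x = ∑' k, nr k / (x - P k) := by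
      unfold qfar qs
      rw [← Summable.tsum_sub hx h1]
      refine tsum_congr fun k => ?_
      rw [hnr]
      dsimp only
      split_ifs <;> simp
    rw [h2]
    refine (enorm_tsum_le_tsum_enorm).trans (le_of_eq ?_)
    refine tsum_congr fun k => ?_
    rw [← ofReal_norm, norm_div, div_eq_mul_inv, ENNReal.ofReal_mul (norm_nonneg _)]
  calc ∫⁻ x in ball c' t, ‖qs β P x - qfar β P c' t x‖ₑ
      ≤ ∫⁻ x in ball c' t, ∑' k, ENNReal.ofReal ‖nr k‖ * ENNReal.ofReal (‖x - P k‖⁻¹) :=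
        lintegral_mono_ae (ae_restrict_of_ae hae)
    _ = ∑' k, ENNReal.ofReal ‖nr k‖ * ∫⁻ x in ball c' t, ENNReal.ofReal (‖x - P k‖⁻¹) := by
        rw [lintegral_tsum]
        · refine tsum_congr fun k => ?_
          rw [lintegral_const_mul' _ _ ENNReal.ofReal_ne_top]
        · intro k
          exact (measurable_const.mul
            ((measurable_id.sub_const (P k)).norm.inv.ennreal_ofReal)).aemeasurable
    _ ≤ ∑' k, ENNReal.ofReal ‖nr k‖ * ENNReal.ofReal (3 * Real.pi * t) := by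
        refine ENNReal.tsum_le_tsum fun k => ?_
        gcongr
        exact ci_le c' (P k) ht0'
    _ = ENNReal.ofReal (∑' k, ‖nr k‖) * ENNReal.ofReal (3 * Real.pi * t) := by
        rw [ENNReal.tsum_mul_right, ENNReal.ofReal_tsum_of_nonneg (fun k => norm_nonneg _) hns]
    _ ≤ ENNReal.ofReal (ε / (3 * Real.pi) * t ^ (m - 1)) * ENNReal.ofReal (3 * Real.pi * t) := by
        gcongr
    _ = ENNReal.ofReal (ε * t ^ m) := by
        rw [← ENNReal.ofReal_mul (by positivity)]
        congr 1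
        have hm : t ^ m = t ^ (m - 1) * t := by
          rw [← pow_succ, Nat.sub_add_cancel hl.m1]
        rw [hm]
        field_simp

open Classical in
theorem ce_far (h : PS d a b P β) (ho : PO d a b P β σ) (hz : Zer a b β P) {c' A : ℂ} {m : ℕ} {C r0 : ℝ}
    (hl : Loc a b c' (P 0) A m C r0) (hc : ∀ k, P k ≠ c') {ε : ℝ} (hε : 0 < ε) :
    ∀ᶠ t : ℝ in 𝓝[>] 0, ∫⁻ x in ball c' t, ‖qfar β P c' t x - (if qs β P x = 0 then 0 else 1) *
      (β 0 * (Pool.Agent.H61.TT.dg a b x ^ 2 / (gg a b x - P 0)))‖ₑ ≤ ENNReal.ofReal (ε * t ^ m) := by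
  have hA : 0 < ‖A‖ := norm_pos_iff.mpr hl.An
  have hd : (0 : ℝ) < d := by
    have := h.rat.hd
    exact_mod_cast (by omega : 0 < d)
  have hε2 : 0 < ε / 2 := by positivity
  have hε4 : 0 < ε / (4 * d * ‖A‖) := by positivity
  have htend : Tendsto (fun t : ℝ => 2 * ‖A‖ * t ^ m) (𝓝[>] 0) (𝓝[>] 0) := by
    refine tendsto_nhdsWithin_iff.mpr ⟨?_, ?_⟩
    · have h1 : Tendsto (fun t : ℝ => 2 * ‖A‖ * t ^ m) (𝓝 0) (𝓝 (2 * ‖A‖ * 0 ^ m)) := by
        have : Continuous (fun t : ℝ => 2 * ‖A‖ * t ^ m) := by fun_prop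
        exact this.tendsto 0
      have hm : m ≠ 0 := by have := hl.m1; omega
      rw [zero_pow hm, mul_zero] at h1
      exact h1.mono_left nhdsWithin_le_nhds
    · filter_upwards [self_mem_nhdsWithin] with t ht
      have ht' : 0 < t := ht
      exact mem_Ioi.mpr (by positivity)
  have hca := htend.eventually (ca1 h 0 hε4)
  have hr0 : ∀ᶠ t : ℝ in 𝓝[>] 0, t < r0 := by
    have : ∀ᶠ t : ℝ in 𝓝 0, t < r0 := (tendsto_id.eventually_lt_const hl.rp)
    exact this.filter_mono nhdsWithin_le_nhds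
  filter_upwards [ce_near h ho hl hc hε2, self_mem_nhdsWithin, hca, hl.up 1 one_pos, hr0] with
    t ht1 ht0 ht2 ht3 ht4
  have ht0' : 0 < t := ht0
  obtain ⟨R, hR⟩ : ∃ R : ℂ → ℂ, R = fun y => qs β P y - β 0 / (y - P 0) := ⟨_, rfl⟩
  have hRm : Measurable (fun y => ‖R y‖ₑ) := by
    rw [hR]
    exact ((qs_meas β P).sub (measurable_const.div (measurable_id.sub_const _))).enorm
  have hae : ∀ᵐ x : ℂ, x ∈ ball c' t → ‖qs β P x - (if qs β P x = 0 then 0 else 1) *
      (β 0 * (Pool.Agent.H61.TT.dg a b x ^ 2 / (gg a b x - P 0)))‖ₑ ≤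
      ‖R (gg a b x)‖ₑ * ENNReal.ofReal (‖Pool.Agent.H61.TT.dg a b x‖ ^ 2) := by
    filter_upwards [hz] with x hx _
    by_cases h0 : qs β P x = 0
    · rw [if_pos h0, h0]
      simp
    · rw [if_neg h0, one_mul]
      have h1 := hx h0
      have h2 : qs β P x - β 0 * (Pool.Agent.H61.TT.dg a b x ^ 2 / (gg a b x - P 0)) =
          R (gg a b x) * Pool.Agent.H61.TT.dg a b x ^ 2 := by
        rw [hR, h1]
        dsimp only
        ring
      rw [h2, ← ofReal_norm, ← ofReal_norm, norm_mul, norm_pow,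
        ENNReal.ofReal_mul (norm_nonneg _)]
  have hsub : ball c' t ⊆ pre a b (ball (P 0) (2 * ‖A‖ * t ^ m)) := by
    intro x hx
    refine ⟨hl.bb x (ball_subset_ball ht4.le hx), ?_⟩
    rw [mem_ball, dist_eq_norm]
    have := ht3 x hx
    calc ‖gg a b x - P 0‖ < (1 + 1) * ‖A‖ * t ^ m := this
      _ = 2 * ‖A‖ * t ^ m := by ring
  have hsec : ∫⁻ x in ball c' t, ‖qs β P x - (if qs β P x = 0 then 0 else 1) *
      (β 0 * (Pool.Agent.H61.TT.dg a b x ^ 2 / (gg a b x - P 0)))‖ₑ ≤
        ENNReal.ofReal (ε / 2 * t ^ m) := by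
    calc _ ≤ ∫⁻ x in ball c' t,
          ‖R (gg a b x)‖ₑ * ENNReal.ofReal (‖Pool.Agent.H61.TT.dg a b x‖ ^ 2) := by
          refine lintegral_mono_ae ?_
          exact (ae_restrict_iff' measurableSet_ball).2 hae
      _ ≤ ∫⁻ x in pre a b (ball (P 0) (2 * ‖A‖ * t ^ m)),
          ‖R (gg a b x)‖ₑ * ENNReal.ofReal (‖Pool.Agent.H61.TT.dg a b x‖ ^ 2) :=
          lintegral_mono_set hsub
      _ ≤ d * ∫⁻ x in ball (P 0) (2 * ‖A‖ * t ^ m), ‖R x‖ₑ :=
          ccv h.rat measurableSet_ball hRm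
      _ ≤ d * ENNReal.ofReal (ε / (4 * d * ‖A‖) * (2 * ‖A‖ * t ^ m)) := by
          gcongr
          rw [hR]
          exact ht2
      _ = ENNReal.ofReal (ε / 2 * t ^ m) := by
          rw [← ENNReal.ofReal_natCast, ← ENNReal.ofReal_mul hd.le]
          congr 1
          field_simp
          ring
  calc _ ≤ ∫⁻ x in ball c' t, (‖qs β P x - qfar β P c' t x‖ₑ +
          ‖qs β P x - (if qs β P x = 0 then 0 else 1) *
      (β 0 * (Pool.Agent.H61.TT.dg a b x ^ 2 / (gg a b x - P 0)))‖ₑ) := by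
        refine lintegral_mono fun x => ?_
        have h1 : ∀ u v w : ℂ, ‖v - w‖ₑ ≤ ‖u - v‖ₑ + ‖u - w‖ₑ := by
          intro u v w
          have : v - w = -(u - v) + (u - w) := by ring
          rw [this]
          exact (enorm_add_le _ _).trans (by rw [enorm_neg])
        exact h1 _ _ _
    _ = _ := lintegral_add_left ((qs_meas β P).sub (qfar_meas β P c' t)).enorm _
    _ ≤ ENNReal.ofReal (ε / 2 * t ^ m) + ENNReal.ofReal (ε / 2 * t ^ m) := add_le_add ht1 hsec
    _ = ENNReal.ofReal (ε * t ^ m) := by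
        rw [← ENNReal.ofReal_add (by positivity) (by positivity)]
        congr 1
        ring

end Pool.Agent.H79.ES
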