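import Pool.Agent.H79.ES.CDf

/-!
# Chapter EC, module CPO: the poles near a critical preimage of the first pole are light

PROOF. Let `N t = {k | ‖P k - c'‖ < 2 t}`. For `k ∈ N t`, `2 t < r0`, `k ≥ K` (`hB`, `ho.hB`): `‖β k‖ = ‖β (σ k)‖ ‖dg a b (P k)‖ ≤ C (2 t)^(m - 1) ‖β (σ k)‖`. Given `J`: for all small `t` all `k ∈ N t` satisfy `k ≥ K` and `σ k ≥ J` (only finitely many `k` with `k < K` or `σ k < J`, `σ` is injective;
none of these `P k` is `c'`, so they are at a positive distance). So `∑_(k ∈ N t) ‖β k‖ ≤ C 2^(m - 1) t^(m - 1) ∑_(k ∈ N t) ‖β (σ k)‖ ≤ C 2^(m - 1) t^(m - 1) ∑_(j ≥ J) ‖β j‖` (`σ` injective: `Summable.tsum_comp_le_tsum_of_injective` or `tsum_le_tsum_of_inj`), and the tail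
of a summable series tends to `0` (`tendsto_sum_nat_add`, `‖β‖` is summable by `h.wt`). (`C ≥ 0` may be assumed: replace `C` by `max C 0`.)
-/

set_option autoImplicit false

open MeasureTheory Metric Set Polynomial Filter Topology

namespace Pool.Agent.H79.ES

open Pool.Agent.H61.TT Pool.Agent.H35.EX

variable {d : ℕ} {a b : Polynomial ℂ} {P β : ℕ → ℂ} {σ : ℕ → ℕ}

theorem cpo (h : PS d a b P β) (ho : PO d a b P β σ) {c' v A : ℂ} {m : ℕ} {C r0 : ℝ} (hl : Loc a b c' v A m C r0)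
    (hc : ∀ k, P k ≠ c') {ε : ℝ} (hε : 0 < ε) :
    ∀ᶠ t : ℝ in 𝓝[>] 0, ∑' k, (if ‖P k - c'‖ < 2 * t then ‖β k‖ else 0) ≤ ε * t ^ (m - 1) := by
  have hsum : Summable fun k => ‖β k‖ := by
    refine Summable.of_nonneg_of_le (fun k => norm_nonneg _) (fun k => ?_) h.wt
    have h1 : (1 : ℝ) ≤ 1 + ‖P k‖ ^ 2 := by
      have := sq_nonneg ‖P k‖
      linarith
    exact le_mul_of_one_le_right (norm_nonneg _) h1
  obtain ⟨C1, hC1, hCC⟩ : ∃ C1 : ℝ, 0 < C1 ∧ C ≤ C1 :=
    ⟨max C 0 + 1, by positivity, by linarith [le_max_left C 0]⟩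
  have hδ : 0 < ε / (C1 * 2 ^ (m - 1)) := by positivity
  -- the tail
  obtain ⟨J, hJ⟩ := ((tendsto_sum_nat_add fun k => ‖β k‖).eventually
    (gt_mem_nhds hδ)).exists
  obtain ⟨K, hK⟩ := eventually_atTop.1 ho.hB
  -- the exceptional set
  have hF : {k | k < K ∨ σ k < J}.Finite := by
    have h1 : {k | k < K ∨ σ k < J} = Set.Iio K ∪ σ ⁻¹' Set.Iio J := by
      ext k
      rfl
    rw [h1]
    exact (Set.finite_Iio K).union ((Set.finite_Iio J).preimage ho.hσ.injOn)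
  have hF1 : ∀ᶠ t : ℝ in 𝓝[>] 0, ∀ k ∈ {k | k < K ∨ σ k < J}, 2 * t < ‖P k - c'‖ := by
    rw [eventually_all_finite hF]
    intro k _
    have hpos : 0 < ‖P k - c'‖ / 2 := by
      have := norm_pos_iff.2 (sub_ne_zero.2 (hc k))
      positivity
    filter_upwards [Ioo_mem_nhdsGT hpos] with t ht
    have := ht.2
    linarith
  have hr : 0 < r0 / 2 := by
    have := hl.rp
    positivity
  filter_upwards [hF1, Ioo_mem_nhdsGT hr] with t ht ht2
  have ht0 : 0 < t := ht2.1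
  have htr : 2 * t < r0 := by
    have := ht2.2
    linarith
  have hterm : ∀ k, (if ‖P k - c'‖ < 2 * t then ‖β k‖ else 0) ≤
      C1 * (2 * t) ^ (m - 1) * (if J ≤ σ k then ‖β (σ k)‖ else 0) := by
    intro k
    by_cases hk : ‖P k - c'‖ < 2 * t
    · have hkF : ¬ (k < K ∨ σ k < J) := fun hkF => absurd (ht k hkF) (not_lt.2 hk.le)
      push Not at hkF
      rw [if_pos hk, if_pos hkF.2, ← hK k hkF.1, norm_mul]
      have h1 := hl.dl (P k) (by
        rw [mem_ball, dist_eq_norm]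
        linarith)
      have h2 : ‖P k - c'‖ ^ (m - 1) ≤ (2 * t) ^ (m - 1) :=
        pow_le_pow_left₀ (norm_nonneg _) hk.le _
      have h3 : ‖Pool.Agent.H61.TT.dg a b (P k)‖ ≤ C1 * (2 * t) ^ (m - 1) :=
        h1.trans (mul_le_mul hCC h2 (by positivity) hC1.le)
      rw [mul_comm]
      exact mul_le_mul_of_nonneg_right h3 (norm_nonneg _)
    · rw [if_neg hk]
      have : 0 ≤ (if J ≤ σ k then ‖β (σ k)‖ else 0) := by
        split_ifs
        · exact norm_nonneg _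
        · exact le_rfl
      positivity
  obtain ⟨g, hg⟩ : ∃ g : ℕ → ℝ, ∀ j, g j = if J ≤ j then ‖β j‖ else 0 := ⟨_, fun _ => rfl⟩
  have hg0 : ∀ j, 0 ≤ g j := by
    intro j
    rw [hg]
    split_ifs
    · exact norm_nonneg _
    · exact le_rfl
  have hgs : Summable g := by
    refine Summable.of_nonneg_of_le hg0 (fun j => ?_) hsum
    rw [hg]
    split_ifs
    · exact le_rfl
    · exact norm_nonneg _
  have hgt : ∑' j, g j < ε / (C1 * 2 ^ (m - 1)) := by
    have h1 := hgs.sum_add_tsum_nat_add J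
    have h2 : ∑ j ∈ Finset.range J, g j = 0 := by
      refine Finset.sum_eq_zero fun j hj => ?_
      rw [hg, if_neg (by rw [Finset.mem_range] at hj; omega)]
    have h3 : ∀ j, g (j + J) = ‖β (j + J)‖ := fun j => by
      rw [hg, if_pos (by omega)]
    rw [h2, zero_add] at h1
    rw [← h1]
    simp only [h3]
    exact hJ
  have hgc : ∑' k, g (σ k) ≤ ∑' j, g j := tsum_comp_le_tsum_of_inj hgs hg0 ho.hσ
  have hgcs : Summable fun k => g (σ k) := hgs.comp_injective ho.hσ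
  have hterm' : ∀ k, (if ‖P k - c'‖ < 2 * t then ‖β k‖ else 0) ≤
      C1 * (2 * t) ^ (m - 1) * g (σ k) := by
    intro k
    rw [hg]
    exact hterm k
  have hs1 : Summable fun k => (if ‖P k - c'‖ < 2 * t then ‖β k‖ else 0) := by
    refine Summable.of_nonneg_of_le (fun k => ?_) hterm' (hgcs.mul_left _)
    split_ifs
    · exact norm_nonneg _
    · exact le_rfl
  calc ∑' k, (if ‖P k - c'‖ < 2 * t then ‖β k‖ else 0)
      ≤ ∑' k, C1 * (2 * t) ^ (m - 1) * g (σ k) := hs1.tsum_le_tsum hterm' (hgcs.mul_left _)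
    _ = C1 * (2 * t) ^ (m - 1) * ∑' k, g (σ k) := tsum_mul_left
    _ ≤ C1 * (2 * t) ^ (m - 1) * (ε / (C1 * 2 ^ (m - 1))) :=
        mul_le_mul_of_nonneg_left (hgc.trans hgt.le) (by positivity)
    _ = ε * t ^ (m - 1) := by
        rw [mul_pow]
        field_simp

end Pool.Agent.H79.ES
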