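import Pool.Agent.H79.ES.EAM

/-!
# Border of chapter 1 (owner: helper91): from a vanishing functional to the sum of poles

Let `v k = it v0 (k + 1) c`, `B k = 1 / trD v0 k (v 0)`, `f = a / b`, `K_y(z) = 1 / (f'(y)^2 (y - z))`. The tangent vectors
`X ∘ f - f' X` (`X` of degree at most `2`) and the telescoping sum give, as `c, α, γ` are
distinct, `a2 = a1 f''(c)`, `a3 = a2 f'(α)`, `a3 f'(γ) = 0` (EAD). The kernel (`f'(z) ∑_(f y = x) K_y(z) - 1 / (x - f z)` is `η_x / b^2`) then says that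
`R(x) = ∑ B k / (x - v k) - a2 / (x - c) - a3 / (x - α)` is fixed by the push forward; `b^2, a b` give the two moments (EAP). So `R` is integrable and the masses of
`|R| dm` are invariant (the sequence of poles need not be injective, the weights may vanish): `∫_(ball c t) |R| ≤ ∫_(ball v_0 (ε t)) |R| ≤ 3 π ε t ∑ |weights|` for small `t`, but
`∫_(ball c t) |R| ≥ 2 π |a2| t - o(t)` (`c` is no `v k` and not `α`): `a2 = 0` (EAM), hence `a3 = 0`.
`van_red` (also for finite orbits, used in `trans_fin`); `ps_of_van`: `P = v`, `β = B` (injective because the orbit is infinite).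
-/

set_option autoImplicit false

open MeasureTheory Metric Set Polynomial Filter Topology

namespace Pool.Agent.H79.ES

open Pool.Agent.H44.Fatou Pool.Agent.H32.BT Pool.Agent.H79.Eul Pool.Agent.H79.Par Pool.Agent.H61.TT
open Pool.Agent.H35.EX

/-- the poles -/
noncomputable def Pv {d : ℕ} (v0 : E d) (c : ℂ) (k : ℕ) : ℂ := it v0 (k + 1) c

/-- the residues -/
noncomputable def Bv {d : ℕ} (v0 : E d) (c : ℂ) (k : ℕ) : ℂ := 1 / trD v0 k (it v0 1 c)

private theorem ea_front {d : ℕ} (v0 : E d) (c : ℂ) (k : ℕ) :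
    it v0 k (it v0 1 c) = it v0 (k + 1) c := by
  rw [it_front v0 k c, it_succ v0 0 c]
  rfl

private theorem ea_pv {d : ℕ} {v0 : E d} {c α γ : ℂ} (hR : RatD d (pol v0.1) (pol v0.2))
    (h : Ch v0 c α γ) {a1 a2 a3 : ℂ}
    (hvan : ∀ w : E d, ∑' k, xi v0 w (it v0 k c) / trD v0 k (it v0 1 c) =
      a1 * deriv (xi v0 w) c + a2 * xi v0 w α + a3 * xi v0 w γ) :
    PV d (pol v0.1) (pol v0.2) (fun k => it v0 k c) (Bv v0 c) α γ a1 a2 a3 := by
  have hone : ∀ z : ℂ, gg (pol v0.1) (pol v0.2) z = it v0 1 z := fun z => by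
    rw [it_succ v0 0 z]
    rfl
  refine ⟨hR, fun k => (it_succ v0 k c).symm, fun k => ?_, ?_, ?_, fun k => ?_, ?_, ?_, ?_, ?_,
    ?_, fun η hη => ?_⟩
  · rw [← ev_pol]
    exact h.cr.den k
  · show Pool.Agent.H61.TT.dg (pol v0.1) (pol v0.2) c = 0
    rw [← dg_eq, h.cr.crit, zero_div]
  · show 1 / trD v0 0 (it v0 1 c) = 1
    simp [trD]
  · show 1 / trD v0 (k + 1) (it v0 1 c) *
      Pool.Agent.H61.TT.dg (pol v0.1) (pol v0.2) (it v0 (k + 1) c) = 1 / trD v0 k (it v0 1 c)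
    have h1 := trD_succ v0 k (it v0 1 c)
    rw [ea_front] at h1
    have h2 := h.cr.tr (k + 1)
    have h3 := h.cr.tr k
    rw [h1] at h2
    have h4 := left_ne_zero_of_mul h2
    rw [h1]
    field_simp
  · refine h.cr.sm.congr fun k => ?_
    show (1 + ‖it v0 (k + 1) c‖ ^ 2) / ‖trD v0 k (it v0 1 c)‖ =
      ‖1 / trD v0 k (it v0 1 c)‖ * (1 + ‖it v0 (k + 1) c‖ ^ 2)
    rw [norm_div, norm_one]
    ring
  · rw [← ev_pol]
    exact h.a1
  · rw [hone]
    exact h.a2
  · rw [← ev_pol]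
    exact h.g1
  · rw [hone]
    exact h.g2
  · obtain ⟨w, hw⟩ := xi_surj hR hη
    have h1 := hvan w
    have h2 : xi v0 w = fun z => η.eval z / (pol v0.2).eval z ^ 2 := funext hw
    rw [h2] at h1
    rw [← show (it v0 0 c) = c from rfl] at h1
    rw [← h1]
    exact tsum_congr fun k => one_div_mul_eq_div _ _

theorem van_red {d : ℕ} {v0 : E d} {c α γ : ℂ} (hR : RatD d (pol v0.1) (pol v0.2)) (h : Ch v0 c α γ)
    {a1 a2 a3 : ℂ} (hvan : ∀ w : E d, ∑' k, xi v0 w (it v0 k c) / trD v0 k (it v0 1 c) =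
      a1 * deriv (xi v0 w) c + a2 * xi v0 w α + a3 * xi v0 w γ) :
    a2 = 0 ∧ a3 = 0 ∧ (a1 = 0 ∨ deriv (Pool.Agent.H61.TT.dg (pol v0.1) (pol v0.2)) c = 0) ∧
      ∑' k, Bv v0 c k = 0 ∧ ∑' k, Bv v0 c k * Pv v0 c k = 0 ∧
      ∀ᵐ x : ℂ, qs (Bv v0 c) (Pv v0 c) x = ∑ y ∈ fs (pol v0.1) (pol v0.2) x,
        qs (Bv v0 c) (Pv v0 c) y / Pool.Agent.H61.TT.dg (pol v0.1) (pol v0.2) y ^ 2 := by
  have hpv := ea_pv hR h hvan
  have h2 := pv_a2 hpv
  have h3 := pv_r2 hpv
  rw [h2, zero_mul] at h3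
  have h1 := pv_r1 hpv
  rw [h2] at h1
  have e0 := pv_m0 hpv
  have e1 := pv_m1 hpv
  rw [h2, h3, add_zero] at e0
  rw [h2, h3, zero_mul, zero_mul, add_zero] at e1
  refine ⟨h2, h3, mul_eq_zero.1 h1.symm, e0, e1, ?_⟩
  have e2 : pvR (fun k => it v0 k c) (Bv v0 c) α a2 a3 = qs (Bv v0 c) (Pv v0 c) := by
    funext x
    unfold pvR
    rw [h2, h3, zero_div, zero_div, sub_zero, sub_zero]
    rfl
  have e3 := pv_push hpv
  rw [e2] at e3
  exact e3

private theorem ea_range {f : ℂ → ℂ} {x : ℕ → ℂ} (ho : ∀ k, f (x k) = x (k + 1))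
    (hinf : (Set.range x).Infinite) : Function.Injective x := by
  by_contra hcon
  have h1 : ∃ u v : ℕ, u < v ∧ x u = x v := by
    unfold Function.Injective at hcon
    push Not at hcon
    obtain ⟨u, v, huv, hne⟩ := hcon
    rcases lt_or_gt_of_ne hne with h | h
    · exact ⟨u, v, h, huv⟩
    · exact ⟨v, u, h, huv.symm⟩
  obtain ⟨u, v, huv, hxuv⟩ := h1
  have hper : ∀ t : ℕ, x (u + t) = x (v + t) := by
    intro t
    induction t with
    | zero => exact hxuv
    | succ t ih => rw [← add_assoc, ← add_assoc, ← ho, ← ho, ih]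
  apply hinf
  have hsub : Set.range x ⊆ x '' (Finset.range v : Set ℕ) := by
    have h2 : ∀ n : ℕ, x n ∈ x '' (Finset.range v : Set ℕ) := by
      intro n
      induction n using Nat.strong_induction_on with
      | _ n ih =>
        by_cases hn : n < v
        · exact ⟨n, by simpa using hn, rfl⟩
        · have h3 := hper (n - v)
          have h4 : v + (n - v) = n := by omega
          rw [h4] at h3
          rw [← h3]
          exact ih (u + (n - v)) (by omega)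
    rintro _ ⟨n, rfl⟩
    exact h2 n
  exact ((Finset.range v).finite_toSet.image x).subset hsub

theorem ps_of_van {d : ℕ} {v0 : E d} {c α γ : ℂ} (hR : RatD d (pol v0.1) (pol v0.2)) (h : Ch v0 c α γ)
    (hinf : (Set.range fun k => it v0 (k + 1) c).Infinite) {a1 a2 a3 : ℂ}
    (hvan : ∀ w : E d, ∑' k, xi v0 w (it v0 k c) / trD v0 k (it v0 1 c) =
      a1 * deriv (xi v0 w) c + a2 * xi v0 w α + a3 * xi v0 w γ) :
    ∃ P β : ℕ → ℂ, PS d (pol v0.1) (pol v0.2) P β ∧ PO d (pol v0.1) (pol v0.2) P β Nat.succ := by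
  have hpv := ea_pv hR h hvan
  obtain ⟨-, -, -, h0, h1, hpush⟩ := van_red hR h hvan
  refine ⟨Pv v0 c, Bv v0 c, ⟨hR, ?_, pv_B hpv, hpv.sm, h0, h1, hpush⟩,
    ⟨fun k => hpv.bb (k + 1), fun k => hpv.orb (k + 1), Eventually.of_forall fun k => hpv.hB k,
      fun k => h.cr.reg k, Nat.succ_injective, fun k => Nat.succ_ne_zero k⟩⟩
  exact ea_range (f := gg (pol v0.1) (pol v0.2)) (fun k => hpv.orb (k + 1)) hinf

end Pool.Agent.H79.ES
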