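import Pool.Agent.H79.ES.EDf
import Pool.Agent.H91.CS.TPOL
import Pool.Agent.H91.CS.TLAG
import Pool.Agent.H44.RR.CNT

/-!
# Module EAD: the vanishing functional: elementary consequences and the relations between the coefficients

`PV`: the abstract form of the vanishing functional. `pv_rel`: the numerators `(a - u b)(a - w b) - W (z - u)(z - w)` give `X ∘ f - f' X` with
`X = (z - u)(z - w)`; the series telescopes; the derivative at `p 0` is `- f''(p 0) X(p 0)`.
-/

set_option autoImplicit false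

open MeasureTheory Metric Set Polynomial Filter Topology

namespace Pool.Agent.H79.ES

open Pool.Agent.H61.TT Pool.Agent.H35.EX

/-- the abstract form of a vanishing functional along the orbit `p` of a critical point `p 0`, `γ ↦ α ↦ p 0` -/
structure PV (d : ℕ) (a b : Polynomial ℂ) (p B : ℕ → ℂ) (α γ a1 a2 a3 : ℂ) : Prop where
  rat : RatD d a b
  orb : ∀ k, gg a b (p k) = p (k + 1)
  bb : ∀ k, b.eval (p k) ≠ 0
  cr : Pool.Agent.H61.TT.dg a b (p 0) = 0
  B0 : B 0 = 1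
  hB : ∀ k, B (k + 1) * Pool.Agent.H61.TT.dg a b (p (k + 1)) = B k
  sm : Summable fun k => ‖B k‖ * (1 + ‖p (k + 1)‖ ^ 2)
  bα : b.eval α ≠ 0
  gα : gg a b α = p 0
  bγ : b.eval γ ≠ 0
  gγ : gg a b γ = α
  van : ∀ η : Polynomial ℂ, η.natDegree ≤ 2 * d →
    ∑' k, B k * (η.eval (p k) / b.eval (p k) ^ 2) =
      a1 * deriv (fun z => η.eval z / b.eval z ^ 2) (p 0) + a2 * (η.eval α / b.eval α ^ 2) +
        a3 * (η.eval γ / b.eval γ ^ 2)

variable {d : ℕ} {a b : Polynomial ℂ} {p B : ℕ → ℂ} {α γ a1 a2 a3 : ℂ}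

theorem pv_B (h : PV d a b p B α γ a1 a2 a3) (k : ℕ) : B k ≠ 0 := by
  induction k with
  | zero =>
    rw [h.B0]
    exact one_ne_zero
  | succ k ih =>
    rw [← h.hB k] at ih
    exact left_ne_zero_of_mul ih

theorem pv_dg (h : PV d a b p B α γ a1 a2 a3) (k : ℕ) :
    Pool.Agent.H61.TT.dg a b (p (k + 1)) ≠ 0 := by
  have h1 := pv_B h k
  rw [← h.hB k] at h1
  exact right_ne_zero_of_mul h1

theorem pv_ne (h : PV d a b p B α γ a1 a2 a3) (k : ℕ) : p (k + 1) ≠ p 0 := by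
  intro h1
  apply pv_dg h k
  rw [h1]
  exact h.cr

theorem pv_α (h : PV d a b p B α γ a1 a2 a3) (k : ℕ) : α ≠ p k := by
  intro h1
  apply pv_ne h k
  rw [← h.orb k, ← h1, h.gα]

theorem pv_γ (h : PV d a b p B α γ a1 a2 a3) (k : ℕ) : γ ≠ p k := by
  intro h1
  apply pv_α h (k + 1)
  rw [← h.orb k, ← h1, h.gγ]

theorem pv_γα (h : PV d a b p B α γ a1 a2 a3) : γ ≠ α := by
  intro h1
  apply pv_α h 0
  rw [← h.gα, ← h1, h.gγ]
  exact h1

theorem pv_eta (h : PV d a b p B α γ a1 a2 a3) {η : Polynomial ℂ} (hη : η.natDegree ≤ 2 * d) :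
    Summable fun k => B k * (η.eval (p k) / b.eval (p k) ^ 2) := by
  obtain ⟨K, hK0, hK⟩ := Pool.Agent.H91.CS.eta_bound h.rat hη
  refine Summable.of_norm_bounded (g := fun k => K * (‖B k‖ * (1 + ‖p (k + 1)‖ ^ 2)))
    (h.sm.mul_left K) fun k => ?_
  have h1 := hK (p k) (h.bb k)
  rw [h.orb k] at h1
  rw [norm_mul]
  calc ‖B k‖ * ‖η.eval (p k) / b.eval (p k) ^ 2‖
      ≤ ‖B k‖ * (K * (1 + ‖p (k + 1)‖ ^ 2)) := mul_le_mul_of_nonneg_left h1 (norm_nonneg _)
    _ = _ := by ring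

theorem pv_sB (h : PV d a b p B α γ a1 a2 a3) : Summable fun k => ‖B k‖ := by
  refine Summable.of_nonneg_of_le (fun k => norm_nonneg _) (fun k => ?_) h.sm
  nlinarith [norm_nonneg (B k), mul_nonneg (norm_nonneg (B k)) (sq_nonneg ‖p (k + 1)‖)]

/-- numerators of tangent vectors `X ∘ f - f' X`, `X = (z - u) (z - w)` -/
private noncomputable def et (a b : Polynomial ℂ) (u w : ℂ) : Polynomial ℂ :=
  (a - C u * b) * (a - C w * b) - ww a b * ((X - C u) * (X - C w))

private theorem et_deg (h : RatD d a b) (u w : ℂ) : (et a b u w).natDegree ≤ 2 * d := by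
  have hd := h.hd
  have ha : a.natDegree ≤ d := by rw [← h.deg]; exact le_max_left _ _
  have hb : b.natDegree ≤ d := by rw [← h.deg]; exact le_max_right _ _
  have h1 : ∀ u : ℂ, (a - C u * b).natDegree ≤ d := fun u =>
    (natDegree_sub_le _ _).trans (max_le ha ((natDegree_C_mul_le _ _).trans hb))
  unfold et
  refine (natDegree_sub_le _ _).trans (max_le ?_ ?_)
  · refine natDegree_mul_le.trans ?_
    have := h1 u
    have := h1 w
    omega
  · refine natDegree_mul_le.trans ?_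
    have h2 := Pool.Agent.H44.RR.ww_deg h
    have h3 : ((X - C u) * (X - C w) : Polynomial ℂ).natDegree ≤ 2 := by
      refine natDegree_mul_le.trans ?_
      rw [natDegree_X_sub_C, natDegree_X_sub_C]
    omega

private theorem et_eval (u w : ℂ) {z : ℂ} (hz : b.eval z ≠ 0) :
    (et a b u w).eval z / b.eval z ^ 2 =
      (gg a b z - u) * (gg a b z - w) - Pool.Agent.H61.TT.dg a b z * ((z - u) * (z - w)) := by
  unfold et gg Pool.Agent.H61.TT.dg
  simp only [eval_sub, eval_mul, eval_C, eval_X]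
  field_simp

/-- the series of a telescoping tangent vector vanishes -/
private theorem et_sum (h : PV d a b p B α γ a1 a2 a3) (u w : ℂ) :
    ∑' k, B k * ((et a b u w).eval (p k) / b.eval (p k) ^ 2) = 0 := by
  have hX : Summable fun k => B k * ((p (k + 1) - u) * (p (k + 1) - w)) := by
    refine Summable.of_norm_bounded
      (g := fun k => (1 + ‖u‖) * (1 + ‖w‖) * 2 * (‖B k‖ * (1 + ‖p (k + 1)‖ ^ 2)))
      (h.sm.mul_left _) fun k => ?_
    rw [norm_mul, norm_mul]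
    have e1 : ‖p (k + 1) - u‖ ≤ (1 + ‖u‖) * (1 + ‖p (k + 1)‖) := by
      refine (norm_sub_le _ _).trans ?_
      nlinarith [norm_nonneg u, norm_nonneg (p (k + 1)), mul_nonneg (norm_nonneg u)
        (norm_nonneg (p (k + 1)))]
    have e2 : ‖p (k + 1) - w‖ ≤ (1 + ‖w‖) * (1 + ‖p (k + 1)‖) := by
      refine (norm_sub_le _ _).trans ?_
      nlinarith [norm_nonneg w, norm_nonneg (p (k + 1)), mul_nonneg (norm_nonneg w)
        (norm_nonneg (p (k + 1)))]
    have e3 : (1 + ‖p (k + 1)‖) ^ 2 ≤ 2 * (1 + ‖p (k + 1)‖ ^ 2) := by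
      nlinarith [sq_nonneg (‖p (k + 1)‖ - 1)]
    have e4 : 0 ≤ (1 + ‖u‖) * (1 + ‖w‖) := by positivity
    calc ‖B k‖ * (‖p (k + 1) - u‖ * ‖p (k + 1) - w‖)
        ≤ ‖B k‖ * (((1 + ‖u‖) * (1 + ‖p (k + 1)‖)) * ((1 + ‖w‖) * (1 + ‖p (k + 1)‖))) := by
          gcongr
      _ = ‖B k‖ * ((1 + ‖u‖) * (1 + ‖w‖)) * (1 + ‖p (k + 1)‖) ^ 2 := by ring
      _ ≤ ‖B k‖ * ((1 + ‖u‖) * (1 + ‖w‖)) * (2 * (1 + ‖p (k + 1)‖ ^ 2)) := by gcongr
      _ = _ := by ring
  have hv : ∀ k, B (k + 1) * (Pool.Agent.H61.TT.dg a b (p (k + 1)) *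
      ((p (k + 1) - u) * (p (k + 1) - w))) = B k * ((p (k + 1) - u) * (p (k + 1) - w)) := by
    intro k
    rw [← mul_assoc, h.hB k]
  have hV1 : Summable fun k => B (k + 1) * (Pool.Agent.H61.TT.dg a b (p (k + 1)) *
      ((p (k + 1) - u) * (p (k + 1) - w))) := hX.congr fun k => (hv k).symm
  have hV : Summable fun k => B k * (Pool.Agent.H61.TT.dg a b (p k) * ((p k - u) * (p k - w))) :=
    (summable_nat_add_iff 1).1 hV1
  have h1 : ∀ k, B k * ((et a b u w).eval (p k) / b.eval (p k) ^ 2) =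
      B k * ((p (k + 1) - u) * (p (k + 1) - w)) -
        B k * (Pool.Agent.H61.TT.dg a b (p k) * ((p k - u) * (p k - w))) := by
    intro k
    rw [et_eval u w (h.bb k), h.orb k, mul_sub]
  rw [tsum_congr h1, hX.tsum_sub hV, hV.tsum_eq_zero_add, h.cr, zero_mul, mul_zero, zero_add,
    tsum_congr hv, sub_self]

theorem eventually_b {b : Polynomial ℂ} {c : ℂ} (hc : b.eval c ≠ 0) :
    ∀ᶠ z in 𝓝 c, b.eval z ≠ 0 :=
  b.continuous.continuousAt.eventually_ne hc

/-- the relations between the coefficients -/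
theorem pv_rel (h : PV d a b p B α γ a1 a2 a3) (u w : ℂ) :
    (a2 - a1 * deriv (Pool.Agent.H61.TT.dg a b) (p 0)) * ((p 0 - u) * (p 0 - w)) +
      (a3 - a2 * Pool.Agent.H61.TT.dg a b α) * ((α - u) * (α - w)) -
        a3 * Pool.Agent.H61.TT.dg a b γ * ((γ - u) * (γ - w)) = 0 := by
  have h1 := h.van _ (et_deg h.rat u w)
  rw [et_sum h u w, et_eval u w h.bα, et_eval u w h.bγ, h.gα, h.gγ] at h1
  have hd : deriv (fun z => (et a b u w).eval z / b.eval z ^ 2) (p 0) =
      -(deriv (Pool.Agent.H61.TT.dg a b) (p 0) * ((p 0 - u) * (p 0 - w))) := by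
    have e1 : (fun z => (et a b u w).eval z / b.eval z ^ 2) =ᶠ[𝓝 (p 0)] fun z =>
        (gg a b z - u) * (gg a b z - w) - Pool.Agent.H61.TT.dg a b z * ((z - u) * (z - w)) := by
      filter_upwards [eventually_b (h.bb 0)] with z hz
      exact et_eval u w hz
    rw [e1.deriv_eq]
    have g1 := hasDerivAt_gg (a := a) (h.bb 0)
    rw [h.cr] at g1
    have g2 := (differentiableAt_dg (a := a) (h.bb 0)).hasDerivAt
    have g3 := ((g1.sub_const u).mul (g1.sub_const w)).sub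
      (g2.mul (((hasDerivAt_id (p 0)).sub_const u).mul ((hasDerivAt_id (p 0)).sub_const w)))
    have g4 := g3.deriv
    simp only [id_eq, h.cr, zero_mul, mul_zero, add_zero, zero_sub] at g4
    exact g4
  rw [hd] at h1
  linear_combination -h1

theorem pv_r1 (h : PV d a b p B α γ a1 a2 a3) :
    a2 = a1 * deriv (Pool.Agent.H61.TT.dg a b) (p 0) := by
  have h1 := pv_rel h α γ
  rw [sub_self, zero_mul, mul_zero, add_zero, sub_self, mul_zero, mul_zero, sub_zero] at h1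
  rcases mul_eq_zero.1 h1 with h2 | h2
  · exact sub_eq_zero.1 h2
  · exfalso
    rcases mul_eq_zero.1 h2 with h3 | h3
    · exact pv_α h 0 (sub_eq_zero.1 h3).symm
    · exact pv_γ h 0 (sub_eq_zero.1 h3).symm

theorem pv_r2 (h : PV d a b p B α γ a1 a2 a3) : a3 = a2 * Pool.Agent.H61.TT.dg a b α := by
  have h1 := pv_rel h (p 0) γ
  rw [sub_self, zero_mul, mul_zero, zero_add, sub_self, mul_zero, mul_zero, sub_zero] at h1
  rcases mul_eq_zero.1 h1 with h2 | h2
  · exact sub_eq_zero.1 h2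
  · exfalso
    rcases mul_eq_zero.1 h2 with h3 | h3
    · exact pv_α h 0 (sub_eq_zero.1 h3)
    · exact pv_γα h (sub_eq_zero.1 h3).symm

theorem pv_r3 (h : PV d a b p B α γ a1 a2 a3) : a3 * Pool.Agent.H61.TT.dg a b γ = 0 := by
  have h1 := pv_rel h (p 0) α
  rw [sub_self, zero_mul, mul_zero, zero_add, sub_self, mul_zero, mul_zero, zero_sub,
    neg_eq_zero] at h1
  rcases mul_eq_zero.1 h1 with h2 | h2
  · exact h2
  · exfalso
    rcases mul_eq_zero.1 h2 with h3 | h3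
    · exact pv_γ h 0 (sub_eq_zero.1 h3)
    · exact pv_γα h (sub_eq_zero.1 h3)

end Pool.Agent.H79.ES
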