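import Pool.Agent.H79.ES.EAP
import Pool.Agent.H79.ES.EBN
import Pool.Agent.H79.ES.CIN
import Pool.Agent.H35.EX.SerI
import Pool.Agent.H44.RR.ATM

/-!
# Module EAM: a critical point is not a pole (masses)

PROOF. `q = qs β' P'` with the poles `α, p 0, p 1, ..` and the weights `-a3, -a2, B 0, ..` is integrable and fixed by the push forward, so `∫_(ball (p 0) t) |q| ≤ ∫_(ball (p 1) (ε t)) |q| ≤ K ε t` for small `t` (`f'(p 0) = 0`), but the left side is at least
`(2 π |a2| - ε) t`.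
-/

set_option autoImplicit false

open MeasureTheory Metric Set Polynomial Filter Topology

namespace Pool.Agent.H79.ES

open Pool.Agent.H61.TT Pool.Agent.H35.EX

variable {d : ℕ} {a b : Polynomial ℂ} {p B : ℕ → ℂ} {α γ a1 a2 a3 : ℂ}

/-- two more terms in front -/
private def c2 (x y : ℂ) (u : ℕ → ℂ) (k : ℕ) : ℂ :=
  match k with
  | 0 => x
  | 1 => y
  | k + 2 => u k

private theorem c2_sum {f : ℕ → ℂ} (hf : Summable fun k => f (k + 2)) :
    ∑' k, f k = f 0 + f 1 + ∑' k, f (k + 2) := by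
  have h1 : Summable f := (summable_nat_add_iff 2).1 hf
  have h2 : Summable fun k => f (k + 1) := (summable_nat_add_iff 1).2 h1
  rw [h1.tsum_eq_zero_add, h2.tsum_eq_zero_add]
  ring

theorem gen_ball {β P : ℕ → ℂ} (hβ : Summable fun k => ‖β k‖) (x : ℂ) {s : ℝ} (hs : 0 < s) :
    ∫⁻ y in ball x s, ‖qs β P y‖ₑ ≤
      ENNReal.ofReal ((∑' k, ‖β k‖) * (3 * Real.pi) * s) := by
  have hm : ∀ k, Measurable fun x : ℂ => ‖β k / (x - P k)‖ₑ := fun k =>
    (measurable_const.div (measurable_id.sub_const (P k))).enorm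
  calc ∫⁻ y in ball x s, ‖qs β P y‖ₑ ≤ ∫⁻ y in ball x s, ∑' k, ‖β k / (y - P k)‖ₑ :=
        lintegral_mono fun y => enorm_tsum_le_tsum_enorm
    _ = ∑' k, ∫⁻ y in ball x s, ‖β k / (y - P k)‖ₑ := lintegral_tsum fun k => (hm k).aemeasurable
    _ ≤ ∑' k, ENNReal.ofReal (‖β k‖ * (3 * Real.pi * s)) := by
        refine ENNReal.tsum_le_tsum fun k => ?_
        have h2 : ∀ y : ℂ, ‖β k / (y - P k)‖ₑ =
            ENNReal.ofReal ‖β k‖ * ENNReal.ofReal (‖y - P k‖⁻¹) := by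
          intro y
          rw [← ofReal_norm, norm_div, div_eq_mul_inv, ENNReal.ofReal_mul (norm_nonneg _)]
        simp_rw [h2]
        rw [lintegral_const_mul' _ _ ENNReal.ofReal_ne_top, ENNReal.ofReal_mul (norm_nonneg _)]
        gcongr
        exact eb_ker x (P k) hs
    _ = ENNReal.ofReal ((∑' k, ‖β k‖) * (3 * Real.pi) * s) := by
        rw [← ENNReal.ofReal_tsum_of_nonneg (fun k => by positivity) (hβ.mul_right _),
          tsum_mul_right]
        congr 1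
        ring

theorem pv_a2 (h : PV d a b p B α γ a1 a2 a3) : a2 = 0 := by
  classical
  set P' : ℕ → ℂ := c2 α (p 0) (fun k => p (k + 1)) with hP'
  set β' : ℕ → ℂ := c2 (-a3) (-a2) B with hβ'
  have hP2 : ∀ k, P' (k + 2) = p (k + 1) := fun k => rfl
  have hβ2 : ∀ k, β' (k + 2) = B k := fun k => rfl
  have hP0 : P' 0 = α := rfl
  have hP1 : P' 1 = p 0 := rfl
  have hβ0 : β' 0 = -a3 := rfl
  have hβ1 : β' 1 = -a2 := rfl
  have hwt : Summable fun k => ‖β' k‖ * (1 + ‖P' k‖ ^ 2) := by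
    rw [← summable_nat_add_iff 2]
    exact h.sm
  have hβs : Summable fun k => ‖β' k‖ := by
    refine Summable.of_nonneg_of_le (fun k => norm_nonneg _) (fun k => ?_) hwt
    nlinarith [norm_nonneg (β' k), mul_nonneg (norm_nonneg (β' k)) (sq_nonneg ‖P' k‖)]
  have hBs := pv_sB h
  have hs0 : ∑' k, β' k = 0 := by
    rw [c2_sum (f := β') (hBs.of_norm), hβ0, hβ1]
    have h1 : ∑' k, β' (k + 2) = a2 + a3 := pv_m0 h
    rw [h1]
    ring
  have hs1 : ∑' k, β' k * P' k = 0 := by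
    have h2 : Summable fun k => B k * p (k + 1) := by
      refine Summable.of_norm_bounded h.sm (fun k => ?_)
      rw [norm_mul]
      refine mul_le_mul_of_nonneg_left ?_ (norm_nonneg _)
      nlinarith [sq_nonneg (‖p (k + 1)‖ - 1)]
    rw [c2_sum (f := fun k => β' k * P' k) h2]
    have h1 : ∑' k, β' (k + 2) * P' (k + 2) = a2 * p 0 + a3 * α := pv_m1 h
    rw [h1, hβ0, hβ1, hP0, hP1]
    ring
  have hfin := Pool.Agent.H91.CS.qs_fin' hwt hs0 hs1
  have hqe : ∀ᵐ x : ℂ, qs β' P' x = pvR p B α a2 a3 x := by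
    filter_upwards [ae_sum (β := B) (p := fun k => p (k + 1)) hBs] with x hx
    unfold pvR qs
    rw [c2_sum (f := fun k => β' k / (x - P' k)) hx, hβ0, hβ1, hP0, hP1]
    have h1 : ∑' k, β' (k + 2) / (x - P' (k + 2)) = ∑' k, B k / (x - p (k + 1)) := rfl
    rw [h1]
    ring
  have hN : volume {x : ℂ | ¬ qs β' P' x = pvR p B α a2 a3 x} = 0 := hqe
  have hpush : ∀ᵐ x : ℂ, qs β' P' x = ∑ y ∈ fs a b x, qs β' P' y / Pool.Agent.H61.TT.dg a b y ^ 2 := by
    filter_upwards [hqe, pv_push h, ae_fib h.rat hN] with x h1 h2 h3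
    rw [h1, h2]
    apply Finset.sum_congr rfl
    intro y hy
    have h4 : qs β' P' y = pvR p B α a2 a3 y := by
      by_contra h5
      exact h3 y hy h5
    rw [h4]
  have hmass := fun (T : Set ℂ) (hT : MeasurableSet T) =>
    inv_mass h.rat (qs_meas β' P') hfin hpush hT
  set K : ℝ := (∑' k, ‖β' k‖) * (3 * Real.pi) with hK
  have hK0 : 0 ≤ K := mul_nonneg (tsum_nonneg fun k => norm_nonneg _) (by positivity)
  -- the residue at `p 0`
  obtain ⟨pp, hpp⟩ : ∃ pp : ℕ → ℂ, ∀ j, pp (j + 1) = P' j := ⟨fun n => P' (n - 1), fun j => rfl⟩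
  have hRs : Pool.Agent.H44.RR.Rs pp β' (p 0) = -a2 := by
    unfold Pool.Agent.H44.RR.Rs
    rw [tsum_eq_single 1]
    · rw [hpp, hP1, if_pos rfl, hβ1]
    · intro j hj
      rw [hpp, if_neg]
      intro h1
      match j, hj with
      | 0, _ => exact pv_α h 0 h1
      | 1, hj => exact hj rfl
      | j + 2, _ => exact pv_ne h j h1
  have hqq : ∀ x, Pool.Agent.H44.RR.qq pp β' x = qs β' P' x := by
    intro x
    unfold Pool.Agent.H44.RR.qq qs
    exact tsum_congr fun k => by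
      show β' k / (x - pp (k + 1)) = _
      rw [hpp]
  have hatm := Pool.Agent.H44.RR.atm (p := pp) hβs (p 0)
  rw [hRs] at hatm
  simp_rw [hqq] at hatm
  -- the key inequality
  have key : ∀ ε : ℝ, 0 < ε → 2 * Real.pi * ‖a2‖ ≤ ε + K * ε := by
    intro ε hε
    have e1 : ∀ᶠ t : ℝ in 𝓝[>] 0, (∫⁻ z in ball (p 0) t, ‖qs β' P' z - -a2 / (z - p 0)‖ₑ) /
        ENNReal.ofReal t < ENNReal.ofReal ε := hatm.eventually (gt_mem_nhds (by simpa using hε))
    have hder : HasDerivAt (gg a b) 0 (p 0) := by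
      have h1 := hasDerivAt_gg (a := a) (h.bb 0)
      rw [h.cr] at h1
      exact h1
    have e2 : ∀ᶠ z in 𝓝 (p 0), ‖gg a b z - gg a b (p 0)‖ ≤ ε * ‖z - p 0‖ := by
      have h2 := hder.isLittleO
      have h3 := h2.def hε
      filter_upwards [h3] with z hz
      simpa using hz
    have e3 : ∀ᶠ z in 𝓝 (p 0), b.eval z ≠ 0 := b.continuous.continuousAt.eventually_ne (h.bb 0)
    obtain ⟨r, hr, hball⟩ := Metric.eventually_nhds_iff_ball.1 (e2.and e3)
    have e4 : ∀ᶠ t : ℝ in 𝓝[>] 0, t ∈ Ioo 0 r := Ioo_mem_nhdsGT hr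
    obtain ⟨t, ⟨ht0, htr⟩, ht2⟩ := (e4.and e1).exists
    have hsub : ball (p 0) t ⊆ pre a b (ball (p 1) (ε * t)) := by
      intro z hz
      obtain ⟨h5, h6⟩ := hball z (ball_subset_ball htr.le hz)
      refine ⟨h6, ?_⟩
      rw [mem_ball_iff_norm, ← h.orb 0]
      rw [mem_ball_iff_norm] at hz
      exact lt_of_le_of_lt h5 (mul_lt_mul_of_pos_left hz hε)
    have hup : ∫⁻ z in ball (p 0) t, ‖qs β' P' z‖ₑ ≤ ENNReal.ofReal (K * (ε * t)) := by
      calc ∫⁻ z in ball (p 0) t, ‖qs β' P' z‖ₑ ≤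
          ∫⁻ z in pre a b (ball (p 1) (ε * t)), ‖qs β' P' z‖ₑ := lintegral_mono_set hsub
        _ = ∫⁻ z in ball (p 1) (ε * t), ‖qs β' P' z‖ₑ := hmass _ measurableSet_ball
        _ ≤ _ := gen_ball hβs (p 1) (mul_pos hε ht0)
    have hlo : ∫⁻ z in ball (p 0) t, ‖-a2 / (z - p 0)‖ₑ ≤
        ENNReal.ofReal (ε * t) + ENNReal.ofReal (K * (ε * t)) := by
      calc ∫⁻ z in ball (p 0) t, ‖-a2 / (z - p 0)‖ₑ ≤
          ∫⁻ z in ball (p 0) t, (‖qs β' P' z - -a2 / (z - p 0)‖ₑ + ‖qs β' P' z‖ₑ) := by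
            refine lintegral_mono fun z => ?_
            have h7 : -a2 / (z - p 0) = -(qs β' P' z - -a2 / (z - p 0)) + qs β' P' z := by ring
            calc ‖-a2 / (z - p 0)‖ₑ = ‖-(qs β' P' z - -a2 / (z - p 0)) + qs β' P' z‖ₑ := by rw [← h7]
              _ ≤ ‖-(qs β' P' z - -a2 / (z - p 0))‖ₑ + ‖qs β' P' z‖ₑ := enorm_add_le _ _
              _ = _ := by rw [enorm_neg]
        _ = (∫⁻ z in ball (p 0) t, ‖qs β' P' z - -a2 / (z - p 0)‖ₑ) +
            ∫⁻ z in ball (p 0) t, ‖qs β' P' z‖ₑ := lintegral_add_right _ (qs_meas β' P').enorm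
        _ ≤ _ := by
            refine add_le_add ?_ hup
            have h8 := (ENNReal.div_lt_iff (Or.inl (ENNReal.ofReal_pos.2 ht0).ne')
              (Or.inl ENNReal.ofReal_ne_top)).1 ht2
            rw [← ENNReal.ofReal_mul hε.le] at h8
            exact h8.le
    have hval : ∫⁻ z in ball (p 0) t, ‖-a2 / (z - p 0)‖ₑ = ENNReal.ofReal (‖a2‖ * (2 * Real.pi * t)) := by
      have h9 : ∀ z : ℂ, ‖-a2 / (z - p 0)‖ₑ = ENNReal.ofReal ‖a2‖ * ENNReal.ofReal (‖z - p 0‖⁻¹) := by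
        intro z
        rw [← ofReal_norm, norm_div, norm_neg, div_eq_mul_inv, ENNReal.ofReal_mul (norm_nonneg _)]
      simp_rw [h9]
      rw [lintegral_const_mul' _ _ ENNReal.ofReal_ne_top, ci_inv (p 0) ht0,
        ENNReal.ofReal_mul (norm_nonneg _)]
    rw [hval, ← ENNReal.ofReal_add (by positivity) (by positivity)] at hlo
    have h10 := (ENNReal.ofReal_le_ofReal_iff (by positivity)).1 hlo
    have h11 : (2 * Real.pi * ‖a2‖) * t ≤ (ε + K * ε) * t := by nlinarith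
    exact le_of_mul_le_mul_right h11 ht0
  by_contra hne
  have hpos : 0 < 2 * Real.pi * ‖a2‖ := by
    have := norm_pos_iff.2 hne
    positivity
  have h12 := key (2 * Real.pi * ‖a2‖ / (2 * (1 + K))) (by positivity)
  have h13 : 2 * Real.pi * ‖a2‖ / (2 * (1 + K)) + K * (2 * Real.pi * ‖a2‖ / (2 * (1 + K))) =
      2 * Real.pi * ‖a2‖ / 2 := by
    field_simp
  rw [h13] at h12
  linarith

end Pool.Agent.H79.ES
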