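import Pool.Agent.H79.ES.EAD

/-!
# Module EAP: moments and push forward

PROOF. Moments: `van` for `b ^ 2`, `a b`. `pv_push`: for almost every `x` take `E` from `lagr_fac`; with `S z = ∑_(f y = x) 1 / ((y - z) f'(y) ^ 2)`,
`E z / b z ^ 2 = f' z * S z - 1 / (x - f z)`; `van` for `E`: the left side is `(push forward of q) - q`, the right side is
`a1 f''(c) S c + a2 (f' α S α - 1 / (x - c)) + a3 (f' γ S γ - 1 / (x - α))`; insert `pv_r1, pv_r2, pv_r3`.
-/

set_option autoImplicit false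

open MeasureTheory Metric Set Polynomial Filter Topology

namespace Pool.Agent.H79.ES

open Pool.Agent.H61.TT Pool.Agent.H35.EX

variable {d : ℕ} {a b : Polynomial ℂ} {p B : ℕ → ℂ} {α γ a1 a2 a3 : ℂ}

theorem pv_m0 (h : PV d a b p B α γ a1 a2 a3) : ∑' k, B k = a2 + a3 := by
  have hb : b.natDegree ≤ d := by
    rw [← h.rat.deg]
    exact le_max_right _ _
  have h1 := h.van (b ^ 2) (natDegree_pow_le.trans (Nat.mul_le_mul_left 2 hb))
  have e1 : ∀ z : ℂ, b.eval z ≠ 0 → (b ^ 2).eval z / b.eval z ^ 2 = 1 := by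
    intro z hz
    rw [eval_pow]
    exact div_self (pow_ne_zero 2 hz)
  have e2 : deriv (fun z => (b ^ 2).eval z / b.eval z ^ 2) (p 0) = 0 := by
    have e3 : (fun z => (b ^ 2).eval z / b.eval z ^ 2) =ᶠ[𝓝 (p 0)] fun _ => 1 := by
      filter_upwards [eventually_b (h.bb 0)] with z hz
      exact e1 z hz
    rw [e3.deriv_eq, deriv_const]
  rw [e2, e1 α h.bα, e1 γ h.bγ, mul_zero, zero_add, mul_one, mul_one] at h1
  rw [← h1]
  exact tsum_congr fun k => by rw [e1 _ (h.bb k), mul_one]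

theorem pv_m1 (h : PV d a b p B α γ a1 a2 a3) :
    ∑' k, B k * p (k + 1) = a2 * p 0 + a3 * α := by
  have ha : a.natDegree ≤ d := by rw [← h.rat.deg]; exact le_max_left _ _
  have hb : b.natDegree ≤ d := by rw [← h.rat.deg]; exact le_max_right _ _
  have h1 := h.van (a * b) (natDegree_mul_le.trans (by omega))
  have e1 : ∀ z : ℂ, b.eval z ≠ 0 → (a * b).eval z / b.eval z ^ 2 = gg a b z := by
    intro z hz
    rw [eval_mul]
    unfold gg
    field_simp
  have e2 : deriv (fun z => (a * b).eval z / b.eval z ^ 2) (p 0) = 0 := by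
    have e3 : (fun z => (a * b).eval z / b.eval z ^ 2) =ᶠ[𝓝 (p 0)] gg a b := by
      filter_upwards [eventually_b (h.bb 0)] with z hz
      exact e1 z hz
    rw [e3.deriv_eq, (hasDerivAt_gg (a := a) (h.bb 0)).deriv, h.cr]
  rw [e2, e1 α h.bα, e1 γ h.bγ, mul_zero, zero_add, h.gα, h.gγ] at h1
  rw [← h1]
  exact tsum_congr fun k => by rw [e1 _ (h.bb k), h.orb k]

/-- the candidate -/
noncomputable def pvR (p B : ℕ → ℂ) (α a2 a3 x : ℂ) : ℂ :=
  qs B (fun k => p (k + 1)) x - a2 / (x - p 0) - a3 / (x - α)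

theorem pv_push (h : PV d a b p B α γ a1 a2 a3) :
    ∀ᵐ x : ℂ, pvR p B α a2 a3 x =
      ∑ y ∈ fs a b x, pvR p B α a2 a3 y / Pool.Agent.H61.TT.dg a b y ^ 2 := by
  classical
  have hsum := ae_sum (β := B) (p := fun k => p (k + 1)) (pv_sB h)
  have hN : volume {x : ℂ | ¬ Summable (fun k => B k / (x - p (k + 1)))} = 0 := hsum
  have hreg : ∀ᵐ x : ℂ, RegV d a b x := by
    rw [ae_iff]
    exact (reg_finite h.rat).measure_zero _
  have hpk : ∀ᵐ x : ℂ, ∀ k, x ≠ p k := by
    rw [ae_all_iff]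
    intro k
    exact Measure.ae_ne volume (p k)
  filter_upwards [hsum, hreg, hpk, Measure.ae_ne volume α, ae_fib h.rat hN] with x hx hxr hxp hxα hxf
  obtain ⟨E, T, hEd, hET, hE⟩ := Pool.Agent.H91.CS.lagr_fac h.rat hxr
  obtain ⟨S, hS⟩ : ∃ S : ℂ → ℂ, ∀ z, S z =
      ∑ y ∈ fs a b x, 1 / ((y - z) * Pool.Agent.H61.TT.dg a b y ^ 2) := ⟨_, fun _ => rfl⟩
  have hEz : ∀ z : ℂ, b.eval z ≠ 0 → gg a b z ≠ x →
      E.eval z / b.eval z ^ 2 = Pool.Agent.H61.TT.dg a b z * S z - 1 / (x - gg a b z) := by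
    intro z hz hzx
    have h1 := hE z hz hzx
    have h2 : Pool.Agent.H61.TT.dg a b z * S z =
        ∑ y ∈ fs a b x, Pool.Agent.H61.TT.dg a b z / ((y - z) * Pool.Agent.H61.TT.dg a b y ^ 2) := by
      rw [hS, Finset.mul_sum]
      exact Finset.sum_congr rfl fun y _ => by rw [mul_one_div]
    rw [h2, h1]
    ring
  have hgk : ∀ k, gg a b (p k) ≠ x := fun k => by
    rw [h.orb k]
    exact (hxp _).symm
  have hyc : ∀ y ∈ fs a b x, y ≠ p 0 := by
    intro y hy h1
    have h2 := ((mem_fs h.rat _ _).1 hy).2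
    rw [h1] at h2
    exact hgk 0 h2
  -- the right side
  have hd : deriv (fun z => E.eval z / b.eval z ^ 2) (p 0) =
      deriv (Pool.Agent.H61.TT.dg a b) (p 0) * S (p 0) := by
    have e1 : (fun z => E.eval z / b.eval z ^ 2) =ᶠ[𝓝 (p 0)] fun z =>
        Pool.Agent.H61.TT.dg a b z * S z - 1 / (x - gg a b z) := by
      have e2 : ∀ᶠ z in 𝓝 (p 0), gg a b z ≠ x :=
        (hasDerivAt_gg (a := a) (h.bb 0)).continuousAt.eventually_ne (hgk 0)
      filter_upwards [eventually_b (h.bb 0), e2] with z hz hz2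
      exact hEz z hz hz2
    rw [e1.deriv_eq]
    have g1 := hasDerivAt_gg (a := a) (h.bb 0)
    rw [h.cr] at g1
    have g2 := (differentiableAt_dg (a := a) (h.bb 0)).hasDerivAt
    have g3 : DifferentiableAt ℂ S (p 0) := by
      have e3 : S = fun z => ∑ y ∈ fs a b x, 1 / ((y - z) * Pool.Agent.H61.TT.dg a b y ^ 2) :=
        funext hS
      rw [e3]
      refine DifferentiableAt.fun_sum fun y hy => ?_
      refine (differentiableAt_const _).div
        (((differentiableAt_const _).sub differentiableAt_id).mul_const _) ?_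
      refine mul_ne_zero (sub_ne_zero.2 (hyc y hy)) (pow_ne_zero 2 ?_)
      exact (dg_ne (hxr.hb y hy)).2 (hxr.hw y hy)
    have g4 : HasDerivAt (fun z => 1 / (x - gg a b z)) 0 (p 0) := by
      have g5 : HasDerivAt (fun z => 1 / (x - gg a b z))
          ((0 * (x - gg a b (p 0)) - 1 * (-0)) / (x - gg a b (p 0)) ^ 2) (p 0) :=
        (hasDerivAt_const (p 0) (1 : ℂ)).div (g1.const_sub x) (sub_ne_zero.2 (hgk 0).symm)
      have g7 : (0 * (x - gg a b (p 0)) - 1 * (-0)) / (x - gg a b (p 0)) ^ 2 = 0 := by simp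
      rw [g7] at g5
      exact g5
    have g6 := ((g2.mul g3.hasDerivAt).sub g4).deriv
    simp only [h.cr, zero_mul, add_zero, sub_zero] at g6
    exact g6
  have hvan := h.van E hEd
  rw [hd, hEz α h.bα (by rw [h.gα]; exact (hxp 0).symm), h.gα,
    hEz γ h.bγ (by rw [h.gγ]; exact hxα.symm), h.gγ] at hvan
  -- the left side
  have hyS : ∀ y ∈ fs a b x,
      Summable (fun k => B k / (y - p (k + 1)) / Pool.Agent.H61.TT.dg a b y ^ 2) := by
    intro y hy
    have h1 : Summable (fun k => B k / (y - p (k + 1))) := by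
      by_contra h2
      exact hxf y hy h2
    exact h1.div_const _
  have hSk : ∀ k, ∑ y ∈ fs a b x, B k / (y - p (k + 1)) / Pool.Agent.H61.TT.dg a b y ^ 2 =
      B k * S (p (k + 1)) := by
    intro k
    rw [hS, Finset.mul_sum]
    exact Finset.sum_congr rfl fun y _ => by rw [div_div, mul_one_div]
  have hSs : Summable fun k => B k * S (p (k + 1)) :=
    (summable_sum hyS).congr fun k => hSk k
  have hL : ∑ y ∈ fs a b x, qs B (fun k => p (k + 1)) y / Pool.Agent.H61.TT.dg a b y ^ 2 =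
      ∑' k, B k * S (p (k + 1)) := by
    rw [← tsum_congr hSk, Summable.tsum_finsetSum hyS]
    apply Finset.sum_congr rfl
    intro y _
    unfold qs
    rw [tsum_div_const]
  have hV : ∀ k, B (k + 1) * (Pool.Agent.H61.TT.dg a b (p (k + 1)) * S (p (k + 1))) =
      B k * S (p (k + 1)) := by
    intro k
    rw [← mul_assoc, h.hB k]
  have hVs : Summable fun k => B k * (Pool.Agent.H61.TT.dg a b (p k) * S (p k)) :=
    (summable_nat_add_iff 1).1 (hSs.congr fun k => (hV k).symm)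
  have hleft : ∑' k, B k * (E.eval (p k) / b.eval (p k) ^ 2) =
      (∑' k, B k * S (p (k + 1))) - qs B (fun k => p (k + 1)) x := by
    have h1 : ∀ k, B k * (E.eval (p k) / b.eval (p k) ^ 2) =
        B k * (Pool.Agent.H61.TT.dg a b (p k) * S (p k)) - B k / (x - p (k + 1)) := by
      intro k
      rw [hEz _ (h.bb k) (hgk k), h.orb k]
      ring
    rw [tsum_congr h1, hVs.tsum_sub hx, hVs.tsum_eq_zero_add, h.cr, zero_mul, mul_zero, zero_add,
      tsum_congr hV]
    rfl
  rw [hleft] at hvan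
  -- assembly
  have hR : ∑ y ∈ fs a b x, pvR p B α a2 a3 y / Pool.Agent.H61.TT.dg a b y ^ 2 =
      (∑' k, B k * S (p (k + 1))) - a2 * S (p 0) - a3 * S α := by
    rw [← hL, hS, hS, Finset.mul_sum, Finset.mul_sum, ← Finset.sum_sub_distrib,
      ← Finset.sum_sub_distrib]
    apply Finset.sum_congr rfl
    intro y _
    unfold pvR
    rw [sub_div, sub_div, div_div, div_div, mul_one_div, mul_one_div]
  rw [hR]
  unfold pvR
  have r1 := pv_r1 h
  have r2 := pv_r2 h
  have r3 := pv_r3 h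
  linear_combination (-1 : ℂ) * hvan + S (p 0) * r1 + S α * r2 - S γ * r3

end Pool.Agent.H79.ES
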