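import Pool.Agent.H79.ES.EBR

/-!
# Border of chapter 2 (owner: helper91): the invariant measure and the alignment

PROOFS. See EBN (finiteness and the bounds) and EBR (alignment). `al_br`: copy of `al_g` (H79/MZ/ALI) with `eb_lf`.
-/

set_option autoImplicit false

open MeasureTheory Metric Set Polynomial Filter Topology

namespace Pool.Agent.H79.ES

open Pool.Agent.H61.TT Pool.Agent.H35.EX

variable {d : ℕ} {a b : Polynomial ℂ} {P β : ℕ → ℂ}

theorem nu_fin (h : PS d a b P β) : IsFiniteMeasure (nu β P) := by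
  unfold nu
  exact isFiniteMeasure_withDensity (eb_fin h)

theorem nu_pres (h : PS d a b P β) {T : Set ℂ} (hT : MeasurableSet T) :
    nu β P ((gg a b) ⁻¹' T) = nu β P T := by
  unfold nu
  rw [withDensity_apply _ (measurable_gg hT), withDensity_apply _ hT, ← eb_mass h hT]
  apply setLIntegral_congr
  filter_upwards [ae_b h.rat] with y hy
  apply propext
  exact ⟨fun h1 => ⟨hy, h1⟩, fun h1 => h1.2⟩

theorem nu_ball (h : PS d a b P β) : ∃ C : ℝ, 0 < C ∧ ∀ (x : ℂ) (s : ℝ), 0 < s →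
    nu β P (ball x s) ≤ ENNReal.ofReal (C * s) := by
  have h0 : 0 ≤ ∑' k, ‖β k‖ := tsum_nonneg fun k => norm_nonneg _
  refine ⟨(∑' k, ‖β k‖) * (3 * Real.pi) + 1, by positivity, fun x s hs => ?_⟩
  unfold nu
  rw [withDensity_apply _ measurableSet_ball]
  refine (eb_ball h x hs).trans (ENNReal.ofReal_le_ofReal ?_)
  nlinarith

theorem nu_tail (h : PS d a b P β) : ∃ C : ℝ, 0 < C ∧ ∀ T : ℝ, 1 ≤ T →
    nu β P {x | T < ‖x‖} ≤ ENNReal.ofReal (C / T) := by
  have h0 : 0 ≤ ∑' k, ‖β k‖ * ‖P k‖ ^ 2 := tsum_nonneg fun k => by positivity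
  refine ⟨(∑' k, ‖β k‖ * ‖P k‖ ^ 2) * (24 * Real.pi) + 1, by positivity, fun T hT => ?_⟩
  unfold nu
  rw [withDensity_apply _ (measurableSet_lt measurable_const measurable_norm)]
  refine (eb_tail h (by linarith)).trans (ENNReal.ofReal_le_ofReal ?_)
  apply div_le_div_of_nonneg_right _ (by linarith)
  linarith

theorem nu_high (h : PS d a b P β) :
    Tendsto (fun M : ℝ => nu β P {x | M < ‖qs β P x‖}) atTop (𝓝 0) := by
  have := nu_fin h
  have h1 := tendsto_measure_iInter_atTop (μ := nu β P) (s := fun M : ℝ => {x | M < ‖qs β P x‖})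
    (fun M => (measurableSet_lt measurable_const (qs_meas β P).norm).nullMeasurableSet)
    (fun M N hMN x hx => lt_of_le_of_lt hMN hx) ⟨0, measure_ne_top _ _⟩
  have h2 : ⋂ M : ℝ, {x | M < ‖qs β P x‖} = ∅ := by
    rw [Set.eq_empty_iff_forall_notMem]
    intro x hx
    rw [mem_iInter] at hx
    have h3 := hx ‖qs β P x‖
    rw [mem_ofPred_eq] at h3
    exact lt_irrefl _ h3
  rw [h2, measure_empty] at h1
  exact h1

/-- the weights are positive and at most `1`, and align `qs` -/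
theorem rh_ae (h : PS d a b P β) : ∀ᵐ x : ℂ, qs β P x ≠ 0 →
    b.eval x ≠ 0 ∧ Pool.Agent.H61.TT.dg a b x ≠ 0 ∧ qs β P (gg a b x) ≠ 0 ∧
      0 < rh a b β P x ∧ rh a b β P x ≤ 1 ∧
      qs β P x = (rh a b β P x : ℂ) * Pool.Agent.H61.TT.dg a b x ^ 2 * qs β P (gg a b x) := by
  filter_upwards [eb_pt h, ae_b h.rat, ae_ww h.rat] with x hx hb hw hq
  obtain ⟨ρ, h1, h2, h3⟩ := hx hb
  have hdg : Pool.Agent.H61.TT.dg a b x ≠ 0 := (dg_ne hb).2 hw
  have hρ : ρ ≠ 0 := by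
    intro h4
    rw [h4] at h3
    apply hq
    rw [h3]
    simp
  have hqg : qs β P (gg a b x) ≠ 0 := by
    intro h4
    apply hq
    rw [h3, h4, mul_zero]
  have hrh : rh a b β P x = ρ := by
    unfold rh
    rw [h3, norm_mul, norm_mul, norm_pow, Complex.norm_real, Real.norm_of_nonneg h1]
    have h5 : ‖Pool.Agent.H61.TT.dg a b x‖ ≠ 0 := norm_ne_zero_iff.2 hdg
    have h6 : ‖qs β P (gg a b x)‖ ≠ 0 := norm_ne_zero_iff.2 hqg
    field_simp
  rw [hrh]
  exact ⟨hb, hdg, hqg, lt_of_le_of_ne h1 (Ne.symm hρ), h2, h3⟩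

/-- the alignment along holomorphic branches of the inverse of an iterate -/
theorem al_br (h : PS d a b P β) {U : Set ℂ} (hU : IsOpen U) {g : ℂ → ℂ}
    (hg : DifferentiableOn ℂ g U) {n : ℕ} (hb : ∀ z ∈ U, ∀ j < n, b.eval ((gg a b)^[j] (g z)) ≠ 0)
    (hi : ∀ z ∈ U, (gg a b)^[n] (g z) = z) :
    ∀ᵐ z : ℂ, z ∈ U → ∃ ρ : ℝ, 0 ≤ ρ ∧ qs β P (g z) * deriv g z ^ 2 = (ρ : ℂ) * qs β P z := by
  obtain ⟨N, hN⟩ : ∃ N : Set ℂ, N = {y | ¬ ∀ n : ℕ, Pool.Agent.H91.CS.Fi a b n y →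
      ∃ ρ : ℝ, 0 ≤ ρ ∧ qs β P y = (ρ : ℂ) *
        Pool.Agent.H91.CS.dn a b n y ^ 2 * qs β P ((gg a b)^[n] y)} := ⟨_, rfl⟩
  have hN0 : volume N = 0 := by
    rw [hN]
    exact eb_lf h
  have hnull : volume ((gg a b)^[n] '' (N ∩ g '' U)) = 0 := by
    apply addHaar_image_eq_zero_of_differentiableOn_of_addHaar_eq_zero
    · rintro y ⟨-, z, hz, rfl⟩
      exact ((Pool.Agent.H79.MZ.it_deriv n (g z) (hb z hz)).differentiableAt.restrictScalars
        ℝ).differentiableWithinAt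
    · exact measure_mono_null Set.inter_subset_left hN0
  have hae : ∀ᵐ z : ℂ, z ∉ (gg a b)^[n] '' (N ∩ g '' U) := by
    rw [ae_iff]
    simp only [not_not]
    exact hnull
  filter_upwards [hae] with z hz hzU
  have h1 : g z ∉ N := fun h2 => hz ⟨g z, ⟨h2, z, hzU, rfl⟩, hi z hzU⟩
  rw [hN] at h1
  have h2 : ∀ n : ℕ, Pool.Agent.H91.CS.Fi a b n (g z) →
      ∃ ρ : ℝ, 0 ≤ ρ ∧ qs β P (g z) = (ρ : ℂ) *
        Pool.Agent.H91.CS.dn a b n (g z) ^ 2 * qs β P ((gg a b)^[n] (g z)) := by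
    by_contra h5
    exact h1 h5
  obtain ⟨ρ, h3, h4⟩ := h2 n (hb z hzU)
  rw [hi z hzU] at h4
  refine ⟨ρ, h3, ?_⟩
  have h5 := Pool.Agent.H79.MZ.it_deriv (a := a) n (g z) (hb z hzU)
  have h6 : HasDerivAt g (deriv g z) z := ((hg z hzU).differentiableAt (hU.mem_nhds hzU)).hasDerivAt
  have h7 := h5.comp z h6
  have h8 : HasDerivAt ((gg a b)^[n] ∘ g) 1 z := by
    refine (hasDerivAt_id z).congr_of_eventuallyEq ?_
    filter_upwards [hU.mem_nhds hzU] with w hw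
    exact hi w hw
  have h9 : Pool.Agent.H91.CS.dn a b n (g z) * deriv g z = 1 := h7.unique h8
  rw [h4]
  linear_combination ((ρ : ℂ) * qs β P z *
    (Pool.Agent.H91.CS.dn a b n (g z) * deriv g z + 1)) * h9

end Pool.Agent.H79.ES
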