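import Pool.Agent.H79.ES.EN

/-!
# Module EBO: a summable critical point is periodic for nearby maps which are not conjugate

PROOF. `more` and `unst` (EN) in one statement: the nearby map has more attracted critical points, a number invariant under
conjugacy.
-/

set_option autoImplicit false

open MeasureTheory Metric Set Polynomial Filter Topology

namespace Pool.Agent.H79.ES

open Pool.Agent.H44.Fatou Pool.Agent.H32.BT Pool.Agent.H79.Eul Pool.Agent.H79.Par Pool.Agent.H35.EX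
open Pool.Agent.H44.RG Pool.Agent.H44.RR

theorem na_conj {d : ℕ} {v0 v : E d} (h : OnePoint ℂ ≃ₜ OnePoint ℂ) (hh : ∀ x, h (Rf v0 x) = Rf v (h x)) :
    NA v = NA v0 := by
  have hh' : ∀ x, Rf v (h x) = h (Rf v0 x) := fun x => (hh x).symm
  have h5 : {z : OnePoint ℂ | IsCrit (Rf v) z ∧ Att (Rf v) z} =
      h '' {z : OnePoint ℂ | IsCrit (Rf v0) z ∧ Att (Rf v0) z} := by
    ext z
    constructor
    · rintro ⟨h6, h7⟩
      obtain ⟨y, rfl⟩ := h.surjective z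
      exact ⟨y, ⟨(isCrit_conj h hh' y).1 h6, (att_conj h hh' y).1 h7⟩, rfl⟩
    · rintro ⟨y, ⟨h6, h7⟩, rfl⟩
      exact ⟨(isCrit_conj h hh' y).2 h6, (att_conj h hh' y).2 h7⟩
  unfold NA
  rw [h5, Set.ncard_image_of_injective _ h.injective]

theorem both {d : ℕ} (hd : 2 ≤ d) {v0 : E d} (hcop : IsCoprime (pol v0.1) (pol v0.2))
    (hdeg : max (pol v0.1).natDegree (pol v0.2).natDegree = d) {c : OnePoint ℂ} (hc : IsCrit (Rf v0) c)
    (hs : Summ (Rf v0) (Rf v0 c)) {ε : ℝ} (hε : 0 < ε) : ∃ v ∈ ball v0 ε, IsCoprime (pol v.1) (pol v.2) ∧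
      max (pol v.1).natDegree (pol v.2).natDegree = d ∧ IsCrit (Rf v) c ∧
        (∃ n : ℕ, 0 < n ∧ (Rf v)^[n] c = c) ∧
        ¬ ∃ h : OnePoint ℂ ≃ₜ OnePoint ℂ, ∀ x, h (Rf v0 x) = Rf v (h x) := by
  obtain ⟨ε1, hε1, hup⟩ := na_up hd hcop hdeg (not_att hd hcop hdeg hs)
  obtain ⟨v, h1, h2, h3, h4, n, hn, h5⟩ := act_pt hd hcop hdeg hc hs (min ε ε1) (lt_min hε hε1)
  have h6 : NA v0 + 1 ≤ NA v := by
    refine hup v (ball_subset_ball (min_le_right _ _) h1) c ?_ h4 (per_att hd h2 h3 h4 hn h5)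
    rw [chord_zero]
    exact hε1
  refine ⟨v, ball_subset_ball (min_le_left _ _) h1, h2, h3, h4, ⟨n, hn, h5⟩, ?_⟩
  rintro ⟨h, hh⟩
  have h7 := na_conj h hh
  omega

end Pool.Agent.H79.ES
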