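import Pool.Agent.H79.ES.EBN
import Pool.Agent.H91.CS.TLF
import Pool.Agent.H79.MZ.ALI

/-!
# Module EBR: alignment of the branches

PROOF. `eb_fib`: copy of `al_fib` (H44/RR/AL1): equality in the triangle inequality. `eb_pt`: `eb_fib` at `gg a b y` (`null_pre`).
`eb_lf`: `lf_of` (H91/CS/TLF).
-/

set_option autoImplicit false

open MeasureTheory Metric Set Polynomial Filter Topology

namespace Pool.Agent.H79.ES

open Pool.Agent.H61.TT Pool.Agent.H35.EX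

variable {d : ℕ} {a b : Polynomial ℂ} {P β : ℕ → ℂ}

private theorem ebr_alg (s : Finset ℂ) (z : ℂ → ℂ) (w : ℂ) (hw : w = ∑ y ∈ s, z y)
    (hn : ∑ y ∈ s, ‖z y‖ = ‖w‖) : ∀ y ∈ s, ∃ ρ : ℝ, 0 ≤ ρ ∧ ρ ≤ 1 ∧ z y = (ρ : ℂ) * w := by
  intro y hy
  have hle : ‖z y‖ ≤ ‖w‖ := by
    rw [← hn]
    exact Finset.single_le_sum (f := fun y => ‖z y‖) (fun i _ => norm_nonneg _) hy
  by_cases h0 : w = 0
  · refine ⟨0, le_rfl, by norm_num, ?_⟩
    rw [h0, norm_zero] at hle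
    have h1 : z y = 0 := norm_le_zero_iff.mp hle
    rw [h1, h0]
    simp
  · have hpos : 0 < ‖w‖ := norm_pos_iff.mpr h0
    have hposC : ((‖w‖ : ℝ) : ℂ) ≠ 0 := by
      exact_mod_cast hpos.ne'
    obtain ⟨u, hu⟩ : ∃ u : ℂ, u = (starRingEnd ℂ) w / ((‖w‖ : ℝ) : ℂ) := ⟨_, rfl⟩
    have hconj : (starRingEnd ℂ) w * w = ((‖w‖ : ℝ) : ℂ) ^ 2 := by
      rw [mul_comm, Complex.mul_conj, Complex.normSq_eq_norm_sq]
      push_cast
      rfl
    have huw : u * w = ((‖w‖ : ℝ) : ℂ) := by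
      rw [hu, div_mul_eq_mul_div, hconj, pow_two, mul_div_assoc, div_self hposC, mul_one]
    have hun : ‖u‖ = 1 := by
      have h1 : ‖u‖ * ‖w‖ = ‖w‖ := by
        rw [← norm_mul, huw, Complex.norm_real, norm_norm]
      have h2 : ‖u‖ * ‖w‖ = 1 * ‖w‖ := by rw [h1, one_mul]
      exact mul_right_cancel₀ hpos.ne' h2
    have hre : ∀ i ∈ s, (u * z i).re ≤ ‖z i‖ := by
      intro i _
      have h1 := Complex.re_le_norm (u * z i)
      rw [norm_mul, hun, one_mul] at h1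
      exact h1
    have hsum : ∑ i ∈ s, (u * z i).re = ∑ i ∈ s, ‖z i‖ := by
      rw [hn, ← Complex.re_sum, ← Finset.mul_sum, ← hw, huw, Complex.ofReal_re]
    have heq := (Finset.sum_eq_sum_iff_of_le hre).mp hsum y hy
    have him : (u * z y).im = 0 := by
      have h1 : ‖u * z y‖ = ‖z y‖ := by rw [norm_mul, hun, one_mul]
      have h2 := Complex.sq_norm (u * z y)
      rw [h1, Complex.normSq_apply, heq] at h2
      have h3 : (u * z y).im * (u * z y).im = 0 := by nlinarith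
      exact mul_self_eq_zero.mp h3
    have hreal : u * z y = ((‖z y‖ : ℝ) : ℂ) := by
      apply Complex.ext
      · rw [heq, Complex.ofReal_re]
      · rw [him, Complex.ofReal_im]
    refine ⟨‖z y‖ / ‖w‖, by positivity, ?_, ?_⟩
    · rw [div_le_one hpos]
      exact hle
    · have h1 : z y * ((‖w‖ : ℝ) : ℂ) = ((‖z y‖ : ℝ) : ℂ) * w := by
        rw [← hreal, ← huw]
        ring
      push_cast
      rw [div_mul_eq_mul_div, eq_div_iff hposC]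
      exact h1

theorem eb_mass (h : PS d a b P β) {T : Set ℂ} (hT : MeasurableSet T) :
    ∫⁻ x in pre a b T, ‖qs β P x‖ₑ = ∫⁻ x in T, ‖qs β P x‖ₑ :=
  inv_mass h.rat (qs_meas _ _) (eb_fin h) h.push hT

theorem eb_fib (h : PS d a b P β) :
    ∀ᵐ x : ℂ, ∀ y ∈ fs a b x, ∃ ρ : ℝ, 0 ≤ ρ ∧ ρ ≤ 1 ∧
      qs β P y / Pool.Agent.H61.TT.dg a b y ^ 2 = (ρ : ℂ) * qs β P x := by
  obtain ⟨F, hF⟩ : ∃ F : ℂ → ENNReal,
      ∀ y, F y = ‖qs β P y‖ₑ / ENNReal.ofReal (‖Pool.Agent.H61.TT.dg a b y‖ ^ 2) :=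
    ⟨_, fun _ => rfl⟩
  have hFm : Measurable F := by
    have : F = fun y => ‖qs β P y‖ₑ / ENNReal.ofReal (‖Pool.Agent.H61.TT.dg a b y‖ ^ 2) :=
      funext hF
    rw [this]
    exact (qs_meas β P).enorm.div (ENNReal.measurable_ofReal.comp ((measurable_dg.norm).pow_const 2))
  have hsum : ∀ T : Set ℂ, MeasurableSet T → volume T < ⊤ →
      ∫⁻ x in T, ∑ y ∈ fs a b x, F y = ∫⁻ x in T, ‖qs β P x‖ₑ := by
    intro T hT _
    rw [area h.rat hT hFm, ← eb_mass h hT]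
    apply lintegral_congr_ae
    filter_upwards [ae_restrict_of_ae (ae_ww h.rat), ae_restrict_mem (measurableSet_pre hT)]
      with y hy1 hy2
    have hdg : Pool.Agent.H61.TT.dg a b y ≠ 0 := (dg_ne hy2.1).2 hy1
    have hpos : 0 < ‖Pool.Agent.H61.TT.dg a b y‖ ^ 2 := by positivity
    rw [hF, ENNReal.div_mul_cancel (ENNReal.ofReal_pos.mpr hpos).ne' ENNReal.ofReal_ne_top]
  have hae : (fun x => ∑ y ∈ fs a b x, F y) =ᵐ[volume] fun x => ‖qs β P x‖ₑ :=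
    ae_eq_of_forall_setLIntegral_eq_of_sigmaFinite₀ (fs_aem h.rat hFm)
      (qs_meas β P).enorm.aemeasurable hsum
  have hreg : ∀ᵐ x : ℂ, RegV d a b x := by
    rw [ae_iff]
    exact (reg_finite h.rat).measure_zero volume
  filter_upwards [hae, h.push, hreg] with x h1 h2 h3
  apply ebr_alg (fs a b x) (fun y => qs β P y / Pool.Agent.H61.TT.dg a b y ^ 2) (qs β P x) h2
  have h4 : ∀ y ∈ fs a b x, F y =
      ENNReal.ofReal ‖qs β P y / Pool.Agent.H61.TT.dg a b y ^ 2‖ := by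
    intro y hy
    have hdg : Pool.Agent.H61.TT.dg a b y ≠ 0 := (dg_ne (h3.hb y hy)).2 (h3.hw y hy)
    have hpos : 0 < ‖Pool.Agent.H61.TT.dg a b y‖ ^ 2 := by positivity
    rw [hF, norm_div, norm_pow, ENNReal.ofReal_div_of_pos hpos, ofReal_norm]
  have h5 : ENNReal.ofReal (∑ y ∈ fs a b x, ‖qs β P y / Pool.Agent.H61.TT.dg a b y ^ 2‖) =
      ENNReal.ofReal ‖qs β P x‖ := by
    rw [ENNReal.ofReal_sum_of_nonneg (fun y _ => norm_nonneg _), ofReal_norm, ← h1]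
    exact Finset.sum_congr rfl fun y hy => (h4 y hy).symm
  exact (ENNReal.ofReal_eq_ofReal_iff (Finset.sum_nonneg fun y _ => norm_nonneg _)
    (norm_nonneg _)).mp h5

theorem eb_pt (h : PS d a b P β) :
    ∀ᵐ y : ℂ, b.eval y ≠ 0 → ∃ ρ : ℝ, 0 ≤ ρ ∧ ρ ≤ 1 ∧
      qs β P y = (ρ : ℂ) * Pool.Agent.H61.TT.dg a b y ^ 2 * qs β P (gg a b y) := by
  obtain ⟨N, hN⟩ : ∃ N : Set ℂ, N = {x | ¬ ∀ y ∈ fs a b x, ∃ ρ : ℝ, 0 ≤ ρ ∧ ρ ≤ 1 ∧
      qs β P y / Pool.Agent.H61.TT.dg a b y ^ 2 = (ρ : ℂ) * qs β P x} := ⟨_, rfl⟩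
  have hN0 : volume N = 0 := by
    rw [hN]
    exact eb_fib h
  have h1 : ∀ᵐ y : ℂ, y ∉ pre a b N := by
    rw [ae_iff]
    simp only [not_not, Set.ofPred_mem_eq]
    exact null_pre h.rat hN0
  filter_upwards [h1, ae_ww h.rat] with y hy hw hb
  have h2 : ¬ (gg a b y ∈ N) := fun h3 => hy ⟨hb, h3⟩
  rw [hN] at h2
  have h4 : ∀ y' ∈ fs a b (gg a b y), ∃ ρ : ℝ, 0 ≤ ρ ∧ ρ ≤ 1 ∧
      qs β P y' / Pool.Agent.H61.TT.dg a b y' ^ 2 = (ρ : ℂ) * qs β P (gg a b y) := by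
    by_contra h5
    exact h2 h5
  obtain ⟨ρ, h5, h5', h6⟩ := h4 y ((mem_fs h.rat _ _).2 ⟨hb, rfl⟩)
  have hdg : Pool.Agent.H61.TT.dg a b y ≠ 0 := (dg_ne hb).2 hw
  refine ⟨ρ, h5, h5', ?_⟩
  rw [div_eq_iff (pow_ne_zero 2 hdg)] at h6
  rw [h6]
  ring

theorem eb_lf (h : PS d a b P β) : Pool.Agent.H91.CS.LF a b (qs β P) := by
  refine Pool.Agent.H91.CS.lf_of h.rat ?_
  filter_upwards [eb_pt h] with y hy hb
  obtain ⟨ρ, h1, -, h2⟩ := hy hb
  exact ⟨ρ, h1, h2⟩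

theorem ae_b (h : RatD d a b) : ∀ᵐ y : ℂ, b.eval y ≠ 0 := by
  have hb0 : b ≠ 0 := by
    intro h0
    have h1 := h.cop
    rw [h0, isCoprime_zero_right] at h1
    have h2 := natDegree_eq_zero_of_isUnit h1
    have h3 := h.deg
    rw [h0, natDegree_zero, h2] at h3
    have := h.hd
    simp at h3
    omega
  rw [ae_iff]
  simp only [not_not]
  have h1 : {y : ℂ | b.eval y = 0} ⊆ (b.roots.toFinset : Set ℂ) := by
    intro y hy
    simp only [Finset.mem_coe, Multiset.mem_toFinset]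
    exact (mem_roots hb0).2 hy
  exact measure_mono_null h1 ((Finset.finite_toSet b.roots.toFinset).measure_zero volume)

end Pool.Agent.H79.ES
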