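import Pool.Agent.H79.ES.CCR
import Pool.Agent.H79.ES.CCO

/-!
# Border of chapter 3 (owner: helper79): positive entropy

PROOF. Suppose `nu {x | rh x < 1} = 0`. Then `Zer a b β P`: `nu = ‖qs‖ₑ dm`, so for almost every `x` with `qs x ≠ 0` `¬ rh x < 1` (`withDensity_apply_eq_zero` or `ae_withDensity_iff`; `rh` is measurable: `qs_meas`, quotients of polynomials), `rh x ≤ 1` (`rh_ae`): `rh x = 1`,
`qs x = dg^2 qs (gg x)`. Let `v = P 0`. For `y ∈ fs a b v` (`b.eval y ≠ 0`, `gg y = v`): no `P k = y` (`ho.orb`: `P (σ k) = P 0`, `h.inj`, `ho.h0`). `loc_ex`: `Loc a b y v A m C r0`; for all `ε > 0`, all small `t`: `nu (ball y t) ≤ ofReal (ε t^m)` (`m = 1`: `ca0`; `m ≥ 2`: `ccr`). Choose the data for every `y`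
(`choose`), `cco` with `r y = r0 y`: `δ`. For `0 < s < δ` and `x ∈ pre a b (ball v s)`: `x ∈ ball y (r0 y)`, `‖A‖ / 2 ‖x - y‖^m ≤ ‖gg x - v‖ < s`, so `‖x - y‖ < t_y := (4 s / ‖A‖)^(1 / m)` (real power, `t_y ^ m = 4 s / ‖A‖`, `t_y → 0+`). So `nu (ball v s) = nu (gg ⁻¹' ball v s) = nu (pre a b (ball v s))`
(up to the finite set of zeros of `b`, `nu ≪ volume`) `≤ ∑_y ofReal (ε 4 s / ‖A_y‖)`. But `nu (ball v s) ≥ 2 π ‖β 0‖ s - ε s` (`ca1`, `ci_inv`): contradiction for small `ε`.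
-/

set_option autoImplicit false

open MeasureTheory Metric Set Polynomial Filter Topology

namespace Pool.Agent.H79.ES

open Pool.Agent.H61.TT Pool.Agent.H35.EX

variable {d : ℕ} {a b : Polynomial ℂ} {P β : ℕ → ℂ}


private theorem ent_meas_rh : Measurable (rh a b β P) := by
  have hq : Measurable (qs β P) := qs_meas β P
  unfold rh
  exact hq.norm.div ((measurable_dg.norm.pow_const 2).mul ((hq.comp measurable_gg).norm))

private theorem ent_nu {S : Set ℂ} (hS : MeasurableSet S) : nu β P S = ∫⁻ x in S, ‖qs β P x‖ₑ := by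
  unfold nu
  exact withDensity_apply _ hS

private theorem ent_zer (h : PS d a b P β) (h0 : nu β P {x | rh a b β P x < 1} = 0) : Zer a b β P := by
  have hq : Measurable (qs β P) := qs_meas β P
  have h1 : ∀ᵐ x : ℂ, ¬ (‖qs β P x‖ₑ ≠ 0 ∧ rh a b β P x < 1) := by
    rw [ae_iff]
    have h2 := (withDensity_apply_eq_zero hq.enorm).1 h0
    refine measure_mono_null ?_ h2
    intro x hx
    have hx1 : ¬ ¬ (‖qs β P x‖ₑ ≠ 0 ∧ rh a b β P x < 1) := hx
    exact not_not.1 hx1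
  filter_upwards [h1, rh_ae h] with x hx1 hx2 hx3
  obtain ⟨-, -, -, -, h5, h6⟩ := hx2 hx3
  have h7 : rh a b β P x = 1 := by
    refine le_antisymm h5 (not_lt.1 fun h8 => hx1 ⟨?_, h8⟩)
    exact enorm_ne_zero.2 hx3
  rw [h7, Complex.ofReal_one, one_mul] at h6
  exact h6

private theorem ent_npole {σ : ℕ → ℕ} (ho : PO d a b P β σ) (hi : Function.Injective P) {y : ℂ}
    (hy : gg a b y = P 0) : ∀ k, P k ≠ y := by
  intro k hk
  have h1 := ho.orb k
  rw [hk, hy] at h1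
  exact ho.h0 k (hi h1).symm

/-- the mass near a preimage -/
private theorem ent_pre {σ : ℕ → ℕ} (h : PS d a b P β) (ho : PO d a b P β σ) (hz : Zer a b β P) {y A : ℂ} {m : ℕ}
    {C r0 : ℝ} (hl : Loc a b y (P 0) A m C r0) (hc : ∀ k, P k ≠ y) {ε : ℝ} (hε : 0 < ε) :
    ∀ᶠ t : ℝ in 𝓝[>] 0, nu β P (ball y t) ≤ ENNReal.ofReal (ε * t ^ m) := by
  rcases hl.m1.eq_or_lt with h1 | h1
  · filter_upwards [ca0 h hc hε] with t ht
    rw [← h1, pow_one, ent_nu measurableSet_ball]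
    exact ht
  · exact ccr h ho hz hl h1 hc hε

private theorem ent_low (h : PS d a b P β) {ε : ℝ} (hε : 0 < ε) :
    ∀ᶠ s : ℝ in 𝓝[>] 0, ENNReal.ofReal (2 * Real.pi * ‖β 0‖ * s) ≤
      nu β P (ball (P 0) s) + ENNReal.ofReal (ε * s) := by
  filter_upwards [ca1 h 0 hε, self_mem_nhdsWithin] with s hs hs0
  have hs1 : 0 < s := hs0
  have hq : Measurable (qs β P) := qs_meas β P
  calc ENNReal.ofReal (2 * Real.pi * ‖β 0‖ * s)
      = ENNReal.ofReal ‖β 0‖ * ENNReal.ofReal (2 * Real.pi * s) := by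
        rw [← ENNReal.ofReal_mul (norm_nonneg _)]
        congr 1
        ring
    _ = ENNReal.ofReal ‖β 0‖ * ∫⁻ z in ball (P 0) s, ENNReal.ofReal (‖z - P 0‖⁻¹) := by
        rw [ci_inv (P 0) hs1]
    _ = ∫⁻ z in ball (P 0) s, ‖β 0 / (z - P 0)‖ₑ := by
        rw [← lintegral_const_mul' _ _ ENNReal.ofReal_ne_top]
        refine lintegral_congr fun z => ?_
        rw [← ENNReal.ofReal_mul (norm_nonneg _), ← ofReal_norm, norm_div, div_eq_mul_inv]
    _ ≤ ∫⁻ z in ball (P 0) s, (‖qs β P z‖ₑ + ‖qs β P z - β 0 / (z - P 0)‖ₑ) := by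
        refine lintegral_mono fun z => ?_
        have h1 : β 0 / (z - P 0) = qs β P z - (qs β P z - β 0 / (z - P 0)) := by ring
        calc ‖β 0 / (z - P 0)‖ₑ = ‖qs β P z - (qs β P z - β 0 / (z - P 0))‖ₑ := by rw [← h1]
          _ ≤ _ := enorm_sub_le
    _ = nu β P (ball (P 0) s) + ∫⁻ z in ball (P 0) s, ‖qs β P z - β 0 / (z - P 0)‖ₑ := by
        rw [lintegral_add_left hq.enorm, ent_nu measurableSet_ball]
    _ ≤ _ := add_le_add le_rfl hs

private theorem ent_ball (h : PS d a b P β) (s : ℝ) :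
    nu β P (ball (P 0) s) ≤ nu β P (pre a b (ball (P 0) s)) := by
  rw [← nu_pres h measurableSet_ball]
  have h1 : (gg a b) ⁻¹' (ball (P 0) s) ⊆ pre a b (ball (P 0) s) ∪ {x | b.eval x = 0} := by
    intro x hx
    by_cases hb : b.eval x = 0
    · exact Or.inr hb
    · exact Or.inl ⟨hb, hx⟩
  have h2 : nu β P {x | b.eval x = 0} = 0 := by
    have h3 : volume {x | b.eval x = 0} = 0 :=
      Set.Finite.measure_zero (Polynomial.finite_setOfPred_isRoot (b_ne h.rat)) volume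
    exact withDensity_absolutelyContinuous _ _ h3
  calc nu β P ((gg a b) ⁻¹' (ball (P 0) s))
      ≤ nu β P (pre a b (ball (P 0) s) ∪ {x | b.eval x = 0}) := measure_mono h1
    _ ≤ nu β P (pre a b (ball (P 0) s)) + nu β P {x | b.eval x = 0} := measure_union_le _ _
    _ = _ := by rw [h2, add_zero]

private theorem ent_root (A : ℂ) (hA : A ≠ 0) {m : ℕ} (hm : 1 ≤ m) :
    Tendsto (fun s : ℝ => (2 * s / ‖A‖) ^ ((m : ℝ)⁻¹)) (𝓝[>] 0) (𝓝[>] 0) := by
  have hA0 : 0 < ‖A‖ := norm_pos_iff.2 hA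
  have hm0 : (0 : ℝ) < (m : ℝ)⁻¹ := by
    have : (0 : ℝ) < m := by exact_mod_cast hm
    positivity
  refine tendsto_nhdsWithin_iff.2 ⟨?_, ?_⟩
  · have h1 : Tendsto (fun s : ℝ => (2 * s / ‖A‖) ^ ((m : ℝ)⁻¹)) (𝓝 0) (𝓝 ((2 * 0 / ‖A‖) ^ ((m : ℝ)⁻¹))) := by
      have h2 : ContinuousAt (fun s : ℝ => (2 * s / ‖A‖) ^ ((m : ℝ)⁻¹)) 0 := by
        refine ContinuousAt.rpow_const ?_ (Or.inr hm0.le)
        fun_prop
      exact h2
    rw [mul_zero, zero_div, Real.zero_rpow hm0.ne'] at h1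
    exact h1.mono_left nhdsWithin_le_nhds
  · filter_upwards [self_mem_nhdsWithin] with s hs
    have hs1 : 0 < s := hs
    exact Real.rpow_pos_of_pos (by positivity) _

theorem ent {σ : ℕ → ℕ} (h : PS d a b P β) (ho : PO d a b P β σ) : 0 < nu β P {x | rh a b β P x < 1} := by
  rw [pos_iff_ne_zero]
  intro h0
  have hz := ent_zer h h0
  have hloc : ∀ y : ℂ, ∃ (A : ℂ) (m : ℕ) (C r0 : ℝ), y ∈ fs a b (P 0) → Loc a b y (P 0) A m C r0 := by
    intro y
    by_cases hy : y ∈ fs a b (P 0)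
    · have h1 := (mem_fs h.rat _ _).1 hy
      obtain ⟨A, m, C, r0, h2⟩ := loc_ex h.rat h1.1 h1.2
      exact ⟨A, m, C, r0, fun _ => h2⟩
    · exact ⟨0, 0, 0, 0, fun h1 => absurd h1 hy⟩
  choose A m C r0 hl using hloc
  obtain ⟨S, hS⟩ : ∃ S : ℝ, S = ∑ y ∈ fs a b (P 0), 2 / ‖A y‖ := ⟨_, rfl⟩
  have hS0 : 0 ≤ S := by
    rw [hS]
    exact Finset.sum_nonneg fun y _ => by positivity
  have hβ : 0 < ‖β 0‖ := norm_pos_iff.2 (h.ne 0)
  have hpi := Real.pi_pos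
  obtain ⟨ε, hεd⟩ : ∃ ε : ℝ, ε = Real.pi * ‖β 0‖ / (S + 1) := ⟨_, rfl⟩
  have hε : 0 < ε := by
    rw [hεd]
    positivity
  have hεS : ε * (S + 1) = Real.pi * ‖β 0‖ := by
    rw [hεd]
    field_simp
  obtain ⟨δ, hδ0, hδ⟩ := cco h.rat (ho.hreg 0) (r := r0) fun y hy => (hl y hy).rp
  have hsm : ∀ᶠ s : ℝ in 𝓝[>] 0, ∀ y ∈ fs a b (P 0),
      nu β P (ball y ((2 * s / ‖A y‖) ^ ((m y : ℝ)⁻¹))) ≤
        ENNReal.ofReal (ε * (((2 * s / ‖A y‖) ^ ((m y : ℝ)⁻¹)) ^ m y)) := by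
    refine (Finset.eventually_all _).2 fun y hy => ?_
    have h1 := (mem_fs h.rat _ _).1 hy
    exact (ent_root (A y) (hl y hy).An (hl y hy).m1).eventually
      (ent_pre h ho hz (hl y hy) (ent_npole ho h.inj h1.2) hε)
  have hlt : ∀ᶠ s : ℝ in 𝓝[>] 0, s < δ :=
    mem_nhdsWithin_of_mem_nhds (Iio_mem_nhds hδ0)
  obtain ⟨s, hs1, hs2, hs3, hs4⟩ := (hsm.and (hlt.and ((ent_low h hε).and self_mem_nhdsWithin))).exists
  have hs0 : 0 < s := hs4
  have hpow : ∀ y ∈ fs a b (P 0), ((2 * s / ‖A y‖) ^ ((m y : ℝ)⁻¹)) ^ m y = 2 * s / ‖A y‖ := by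
    intro y hy
    have hm : m y ≠ 0 := by
      have := (hl y hy).m1
      omega
    exact Real.rpow_inv_natCast_pow (by positivity) hm
  have hsub : pre a b (ball (P 0) s) ⊆ ⋃ y ∈ fs a b (P 0), ball y ((2 * s / ‖A y‖) ^ ((m y : ℝ)⁻¹)) := by
    intro x hx
    have hx1 : x ∈ pre a b (ball (P 0) δ) := ⟨hx.1, ball_subset_ball hs2.le hx.2⟩
    have hx2 := hδ hx1
    rw [mem_iUnion₂] at hx2
    obtain ⟨y, hy, hxy⟩ := hx2
    rw [mem_iUnion₂]
    refine ⟨y, hy, ?_⟩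
    rw [mem_ball, dist_eq_norm]
    have hA0 : 0 < ‖A y‖ := norm_pos_iff.2 (hl y hy).An
    have h3 := (hl y hy).lo x hxy
    have h4 : ‖gg a b x - P 0‖ < s := by
      have := hx.2
      rwa [mem_ball, dist_eq_norm] at this
    have h5 : ‖x - y‖ ^ m y < 2 * s / ‖A y‖ := by
      rw [lt_div_iff₀ hA0]
      nlinarith [h3, h4]
    rw [← hpow y hy] at h5
    exact lt_of_pow_lt_pow_left₀ (m y) (by positivity) h5
  have hup : nu β P (ball (P 0) s) ≤ ENNReal.ofReal (ε * S * s) := by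
    calc nu β P (ball (P 0) s) ≤ nu β P (pre a b (ball (P 0) s)) := ent_ball h s
      _ ≤ nu β P (⋃ y ∈ fs a b (P 0), ball y ((2 * s / ‖A y‖) ^ ((m y : ℝ)⁻¹))) := measure_mono hsub
      _ ≤ ∑ y ∈ fs a b (P 0), nu β P (ball y ((2 * s / ‖A y‖) ^ ((m y : ℝ)⁻¹))) :=
          measure_biUnion_finset_le _ _
      _ ≤ ∑ y ∈ fs a b (P 0), ENNReal.ofReal (ε * (2 / ‖A y‖) * s) := by
          refine Finset.sum_le_sum fun y hy => ?_
          refine (hs1 y hy).trans (le_of_eq ?_)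
          rw [hpow y hy]
          congr 1
          ring
      _ = ENNReal.ofReal (∑ y ∈ fs a b (P 0), ε * (2 / ‖A y‖) * s) := by
          rw [ENNReal.ofReal_sum_of_nonneg]
          intro y _
          positivity
      _ = ENNReal.ofReal (ε * S * s) := by
          rw [hS, Finset.mul_sum, Finset.sum_mul]
  have hfin : ENNReal.ofReal (2 * Real.pi * ‖β 0‖ * s) ≤ ENNReal.ofReal (ε * S * s + ε * s) := by
    rw [ENNReal.ofReal_add (by positivity) (by positivity)]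
    exact hs3.trans (add_le_add hup le_rfl)
  have h9 := (ENNReal.ofReal_le_ofReal_iff (by positivity)).1 hfin
  have h10 : ε * S * s + ε * s = Real.pi * ‖β 0‖ * s := by
    rw [← hεS]
    ring
  have h11 : 0 < Real.pi * ‖β 0‖ * s := by positivity
  rw [h10] at h9
  have h12 : 2 * Real.pi * ‖β 0‖ * s = Real.pi * ‖β 0‖ * s + Real.pi * ‖β 0‖ * s := by ring
  linarith

end Pool.Agent.H79.ES
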