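import Pool.Agent.H79.ES.EDf
import Pool.Agent.H91.CS.TFUN
import Pool.Agent.H91.CS.TLOQ
import Pool.Agent.H91.CS.TREG
import Pool.Agent.H91.CS.TINT
import Pool.Agent.H91.CS.TEQ
import Pool.Agent.H44.RR.CNT

/-!
# Module EFI: finite orbits

PROOF. `q = qs β P` is a rational function with simple poles at the finite set `S = range P`; its residues are not zero (`fi_rs`, compare H44/RR/RSN). By `rf_fun` `q = l f'^2 q ∘ f`, `l ≠ 0`. So noncritical preimages of poles are poles, and there are at most four poles (as in H44/RR/FNC).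
`η = ∏ (X - s)` (`a1 = 0`) or `η = (X - c) ∏ (X - s)` (`a1 ≠ 0`, `d ≥ 3`, degree at most `5 ≤ 2 d`) contradicts `hvan`.
-/

set_option autoImplicit false

open MeasureTheory Metric Set Polynomial Filter Topology

namespace Pool.Agent.H79.ES

open Pool.Agent.H61.TT Pool.Agent.H35.EX Pool.Agent.H91.CS Pool.Agent.H44.RR

/-- the residues at the points of the orbit do not vanish -/
theorem fi_rs {a b : Polynomial ℂ} {P B : ℕ → ℂ} (horb : ∀ k, gg a b (P k) = P (k + 1))
    (hB1 : ∀ k, B (k + 1) * Pool.Agent.H61.TT.dg a b (P k) = B k) (hB0' : B 0 ≠ 0)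
    (hsm : Summable fun k => ‖B k‖) (k : ℕ) : rs B P (P k) ≠ 0 := by
  classical
  obtain ⟨p, hp⟩ : ∃ p : ℕ → ℂ, ∀ j, p (j + 1) = P j := ⟨fun n => P (n - 1), fun j => rfl⟩
  have hBne : ∀ j, B j ≠ 0 := by
    intro j
    induction j with
    | zero => exact hB0'
    | succ j ih =>
      rw [← hB1 j] at ih
      exact left_ne_zero_of_mul ih
  have hdgne : ∀ j, Pool.Agent.H61.TT.dg a b (p (j + 1)) ≠ 0 := by
    intro j
    have := hBne j
    rw [← hB1 j, ← hp j] at this
    exact right_ne_zero_of_mul this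
  have orb : ∀ j, gg a b (p (j + 1)) = p (j + 1 + 1) := by
    intro j
    rw [hp, hp, horb]
  have hsB : ∀ j, B (j + 1) * Pool.Agent.H61.TT.dg a b (p (j + 1)) = B j := by
    intro j
    rw [hp]
    exact hB1 j
  rw [← hp k]
  set x := p (k + 1) with hx
  have hex : ∃ j, p (j + 1) = x := ⟨k, rfl⟩
  set k0 := Nat.find hex with hk0
  have h0 : p (k0 + 1) = x := Nat.find_spec hex
  have hmin : ∀ j, p (j + 1) = x → k0 ≤ j := fun j hj => Nat.find_min' hex hj
  have hRs : rs B P x = ∑' j, if p (j + 1) = x then B j else 0 := by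
    unfold rs
    refine tsum_congr fun j => ?_
    rw [hp]
    by_cases hj : P j = x
    · rw [if_pos hj]
      exact Set.indicator_of_mem (s := {k : ℕ | P k = x}) hj B
    · rw [if_neg hj]
      exact Set.indicator_of_notMem (s := {k : ℕ | P k = x}) hj B
  rw [hRs]
  by_cases hA : ∀ j, p (j + 1) = x → j = k0
  · rw [tsum_eq_single k0 (fun j hj => if_neg fun h => hj (hA j h)), if_pos h0]
    exact hBne k0
  · push Not at hA
    obtain ⟨j, hj, hjk⟩ := hA
    have hjk0 := hmin j hj
    have hexn : ∃ n, 0 < n ∧ p (k0 + n + 1) = x := by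
      refine ⟨j - k0, by omega, ?_⟩
      rw [show k0 + (j - k0) + 1 = j + 1 by omega]
      exact hj
    set n := Nat.find hexn with hn
    obtain ⟨hn0, hnx⟩ := Nat.find_spec hexn
    rw [← hn] at hn0 hnx
    have hnmin : ∀ m, 0 < m → p (k0 + m + 1) = x → n ≤ m := fun m h1 h2 =>
      Nat.find_min' hexn ⟨h1, h2⟩
    -- periodicity
    have per : ∀ i, p (k0 + i + n + 1) = p (k0 + i + 1) := by
      intro i
      induction i with
      | zero => rw [add_zero, hnx, h0]
      | succ i ih =>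
        have e1 : k0 + (i + 1) + n + 1 = (k0 + i + n + 1) + 1 := by omega
        have e2 : k0 + (i + 1) + 1 = (k0 + i + 1) + 1 := by omega
        rw [e1, e2, ← orb (k0 + i + n), ← orb (k0 + i), ih]
    have perl : ∀ l i, p (k0 + i + l * n + 1) = p (k0 + i + 1) := by
      intro l
      induction l with
      | zero => intro i; rw [zero_mul, add_zero]
      | succ l ih =>
        intro i
        have e1 : k0 + i + (l + 1) * n + 1 = k0 + (i + l * n) + n + 1 := by ring
        rw [e1, per, show k0 + (i + l * n) + 1 = k0 + i + l * n + 1 by ring, ih]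
    have hchar : ∀ j, p (j + 1) = x ↔ ∃ l, k0 + l * n = j := by
      intro j
      constructor
      · intro h
        have h1 := hmin j h
        obtain ⟨m, rfl⟩ := Nat.exists_eq_add_of_le h1
        have h2 := Nat.div_add_mod m n
        have h3 : p (k0 + m % n + 1) = x := by
          rw [← perl (m / n) (m % n), show k0 + m % n + m / n * n + 1 = k0 + m + 1 by
            rw [← Nat.div_add_mod m n]
            simp only [Nat.mul_add_mod_self_left, Nat.mod_mod, Nat.add_mod_mod]
            rw [Nat.mul_add_div hn0, Nat.mod_div_self, add_zero]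
            ring]
          exact h
        have h4 : m % n = 0 := by
          by_contra h5
          have h6 := hnmin (m % n) (Nat.pos_of_ne_zero h5) h3
          have h7 := Nat.mod_lt m hn0
          omega
        refine ⟨m / n, ?_⟩
        rw [h4, add_zero] at h2
        rw [mul_comm, h2]
      · rintro ⟨l, rfl⟩
        have := perl l 0
        rw [add_zero] at this
        rw [this, h0]
    set g : ℕ → ℕ := fun l => k0 + l * n with hg
    have hginj : Function.Injective g := by
      intro l l' h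
      simp only [hg] at h
      have h1 : l * n = l' * n := by omega
      exact Nat.eq_of_mul_eq_mul_right hn0 h1
    have hsupp : Function.support (fun j => if p (j + 1) = x then B j else 0) ⊆ Set.range g := by
      intro j hj
      rw [Function.mem_support] at hj
      by_cases h1 : p (j + 1) = x
      · obtain ⟨l, hl⟩ := (hchar j).1 h1
        exact ⟨l, hl⟩
      · exact absurd (if_neg h1) hj
    rw [← hginj.tsum_eq hsupp]
    have hval : ∀ l, (if p (g l + 1) = x then B (g l) else 0) = B (g l) := fun l =>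
      if_pos ((hchar (g l)).2 ⟨l, rfl⟩)
    rw [tsum_congr hval]
    -- the multiplier
    set μ := ∏ i ∈ Finset.range n, Pool.Agent.H61.TT.dg a b (p (k0 + i + 1)) with hμ
    have hμ0 : μ ≠ 0 := Finset.prod_ne_zero_iff.2 fun i _ => hdgne _
    have hB : ∀ m j, B (j + m) * ∏ i ∈ Finset.range m, Pool.Agent.H61.TT.dg a b (p (j + i + 1)) = B j := by
      intro m
      induction m with
      | zero => intro j; simp
      | succ m ih =>
        intro j
        rw [Finset.prod_range_succ]
        have h1 := hsB (j + m)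
        have h2 := ih j
        calc B (j + (m + 1)) * ((∏ i ∈ Finset.range m, Pool.Agent.H61.TT.dg a b (p (j + i + 1))) *
              Pool.Agent.H61.TT.dg a b (p (j + m + 1))) =
              (B (j + m + 1) * Pool.Agent.H61.TT.dg a b (p (j + m + 1))) *
              ∏ i ∈ Finset.range m, Pool.Agent.H61.TT.dg a b (p (j + i + 1)) := by
                rw [show j + (m + 1) = j + m + 1 by ring]; ring
          _ = B j := by rw [h1, h2]
    have hstep : ∀ l, B (g (l + 1)) * μ = B (g l) := by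
      intro l
      have h1 := hB n (g l)
      have h2 : ∏ i ∈ Finset.range n, Pool.Agent.H61.TT.dg a b (p (g l + i + 1)) = μ := by
        rw [hμ]
        refine Finset.prod_congr rfl fun i _ => ?_
        have h3 := perl l i
        simp only [hg]
        rw [show k0 + l * n + i + 1 = k0 + i + l * n + 1 by ring, h3]
      rw [h2] at h1
      have h4 : g (l + 1) = g l + n := by
        simp only [hg]
        ring
      rw [h4]
      exact h1
    have hpow : ∀ l, B (g l) = B k0 * (μ⁻¹) ^ l := by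
      intro l
      induction l with
      | zero => simp [hg]
      | succ l ih =>
        have h1 := hstep l
        rw [ih] at h1
        rw [pow_succ, ← mul_assoc, ← h1, mul_assoc, mul_inv_cancel₀ hμ0, mul_one]
    have hB0 : B k0 ≠ 0 := hBne k0
    have hr : ‖μ⁻¹‖ < 1 := by
      by_contra hr
      push Not at hr
      have h1 : Tendsto (fun l => ‖B (g l)‖) atTop (𝓝 0) :=
        hsm.tendsto_atTop_zero.comp hginj.nat_tendsto_atTop
      have h2 : ∀ l, ‖B k0‖ ≤ ‖B (g l)‖ := by
        intro l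
        rw [hpow l, norm_mul, norm_pow]
        have h3 : (1 : ℝ) ≤ ‖μ⁻¹‖ ^ l := one_le_pow₀ hr
        have h4 := norm_nonneg (B k0)
        nlinarith
      have h3 := ge_of_tendsto' h1 h2
      exact hB0 (norm_le_zero_iff.1 h3)
    rw [tsum_congr hpow, tsum_mul_left, tsum_geometric_of_norm_lt_one hr]
    apply mul_ne_zero hB0
    apply inv_ne_zero
    intro h1
    have h2 : μ⁻¹ = 1 := (sub_eq_zero.1 h1).symm
    rw [h2, norm_one] at hr
    exact lt_irrefl _ hr

/-- noncritical preimages of poles are poles -/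
theorem fi_back {d : ℕ} {a b : Polynomial ℂ} (h : RatD d a b) {S : Finset ℂ} {R : ℂ → ℂ}
    (hR : ∀ s ∈ S, R s ≠ 0) {l : ℂ} (hl : l ≠ 0) {F : Set ℂ} (hF : F.Finite)
    (hfun : ∀ y ∉ F, rf S R y = l * Pool.Agent.H61.TT.dg a b y ^ 2 * rf S R (gg a b y))
    {s y : ℂ} (hs : s ∈ S) (hy : y ∈ fs a b s) (hw : (ww a b).eval y ≠ 0) : y ∈ S := by
  obtain ⟨hby, hgy⟩ := (mem_fs h s y).1 hy
  have hdg : Pool.Agent.H61.TT.dg a b y ≠ 0 := (dg_ne hby).2 hw
  by_contra hyS
  have h1 : Tendsto (fun x => rf S R x) (𝓝[≠] y) (𝓝 (rf S R y)) :=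
    (rf_diff R hyS).continuousAt.tendsto.mono_left nhdsWithin_le_nhds
  have h2 : Tendsto (gg a b) (𝓝[≠] y) (𝓝[≠] s) := by
    rw [← hgy]
    exact (hasDerivAt_gg hby).tendsto_nhdsNE hdg
  have h3 : Tendsto (fun x => ‖rf S R (gg a b x)‖) (𝓝[≠] y) atTop := (rf_pole hs (hR s hs)).comp h2
  have h4 : Tendsto (fun x => ‖l * Pool.Agent.H61.TT.dg a b x ^ 2‖) (𝓝[≠] y)
      (𝓝 ‖l * Pool.Agent.H61.TT.dg a b y ^ 2‖) :=
    (((differentiableAt_dg hby).continuousAt.pow 2).const_mul l).norm.tendsto.mono_left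
      nhdsWithin_le_nhds
  have h5 : 0 < ‖l * Pool.Agent.H61.TT.dg a b y ^ 2‖ := norm_pos_iff.2 (mul_ne_zero hl (pow_ne_zero 2 hdg))
  have h6 := Tendsto.pos_mul_atTop h5 h4 h3
  have h7 : ∀ᶠ x in 𝓝[≠] y, x ∉ F := by
    have h8 : (F \ {y})ᶜ ∈ 𝓝 y := (hF.subset sdiff_subset).isClosed.isOpen_compl.mem_nhds (by simp)
    filter_upwards [mem_nhdsWithin_of_mem_nhds h8, self_mem_nhdsWithin] with x hx hx2 hxF
    exact hx ⟨hxF, hx2⟩
  have h9 : Tendsto (fun x => ‖rf S R x‖) (𝓝[≠] y) atTop := by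
    refine h6.congr' ?_
    filter_upwards [h7] with x hx
    rw [hfun x hx]
    exact (norm_mul _ _).symm
  exact not_tendsto_nhds_of_tendsto_atTop h9 _ h1.norm

theorem fin_false {d : ℕ} {a b : Polynomial ℂ} (h : RatD d a b) {P β : ℕ → ℂ} {c a1 : ℂ}
    (hbc : b.eval c ≠ 0) (hcP : ∀ k, P k ≠ c) (hd3 : a1 = 0 ∨ 3 ≤ d)
    (hbb : ∀ k, b.eval (P k) ≠ 0) (horb : ∀ k, gg a b (P k) = P (k + 1))
    (hB : ∀ k, β (k + 1) * Pool.Agent.H61.TT.dg a b (P k) = β k) (hβ0 : β 0 = 1)
    (hreg : ∀ k, (fib a b (P k)).natDegree = d) (hβ : Summable fun k => ‖β k‖)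
    (hs0 : ∑' k, β k = 0) (hs1 : ∑' k, β k * P k = 0)
    (hpush : ∀ᵐ x : ℂ, qs β P x = ∑ y ∈ fs a b x, qs β P y / Pool.Agent.H61.TT.dg a b y ^ 2)
    (hfin : (Set.range P).Finite)
    (hvan : ∀ η : Polynomial ℂ, η.natDegree ≤ 2 * d →
      η.eval c / b.eval c ^ 2 + ∑' k, β (k + 1) * (η.eval (P k) / b.eval (P k) ^ 2) =
        a1 * deriv (fun z => η.eval z / b.eval z ^ 2) c) : False := by
  classical
  have hrsne : ∀ k, rs β P (P k) ≠ 0 := fi_rs horb hB (by rw [hβ0]; exact one_ne_zero) hβ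
  set S : Finset ℂ := hfin.toFinset with hS
  have hmem : ∀ x, x ∈ S ↔ ∃ k, P k = x := by
    intro x
    rw [hS, Set.Finite.mem_toFinset]
    rfl
  have hR : ∀ s ∈ S, rs β P s ≠ 0 := by
    intro s hs
    obtain ⟨k, rfl⟩ := (hmem s).1 hs
    exact hrsne k
  have hSne : S.Nonempty := ⟨P 0, (hmem _).2 ⟨0, rfl⟩⟩
  have hrs0 : ∀ s ∉ S, rs β P s = 0 := by
    intro s hs
    unfold rs
    have h1 : {k : ℕ | P k = s} = ∅ := by
      rw [Set.eq_empty_iff_forall_notMem]
      intro k hk
      exact hs ((hmem s).2 ⟨k, hk⟩)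
    rw [h1, Set.indicator_empty]
    exact tsum_zero
  have hrat := qs_rat (P := P) hβ hrs0
  -- integrability
  obtain ⟨M, hM⟩ : ∃ M : ℝ, ∀ k, ‖P k‖ ≤ M := by
    obtain ⟨M, hM⟩ := (hfin.image fun z => ‖z‖).bddAbove
    exact ⟨M, fun k => hM ⟨P k, ⟨k, rfl⟩, rfl⟩⟩
  have hM0 : 0 ≤ M := (norm_nonneg _).trans (hM 0)
  have hwt : Summable fun k => ‖β k‖ * (1 + ‖P k‖ ^ 2) := by
    refine Summable.of_nonneg_of_le (fun k => by positivity) (fun k => ?_) (hβ.mul_right (1 + M ^ 2))
    have h1 : ‖P k‖ ^ 2 ≤ M ^ 2 := pow_le_pow_left₀ (norm_nonneg _) (hM k) 2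
    exact mul_le_mul_of_nonneg_left (by linarith) (norm_nonneg _)
  have hint := qs_fin' hwt hs0 hs1
  have heq := equal_pos h (qs_meas β P) hint hpush
  have hlf : ∀ᵐ y : ℂ, b.eval y ≠ 0 → ∃ l : ℝ, 0 ≤ l ∧
      rf S (rs β P) y = l * Pool.Agent.H61.TT.dg a b y ^ 2 * rf S (rs β P) (gg a b y) := by
    have h2 := null_pre h (measure_mono_null (s := {x : ℂ | ¬ qs β P x = rf S (rs β P) x})
      (fun x hx => hx) hrat)
    have h3 : ∀ᵐ y : ℂ, y ∉ pre a b {x : ℂ | ¬ qs β P x = rf S (rs β P) x} :=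
      measure_eq_zero_iff_ae_notMem.1 h2
    filter_upwards [hrat, heq, h3] with y hy1 hy2 hy3 hby
    have h4 : qs β P (gg a b y) = rf S (rs β P) (gg a b y) := by
      by_contra hne
      exact hy3 ⟨hby, hne⟩
    obtain ⟨l, hl0, hl⟩ := hy2 hby
    exact ⟨l, hl0, by rw [← h4, ← hy1]; exact hl⟩
  obtain ⟨l, F, hl, hF, hfun⟩ := rf_fun h hR hSne hlf
  -- counting
  set G : ℂ → Finset ℂ := fun x => (fs a b x).filter (fun y => (ww a b).eval y ≠ 0) with hG
  have hGS : ∀ x ∈ S, G x ⊆ S := by
    intro x hx y hy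
    rw [hG, Finset.mem_filter] at hy
    exact fi_back h hR hl hF hfun hx hy.1 hy.2
  have hdis : ((S : Set ℂ)).PairwiseDisjoint G := by
    intro x _ x' _ hne
    rw [Function.onFun, Finset.disjoint_left]
    intro y hy hy'
    rw [hG, Finset.mem_filter] at hy hy'
    exact hne (((mem_fs h x y).1 hy.1).2.symm.trans ((mem_fs h x' y).1 hy'.1).2)
  have hinfS : ∀ x ∈ S, (fib a b x).natDegree = d := by
    intro x hx
    obtain ⟨k, rfl⟩ := (hmem x).1 hx
    exact hreg k
  have h1 : ∑ x ∈ S, (G x).card ≤ S.card := by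
    rw [← Finset.card_biUnion hdis]
    exact Finset.card_le_card (Finset.biUnion_subset.2 hGS)
  obtain ⟨h2, h3⟩ := cnt h S hinfS
  have h4 : ∀ x ∈ S, d ≤ (G x).card + 2 * (d - (fs a b x).card) := by
    intro x hx
    have h5 := cnt_simple h (hinfS x hx)
    have h6 := h3 x hx
    have h7 : ((fs a b x).filter (fun y => (ww a b).eval y ≠ 0)).card = (G x).card := rfl
    have h8 : 2 * (fs a b x).card ≤ d + (G x).card := by
      rw [← h7]
      convert h5
    omega
  have h5 : S.card * d ≤ ∑ x ∈ S, ((G x).card + 2 * (d - (fs a b x).card)) := by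
    rw [← smul_eq_mul, ← Finset.sum_const]
    exact Finset.sum_le_sum h4
  rw [Finset.sum_add_distrib, ← Finset.mul_sum] at h5
  have hd := h.hd
  have hcard : S.card ≤ 4 := by
    by_contra hcon
    obtain ⟨e, rfl⟩ : ∃ e, d = e + 2 := ⟨d - 2, by omega⟩
    have h6 : S.card * (e + 2) ≤ S.card + 2 * (2 * (e + 2) - 2) := by omega
    have h7 : 2 * (e + 2) - 2 = 2 * e + 2 := by omega
    rw [h7] at h6
    nlinarith
  set η : Polynomial ℂ := ∏ x ∈ S, (X - C x) with hη
  have hdeg : η.natDegree = S.card := by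
    rw [hη, natDegree_prod_of_monic _ _ (fun x _ => monic_X_sub_C x)]
    simp only [natDegree_X_sub_C, Finset.sum_const, smul_eq_mul, mul_one]
  have hηP : ∀ k, η.eval (P k) = 0 := by
    intro k
    rw [hη, eval_prod]
    refine Finset.prod_eq_zero ((hmem _).2 ⟨k, rfl⟩) ?_
    rw [eval_sub, eval_X, eval_C, sub_self]
  have hηc : η.eval c ≠ 0 := by
    rw [hη, eval_prod, Finset.prod_ne_zero_iff]
    intro x hx
    rw [eval_sub, eval_X, eval_C, sub_ne_zero]
    rintro rfl
    obtain ⟨k, hk⟩ := (hmem _).1 hx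
    exact hcP k hk
  by_cases ha : a1 = 0
  · have hv := hvan η (by omega)
    have hz : ∑' k, β (k + 1) * (η.eval (P k) / b.eval (P k) ^ 2) = 0 := by
      rw [tsum_congr fun k => by rw [hηP k, zero_div, mul_zero], tsum_zero]
    rw [hz, ha, zero_mul, add_zero] at hv
    exact div_ne_zero hηc (pow_ne_zero 2 hbc) hv
  · have hd3' : 3 ≤ d := hd3.resolve_left ha
    have hv := hvan (η * (X - C c)) (by
      refine natDegree_mul_le.trans ?_
      rw [natDegree_X_sub_C]
      omega)
    have hz : ∑' k, β (k + 1) * ((η * (X - C c)).eval (P k) / b.eval (P k) ^ 2) = 0 := by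
      rw [tsum_congr fun k => by rw [eval_mul, hηP k, zero_mul, zero_div, mul_zero], tsum_zero]
    have hder : deriv (fun z => (η * (X - C c)).eval z / b.eval z ^ 2) c = η.eval c / b.eval c ^ 2 := by
      have h8 : HasDerivAt (fun z => (η.eval z / b.eval z ^ 2) * (z - c))
          ((deriv (fun z => η.eval z / b.eval z ^ 2) c) * (c - c) + (η.eval c / b.eval c ^ 2) * 1) c := by
        refine HasDerivAt.mul ?_ ((hasDerivAt_id c).sub_const c)
        refine DifferentiableAt.hasDerivAt ?_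
        exact η.differentiable.differentiableAt.div (b.differentiable.differentiableAt.pow 2)
          (pow_ne_zero 2 hbc)
      have h9 : (fun z => (η * (X - C c)).eval z / b.eval z ^ 2) =
          fun z => (η.eval z / b.eval z ^ 2) * (z - c) := by
        funext z
        rw [eval_mul, eval_sub, eval_X, eval_C]
        ring
      rw [h9, h8.deriv]
      ring
    rw [hz, hder, eval_mul, eval_sub, eval_X, eval_C, sub_self, mul_zero, zero_div, zero_add] at hv
    exact mul_ne_zero ha (div_ne_zero hηc (pow_ne_zero 2 hbc)) hv.symm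

end Pool.Agent.H79.ES
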