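import Mathlib
import Pool.Agent.H79.ES.EBO
import Pool.Agent.H32.RB.Main

/-!
# One summable critical point is enough for instability

DRAFT of the hand-in (moved to Results/MP_8f2e1c_an/OneSummablePoint when the borders are proved).
-/

set_option autoImplicit false

namespace Pool.Agent.H79.ES.OneSummablePoint

open Polynomial Filter Topology MeasureTheory

/-- `f` is the rational map `P/Q` on the sphere. -/
def IsMap (f : OnePoint ℂ → OnePoint ℂ) (P Q : Polynomial ℂ) : Prop :=
  Continuous f ∧
    ∀ z : ℂ, Q.eval z ≠ 0 → f (OnePoint.some z) = OnePoint.some (P.eval z / Q.eval z)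

/-- `c` is a critical point of `f`. -/
def IsCritical (f : OnePoint ℂ → OnePoint ℂ) (c : OnePoint ℂ) : Prop :=
  ¬ ∃ U ∈ nhds c, Set.InjOn f U

/-- The chordal distance of the Riemann sphere. -/
noncomputable def chordal : OnePoint ℂ → OnePoint ℂ → ℝ
  | OnePoint.some z, OnePoint.some w => ‖z - w‖ / (√(1 + ‖z‖ ^ 2) * √(1 + ‖w‖ ^ 2))
  | OnePoint.some z, OnePoint.infty => 1 / √(1 + ‖z‖ ^ 2)
  | OnePoint.infty, OnePoint.some w => 1 / √(1 + ‖w‖ ^ 2)
  | OnePoint.infty, OnePoint.infty => 0

/-- The point `x` is summable: the derivatives of `f^n` at `x` in the chordal metric are bounded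
below by numbers `a n > 0` with `∑ 1 / a n` finite (that is, they are not zero and the sum of their
inverses is finite; the local expansion rate is the modulus of the derivative). -/
def IsSummable (f : OnePoint ℂ → OnePoint ℂ) (x : OnePoint ℂ) : Prop :=
  ∃ a : ℕ → ℝ, (∀ n, 0 < a n) ∧ Summable (fun n => 1 / a n) ∧
    ∀ n, ∀ᶠ y in 𝓝 x, a n * chordal x y ≤ chordal (f^[n] x) (f^[n] y)

/-- Pairs of polynomials of degree at most `d`, given by their coefficients. -/
abbrev Pairs (d : ℕ) : Type := (Fin (d + 1) → ℂ) × (Fin (d + 1) → ℂ)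

/-- The polynomial of degree at most `d` with coefficients `v`. -/
noncomputable def poly {d : ℕ} (v : Fin (d + 1) → ℂ) : Polynomial ℂ := ∑ i, C (v i) * X ^ (i : ℕ)

/-- `f` is the rational map of degree exactly `d` given by the pair `v` of coprime polynomials. -/
def IsRational {d : ℕ} (v : Pairs d) (f : OnePoint ℂ → OnePoint ℂ) : Prop :=
  IsCoprime (poly v.1) (poly v.2) ∧ max (poly v.1).natDegree (poly v.2).natDegree = d ∧
    IsMap f (poly v.1) (poly v.2)

/-- The rational maps of degree exactly `d` with a property `T`. -/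
def MapsWith (d : ℕ) (T : (OnePoint ℂ → OnePoint ℂ) → Prop) : Set (Pairs d) :=
  {v | ∃ f : OnePoint ℂ → OnePoint ℂ, IsRational v f ∧ T f}

/-- `c` is a summable critical point of `f`: the critical value `f c` is summable. (Examples: the
critical points with a Collet-Eckmann value, those which land on a repelling cycle without meeting a
critical point on the way.) -/
def IsSummableCritical (f : OnePoint ℂ → OnePoint ℂ) (c : OnePoint ℂ) : Prop :=
  IsCritical f c ∧ IsSummable f (f c)

/-- `f` and `g` are conjugate by a homeomorphism of the sphere. -/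
def AreConjugate (f g : OnePoint ℂ → OnePoint ℂ) : Prop :=
  ∃ h : OnePoint ℂ ≃ₜ OnePoint ℂ, ∀ x, h (f x) = g (h x)

theorem chord_eq (x y : OnePoint ℂ) : chordal x y = Pool.Agent.H35.EX.chord x y := by
  induction x using OnePoint.rec with
  | infty =>
    induction y using OnePoint.rec with
    | infty => rfl
    | coe y => rfl
  | coe x =>
    induction y using OnePoint.rec with
    | infty => rfl
    | coe y => rfl

theorem rf_isMap {d : ℕ} (hd : 2 ≤ d) {v : Pairs d} (h1 : IsCoprime (poly v.1) (poly v.2))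
    (h2 : max (poly v.1).natDegree (poly v.2).natDegree = d) : IsRational v (Pool.Agent.H79.Par.Rf v) := by
  have h1' : IsCoprime (Pool.Agent.H79.Eul.pol v.1) (Pool.Agent.H79.Eul.pol v.2) := h1
  have hB0 : Pool.Agent.H79.Eul.pol v.2 ≠ 0 := Pool.Agent.H32.BT.den_ne_zero h1' (by
    have h2' : max (Pool.Agent.H79.Eul.pol v.1).natDegree (Pool.Agent.H79.Eul.pol v.2).natDegree = d := h2
    omega)
  refine ⟨h1, h2, Pool.Agent.H44.Fatou.rat_continuous h1', fun z hz => ?_⟩
  exact Pool.Agent.H44.Fatou.rat_coe_of_ne hz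

theorem rf_unique {d : ℕ} (hd : 2 ≤ d) {v : Pairs d} {f : OnePoint ℂ → OnePoint ℂ} (h : IsRational v f) :
    IsCoprime (Pool.Agent.H79.Eul.pol v.1) (Pool.Agent.H79.Eul.pol v.2) ∧
      max (Pool.Agent.H79.Eul.pol v.1).natDegree (Pool.Agent.H79.Eul.pol v.2).natDegree = d ∧
      f = Pool.Agent.H79.Par.Rf v := by
  obtain ⟨h1, h2, hf⟩ := h
  have h1' : IsCoprime (Pool.Agent.H79.Eul.pol v.1) (Pool.Agent.H79.Eul.pol v.2) := h1
  have h2' : max (Pool.Agent.H79.Eul.pol v.1).natDegree
      (Pool.Agent.H79.Eul.pol v.2).natDegree = d := h2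
  have hB0 : Pool.Agent.H79.Eul.pol v.2 ≠ 0 := Pool.Agent.H32.BT.den_ne_zero h1' (by omega)
  exact ⟨h1', h2', Pool.Agent.H32.RB.ext_eq h1' hB0 hf⟩

theorem summ_of {f : OnePoint ℂ → OnePoint ℂ} {x : OnePoint ℂ} (h : IsSummable f x) :
    Pool.Agent.H44.RG.Summ f x := by
  obtain ⟨a, ha, hs, hn⟩ := h
  refine ⟨a, ha, hs, fun n => ?_⟩
  filter_upwards [hn n] with y hy
  rw [← chord_eq, ← chord_eq]
  exact hy

/-- Let `d ≥ 2` and let `c` be a summable critical point of a rational map `f` of degree `d`. Then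
arbitrarily near `f` there are rational maps `g` of degree `d`, not topologically conjugate to `f`, of
which `c` is a periodic critical point. Moreover the rational maps of degree `d` which have a summable
critical point are nowhere dense.

Nothing is assumed about the other critical points, the closure of the orbit of `c`, the Julia set,
invariant line fields. In particular no map with a summable critical point is structurally stable; and
the hyperbolic maps are dense if and only if the maps which are hyperbolic or have a summable critical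
point are. -/
theorem result (d : ℕ) (hd : 2 ≤ d) :
    (∀ (v : Pairs d) (f : OnePoint ℂ → OnePoint ℂ), IsRational v f → ∀ c, IsSummableCritical f c →
      ∀ ε : ℝ, 0 < ε → ∃ w ∈ Metric.ball v ε, ∃ g, IsRational w g ∧ ¬ AreConjugate f g ∧
        IsCritical g c ∧ ∃ n : ℕ, 0 < n ∧ g^[n] c = c) ∧
    IsNowhereDense (MapsWith d fun f => ∃ c, IsSummableCritical f c) := by
  refine ⟨?_, ?_⟩
  · rintro v f hf c ⟨hc, hs⟩ ε hε
    obtain ⟨h1, h2, rfl⟩ := rf_unique hd hf
    obtain ⟨w, hw, h4, h5, h6, h7, h8⟩ := Pool.Agent.H79.ES.both hd h1 h2 hc (summ_of hs) hε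
    exact ⟨w, hw, _, rf_isMap hd h4 h5, h8, h6, h7⟩
  · refine (Pool.Agent.H79.ES.nwd hd).mono ?_
    rintro v ⟨f, hf, c, hc, hs⟩
    obtain ⟨h1, h2, rfl⟩ := rf_unique hd hf
    exact ⟨h1, h2, c, hc, summ_of hs⟩

end Pool.Agent.H79.ES.OneSummablePoint
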