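import Pool.Agent.H79.ES.GDf

/-!
# Module GAE: the alignment along orbits, and the expansion at hyperbolic times

PROOF. `aln_ae`: `qs ≠ 0` and the conclusion of `rh_ae` hold `nu`-almost everywhere (`ae_withDensity_iff`, `‖qs‖ₑ ≠ 0`), hence along the orbits (`nu_pres`: the preimage under the iterate of a `nu`-null set is null; use a measurable hull `toMeasurable`, `measure_preimage`; `ae_all_iff`). The norm of the last line of `rh_ae` gives the last clause of `Aln` (`norm_mul`, `norm_pow`, `Complex.norm_real`,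
`abs_of_pos`; `(gg a b)^[n + 1] z = gg a b ((gg a b)^[n] z)`: `Function.iterate_succ_apply'`). `aln_prod`: induction on `j`, `dn a b (j + 1) x = dn a b j x * dg ((gg a b)^[j] x)` (`Finset.prod_range_succ`), `(gg a b)^[i] ((gg a b)^[m] z) = (gg a b)^[i + m] z` (`Function.iterate_add_apply`). `expand`: with `m = n - j`: `∏ rh ≤ exp (- η j)` as
`- log rh ≥ al` (`log rh ≤ 0`, so `- log rh ≥ 0`), `Real.log_prod`/`Real.exp_sum`. So `exp (- ε j) / M ≤ ‖qs (x_j)‖ ≤ exp (- η j) ‖dn‖ ^ 2 M`.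
-/

set_option autoImplicit false

open MeasureTheory Metric Set Polynomial Filter Topology

namespace Pool.Agent.H79.ES

open Pool.Agent.H61.TT Pool.Agent.H35.EX Pool.Agent.H91.CS

variable {d : ℕ} {a b : Polynomial ℂ} {P β : ℕ → ℂ}


private theorem null_iter (h : PS d a b P β) {T : Set ℂ} (hT : nu β P T = 0) (n : ℕ) :
    nu β P ((gg a b)^[n] ⁻¹' T) = 0 := by
  have hmeas : MeasurableSet (toMeasurable (nu β P) T) := measurableSet_toMeasurable _ _
  have h0 : nu β P (toMeasurable (nu β P) T) = 0 := by rw [measure_toMeasurable, hT]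
  have h1 : ∀ n : ℕ, MeasurableSet ((gg a b)^[n] ⁻¹' toMeasurable (nu β P) T) ∧
      nu β P ((gg a b)^[n] ⁻¹' toMeasurable (nu β P) T) = 0 := by
    intro n
    induction n with
    | zero => exact ⟨hmeas, h0⟩
    | succ n ih =>
      have h2 : (gg a b)^[n + 1] ⁻¹' toMeasurable (nu β P) T =
          gg a b ⁻¹' ((gg a b)^[n] ⁻¹' toMeasurable (nu β P) T) := by
        rw [Function.iterate_succ, preimage_comp]
      rw [h2]
      exact ⟨measurable_gg ih.1, (nu_pres h ih.1).trans ih.2⟩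
  exact measure_mono_null (preimage_mono (subset_toMeasurable _ _)) (h1 n).2

theorem aln_ae (h : PS d a b P β) : ∀ᵐ z ∂(nu β P), Aln a b β P z := by
  have h1 : ∀ᵐ x ∂(nu β P), qs β P x ≠ 0 ∧ b.eval x ≠ 0 ∧ 0 < rh a b β P x ∧
      rh a b β P x ≤ 1 ∧ ‖qs β P x‖ = rh a b β P x *
        ‖Pool.Agent.H61.TT.dg a b x‖ ^ 2 * ‖qs β P (gg a b x)‖ := by
    unfold nu
    rw [ae_withDensity_iff (qs_meas β P).enorm]
    filter_upwards [rh_ae h] with x hx hq
    have hq' : qs β P x ≠ 0 := fun h0 => hq (by rw [h0, enorm_zero])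
    obtain ⟨h2, -, -, h3, h4, h5⟩ := hx hq'
    refine ⟨hq', h2, h3, h4, ?_⟩
    have h6 := congrArg norm h5
    rw [norm_mul, norm_mul, norm_pow, Complex.norm_real, Real.norm_of_nonneg h3.le] at h6
    exact h6
  have h2 : ∀ n : ℕ, ∀ᵐ z ∂(nu β P), qs β P ((gg a b)^[n] z) ≠ 0 ∧
      b.eval ((gg a b)^[n] z) ≠ 0 ∧ 0 < rh a b β P ((gg a b)^[n] z) ∧
      rh a b β P ((gg a b)^[n] z) ≤ 1 ∧ ‖qs β P ((gg a b)^[n] z)‖ =
        rh a b β P ((gg a b)^[n] z) * ‖Pool.Agent.H61.TT.dg a b ((gg a b)^[n] z)‖ ^ 2 *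
          ‖qs β P (gg a b ((gg a b)^[n] z))‖ := by
    intro n
    rw [ae_iff] at h1 ⊢
    exact null_iter h h1 n
  rw [← ae_all_iff] at h2
  filter_upwards [h2] with z hz n
  obtain ⟨h3, h4, h5, h6, h7⟩ := hz n
  refine ⟨h3, h4, h5, h6, ?_⟩
  rw [Function.iterate_succ_apply']
  exact h7

theorem aln_prod {z : ℂ} (hz : Aln a b β P z) (m j : ℕ) :
    ‖qs β P ((gg a b)^[m] z)‖ = (∏ i ∈ Finset.range j, rh a b β P ((gg a b)^[m + i] z)) *
      ‖dn a b j ((gg a b)^[m] z)‖ ^ 2 * ‖qs β P ((gg a b)^[m + j] z)‖ := by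
  induction j with
  | zero => simp [dn]
  | succ j ih =>
    obtain ⟨-, -, -, -, h1⟩ := hz (m + j)
    have h2 : dn a b (j + 1) ((gg a b)^[m] z) = dn a b j ((gg a b)^[m] z) *
        Pool.Agent.H61.TT.dg a b ((gg a b)^[m + j] z) := by
      unfold dn
      rw [Finset.prod_range_succ, ← Function.iterate_add_apply, Nat.add_comm j m]
    rw [ih, h1, h2, Finset.prod_range_succ, norm_mul]
    have h3 : m + (j + 1) = m + j + 1 := rfl
    rw [h3]
    ring

theorem expand {z : ℂ} (hz : Aln a b β P z) {η ε M : ℝ} (hM : 1 ≤ M) {n : ℕ}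
    (h1 : z ∈ Hyp a b β P η n) (h2 : z ∈ Tame a b β P ε M n) {j : ℕ} (hj : j ≤ n) :
    Real.exp ((η - ε) * j) ≤ M ^ 2 * ‖dn a b j ((gg a b)^[n - j] z)‖ ^ 2 := by
  have hM0 : 0 < M := by linarith
  obtain ⟨hq1, hq2⟩ := h2
  have hA := h1 j hj
  obtain ⟨-, hB, -⟩ := hq2 j hj
  have hprod := aln_prod hz (n - j) j
  rw [Nat.sub_add_cancel hj] at hprod
  have hpos : ∀ i, 0 < rh a b β P ((gg a b)^[n - j + i] z) := fun i => (hz _).2.2.1
  have hle : ∀ i, rh a b β P ((gg a b)^[n - j + i] z) ≤ 1 := fun i => (hz _).2.2.2.1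
  have hal : ∀ i, al a b β P ((gg a b)^[n - j + i] z) ≤
      -Real.log (rh a b β P ((gg a b)^[n - j + i] z)) := by
    intro i
    unfold al
    have h3 : 0 ≤ -Real.log (rh a b β P ((gg a b)^[n - j + i] z)) := by
      have := Real.log_nonpos (hpos i).le (hle i)
      linarith
    exact max_le h3 (min_le_right _ _)
  have hP : ∏ i ∈ Finset.range j, rh a b β P ((gg a b)^[n - j + i] z) ≤
      Real.exp (-(η * j)) := by
    have h3 : ∏ i ∈ Finset.range j, rh a b β P ((gg a b)^[n - j + i] z) =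
        Real.exp (∑ i ∈ Finset.range j, Real.log (rh a b β P ((gg a b)^[n - j + i] z))) := by
      rw [Real.exp_sum]
      exact Finset.prod_congr rfl fun i _ => (Real.exp_log (hpos i)).symm
    rw [h3]
    apply Real.exp_le_exp.2
    have h4 := Finset.sum_le_sum fun i (_ : i ∈ Finset.range j) => hal i
    rw [Finset.sum_neg_distrib] at h4
    linarith
  have hP0 : 0 ≤ ∏ i ∈ Finset.range j, rh a b β P ((gg a b)^[n - j + i] z) :=
    Finset.prod_nonneg fun i _ => (hpos i).le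
  have hD0 : 0 ≤ ‖dn a b j ((gg a b)^[n - j] z)‖ ^ 2 := by positivity
  have h5 : Real.exp (-(ε * j)) / M ≤
      Real.exp (-(η * j)) * ‖dn a b j ((gg a b)^[n - j] z)‖ ^ 2 * M := by
    refine hB.trans ?_
    rw [hprod]
    exact mul_le_mul (mul_le_mul_of_nonneg_right hP hD0) hq1 (norm_nonneg _)
      (mul_nonneg (Real.exp_pos _).le hD0)
  rw [div_le_iff₀ hM0] at h5
  have h6 : Real.exp ((η - ε) * j) = Real.exp (η * j) * Real.exp (-(ε * j)) := by
    rw [← Real.exp_add]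
    congr 1
    ring
  have h7 : Real.exp (η * j) * Real.exp (-(η * j)) = 1 := by
    rw [← Real.exp_add, add_neg_cancel, Real.exp_zero]
  rw [h6]
  calc Real.exp (η * j) * Real.exp (-(ε * j))
      ≤ Real.exp (η * j) * (Real.exp (-(η * j)) *
        ‖dn a b j ((gg a b)^[n - j] z)‖ ^ 2 * M * M) :=
        mul_le_mul_of_nonneg_left h5 (Real.exp_pos _).le
    _ = (Real.exp (η * j) * Real.exp (-(η * j))) *
        (M ^ 2 * ‖dn a b j ((gg a b)^[n - j] z)‖ ^ 2) := by ring
    _ = _ := by rw [h7, one_mul]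

end Pool.Agent.H79.ES
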