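import Pool.Agent.H79.ES.GDf

/-!
# Module GPI: quantitative injectivity of a rational function

PROOF. For `‖x‖ ≤ t⁻¹`, `t ≤ 1` and `‖y - x‖ ≤ 1` all values of the polynomials `a, b, ww a b` and of their derivatives at `x, y` are at most `A t⁻¹ ^ D` (`‖p y‖ ≤ ∑ ‖p_i‖ (2 t⁻¹) ^ i`). `t ≤ ‖(W b)(x)‖` gives `‖b x‖, ‖W x‖ ≥ t ^ (D + 1) / A =: s`. Mean value: `‖b y - b x‖ ≤ A t⁻¹ ^ D ρ ≤ s / 2` on `ball x ρ`, so `b y ≠ 0`.
Injectivity: let `y ≠ z` in the ball with `gg y = gg z`, i.e. `a y b z = a z b y`. With `F w = a w * b z - a z * b w`: `F z = F y = 0`; `F' w = a' w b z - a z b' w` and `‖F' w - W x‖ ≤ A' t⁻¹ ^ (2 D) ρ < s` for `w, z` in the ball, so by the mean value inequality for `w ↦ F w - W x * w` (`Convex.norm_image_sub_le_of_norm_deriv_le`)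
`‖W x‖ ‖y - z‖ ≤ (s / 2) ‖y - z‖`, contradiction. `‖dg x‖ = ‖W x‖ / ‖b x‖ ^ 2 ≥ s / (A t⁻¹ ^ D) ^ 2`. Everything is `≥ c t ^ K` for suitable `c, K` (take `ρ = c t ^ K` with `c ≤ 1`).
-/

set_option autoImplicit false

open MeasureTheory Metric Set Polynomial Filter Topology

namespace Pool.Agent.H79.ES

open Pool.Agent.H61.TT Pool.Agent.H35.EX Pool.Agent.H91.CS

variable {d : ℕ} {a b : Polynomial ℂ} {P β : ℕ → ℂ}


private theorem gpi_one (p : Polynomial ℂ) : ∃ (A : ℝ) (D : ℕ), 1 ≤ A ∧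
    ∀ (A' : ℝ) (D' : ℕ), A ≤ A' → D ≤ D' → ∀ (t : ℝ) (y : ℂ), 0 < t → t ≤ 1 → ‖y‖ ≤ 2 * t⁻¹ →
      ‖p.eval y‖ ≤ A' * t⁻¹ ^ D' := by
  have h0 : 0 ≤ ∑ i ∈ Finset.range (p.natDegree + 1), ‖p.coeff i‖ * 2 ^ i :=
    Finset.sum_nonneg fun i _ => by positivity
  refine ⟨1 + ∑ i ∈ Finset.range (p.natDegree + 1), ‖p.coeff i‖ * 2 ^ i, p.natDegree, by linarith,
    fun A' D' hA hD t y ht ht1 hy => ?_⟩
  have ht2 : 1 ≤ t⁻¹ := (one_le_inv₀ ht).2 ht1
  rw [eval_eq_sum_range]
  calc ‖∑ i ∈ Finset.range (p.natDegree + 1), p.coeff i * y ^ i‖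
      ≤ ∑ i ∈ Finset.range (p.natDegree + 1), ‖p.coeff i * y ^ i‖ := norm_sum_le _ _
    _ ≤ ∑ i ∈ Finset.range (p.natDegree + 1), (‖p.coeff i‖ * 2 ^ i) * t⁻¹ ^ D' := by
        refine Finset.sum_le_sum fun i hi => ?_
        rw [norm_mul, norm_pow, mul_assoc]
        refine mul_le_mul_of_nonneg_left ?_ (norm_nonneg _)
        calc ‖y‖ ^ i ≤ (2 * t⁻¹) ^ i := pow_le_pow_left₀ (norm_nonneg _) hy i
          _ = 2 ^ i * t⁻¹ ^ i := mul_pow _ _ _
          _ ≤ 2 ^ i * t⁻¹ ^ D' := by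
              refine mul_le_mul_of_nonneg_left (pow_le_pow_right₀ ht2 ?_) (by positivity)
              have := Finset.mem_range.1 hi
              omega
    _ = (∑ i ∈ Finset.range (p.natDegree + 1), ‖p.coeff i‖ * 2 ^ i) * t⁻¹ ^ D' := by
        rw [Finset.sum_mul]
    _ ≤ A' * t⁻¹ ^ D' := mul_le_mul_of_nonneg_right (by linarith) (by positivity)

private theorem gpi_lip {p : Polynomial ℂ} {R B : ℝ}
    (h : ∀ y : ℂ, ‖y‖ ≤ R → ‖(derivative p).eval y‖ ≤ B) {y z : ℂ} (hy : ‖y‖ ≤ R) (hz : ‖z‖ ≤ R) :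
    ‖p.eval y - p.eval z‖ ≤ B * ‖y - z‖ := by
  refine Convex.norm_image_sub_le_of_norm_deriv_le (f := fun w => p.eval w) (s := closedBall 0 R)
    (fun w _ => p.differentiable w) (fun w hw => ?_) (convex_closedBall 0 R) ?_ ?_
  · rw [Polynomial.deriv]
    exact h w (by rwa [mem_closedBall, dist_zero_right] at hw)
  · rwa [mem_closedBall, dist_zero_right]
  · rwa [mem_closedBall, dist_zero_right]

theorem gpi (hR : RatD d a b) : ∃ (c : ℝ) (K : ℕ), 0 < c ∧ ∀ (t : ℝ) (x : ℂ), 0 < t → t ≤ 1 →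
    ‖x‖ ≤ t⁻¹ → t ≤ ‖(ww a b * b).eval x‖ →
      (∀ y ∈ ball x (c * t ^ K), b.eval y ≠ 0) ∧ InjOn (gg a b) (ball x (c * t ^ K)) ∧
      c * t ^ K ≤ ‖Pool.Agent.H61.TT.dg a b x‖ := by
  obtain ⟨A1, D1, hA1, h1⟩ := gpi_one a
  obtain ⟨A2, D2, hA2, h2⟩ := gpi_one b
  obtain ⟨A3, D3, hA3, h3⟩ := gpi_one (derivative a)
  obtain ⟨A4, D4, hA4, h4⟩ := gpi_one (derivative b)
  obtain ⟨A5, D5, hA5, h5⟩ := gpi_one (derivative (derivative a))
  obtain ⟨A6, D6, hA6, h6⟩ := gpi_one (derivative (derivative b))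
  obtain ⟨A7, D7, hA7, h7⟩ := gpi_one (ww a b)
  obtain ⟨A, hA⟩ : ∃ A, A = A1 + A2 + A3 + A4 + A5 + A6 + A7 := ⟨_, rfl⟩
  obtain ⟨D, hD⟩ : ∃ D, D = D1 + D2 + D3 + D4 + D5 + D6 + D7 := ⟨_, rfl⟩
  have hA0 : 1 ≤ A := by linarith
  refine ⟨1 / (8 * A ^ 3), 3 * D + 1, by positivity, fun t x ht ht1 hx hW => ?_⟩
  have ht2 : 1 ≤ t⁻¹ := (one_le_inv₀ ht).2 ht1
  obtain ⟨B, hB⟩ : ∃ B, B = A * t⁻¹ ^ D := ⟨_, rfl⟩
  have hB1 : 1 ≤ B := by
    rw [hB]
    exact one_le_mul_of_one_le_of_one_le hA0 (one_le_pow₀ ht2)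
  have hB0 : 0 < B := by linarith
  have e1 : ∀ y : ℂ, ‖y‖ ≤ 2 * t⁻¹ → ‖a.eval y‖ ≤ B := fun y hy => by
    rw [hB]; exact h1 A D (by linarith) (by omega) t y ht ht1 hy
  have e2 : ∀ y : ℂ, ‖y‖ ≤ 2 * t⁻¹ → ‖b.eval y‖ ≤ B := fun y hy => by
    rw [hB]; exact h2 A D (by linarith) (by omega) t y ht ht1 hy
  have e3 : ∀ y : ℂ, ‖y‖ ≤ 2 * t⁻¹ → ‖(derivative a).eval y‖ ≤ B := fun y hy => by
    rw [hB]; exact h3 A D (by linarith) (by omega) t y ht ht1 hy
  have e4 : ∀ y : ℂ, ‖y‖ ≤ 2 * t⁻¹ → ‖(derivative b).eval y‖ ≤ B := fun y hy => by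
    rw [hB]; exact h4 A D (by linarith) (by omega) t y ht ht1 hy
  have e5 : ∀ y : ℂ, ‖y‖ ≤ 2 * t⁻¹ → ‖(derivative (derivative a)).eval y‖ ≤ B := fun y hy => by
    rw [hB]; exact h5 A D (by linarith) (by omega) t y ht ht1 hy
  have e6 : ∀ y : ℂ, ‖y‖ ≤ 2 * t⁻¹ → ‖(derivative (derivative b)).eval y‖ ≤ B := fun y hy => by
    rw [hB]; exact h6 A D (by linarith) (by omega) t y ht ht1 hy
  have e7 : ∀ y : ℂ, ‖y‖ ≤ 2 * t⁻¹ → ‖(ww a b).eval y‖ ≤ B := fun y hy => by
    rw [hB]; exact h7 A D (by linarith) (by omega) t y ht ht1 hy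
  obtain ⟨ρ, hρ⟩ : ∃ ρ, ρ = 1 / (8 * A ^ 3) * t ^ (3 * D + 1) := ⟨_, rfl⟩
  have hρB : ρ * (8 * B ^ 3) = t := by
    have h8 : t⁻¹ ^ D * t ^ D = 1 := by
      rw [← mul_pow, inv_mul_cancel₀ ht.ne', one_pow]
    have h9 : B ^ 3 * t ^ (3 * D) = A ^ 3 := by
      rw [hB, mul_comm 3 D, pow_mul]
      calc (A * t⁻¹ ^ D) ^ 3 * (t ^ D) ^ 3 = A ^ 3 * (t⁻¹ ^ D * t ^ D) ^ 3 := by ring
        _ = A ^ 3 := by rw [h8]; ring
    rw [hρ, pow_succ]
    calc 1 / (8 * A ^ 3) * (t ^ (3 * D) * t) * (8 * B ^ 3)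
        = 1 / (8 * A ^ 3) * (8 * (B ^ 3 * t ^ (3 * D))) * t := by ring
      _ = 1 / (8 * A ^ 3) * (8 * A ^ 3) * t := by rw [h9]
      _ = t := by
          rw [one_div, inv_mul_cancel₀ (by positivity), one_mul]
  have hρ0 : 0 < ρ := by rw [hρ]; positivity
  have hB2 : 1 ≤ B ^ 2 := one_le_pow₀ hB1
  have hB3 : B ≤ B ^ 3 := by nlinarith
  have hρ1 : ρ ≤ 1 := by
    have h8 : ρ * 1 ≤ ρ * (8 * B ^ 3) := by
      apply mul_le_mul_of_nonneg_left _ hρ0.le
      nlinarith
    linarith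
  rw [← hρ]
  have hx2 : ‖x‖ ≤ 2 * t⁻¹ := by linarith
  have hball : ∀ y ∈ ball x ρ, ‖y‖ ≤ 2 * t⁻¹ := by
    intro y hy
    rw [mem_ball, dist_eq_norm] at hy
    calc ‖y‖ = ‖x + (y - x)‖ := by congr 1; ring
      _ ≤ ‖x‖ + ‖y - x‖ := norm_add_le _ _
      _ ≤ 2 * t⁻¹ := by linarith
  rw [eval_mul, norm_mul] at hW
  have hWx : t ≤ ‖(ww a b).eval x‖ * B :=
    hW.trans (mul_le_mul_of_nonneg_left (e2 x hx2) (norm_nonneg _))
  have hbx : t ≤ B * ‖b.eval x‖ :=
    hW.trans (mul_le_mul_of_nonneg_right (e7 x hx2) (norm_nonneg _))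
  refine ⟨fun y hy h0 => ?_, fun y hy z hz hyz => ?_, ?_⟩
  · have h8 := gpi_lip e4 (hball y hy) hx2
    rw [mem_ball, dist_eq_norm] at hy
    rw [h0, zero_sub, norm_neg] at h8
    have h9 : B * ‖b.eval x‖ ≤ B * (B * ρ) := by
      refine mul_le_mul_of_nonneg_left (h8.trans ?_) hB0.le
      exact mul_le_mul_of_nonneg_left hy.le hB0.le
    have h10 : B * (B * ρ) < ρ * (8 * B ^ 3) := by
      have : B * (B * ρ) = ρ * B ^ 2 := by ring
      rw [this]
      apply mul_lt_mul_of_pos_left _ hρ0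
      nlinarith
    linarith
  · by_contra hne
    have hby : b.eval y ≠ 0 := by
      intro h0
      have h8 := gpi_lip e4 (hball y hy) hx2
      rw [mem_ball, dist_eq_norm] at hy
      rw [h0, zero_sub, norm_neg] at h8
      have h9 : B * ‖b.eval x‖ ≤ B * (B * ρ) := by
        refine mul_le_mul_of_nonneg_left (h8.trans ?_) hB0.le
        exact mul_le_mul_of_nonneg_left hy.le hB0.le
      have h10 : B * (B * ρ) < ρ * (8 * B ^ 3) := by
        have : B * (B * ρ) = ρ * B ^ 2 := by ring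
        rw [this]
        apply mul_lt_mul_of_pos_left _ hρ0
        nlinarith
      linarith
    have hbz : b.eval z ≠ 0 := by
      intro h0
      have h8 := gpi_lip e4 (hball z hz) hx2
      rw [mem_ball, dist_eq_norm] at hz
      rw [h0, zero_sub, norm_neg] at h8
      have h9 : B * ‖b.eval x‖ ≤ B * (B * ρ) := by
        refine mul_le_mul_of_nonneg_left (h8.trans ?_) hB0.le
        exact mul_le_mul_of_nonneg_left hz.le hB0.le
      have h10 : B * (B * ρ) < ρ * (8 * B ^ 3) := by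
        have : B * (B * ρ) = ρ * B ^ 2 := by ring
        rw [this]
        apply mul_lt_mul_of_pos_left _ hρ0
        nlinarith
      linarith
    have hcr : a.eval y * b.eval z = a.eval z * b.eval y := by
      unfold gg at hyz
      rwa [div_eq_div_iff hby hbz] at hyz
    obtain ⟨p, hp⟩ : ∃ p : Polynomial ℂ,
        p = C (b.eval z) * a - C (a.eval z) * b - C ((ww a b).eval x) * X := ⟨_, rfl⟩
    have hpv : ∀ w, p.eval w = b.eval z * a.eval w - a.eval z * b.eval w - (ww a b).eval x * w := by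
      intro w
      rw [hp]
      simp only [eval_sub, eval_mul, eval_C, eval_X]
    have hpd : ∀ w, (derivative p).eval w =
        b.eval z * (derivative a).eval w - a.eval z * (derivative b).eval w - (ww a b).eval x := by
      intro w
      rw [hp]
      simp only [derivative_sub, derivative_mul, derivative_C, derivative_X, zero_mul, zero_add,
        mul_one, eval_sub, eval_mul, eval_C]
    have hwx : (ww a b).eval x =
        (derivative a).eval x * b.eval x - a.eval x * (derivative b).eval x := by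
      unfold ww
      simp only [eval_sub, eval_mul]
    have hz' := hball z hz
    have hlz : ‖z - x‖ ≤ ρ := by
      rw [mem_ball, dist_eq_norm] at hz
      exact hz.le
    have hbd : ∀ w ∈ ball x ρ, ‖(derivative p).eval w‖ ≤ 4 * B ^ 2 * ρ := by
      intro w hw
      have hw' := hball w hw
      have hlw : ‖w - x‖ ≤ ρ := by
        rw [mem_ball, dist_eq_norm] at hw
        exact hw.le
      have g1 : ‖b.eval z * ((derivative a).eval w - (derivative a).eval x)‖ ≤ B * (B * ρ) := by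
        rw [norm_mul]
        exact mul_le_mul (e2 z hz') ((gpi_lip e5 hw' hx2).trans (by gcongr)) (norm_nonneg _) hB0.le
      have g2 : ‖(derivative a).eval x * (b.eval z - b.eval x)‖ ≤ B * (B * ρ) := by
        rw [norm_mul]
        exact mul_le_mul (e3 x hx2) ((gpi_lip e4 hz' hx2).trans (by gcongr)) (norm_nonneg _) hB0.le
      have g3 : ‖a.eval z * ((derivative b).eval w - (derivative b).eval x)‖ ≤ B * (B * ρ) := by
        rw [norm_mul]
        exact mul_le_mul (e1 z hz') ((gpi_lip e6 hw' hx2).trans (by gcongr)) (norm_nonneg _) hB0.le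
      have g4 : ‖(derivative b).eval x * (a.eval z - a.eval x)‖ ≤ B * (B * ρ) := by
        rw [norm_mul]
        exact mul_le_mul (e4 x hx2) ((gpi_lip e3 hz' hx2).trans (by gcongr)) (norm_nonneg _) hB0.le
      have e : (derivative p).eval w = b.eval z * ((derivative a).eval w - (derivative a).eval x) +
          (derivative a).eval x * (b.eval z - b.eval x) -
          a.eval z * ((derivative b).eval w - (derivative b).eval x) -
          (derivative b).eval x * (a.eval z - a.eval x) := by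
        rw [hpd, hwx]
        ring
      rw [e]
      calc _ ≤ ‖b.eval z * ((derivative a).eval w - (derivative a).eval x) +
              (derivative a).eval x * (b.eval z - b.eval x) -
              a.eval z * ((derivative b).eval w - (derivative b).eval x)‖ +
              ‖(derivative b).eval x * (a.eval z - a.eval x)‖ := norm_sub_le _ _
        _ ≤ (‖b.eval z * ((derivative a).eval w - (derivative a).eval x) +
              (derivative a).eval x * (b.eval z - b.eval x)‖ +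
              ‖a.eval z * ((derivative b).eval w - (derivative b).eval x)‖) +
              ‖(derivative b).eval x * (a.eval z - a.eval x)‖ := by
            gcongr
            exact norm_sub_le _ _
        _ ≤ ((‖b.eval z * ((derivative a).eval w - (derivative a).eval x)‖ +
              ‖(derivative a).eval x * (b.eval z - b.eval x)‖) +
              ‖a.eval z * ((derivative b).eval w - (derivative b).eval x)‖) +
              ‖(derivative b).eval x * (a.eval z - a.eval x)‖ := by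
            gcongr
            exact norm_add_le _ _
        _ ≤ ((B * (B * ρ) + B * (B * ρ)) + B * (B * ρ)) + B * (B * ρ) := by gcongr
        _ = 4 * B ^ 2 * ρ := by ring
    have hmv : ‖p.eval y - p.eval z‖ ≤ 4 * B ^ 2 * ρ * ‖y - z‖ := by
      refine Convex.norm_image_sub_le_of_norm_deriv_le (f := fun w => p.eval w) (s := ball x ρ)
        (fun w _ => p.differentiable w) (fun w hw => ?_) (convex_ball x ρ) hz hy
      rw [Polynomial.deriv]
      exact hbd w hw
    have hpe : p.eval y - p.eval z = -((ww a b).eval x * (y - z)) := by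
      rw [hpv, hpv]
      linear_combination hcr
    rw [hpe, norm_neg, norm_mul] at hmv
    have hyz0 : 0 < ‖y - z‖ := norm_pos_iff.2 (sub_ne_zero.2 hne)
    have h8 : ‖(ww a b).eval x‖ ≤ 4 * B ^ 2 * ρ := le_of_mul_le_mul_right hmv hyz0
    have h9 : ‖(ww a b).eval x‖ * B ≤ 4 * B ^ 2 * ρ * B := mul_le_mul_of_nonneg_right h8 hB0.le
    have h10 : 4 * B ^ 2 * ρ * B = ρ * (8 * B ^ 3) / 2 := by ring
    rw [h10, hρB] at h9
    linarith
  · unfold Pool.Agent.H61.TT.dg
    rw [norm_div, norm_pow, le_div_iff₀ (by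
      have : 0 < ‖b.eval x‖ := by
        rcases (norm_nonneg (b.eval x)).eq_or_lt with h0 | h0
        · rw [← h0, mul_zero] at hbx
          linarith
        · exact h0
      positivity)]
    have h8 : ‖b.eval x‖ ^ 2 ≤ B ^ 2 := pow_le_pow_left₀ (norm_nonneg _) (e2 x hx2) 2
    have h9 : ρ * ‖b.eval x‖ ^ 2 * B ≤ ‖(ww a b).eval x‖ * B := by
      calc ρ * ‖b.eval x‖ ^ 2 * B ≤ ρ * B ^ 2 * B := by gcongr
        _ ≤ ρ * (8 * B ^ 3) := by
            have : ρ * B ^ 2 * B = ρ * B ^ 3 := by ring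
            rw [this]
            apply mul_le_mul_of_nonneg_left _ hρ0.le
            have : 0 ≤ B ^ 3 := by positivity
            linarith
        _ = t := hρB
        _ ≤ _ := hWx
    exact le_of_mul_le_mul_right h9 hB0

end Pool.Agent.H79.ES
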