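import Pool.Agent.H79.ES.GIV
import Pool.Agent.H79.ES.GPI

/-!
# Module GLI: local inverses of the rational function

PROOF. `gpi` and `inj_inv`; the radius `ρ * ‖deriv‖ / 16 ≥ (c t ^ K) ^ 2 / 16 = (c ^ 2 / 16) t ^ (2 K)`; `deriv (gg a b) x = dg a b x` (`hasDerivAt_gg`).
-/

set_option autoImplicit false

open MeasureTheory Metric Set Polynomial Filter Topology

namespace Pool.Agent.H79.ES

open Pool.Agent.H61.TT Pool.Agent.H35.EX Pool.Agent.H91.CS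

variable {d : ℕ} {a b : Polynomial ℂ} {P β : ℕ → ℂ}


theorem loc_inv (hR : RatD d a b) : ∃ (c : ℝ) (K : ℕ), 0 < c ∧ ∀ (t : ℝ) (x : ℂ), 0 < t → t ≤ 1 →
    ‖x‖ ≤ t⁻¹ → t ≤ ‖(ww a b * b).eval x‖ → ∃ ψ : ℂ → ℂ,
      DifferentiableOn ℂ ψ (ball (gg a b x) (c * t ^ K)) ∧ ψ (gg a b x) = x ∧
      ∀ w ∈ ball (gg a b x) (c * t ^ K), b.eval (ψ w) ≠ 0 ∧ gg a b (ψ w) = w := by
  obtain ⟨c, K, hc, hcK⟩ := gpi hR
  refine ⟨c ^ 2 / 16, 2 * K, by positivity, fun t x ht ht1 hx hw => ?_⟩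
  obtain ⟨h1, h2, h3⟩ := hcK t x ht ht1 hx hw
  have hρ : 0 < c * t ^ K := by positivity
  have hf : DifferentiableOn ℂ (gg a b) (ball x (c * t ^ K)) := fun y hy =>
    (hasDerivAt_gg (a := a) (h1 y hy)).differentiableAt.differentiableWithinAt
  obtain ⟨ψ, hψ1, hψ2, hψ3⟩ := inj_inv hρ hf h2
  have hd : deriv (gg a b) x = Pool.Agent.H61.TT.dg a b x :=
    (hasDerivAt_gg (a := a) (h1 x (mem_ball_self hρ))).deriv
  have hsub : ball (gg a b x) (c ^ 2 / 16 * t ^ (2 * K)) ⊆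
      ball (gg a b x) (c * t ^ K * ‖deriv (gg a b) x‖ / 16) := by
    apply ball_subset_ball
    rw [hd]
    have h4 := mul_le_mul_of_nonneg_left h3 hρ.le
    have h5 : c ^ 2 / 16 * t ^ (2 * K) = c * t ^ K * (c * t ^ K) / 16 := by ring
    rw [h5]
    exact div_le_div_of_nonneg_right h4 (by norm_num)
  exact ⟨ψ, hψ1.mono hsub, hψ2, fun w hw2 => ⟨h1 _ (hψ3 w (hsub hw2)).1, (hψ3 w (hsub hw2)).2⟩⟩

end Pool.Agent.H79.ES
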