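import Pool.Agent.H79.ES.GUN
import Pool.Agent.H79.ES.GLI
import Pool.Agent.H44.DN.KOE

/-!
# Module GKO: univalent branches of definite size at hyperbolic times

PROOF. `c, K` from `loc_inv`, `C, N` from `koe` (H44/DN/KOE). `ε = η / (4 K + 4)`, `θ = (η - ε) / 2 - K ε > 0`. `gnu`: `(2 (j + 1) (j + 2)) ^ N exp (- θ j) ≤ S` for all `j` (exponential beats polynomial: `Real.tendsto_pow_mul_exp_neg_atTop_nhds_zero` or `summable_pow_mul_geometric_of_norm_lt_one` for `(j + 2) ^ (2 N) exp (- θ) ^ j`, `2 ^ N` is a constant). Given `M`,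
choose `δ > 0` with `C M (2 δ) S < c (exp (- ε) / M) ^ K`. Let `x j = (gg a b)^[n - j] z`, `t j = exp (- (ε * j)) / M ∈ (0, 1]`, `r j = δ (1 + 1 / (j + 1))`. Induction on `j ≤ n`: there is `g` with `Uni a b (r j) j (x j) g` (`j = 0`: `g = id`; note `(gg a b)^[j] (x j) = (gg a b)^[n] z` by `Function.iterate_add_apply`). Step: `y = x (j + 1)`, `gg a b y = x j`
(`n - j = (n - (j + 1)) + 1`, `Function.iterate_succ_apply'`), `ψ` from `loc_inv` for `t (j + 1)` and `y`, `τ = c t (j + 1) ^ K`. `hs`: by `koe` on `ball _ (r j)` with `ρ = r (j + 1)`: `1 - ρ / R ≥ 1 / (2 (j + 1) (j + 2))` as `r j - r (j + 1) = δ / ((j + 1) (j + 2))`, `r j ≤ 2 δ`; `‖deriv g‖ = 1 / ‖dn j (x j)‖ ≤ M exp (- (η - ε) j / 2)` (`uni_der`, `expansion`); so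
`‖g w - x j‖ ≤ C M exp (- (η - ε) j / 2) (2 δ) (2 (j + 1) (j + 2)) ^ N ≤ C M (2 δ) S exp (- K ε j) < τ`. At the end restrict `g` from `ball _ (r n)` to `ball _ δ`.
-/

set_option autoImplicit false

open MeasureTheory Metric Set Polynomial Filter Topology

namespace Pool.Agent.H79.ES

open Pool.Agent.H61.TT Pool.Agent.H35.EX Pool.Agent.H91.CS

variable {d : ℕ} {a b : Polynomial ℂ} {P β : ℕ → ℂ}


theorem gnu (N : ℕ) {θ : ℝ} (hθ : 0 < θ) : ∃ S : ℝ, 0 < S ∧ ∀ j : ℕ,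
    (2 * ((j : ℝ) + 1) * ((j : ℝ) + 2)) ^ N * Real.exp (-(θ * j)) ≤ S := by
  refine ⟨2 ^ N * ((2 * N).factorial * Real.exp (2 * θ) / θ ^ (2 * N)), by positivity, fun j => ?_⟩
  have hj : (0 : ℝ) ≤ j := Nat.cast_nonneg j
  have h1 : (2 * ((j : ℝ) + 1) * ((j : ℝ) + 2)) ^ N ≤ 2 ^ N * ((j : ℝ) + 2) ^ (2 * N) := by
    rw [pow_mul, ← mul_pow]
    refine pow_le_pow_left₀ (by positivity) ?_ N
    nlinarith
  have h2 := Real.pow_div_factorial_le_exp (θ * ((j : ℝ) + 2)) (by positivity) (2 * N)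
  have h3 : ((j : ℝ) + 2) ^ (2 * N) * Real.exp (-(θ * j)) ≤
      (2 * N).factorial * Real.exp (2 * θ) / θ ^ (2 * N) := by
    rw [le_div_iff₀ (by positivity)]
    rw [div_le_iff₀ (by positivity), mul_pow] at h2
    have h4 : Real.exp (θ * ((j : ℝ) + 2)) * Real.exp (-(θ * j)) = Real.exp (2 * θ) := by
      rw [← Real.exp_add]
      congr 1
      ring
    calc ((j : ℝ) + 2) ^ (2 * N) * Real.exp (-(θ * j)) * θ ^ (2 * N)
        = (θ ^ (2 * N) * ((j : ℝ) + 2) ^ (2 * N)) * Real.exp (-(θ * j)) := by ring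
      _ ≤ (Real.exp (θ * ((j : ℝ) + 2)) * (2 * N).factorial) * Real.exp (-(θ * j)) :=
          mul_le_mul_of_nonneg_right h2 (Real.exp_nonneg _)
      _ = (2 * N).factorial * (Real.exp (θ * ((j : ℝ) + 2)) * Real.exp (-(θ * j))) := by ring
      _ = (2 * N).factorial * Real.exp (2 * θ) := by rw [h4]
  calc (2 * ((j : ℝ) + 1) * ((j : ℝ) + 2)) ^ N * Real.exp (-(θ * j))
      ≤ 2 ^ N * ((j : ℝ) + 2) ^ (2 * N) * Real.exp (-(θ * j)) :=
        mul_le_mul_of_nonneg_right h1 (Real.exp_nonneg _)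
    _ = 2 ^ N * (((j : ℝ) + 2) ^ (2 * N) * Real.exp (-(θ * j))) := by ring
    _ ≤ 2 ^ N * ((2 * N).factorial * Real.exp (2 * θ) / θ ^ (2 * N)) :=
        mul_le_mul_of_nonneg_left h3 (by positivity)

/-- one step of the induction -/
private theorem gko_step {c C S M ε η θ δ : ℝ} {K N : ℕ} (hc : 0 < c) (hC : 1 ≤ C) (hM : 1 ≤ M)
    (hδ : 0 < δ) (hθ : θ = (η - ε) / 2 - K * ε)
    (hS : ∀ j : ℕ, (2 * ((j : ℝ) + 1) * ((j : ℝ) + 2)) ^ N * Real.exp (-(θ * j)) ≤ S)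
    (hδS : C * M * (2 * δ) * S < c * (Real.exp (-ε) / M) ^ K)
    (hk : ∀ (g : ℂ → ℂ) (x : ℂ) (R : ℝ), 0 < R → DifferentiableOn ℂ g (ball x R) →
      InjOn g (ball x R) → ∀ ρ : ℝ, 0 ≤ ρ → ρ < R → ∀ z ∈ closedBall x ρ,
        ‖g z - g x‖ * (1 - ρ / R) ^ N ≤ C * (‖deriv g x‖ * ‖z - x‖))
    {j : ℕ} {x : ℂ} {g : ℂ → ℂ} (hg : Uni a b (δ * (1 + 1 / ((j : ℝ) + 1))) j x g)
    (he : Real.exp ((η - ε) * j) ≤ M ^ 2 * ‖dn a b j x‖ ^ 2)
    {w : ℂ} (hw : w ∈ ball ((gg a b)^[j] x) (δ * (1 + 1 / (((j + 1 : ℕ) : ℝ) + 1)))) :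
    g w ∈ ball x (c * (Real.exp (-(ε * ((j + 1 : ℕ) : ℝ))) / M) ^ K) := by
  have hj : (0 : ℝ) ≤ j := Nat.cast_nonneg j
  have hM0 : 0 < M := by linarith
  have hC0 : 0 < C := by linarith
  obtain ⟨R, hR⟩ : ∃ R, R = δ * (1 + 1 / ((j : ℝ) + 1)) := ⟨_, rfl⟩
  obtain ⟨ρ, hρ⟩ : ∃ ρ, ρ = δ * (1 + 1 / (((j + 1 : ℕ) : ℝ) + 1)) := ⟨_, rfl⟩
  rw [← hR] at hg
  rw [← hρ] at hw
  have hρ' : ρ = δ * (1 + 1 / ((j : ℝ) + 2)) := by
    rw [hρ]
    push_cast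
    ring
  have hR0 : 0 < R := by rw [hR]; positivity
  have hρ0 : 0 < ρ := by rw [hρ']; positivity
  have hdiff : R - ρ = δ / (((j : ℝ) + 1) * ((j : ℝ) + 2)) := by
    rw [hR, hρ']
    field_simp
    ring
  have hρR : ρ < R := by
    have : 0 < R - ρ := by rw [hdiff]; positivity
    linarith
  have hR2 : R ≤ 2 * δ := by
    rw [hR]
    have h1 : 1 / ((j : ℝ) + 1) ≤ 1 := by
      rw [div_le_one (by positivity)]
      linarith
    nlinarith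
  have hq : 1 / (2 * ((j : ℝ) + 1) * ((j : ℝ) + 2)) ≤ 1 - ρ / R := by
    have h1 : 1 - ρ / R = (R - ρ) / R := by field_simp
    rw [h1, hdiff, div_div, div_le_div_iff₀ (by positivity) (by positivity)]
    nlinarith [mul_nonneg hj hj, hδ]
  obtain ⟨Q, hQ⟩ : ∃ Q, Q = 2 * ((j : ℝ) + 1) * ((j : ℝ) + 2) := ⟨_, rfl⟩
  have hQ0 : 0 < Q := by rw [hQ]; positivity
  have hwd : ‖w - (gg a b)^[j] x‖ ≤ 2 * δ := by
    rw [mem_ball, dist_eq_norm] at hw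
    linarith
  have h1 := hk g _ R hR0 hg.diff (uni_inj hg) ρ hρ0.le hρR w (ball_subset_closedBall hw)
  rw [hg.cen] at h1
  have h2 : ‖g w - x‖ * (1 / Q) ^ N ≤ C * (‖deriv g ((gg a b)^[j] x)‖ * (2 * δ)) := by
    calc ‖g w - x‖ * (1 / Q) ^ N ≤ ‖g w - x‖ * (1 - ρ / R) ^ N := by
          refine mul_le_mul_of_nonneg_left (pow_le_pow_left₀ (by positivity) ?_ N) (norm_nonneg _)
          rw [hQ]
          exact hq
      _ ≤ _ := h1
      _ ≤ C * (‖deriv g ((gg a b)^[j] x)‖ * (2 * δ)) := by gcongr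
  have h3 : ‖g w - x‖ ≤ C * (‖deriv g ((gg a b)^[j] x)‖ * (2 * δ)) * Q ^ N := by
    rw [one_div, inv_pow, ← div_eq_mul_inv, div_le_iff₀ (by positivity)] at h2
    exact h2
  have h4 := uni_der hR0 hg
  have hdn : 0 < ‖dn a b j x‖ := by
    rcases (norm_nonneg (dn a b j x)).eq_or_lt with h0 | h0
    · rw [← h0, zero_mul] at h4
      exact absurd h4 (by norm_num)
    · exact h0
  have h5 : Real.exp ((η - ε) * j / 2) ≤ M * ‖dn a b j x‖ := by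
    have h6 : Real.exp ((η - ε) * j / 2) ^ 2 ≤ (M * ‖dn a b j x‖) ^ 2 := by
      rw [← Real.exp_nat_mul, mul_pow]
      refine le_trans (le_of_eq ?_) he
      congr 1
      push_cast
      ring
    exact le_of_sq_le_sq h6 (by positivity)
  have h6 : ‖deriv g ((gg a b)^[j] x)‖ ≤ M * Real.exp (-((η - ε) * j / 2)) := by
    have h7 : ‖deriv g ((gg a b)^[j] x)‖ = 1 / ‖dn a b j x‖ := by
      rw [eq_div_iff hdn.ne', mul_comm]
      exact h4
    rw [h7, Real.exp_neg, ← div_eq_mul_inv, div_le_div_iff₀ hdn (Real.exp_pos _), one_mul]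
    exact h5
  have h8 : Real.exp (-((η - ε) * j / 2)) = Real.exp (-(θ * j)) * Real.exp (-(ε * j)) ^ K := by
    rw [← Real.exp_nat_mul, ← Real.exp_add, hθ]
    congr 1
    ring
  have h9 : (Real.exp (-(ε * ((j + 1 : ℕ) : ℝ))) / M) ^ K =
      (Real.exp (-ε) / M) ^ K * Real.exp (-(ε * j)) ^ K := by
    rw [← mul_pow]
    congr 1
    rw [div_mul_eq_mul_div, ← Real.exp_add]
    congr 2
    push_cast
    ring
  rw [mem_ball, dist_eq_norm, h9]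
  obtain ⟨e, he'⟩ : ∃ e, e = Real.exp (-(ε * j)) ^ K := ⟨_, rfl⟩
  have he0 : 0 < e := by rw [he']; positivity
  rw [← he'] at h8 ⊢
  calc ‖g w - x‖ ≤ C * (‖deriv g ((gg a b)^[j] x)‖ * (2 * δ)) * Q ^ N := h3
    _ ≤ C * ((M * (Real.exp (-(θ * j)) * e)) * (2 * δ)) * Q ^ N := by
        rw [h8] at h6
        gcongr
    _ = C * M * (2 * δ) * (Q ^ N * Real.exp (-(θ * j))) * e := by ring
    _ ≤ C * M * (2 * δ) * S * e := by
        have := hS j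
        rw [← hQ] at this
        gcongr
    _ < c * (Real.exp (-ε) / M) ^ K * e := mul_lt_mul_of_pos_right hδS he0
    _ = c * ((Real.exp (-ε) / M) ^ K * e) := by ring

theorem branch (hR : RatD d a b) {η : ℝ} (hη : 0 < η) : ∃ ε : ℝ, 0 < ε ∧ ε < η ∧
    ∀ M : ℝ, 1 ≤ M → ∃ δ : ℝ, 0 < δ ∧ ∀ (n : ℕ) (z : ℂ),
      (∀ j ≤ n, ‖(gg a b)^[n - j] z‖ ≤ M * Real.exp (ε * j) ∧
        Real.exp (-(ε * j)) / M ≤ ‖(ww a b * b).eval ((gg a b)^[n - j] z)‖ ∧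
        Real.exp ((η - ε) * j) ≤ M ^ 2 * ‖dn a b j ((gg a b)^[n - j] z)‖ ^ 2) →
      ∃ g, Uni a b δ n z g := by
  obtain ⟨c, K, hc, hloc⟩ := loc_inv hR
  obtain ⟨C, N, hC, hkoe⟩ := Pool.Agent.H44.DN.koe
  have hK0 : (0 : ℝ) ≤ K := Nat.cast_nonneg K
  obtain ⟨ε, hε⟩ : ∃ ε : ℝ, ε = η / (4 * K + 4) := ⟨_, rfl⟩
  have hε0 : 0 < ε := by rw [hε]; positivity
  have hεη : ε * (4 * K + 4) = η := by
    rw [hε]
    field_simp
  have hKε : 0 ≤ K * ε := by positivity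
  obtain ⟨θ, hθ⟩ : ∃ θ : ℝ, θ = (η - ε) / 2 - K * ε := ⟨_, rfl⟩
  have hθ0 : 0 < θ := by
    rw [hθ]
    nlinarith
  obtain ⟨S, hS0, hS⟩ := gnu N hθ0
  refine ⟨ε, hε0, by nlinarith, fun M hM => ?_⟩
  have hM0 : 0 < M := by linarith
  have hC0 : 0 < C := by linarith
  obtain ⟨δ, hδ⟩ : ∃ δ : ℝ, δ = c * (Real.exp (-ε) / M) ^ K / (4 * C * M * S) := ⟨_, rfl⟩
  have hT : 0 < c * (Real.exp (-ε) / M) ^ K := by positivity
  have hδ0 : 0 < δ := by rw [hδ]; positivity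
  have hδS : C * M * (2 * δ) * S < c * (Real.exp (-ε) / M) ^ K := by
    have h1 : C * M * (2 * δ) * S = c * (Real.exp (-ε) / M) ^ K / 2 := by
      rw [hδ]
      field_simp
      ring
    rw [h1]
    linarith
  refine ⟨δ, hδ0, fun n z h => ?_⟩
  have hk : ∀ (g : ℂ → ℂ) (x : ℂ) (R : ℝ), 0 < R → DifferentiableOn ℂ g (ball x R) →
      InjOn g (ball x R) → ∀ ρ : ℝ, 0 ≤ ρ → ρ < R → ∀ z ∈ closedBall x ρ,
        ‖g z - g x‖ * (1 - ρ / R) ^ N ≤ C * (‖deriv g x‖ * ‖z - x‖) :=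
    fun g x R h1 h2 h3 ρ h4 h5 z h6 => (hkoe g x R h1 h2 h3 ρ h4 h5 z h6).2.2.1
  have key : ∀ j ≤ n, ∃ g, Uni a b (δ * (1 + 1 / ((j : ℝ) + 1))) j ((gg a b)^[n - j] z) g := by
    intro j
    induction j with
    | zero =>
      intro _
      refine ⟨id, differentiableOn_id, rfl, ?_, fun w _ => rfl⟩
      intro w _ i hi
      omega
    | succ j ih =>
      intro hj
      obtain ⟨g, hg⟩ := ih (by omega)
      obtain ⟨y, hy⟩ : ∃ y, y = (gg a b)^[n - (j + 1)] z := ⟨_, rfl⟩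
      have hyj : gg a b y = (gg a b)^[n - j] z := by
        rw [hy, ← Function.iterate_succ_apply' (gg a b)]
        congr 2
        omega
      obtain ⟨h1, h2, -⟩ := h (j + 1) hj
      obtain ⟨-, -, h3⟩ := h j (by omega)
      rw [← hy] at h1 h2
      rw [← hyj] at h3 hg
      obtain ⟨t, ht⟩ : ∃ t : ℝ, t = Real.exp (-(ε * ((j + 1 : ℕ) : ℝ))) / M := ⟨_, rfl⟩
      have ht0 : 0 < t := by rw [ht]; positivity
      have ht1 : t ≤ 1 := by
        rw [ht, div_le_one hM0]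
        refine le_trans ?_ hM
        rw [Real.exp_le_one_iff]
        have : (0 : ℝ) ≤ ((j + 1 : ℕ) : ℝ) := Nat.cast_nonneg _
        nlinarith
      have hti : t⁻¹ = M * Real.exp (ε * ((j + 1 : ℕ) : ℝ)) := by
        rw [ht, inv_div, Real.exp_neg, div_inv_eq_mul]
      obtain ⟨ψ, hψ, hψ0, hψ1⟩ := hloc t y ht0 ht1 (by rw [hti]; exact h1) (by rw [ht]; exact h2)
      rw [← hy]
      refine ⟨ψ ∘ g, uni_step hg ?_ hψ hψ0 hψ1 ?_⟩
      · have h4 : 1 / (((j + 1 : ℕ) : ℝ) + 1) ≤ 1 / ((j : ℝ) + 1) := by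
          apply one_div_le_one_div_of_le (by positivity)
          push_cast
          linarith
        gcongr
      · intro w hw
        rw [ht]
        exact gko_step hc hC hM hδ0 hθ hS hδS hk hg h3 hw
  obtain ⟨g, hg⟩ := key n le_rfl
  rw [Nat.sub_self] at hg
  have hsub : ball ((gg a b)^[n] z) δ ⊆ ball ((gg a b)^[n] z) (δ * (1 + 1 / ((n : ℝ) + 1))) := by
    apply ball_subset_ball
    have h4 : 0 < 1 / ((n : ℝ) + 1) := by positivity
    nlinarith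
  exact ⟨g, hg.diff.mono hsub, hg.cen, fun w hw => hg.den w (hsub hw), fun w hw => hg.inv w (hsub hw)⟩

end Pool.Agent.H79.ES
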