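import Mathlib

/-!
# Module GLS: sets of positive frequency have a limes superior of positive measure

PROOF. `{z | ∃ᶠ n, z ∈ A n} = ⋂ m, ⋃ n ≥ m, A n`. If its measure is `0` then `μ (⋃ n ≥ m, A n) → 0` (`tendsto_measure_iInter_atTop`, antitone, finite measure), so `μ.real (A n) → 0` and the Cesaro means `(1 / N) ∑ n ∈ Icc 1 N, μ.real (A n)` tend to `0` (`Filter.Tendsto.cesaro`), against `≥ lam`.
-/

set_option autoImplicit false

open MeasureTheory Metric Set Polynomial Filter Topology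

namespace Pool.Agent.H79.ES

theorem freq_pos {X : Type*} [MeasurableSpace X] {μ : Measure X} [IsFiniteMeasure μ] {A : ℕ → Set X}
    (hA : ∀ n, MeasurableSet (A n)) {lam : ℝ} (hlam : 0 < lam)
    (h : ∀ N : ℕ, lam * N ≤ ∑ n ∈ Finset.Icc 1 N, μ.real (A n)) :
    0 < μ {z | ∃ᶠ n in atTop, z ∈ A n} := by
  rw [pos_iff_ne_zero]
  intro h0
  let B : ℕ → Set X := fun m => ⋃ n ≥ m, A n
  have hBm : ∀ m, MeasurableSet (B m) := fun m =>
    MeasurableSet.biUnion (Set.to_countable _) fun n _ => hA n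
  have hanti : Antitone B := by
    intro m m' hmm x hx
    simp only [B, mem_iUnion] at hx ⊢
    obtain ⟨n, hn, hx⟩ := hx
    exact ⟨n, le_trans hmm hn, hx⟩
  have hset : {z | ∃ᶠ n in atTop, z ∈ A n} = ⋂ m, B m := by
    ext z
    simp only [Set.mem_ofPred_eq, frequently_atTop, mem_iInter, B, mem_iUnion, exists_prop]
  have h1 : Tendsto (fun m => μ (B m)) atTop (𝓝 (μ (⋂ m, B m))) :=
    tendsto_measure_iInter_atTop (fun m => (hBm m).nullMeasurableSet) hanti
      ⟨0, measure_ne_top μ _⟩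
  rw [← hset, h0] at h1
  have h2 : Tendsto (fun m => μ.real (A m)) atTop (𝓝 0) := by
    have h3 : Tendsto (fun m => μ.real (B m)) atTop (𝓝 0) := by
      have h4 := (ENNReal.tendsto_toReal (ENNReal.zero_ne_top)).comp h1
      rw [ENNReal.toReal_zero] at h4
      exact h4
    refine squeeze_zero (fun m => measureReal_nonneg) (fun m => ?_) h3
    refine measureReal_mono (fun x hx => ?_) (measure_ne_top μ _)
    simp only [B, mem_iUnion]
    exact ⟨m, le_refl m, hx⟩
  have h3 := (h2.comp (tendsto_add_atTop_nat 1)).cesaro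
  have h4 : ∀ᶠ N : ℕ in atTop, (N : ℝ)⁻¹ * ∑ i ∈ Finset.range N, μ.real (A (i + 1)) < lam := by
    have := h3.eventually (gt_mem_nhds hlam)
    simpa [Function.comp] using this
  obtain ⟨N, hN, hN1⟩ := (h4.and (eventually_ge_atTop 1)).exists
  have hN0 : (0 : ℝ) < N := by exact_mod_cast hN1
  have h5 := h N
  have h6 : ∑ n ∈ Finset.Icc 1 N, μ.real (A n) = ∑ i ∈ Finset.range N, μ.real (A (i + 1)) := by
    clear hN hN1 hN0 h5
    induction N with
    | zero => simp
    | succ N ih => rw [Finset.sum_Icc_succ_top (by omega), Finset.sum_range_succ, ih]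
  rw [h6] at h5
  have h7 : (N : ℝ)⁻¹ * ∑ i ∈ Finset.range N, μ.real (A (i + 1)) < lam := hN
  rw [inv_mul_lt_iff₀ hN0] at h7
  nlinarith

end Pool.Agent.H79.ES
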