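import Pool.Agent.H79.ES.GLW

/-!
# Module GTM: most points are tame

PROOF. Let `t j = exp (- (ε * j)) / M ≤ 1`, `(t j)⁻¹ = M * exp (ε * j)`, `E t` = the event of `nu_event`. `(Tame ε M n)ᶜ ⊆ ((gg a b)^[n]) ⁻¹' {M < ‖qs‖} ∪ ⋃ j ≤ n, ((gg a b)^[n - j]) ⁻¹' E (t j)`. By invariance (`nu_pres`, iterate) the measure is at most `μ {M < ‖qs‖} + ∑ j, C (t j) ^ p`
`= μ {M < ‖qs‖} + C M ^ (-p) ∑ j, exp (- (ε p)) ^ j` (geometric series), which tends to `0` as `M → ∞` (`nu_high`, `tendsto_rpow_neg_atTop`). So there is `M ≥ 1` with the bound `κ` for all `n` (`measureReal_def`, `ENNReal.toReal_le_of_le_ofReal`).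
-/

set_option autoImplicit false

open MeasureTheory Metric Set Polynomial Filter Topology

namespace Pool.Agent.H79.ES

open Pool.Agent.H61.TT Pool.Agent.H35.EX Pool.Agent.H91.CS

variable {d : ℕ} {a b : Polynomial ℂ} {P β : ℕ → ℂ}

private theorem mit (k : ℕ) : Measurable ((gg a b)^[k]) := (measurable_gg).iterate k

private theorem mev (p : Polynomial ℂ) : Measurable fun z : ℂ => p.eval z := p.continuous.measurable

theorem tame_meas (ε M : ℝ) (n : ℕ) : MeasurableSet (Tame a b β P ε M n) := by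
  unfold Tame
  have h1 : ∀ k, Measurable fun z => ‖qs β P ((gg a b)^[k] z)‖ := fun k =>
    ((qs_meas β P).comp (mit k)).norm
  have h2 : ∀ k, Measurable fun z => ‖(gg a b)^[k] z‖ := fun k => (mit k).norm
  have h3 : ∀ k, Measurable fun z => ‖(ww a b * b).eval ((gg a b)^[k] z)‖ := fun k =>
    ((mev _).comp (mit k)).norm
  refine MeasurableSet.inter (measurableSet_le (h1 n) measurable_const) ?_
  have h4 : {z | ∀ j ≤ n, ‖(gg a b)^[n - j] z‖ ≤ M * Real.exp (ε * j) ∧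
      Real.exp (-(ε * j)) / M ≤ ‖qs β P ((gg a b)^[n - j] z)‖ ∧
      Real.exp (-(ε * j)) / M ≤ ‖(ww a b * b).eval ((gg a b)^[n - j] z)‖} =
      ⋂ j : ℕ, ⋂ _ : j ≤ n, {z | ‖(gg a b)^[n - j] z‖ ≤ M * Real.exp (ε * j) ∧
      Real.exp (-(ε * j)) / M ≤ ‖qs β P ((gg a b)^[n - j] z)‖ ∧
      Real.exp (-(ε * j)) / M ≤ ‖(ww a b * b).eval ((gg a b)^[n - j] z)‖} := by
    ext z
    simp only [mem_ofPred_eq, mem_iInter]
  change MeasurableSet {z | ∀ j ≤ n, ‖(gg a b)^[n - j] z‖ ≤ M * Real.exp (ε * j) ∧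
      Real.exp (-(ε * j)) / M ≤ ‖qs β P ((gg a b)^[n - j] z)‖ ∧
      Real.exp (-(ε * j)) / M ≤ ‖(ww a b * b).eval ((gg a b)^[n - j] z)‖}
  rw [h4]
  refine MeasurableSet.iInter fun j => MeasurableSet.iInter fun _ => ?_
  exact (measurableSet_le (h2 _) measurable_const).inter
    ((measurableSet_le measurable_const (h1 _)).inter (measurableSet_le measurable_const (h3 _)))

private theorem pres_it (h : PS d a b P β) {T : Set ℂ} (hT : MeasurableSet T) (k : ℕ) :
    nu β P (((gg a b)^[k]) ⁻¹' T) = nu β P T := by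
  induction k with
  | zero => rfl
  | succ k ih =>
    rw [Function.iterate_succ, preimage_comp, nu_pres h ((mit k) hT), ih]

private theorem ev_meas (t : ℝ) :
    MeasurableSet {x | ‖qs β P x‖ < t ∨ t⁻¹ < ‖x‖ ∨ ‖(ww a b * b).eval x‖ < t} :=
  (measurableSet_lt (qs_meas β P).norm measurable_const).union
    ((measurableSet_lt measurable_const measurable_norm).union
      (measurableSet_lt (mev _).norm measurable_const))

theorem tame_big (h : PS d a b P β) {ε κ : ℝ} (hε : 0 < ε) (hκ : 0 < κ) : ∃ M : ℝ, 1 ≤ M ∧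
    ∀ n, (nu β P).real (Tame a b β P ε M n)ᶜ ≤ κ := by
  obtain ⟨C, p, hC, hp, hE⟩ := nu_event h
  have hr1 : Real.exp (-(ε * p)) < 1 := by
    rw [Real.exp_lt_one_iff]
    nlinarith [mul_pos hε hp]
  have hr0 : 0 < Real.exp (-(ε * p)) := Real.exp_pos _
  have hlim1 : ∀ᶠ M : ℝ in atTop, nu β P {x | M < ‖qs β P x‖} ≤ ENNReal.ofReal (κ / 2) := by
    have := (nu_high h).eventually (gt_mem_nhds (ENNReal.ofReal_pos.2 (half_pos hκ)))
    filter_upwards [this] with M hM using hM.le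
  have hlim2 : ∀ᶠ M : ℝ in atTop, C / (1 - Real.exp (-(ε * p))) * M ^ (-p) ≤ κ / 2 := by
    have h1 : Tendsto (fun M : ℝ => C / (1 - Real.exp (-(ε * p))) * M ^ (-p)) atTop
        (𝓝 (C / (1 - Real.exp (-(ε * p))) * 0)) :=
      (tendsto_rpow_neg_atTop hp).const_mul _
    rw [mul_zero] at h1
    filter_upwards [h1.eventually (gt_mem_nhds (half_pos hκ))] with M hM using hM.le
  obtain ⟨M, hM1, hM2, hM3⟩ := (hlim1.and (hlim2.and (eventually_ge_atTop 1))).exists
  refine ⟨M, hM3, fun n => ?_⟩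
  have hM0 : 0 < M := by linarith
  obtain ⟨t, ht⟩ : ∃ t : ℕ → ℝ, ∀ j : ℕ, t j = Real.exp (-(ε * j)) / M := ⟨_, fun _ => rfl⟩
  have ht0 : ∀ j, 0 < t j := fun j => by rw [ht]; positivity
  have ht1 : ∀ j, t j ≤ 1 := fun j => by
    rw [ht, div_le_one hM0]
    have : Real.exp (-(ε * j)) ≤ 1 := by
      rw [Real.exp_le_one_iff]
      have : (0 : ℝ) ≤ j := Nat.cast_nonneg j
      nlinarith
    linarith
  have hti : ∀ j, (t j)⁻¹ = M * Real.exp (ε * j) := fun j => by
    rw [ht, inv_div, Real.exp_neg, div_inv_eq_mul]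
  have hsub : (Tame a b β P ε M n)ᶜ ⊆ (((gg a b)^[n]) ⁻¹' {x | M < ‖qs β P x‖}) ∪
      ⋃ j ∈ Finset.range (n + 1), ((gg a b)^[n - j]) ⁻¹'
        {x | ‖qs β P x‖ < t j ∨ (t j)⁻¹ < ‖x‖ ∨ ‖(ww a b * b).eval x‖ < t j} := by
    intro z hz
    by_contra hcon
    apply hz
    rw [mem_union, not_or] at hcon
    obtain ⟨hc1, hc2⟩ := hcon
    have hc1' : ¬ M < ‖qs β P ((gg a b)^[n] z)‖ := hc1
    refine ⟨not_lt.1 hc1', fun j hj => ?_⟩
    have hc3 : ¬ (‖qs β P ((gg a b)^[n - j] z)‖ < t j ∨ (t j)⁻¹ < ‖(gg a b)^[n - j] z‖ ∨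
        ‖(ww a b * b).eval ((gg a b)^[n - j] z)‖ < t j) := by
      intro hc4
      apply hc2
      rw [mem_iUnion₂]
      exact ⟨j, Finset.mem_range.2 (by omega), hc4⟩
    rw [not_or, not_or, not_lt, not_lt, not_lt, hti, ht] at hc3
    exact ⟨hc3.2.1, hc3.1, hc3.2.2⟩
  have hbound : nu β P (Tame a b β P ε M n)ᶜ ≤ ENNReal.ofReal κ := by
    refine (measure_mono hsub).trans ((measure_union_le _ _).trans ?_)
    have e1 : nu β P (((gg a b)^[n]) ⁻¹' {x | M < ‖qs β P x‖}) ≤ ENNReal.ofReal (κ / 2) := by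
      rw [pres_it h (measurableSet_lt measurable_const (qs_meas β P).norm) n]
      exact hM1
    have e2 : nu β P (⋃ j ∈ Finset.range (n + 1), ((gg a b)^[n - j]) ⁻¹'
        {x | ‖qs β P x‖ < t j ∨ (t j)⁻¹ < ‖x‖ ∨ ‖(ww a b * b).eval x‖ < t j}) ≤
        ENNReal.ofReal (κ / 2) := by
      refine (measure_biUnion_finset_le _ _).trans ?_
      have e3 : ∀ j ∈ Finset.range (n + 1), nu β P (((gg a b)^[n - j]) ⁻¹'
          {x | ‖qs β P x‖ < t j ∨ (t j)⁻¹ < ‖x‖ ∨ ‖(ww a b * b).eval x‖ < t j}) ≤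
          ENNReal.ofReal (C * M ^ (-p) * Real.exp (-(ε * p)) ^ j) := by
        intro j _
        rw [pres_it h (ev_meas (t j)) (n - j)]
        refine (hE (t j) (ht0 j) (ht1 j)).trans (ENNReal.ofReal_le_ofReal (le_of_eq ?_))
        rw [ht, Real.div_rpow (Real.exp_pos _).le hM0.le, ← Real.exp_mul, Real.rpow_neg hM0.le,
          ← Real.exp_nat_mul, mul_assoc, div_eq_inv_mul]
        congr 3
        ring
      refine (Finset.sum_le_sum e3).trans ?_
      rw [← ENNReal.ofReal_sum_of_nonneg (fun j _ => by positivity)]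
      refine ENNReal.ofReal_le_ofReal ?_
      rw [← Finset.mul_sum]
      have e4 : ∑ j ∈ Finset.range (n + 1), Real.exp (-(ε * p)) ^ j ≤
          (1 - Real.exp (-(ε * p)))⁻¹ := by
        rw [← tsum_geometric_of_lt_one hr0.le hr1]
        exact (summable_geometric_of_lt_one hr0.le hr1).sum_le_tsum _ (fun j _ => by positivity)
      calc C * M ^ (-p) * ∑ j ∈ Finset.range (n + 1), Real.exp (-(ε * p)) ^ j
          ≤ C * M ^ (-p) * (1 - Real.exp (-(ε * p)))⁻¹ :=
            mul_le_mul_of_nonneg_left e4 (by positivity)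
        _ = C / (1 - Real.exp (-(ε * p))) * M ^ (-p) := by
            rw [div_eq_mul_inv]
            ring
        _ ≤ κ / 2 := hM2
    calc _ ≤ ENNReal.ofReal (κ / 2) + ENNReal.ofReal (κ / 2) := add_le_add e1 e2
      _ = ENNReal.ofReal κ := by
        rw [← ENNReal.ofReal_add (by linarith) (by linarith)]
        congr 1
        ring
  rw [measureReal_def]
  exact ENNReal.toReal_le_of_le_ofReal hκ.le hbound

end Pool.Agent.H79.ES
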