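import Pool.Agent.H79.ES.GHY
import Pool.Agent.H79.ES.GTM
import Pool.Agent.H79.ES.GAE
import Pool.Agent.H79.ES.GKO
import Pool.Agent.H79.ES.GLS

/-!
# Border of chapter 4: many points with univalent returns to a definite scale

PROOF. `A n = Hyp η n ∩ Tame ε M n` has measure at least `μ (Hyp η n) - lam / 2`; `freq_pos`; at the times with `z ∈ A n` the branch exists
(`branch`, `expand`) and its derivative at the centre is `1 / ‖dn a b n z‖ ≤ M exp (- (η - ε) n / 2)`.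
-/

set_option autoImplicit false

open MeasureTheory Metric Set Polynomial Filter Topology

namespace Pool.Agent.H79.ES

open Pool.Agent.H61.TT Pool.Agent.H35.EX Pool.Agent.H91.CS

variable {d : ℕ} {a b : Polynomial ℂ} {P β : ℕ → ℂ}

private theorem eg_lim {M θ : ℝ} (hθ : 0 < θ) {ε' : ℝ} (hε' : 0 < ε') :
    ∀ᶠ n : ℕ in atTop, M ^ 2 * Real.exp (-(θ * n)) ≤ ε' ^ 2 := by
  have h1 : Tendsto (fun n : ℕ => θ * (n : ℝ)) atTop atTop :=
    tendsto_natCast_atTop_atTop.const_mul_atTop hθ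
  have h2 : Tendsto (fun n : ℕ => Real.exp (-(θ * (n : ℝ)))) atTop (𝓝 0) :=
    Real.tendsto_exp_neg_atTop_nhds_zero.comp h1
  have h3 : Tendsto (fun n : ℕ => M ^ 2 * Real.exp (-(θ * (n : ℝ)))) atTop (𝓝 (M ^ 2 * 0)) :=
    h2.const_mul _
  rw [mul_zero] at h3
  exact (h3.eventually_lt_const (by positivity : (0 : ℝ) < ε' ^ 2)).mono fun n hn => hn.le

theorem good (h : PS d a b P β) (hent : 0 < nu β P {x | rh a b β P x < 1}) :
    ∃ δ M : ℝ, 0 < δ ∧ 0 < nu β P {z | ∀ ε : ℝ, 0 < ε → ∃ᶠ n in atTop,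
      ‖(gg a b)^[n] z‖ ≤ M ∧ ∃ g, Uni a b δ n z g ∧ ‖deriv g ((gg a b)^[n] z)‖ ≤ ε} := by
  have hfin := nu_fin h
  obtain ⟨η, lam, hη, hlam, hfreq⟩ := hyp_freq h hent
  obtain ⟨ε, hε, hεη, hbr⟩ := branch h.rat hη
  obtain ⟨M, hM, htame⟩ := tame_big h hε (half_pos hlam)
  obtain ⟨δ, hδ, hbr⟩ := hbr M hM
  have hM0 : 0 < M := by linarith
  refine ⟨δ, M, hδ, ?_⟩
  have hpos : 0 < nu β P {z | ∃ᶠ n in atTop, z ∈ Hyp a b β P η n ∩ Tame a b β P ε M n} := by
    refine freq_pos (fun n => (hyp_meas η n).inter (tame_meas ε M n)) (half_pos hlam) fun N => ?_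
    have h1 : ∀ n, (nu β P).real (Hyp a b β P η n) - lam / 2 ≤
        (nu β P).real (Hyp a b β P η n ∩ Tame a b β P ε M n) := by
      intro n
      have e1 : (nu β P).real (Hyp a b β P η n) ≤
          (nu β P).real (Hyp a b β P η n ∩ Tame a b β P ε M n) +
            (nu β P).real (Tame a b β P ε M n)ᶜ := by
        refine (measureReal_mono (μ := nu β P) (s₂ := (Hyp a b β P η n ∩ Tame a b β P ε M n) ∪
          (Tame a b β P ε M n)ᶜ) fun z hz => ?_).trans (measureReal_union_le _ _)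
        by_cases hz2 : z ∈ Tame a b β P ε M n
        · exact Or.inl ⟨hz, hz2⟩
        · exact Or.inr hz2
      have e2 := htame n
      linarith
    have h2 := Finset.sum_le_sum (s := Finset.Icc 1 N) fun n _ => h1 n
    rw [Finset.sum_sub_distrib, Finset.sum_const, Nat.card_Icc, nsmul_eq_mul,
      Nat.add_sub_cancel] at h2
    have h3 := hfreq N
    nlinarith
  refine lt_of_lt_of_le hpos (measure_mono_ae ?_)
  filter_upwards [aln_ae h] with z hz hz1
  intro ε' hε'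
  have hθ : 0 < η - ε := by linarith
  refine (Frequently.and_eventually hz1 (eg_lim (M := M) hθ hε')).mono ?_
  rintro n ⟨⟨hn1, hn2⟩, hn3⟩
  have hb0 := hn2.2 0 (Nat.zero_le n)
  refine ⟨?_, ?_⟩
  · have := hb0.1
    simpa using this
  obtain ⟨g, hg⟩ := hbr n z fun j hj => ⟨(hn2.2 j hj).1, (hn2.2 j hj).2.2, expand hz hM hn1 hn2 hj⟩
  refine ⟨g, hg, ?_⟩
  have h4 := expand hz hM hn1 hn2 (le_refl n)
  rw [Nat.sub_self, Function.iterate_zero, id_eq] at h4
  have h5 := uni_der hδ hg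
  have hD : 0 < ‖dn a b n z‖ := by
    by_contra hcon
    have : ‖dn a b n z‖ = 0 := le_antisymm (not_lt.1 hcon) (norm_nonneg _)
    rw [this, zero_mul] at h5
    exact zero_ne_one h5
  have h6 : ‖deriv g ((gg a b)^[n] z)‖ = ‖dn a b n z‖⁻¹ := by
    field_simp
    linarith
  have h7 : ‖deriv g ((gg a b)^[n] z)‖ ^ 2 ≤ ε' ^ 2 := by
    refine le_trans ?_ hn3
    rw [h6, Real.exp_neg, inv_pow, ← div_eq_mul_inv, le_div_iff₀ (Real.exp_pos _),
      inv_mul_le_iff₀ (by positivity)]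
    linarith
  exact le_of_sq_le_sq h7 hε'.le
where
  le_of_sq_le_sq {x y : ℝ} (h : x ^ 2 ≤ y ^ 2) (hy : 0 ≤ y) : x ≤ y := by
    exact le_of_abs_le (abs_le_of_sq_le_sq h hy)

end Pool.Agent.H79.ES
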