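import Pool.Agent.H79.ES.MNE

/-!
# Module MCU: an analytic curve of maps on which `c` stays critical, `α ↦ c`, `γ ↦ α`

PROOF. Let `a = pol v0.1`, `b = pol v0.2`, `v = it v0 1 c`. `(X - C c) ^ 2 ∣ a - C v * b` (as in MDK: `a(c) = v b(c)`, `a'(c) = v b'(c)` from `wv v0 c = 0`, `b(c) ≠ 0`): `a = C v * b + (X - C c) ^ 2 * p`, and `pol w.1 = C κ * b + C v * pol w.2 + (X - C c) ^ 2 * q` (`h1`). Work with coefficient vectors: `P2 = v0.1 - v • v0.2` and
`Q2 = w.1 - v • w.2 - κ • v0.2` in `Fin (d + 1) → ℂ` are the vectors of `(X - C c) ^ 2 * p`, `(X - C c) ^ 2 * q`, so `ev P2 c = dev P2 c = 0`, the same for `Q2` (`ev`, `dev` linear, `ev_cf`, `dev_cf`, `cf_pol`). Let `lα, lγ` be the vectors of `(X - C γ) / (α - γ)` and `(X - C α) / (γ - α)` (`cf d` of these polynomials, degree `1 ≤ d`;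
`α ≠ γ`: `ne3`): `ev lα α = 1, ev lα γ = 0, ev lγ α = 0, ev lγ γ = 1`. Let `eα t = - κ * t ^ 2 * ev w.2 α / (v + κ * t - c)`, `eγ t = - κ * t ^ 2 * ev w.2 γ / (v + κ * t - α)` (`v ≠ c`: `ne1 h 0`; `v ≠ α`: `ne2`), `B t = v0.2 + t • w.2 + eα t • lα + eγ t • lγ`, `A t = (v + κ * t) • B t + P2 + t • Q2`, `x t = (A t, B t)`, and `r > 0` with `‖κ‖ r < ‖v - c‖`,
`‖κ‖ r < ‖v - α‖`. Differentiability: sums and products. `x 0 = (v • v0.2 + P2, v0.2) = v0`. Derivative at `0`: `eα' = eγ' = 0` at `0` (`t ^ 2` times a differentiable function), `B' = w.2`, `A' = κ • v0.2 + v • w.2 + Q2 = w.1`. `wv (x t) c = dev A c * ev B c - ev A c * dev B c = 0` since `ev (A t) c = (v + κ t) ev (B t) c` and `dev (A t) c = (v + κ t) dev (B t) c`. At `α`: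
`ev (A t) α - c * ev (B t) α = (v + κ t - c) * (b(α) + t w.2(α) + eα t) + P2(α) + t Q2(α)`; here `(v - c) b(α) + P2(α) = a(α) - c b(α) = 0` (`h.a1`, `h.a2`), `κ b(α) + (v - c) w.2(α) + Q2(α) = w.1(α) - c w.2(α) = 0` (`h2`), so the rest is `κ t ^ 2 w.2(α) + (v + κ t - c) * eα t = 0`. At `γ` the same with `α` in place of `c` (`h.g1`, `h.g2`, `h3`).
-/

set_option autoImplicit false

open Filter Topology Polynomial Metric Set

namespace Pool.Agent.H79.ES

open Pool.Agent.H44.Fatou Pool.Agent.H32.BT Pool.Agent.H79.Eul Pool.Agent.H79.Par Pool.Agent.H61.TT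
open Pool.Agent.H35.EX

variable {d : ℕ} {v0 : E d} {c α γ : ℂ}

private theorem mcu_add (p q : Fin (d + 1) → ℂ) (z : ℂ) : ev (p + q) z = ev p z + ev q z := by
  unfold ev
  rw [← Finset.sum_add_distrib]
  exact Finset.sum_congr rfl fun i _ => by rw [Pi.add_apply, add_mul]

private theorem mcu_smul (t : ℂ) (p : Fin (d + 1) → ℂ) (z : ℂ) : ev (t • p) z = t * ev p z := by
  unfold ev
  rw [Finset.mul_sum]
  exact Finset.sum_congr rfl fun i _ => by rw [Pi.smul_apply, smul_eq_mul, mul_assoc]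

private theorem mcu_sub (p q : Fin (d + 1) → ℂ) (z : ℂ) : ev (p - q) z = ev p z - ev q z := by
  unfold ev
  rw [← Finset.sum_sub_distrib]
  exact Finset.sum_congr rfl fun i _ => by rw [Pi.sub_apply, sub_mul]

private theorem mcu_dadd (p q : Fin (d + 1) → ℂ) (z : ℂ) :
    dev (p + q) z = dev p z + dev q z := by
  unfold dev
  rw [← Finset.sum_add_distrib]
  exact Finset.sum_congr rfl fun i _ => by rw [Pi.add_apply, add_mul]

private theorem mcu_dsmul (t : ℂ) (p : Fin (d + 1) → ℂ) (z : ℂ) :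
    dev (t • p) z = t * dev p z := by
  unfold dev
  rw [Finset.mul_sum]
  exact Finset.sum_congr rfl fun i _ => by rw [Pi.smul_apply, smul_eq_mul, mul_assoc]

private theorem mcu_dsub (p q : Fin (d + 1) → ℂ) (z : ℂ) :
    dev (p - q) z = dev p z - dev q z := by
  unfold dev
  rw [← Finset.sum_sub_distrib]
  exact Finset.sum_congr rfl fun i _ => by rw [Pi.sub_apply, sub_mul]

private theorem mcu_sq {P : Polynomial ℂ} {c : ℂ} (h : (X - C c) ^ 2 ∣ P) :
    P.eval c = 0 ∧ (derivative P).eval c = 0 := by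
  obtain ⟨Q, hQ⟩ := h
  rw [hQ]
  constructor
  · simp
  · rw [derivative_mul, derivative_pow, eval_add, eval_mul, eval_mul]
    simp

private theorem mcu_lin (hd : 1 ≤ d) {α γ : ℂ} (h : α ≠ γ) : ∃ l : Fin (d + 1) → ℂ,
    ev l α = 1 ∧ ev l γ = 0 := by
  refine ⟨cf d (C (1 / (α - γ)) * (X - C γ)), ?_, ?_⟩
  · rw [ev_cf]
    · rw [eval_mul, eval_C, eval_sub, eval_X, eval_C]
      exact one_div_mul_cancel (sub_ne_zero.2 h)
    · refine (natDegree_C_mul_le _ _).trans ?_
      rw [natDegree_X_sub_C]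
      exact hd
  · rw [ev_cf]
    · rw [eval_mul, eval_C, eval_sub, eval_X, eval_C, sub_self, mul_zero]
    · refine (natDegree_C_mul_le _ _).trans ?_
      rw [natDegree_X_sub_C]
      exact hd

theorem curve (hR : RatD d (pol v0.1) (pol v0.2)) (h : Ch v0 c α γ) {w : E d} {κ : ℂ}
    (h1 : (X - C c) ^ 2 ∣ pol w.1 - C (it v0 1 c) * pol w.2 - C κ * pol v0.2)
    (h2 : ev w.1 α = c * ev w.2 α) (h3 : ev w.1 γ = α * ev w.2 γ) :
    ∃ (x : ℂ → E d) (r : ℝ), 0 < r ∧ DifferentiableOn ℂ x (ball 0 r) ∧ x 0 = v0 ∧ HasDerivAt x w 0 ∧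
      ∀ t ∈ ball (0 : ℂ) r, wv (x t) c = 0 ∧ ev (x t).1 α = c * ev (x t).2 α ∧
        ev (x t).1 γ = α * ev (x t).2 γ := by
  have hd1 : 1 ≤ d := by
    have := hR.hd
    omega
  have hb0 : ev v0.2 c ≠ 0 := h.cr.den 0
  obtain ⟨v, hv⟩ : ∃ v : ℂ, v = it v0 1 c := ⟨_, rfl⟩
  have hv1 : v = ev v0.1 c / ev v0.2 c := hv
  have hcr : dev v0.1 c * ev v0.2 c - ev v0.1 c * dev v0.2 c = 0 := h.cr.crit
  rw [← hv] at h1
  have ha : ev v0.1 c = v * ev v0.2 c := by
    rw [hv1]
    field_simp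
  have ha' : dev v0.1 c = v * dev v0.2 c := by
    rw [ha] at hcr
    apply mul_right_cancel₀ hb0
    linear_combination hcr
  obtain ⟨hq0, hq1⟩ := mcu_sq h1
  have hq0' : ev w.1 c - v * ev w.2 c - κ * ev v0.2 c = 0 := by
    simpa only [eval_sub, eval_mul, eval_C, pol_eval] using hq0
  have hq1' : dev w.1 c - v * dev w.2 c - κ * dev v0.2 c = 0 := by
    rw [derivative_sub, derivative_sub, derivative_C_mul, derivative_C_mul] at hq1
    simpa only [eval_sub, eval_mul, eval_C, pol_deriv_eval] using hq1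
  have hvc : v - c ≠ 0 := by
    rw [hv]
    exact sub_ne_zero.2 (ne1 h 0)
  have hvα : v - α ≠ 0 := by
    rw [hv]
    exact sub_ne_zero.2 (ne2 h)
  obtain ⟨lα, hlα1, hlα2⟩ := mcu_lin hd1 (ne3 h)
  obtain ⟨lγ, hlγ1, hlγ2⟩ := mcu_lin hd1 (ne3 h).symm
  have hα1 : ev v0.1 α = c * ev v0.2 α := by
    have h5 : ev v0.1 α / ev v0.2 α = c := h.a2
    rwa [div_eq_iff h.a1] at h5
  have hγ1 : ev v0.1 γ = α * ev v0.2 γ := by
    have h5 : ev v0.1 γ / ev v0.2 γ = α := h.g2
    rwa [div_eq_iff h.g1] at h5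
  obtain ⟨eα, heα⟩ : ∃ e : ℂ → ℂ, ∀ t, e t = t ^ 2 * (-κ * ev w.2 α / (v + κ * t - c)) :=
    ⟨_, fun _ => rfl⟩
  obtain ⟨eγ, heγ⟩ : ∃ e : ℂ → ℂ, ∀ t, e t = t ^ 2 * (-κ * ev w.2 γ / (v + κ * t - α)) :=
    ⟨_, fun _ => rfl⟩
  obtain ⟨B, hB⟩ : ∃ B : ℂ → Fin (d + 1) → ℂ, ∀ t, B t = v0.2 + t • w.2 + eα t • lα + eγ t • lγ :=
    ⟨_, fun _ => rfl⟩
  obtain ⟨A, hA⟩ : ∃ A : ℂ → Fin (d + 1) → ℂ, ∀ t, A t = (v + κ * t) • B t + (v0.1 - v • v0.2) +
      t • (w.1 - v • w.2 - κ • v0.2) := ⟨_, fun _ => rfl⟩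
  obtain ⟨r, hr⟩ : ∃ r : ℝ, r = min ‖v - c‖ ‖v - α‖ / (‖κ‖ + 1) := ⟨_, rfl⟩
  have hm : 0 < min ‖v - c‖ ‖v - α‖ := lt_min (norm_pos_iff.2 hvc) (norm_pos_iff.2 hvα)
  have hr0 : 0 < r := by
    rw [hr]
    positivity
  have hden : ∀ t ∈ ball (0 : ℂ) r, v + κ * t - c ≠ 0 ∧ v + κ * t - α ≠ 0 := by
    intro t ht
    rw [mem_ball_zero_iff] at ht
    have e1 : ‖κ * t‖ < min ‖v - c‖ ‖v - α‖ := by
      rw [norm_mul]
      rcases (norm_nonneg κ).eq_or_lt with h4 | h4
      · rw [← h4, zero_mul]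
        exact hm
      · calc ‖κ‖ * ‖t‖ < ‖κ‖ * r := mul_lt_mul_of_pos_left ht h4
          _ ≤ (‖κ‖ + 1) * r := by
            refine mul_le_mul_of_nonneg_right (by linarith) hr0.le
          _ = min ‖v - c‖ ‖v - α‖ := by
            rw [hr]
            field_simp
    constructor
    · intro h5
      have h6 : v - c = -(κ * t) := by linear_combination h5
      have h7 := e1.trans_le (min_le_left _ _)
      rw [h6, norm_neg] at h7
      exact lt_irrefl _ h7
    · intro h5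
      have h6 : v - α = -(κ * t) := by linear_combination h5
      have h7 := e1.trans_le (min_le_right _ _)
      rw [h6, norm_neg] at h7
      exact lt_irrefl _ h7
  have hlin : ∀ t : ℂ, HasDerivAt (fun t : ℂ => v + κ * t) κ t := by
    intro t
    have e1 := ((hasDerivAt_id t).const_mul κ).const_add v
    simpa using e1
  have deα : ∀ t ∈ ball (0 : ℂ) r, DifferentiableAt ℂ eα t := by
    intro t ht
    have e1 : eα = fun t => t ^ 2 * (-κ * ev w.2 α / (v + κ * t - c)) := funext heα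
    rw [e1]
    refine (differentiableAt_id.pow 2).mul ?_
    exact (differentiableAt_const _).div (((hlin t).differentiableAt).sub_const c) (hden t ht).1
  have deγ : ∀ t ∈ ball (0 : ℂ) r, DifferentiableAt ℂ eγ t := by
    intro t ht
    have e1 : eγ = fun t => t ^ 2 * (-κ * ev w.2 γ / (v + κ * t - α)) := funext heγ
    rw [e1]
    refine (differentiableAt_id.pow 2).mul ?_
    exact (differentiableAt_const _).div (((hlin t).differentiableAt).sub_const α) (hden t ht).2
  have dsq : HasDerivAt (fun t : ℂ => t ^ 2) 0 0 := by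
    have e1 := hasDerivAt_pow 2 (0 : ℂ)
    simpa using e1
  have hzero : ∀ g : ℂ → ℂ, DifferentiableAt ℂ g 0 → HasDerivAt (fun t => t ^ 2 * g t) 0 0 := by
    intro g hg
    have e1 := dsq.mul hg.hasDerivAt
    refine e1.congr_deriv ?_
    simp
  have d0α : HasDerivAt eα 0 0 := by
    have e1 : eα = fun t => t ^ 2 * (-κ * ev w.2 α / (v + κ * t - c)) := funext heα
    rw [e1]
    refine hzero _ ?_
    exact (differentiableAt_const _).div (((hlin 0).differentiableAt).sub_const c)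
      (hden 0 (mem_ball_self hr0)).1
  have d0γ : HasDerivAt eγ 0 0 := by
    have e1 : eγ = fun t => t ^ 2 * (-κ * ev w.2 γ / (v + κ * t - α)) := funext heγ
    rw [e1]
    refine hzero _ ?_
    exact (differentiableAt_const _).div (((hlin 0).differentiableAt).sub_const α)
      (hden 0 (mem_ball_self hr0)).2
  have e00 : eα 0 = 0 := by rw [heα]; simp
  have e01 : eγ 0 = 0 := by rw [heγ]; simp
  have hB0 : B 0 = v0.2 := by
    rw [hB, e00, e01]
    simp
  have hA0 : A 0 = v0.1 := by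
    rw [hA, hB0]
    simp
  have dB : HasDerivAt B w.2 0 := by
    have e1 : B = fun t => v0.2 + t • w.2 + eα t • lα + eγ t • lγ := funext hB
    rw [e1]
    have e2 := ((((hasDerivAt_id (0 : ℂ)).smul_const w.2).const_add v0.2).add
      (d0α.smul_const lα)).add (d0γ.smul_const lγ)
    refine e2.congr_deriv ?_
    simp
  have dA : HasDerivAt A w.1 0 := by
    have e1 : A = fun t => (v + κ * t) • B t + (v0.1 - v • v0.2) +
        t • (w.1 - v • w.2 - κ • v0.2) := funext hA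
    rw [e1]
    have e2 := (((hlin 0).smul dB).add_const (v0.1 - v • v0.2)).add
      ((hasDerivAt_id (0 : ℂ)).smul_const (w.1 - v • w.2 - κ • v0.2))
    refine e2.congr_deriv ?_
    rw [hB0]
    simp
  have dBt : ∀ t ∈ ball (0 : ℂ) r, DifferentiableAt ℂ B t := by
    intro t ht
    have e1 : B = fun t => v0.2 + t • w.2 + eα t • lα + eγ t • lγ := funext hB
    rw [e1]
    exact (((differentiableAt_id.smul_const w.2).const_add v0.2).add
      ((deα t ht).smul_const lα)).add ((deγ t ht).smul_const lγ)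
  have dAt : ∀ t ∈ ball (0 : ℂ) r, DifferentiableAt ℂ A t := by
    intro t ht
    have e1 : A = fun t => (v + κ * t) • B t + (v0.1 - v • v0.2) +
        t • (w.1 - v • w.2 - κ • v0.2) := funext hA
    rw [e1]
    exact (((hlin t).differentiableAt.smul (dBt t ht)).add_const _).add
      (differentiableAt_id.smul_const _)
  refine ⟨fun t => (A t, B t), r, hr0, ?_, ?_, dA.prodMk dB, ?_⟩
  · intro t ht
    exact ((dAt t ht).prodMk (dBt t ht)).differentiableWithinAt
  · show (A 0, B 0) = v0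
    rw [hA0, hB0]
  · intro t ht
    obtain ⟨n1, n2⟩ := hden t ht
    refine ⟨?_, ?_, ?_⟩
    · show dev (A t) c * ev (B t) c - ev (A t) c * dev (B t) c = 0
      have e1 : ev (A t) c = (v + κ * t) * ev (B t) c := by
        rw [hA t]
        simp only [mcu_add, mcu_sub, mcu_smul]
        linear_combination ha + t * hq0'
      have e2 : dev (A t) c = (v + κ * t) * dev (B t) c := by
        rw [hA t]
        simp only [mcu_dadd, mcu_dsub, mcu_dsmul]
        linear_combination ha' + t * hq1'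
      rw [e1, e2]
      ring
    · show ev (A t) α = c * ev (B t) α
      have e1 : ev (B t) α = ev v0.2 α + t * ev w.2 α + eα t := by
        rw [hB t]
        simp only [mcu_add, mcu_smul]
        rw [hlα1, hlγ2]
        ring
      have e2 : ev (A t) α = (v + κ * t) * ev (B t) α + (ev v0.1 α - v * ev v0.2 α) +
          t * (ev w.1 α - v * ev w.2 α - κ * ev v0.2 α) := by
        rw [hA t]
        simp only [mcu_add, mcu_sub, mcu_smul]
      have e3 : (v + κ * t - c) * eα t = -κ * t ^ 2 * ev w.2 α := by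
        rw [heα]
        field_simp
      rw [e2, e1]
      linear_combination e3 + hα1 + t * h2
    · show ev (A t) γ = α * ev (B t) γ
      have e1 : ev (B t) γ = ev v0.2 γ + t * ev w.2 γ + eγ t := by
        rw [hB t]
        simp only [mcu_add, mcu_smul]
        rw [hlα2, hlγ1]
        ring
      have e2 : ev (A t) γ = (v + κ * t) * ev (B t) γ + (ev v0.1 γ - v * ev v0.2 γ) +
          t * (ev w.1 γ - v * ev w.2 γ - κ * ev v0.2 γ) := by
        rw [hA t]
        simp only [mcu_add, mcu_sub, mcu_smul]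
      have e3 : (v + κ * t - α) * eγ t = -κ * t ^ 2 * ev w.2 γ := by
        rw [heγ]
        field_simp
      rw [e2, e1]
      linear_combination e3 + hγ1 + t * h3

end Pool.Agent.H79.ES
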