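import Pool.Agent.H79.ES.EDf

/-!
# Module MDK: the three conditions in terms of polynomials

PROOF. Let `a = pol v0.1`, `b = pol v0.2`, `v = it v0 1 c = a(c) / b(c)` (`pol_eval`), `b(c) ≠ 0` (`h.cr.den 0`). `wv v0 c = 0` says `a'(c) b(c) = a(c) b'(c)` (`dev` is the value of the derivative: `dev_cf`, `cf_pol`), so `a'(c) = v b'(c)`. Take `P0 = pol w.1 - C v * pol w.2`, `κ = P0(c) / b(c)`, `P = P0 - C κ * b`: `P(c) = 0`.
`xi v0 w z = N(z) / b(z) ^ 2` with the polynomial `N = pol w.1 * b - a * pol w.2`; `deriv = 0` gives `N'(c) b(c) = 2 N(c) b'(c)`; with `a(c) = v b(c)`, `a'(c) = v b'(c)`: `N(c) = b(c) P0(c)`, `N'(c) = b(c) P0'(c) + b'(c) P0(c)`, so `b(c) P0'(c) = b'(c) P0(c)` and `P'(c) = P0'(c) - κ b'(c) = 0`. So `(X - C c) ^ 2 ∣ P`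
(`P = (X - C c) * Q`, `Q(c) = P'(c) = 0`; `dvd_iff_isRoot`). `xi v0 w α = 0`, `b(α) ≠ 0` (`h.a1`) and `a(α) = c b(α)` (`h.a2`) give `ev w.1 α = c ev w.2 α`; same for `γ`.
-/

set_option autoImplicit false

open Filter Topology Polynomial Metric Set

namespace Pool.Agent.H79.ES

open Pool.Agent.H44.Fatou Pool.Agent.H32.BT Pool.Agent.H79.Eul Pool.Agent.H79.Par Pool.Agent.H61.TT
open Pool.Agent.H35.EX

variable {d : ℕ} {v0 : E d} {c α γ : ℂ}

private theorem mdk_sq {P : Polynomial ℂ} {c : ℂ} (h0 : P.eval c = 0)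
    (h1 : (derivative P).eval c = 0) : (X - C c) ^ 2 ∣ P := by
  obtain ⟨Q, hQ⟩ := dvd_iff_isRoot.2 (show P.IsRoot c from h0)
  have h2 : Q.eval c = 0 := by
    rw [hQ, derivative_mul, eval_add, eval_mul, eval_mul] at h1
    simpa using h1
  obtain ⟨Q2, hQ2⟩ := dvd_iff_isRoot.2 (show Q.IsRoot c from h2)
  exact ⟨Q2, by rw [hQ, hQ2]; ring⟩

theorem dirK (h : Ch v0 c α γ) {w : E d}
    (h1 : deriv (xi v0 w) c = 0) (h2 : xi v0 w α = 0) (h3 : xi v0 w γ = 0) : ∃ κ : ℂ,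
    (X - C c) ^ 2 ∣ pol w.1 - C (it v0 1 c) * pol w.2 - C κ * pol v0.2 ∧
      ev w.1 α = c * ev w.2 α ∧ ev w.1 γ = α * ev w.2 γ := by
  have hb0 : ev v0.2 c ≠ 0 := h.cr.den 0
  have hv : it v0 1 c = ev v0.1 c / ev v0.2 c := rfl
  have hcr : dev v0.1 c * ev v0.2 c - ev v0.1 c * dev v0.2 c = 0 := h.cr.crit
  have hev : ∀ p : Fin (d + 1) → ℂ, HasDerivAt (fun z => ev p z) (dev p c) c := by
    intro p
    unfold ev dev
    apply HasDerivAt.fun_sum
    intro i _
    exact (hasDerivAt_pow (i : ℕ) c).const_mul (p i)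
  have hxi : HasDerivAt (xi v0 w)
      (((dev w.1 c * ev v0.2 c + ev w.1 c * dev v0.2 c -
        (dev v0.1 c * ev w.2 c + ev v0.1 c * dev w.2 c)) * ev v0.2 c ^ 2 -
        (ev w.1 c * ev v0.2 c - ev v0.1 c * ev w.2 c) * (2 * ev v0.2 c * dev v0.2 c)) /
        (ev v0.2 c ^ 2) ^ 2) c := by
    have e1 := ((hev w.1).mul (hev v0.2)).sub ((hev v0.1).mul (hev w.2))
    have e2 : HasDerivAt (fun z => ev v0.2 z ^ 2) (2 * ev v0.2 c * dev v0.2 c) c := by
      have e3 := (hev v0.2).mul (hev v0.2)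
      have e5 : (fun z => ev v0.2 z ^ 2) = (fun z => ev v0.2 z) * (fun z => ev v0.2 z) := by
        funext z
        rw [Pi.mul_apply]
        ring
      rw [e5]
      refine e3.congr_deriv ?_
      ring
    exact e1.div e2 (pow_ne_zero 2 hb0)
  rw [hxi.deriv, div_eq_zero_iff] at h1
  have h1' := h1.resolve_right (pow_ne_zero 2 (pow_ne_zero 2 hb0))
  refine ⟨(ev w.1 c - it v0 1 c * ev w.2 c) / ev v0.2 c, mdk_sq ?_ ?_, ?_, ?_⟩
  · simp only [eval_sub, eval_mul, eval_C, pol_eval]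
    rw [hv]
    field_simp
    ring
  · have e4 : derivative (pol w.1 - C (it v0 1 c) * pol w.2 -
        C ((ev w.1 c - it v0 1 c * ev w.2 c) / ev v0.2 c) * pol v0.2) =
        derivative (pol w.1) - C (it v0 1 c) * derivative (pol w.2) -
          C ((ev w.1 c - it v0 1 c * ev w.2 c) / ev v0.2 c) * derivative (pol v0.2) := by
      simp only [derivative_sub, derivative_mul, derivative_C, zero_mul, zero_add]
    rw [e4]
    simp only [eval_sub, eval_mul, eval_C, pol_deriv_eval]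
    rw [hv]
    have h5 : dev v0.1 c = ev v0.1 c * dev v0.2 c / ev v0.2 c := by
      rw [eq_div_iff hb0]
      linear_combination hcr
    rw [h5] at h1'
    have h6 : ev v0.2 c ^ 3 ≠ 0 := pow_ne_zero 3 hb0
    field_simp at h1' ⊢
    first
      | linear_combination h1'
      | (apply mul_left_cancel₀ hb0; linear_combination h1')
  · unfold xi at h2
    rw [div_eq_zero_iff] at h2
    have h4 := h2.resolve_right (pow_ne_zero 2 h.a1)
    have h5 : ev v0.1 α / ev v0.2 α = c := h.a2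
    rw [div_eq_iff h.a1] at h5
    rw [h5] at h4
    apply mul_right_cancel₀ h.a1
    linear_combination h4
  · unfold xi at h3
    rw [div_eq_zero_iff] at h3
    have h4 := h3.resolve_right (pow_ne_zero 2 h.g1)
    have h5 : ev v0.1 γ / ev v0.2 γ = α := h.g2
    rw [div_eq_iff h.g1] at h5
    rw [h5] at h4
    apply mul_right_cancel₀ h.g1
    linear_combination h4

end Pool.Agent.H79.ES
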