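import Pool.Agent.H84.TE.LAN3
import Pool.Agent.H79.ES.EDf

/-!
# Module MLD: Landau for a holomorphic function on the sphere omitting three constants

PROOF. `lan3` (H84/TE/LAN3) at `x = 0` with the constants `α i = p i`, `β i = 1`: `C`, made positive. `pt (R t) (S t) ≠ p i` and `(R t, S t) ≠ 0` give `R t - p i * S t ≠ 0` (otherwise `S t ≠ 0` and `pt (R t) (S t) = R t / S t = p i`). `pt (R 0) (S 0) = G 0` (`hG` at `0`: `Eventually.self_of_nhds`) so `S 0 ≠ 0`, so `S t ≠ 0` near `0` (continuity) and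
`R t = G t * S t` near `0`: `R' = g S 0 + G 0 S'`, `R' S - R S' = g * S 0 ^ 2`, `‖R 0‖ ^ 2 + ‖S 0‖ ^ 2 = (1 + ‖G 0‖ ^ 2) ‖S 0‖ ^ 2`.
-/

set_option autoImplicit false

open Filter Topology Polynomial Metric Set

namespace Pool.Agent.H79.ES

open Pool.Agent.H44.Fatou Pool.Agent.H32.BT Pool.Agent.H79.Eul Pool.Agent.H79.Par Pool.Agent.H61.TT
open Pool.Agent.H35.EX

variable {d : ℕ} {v0 : E d} {c α γ : ℂ}

theorem lan_pt {p : Fin 3 → ℂ} (hp : Function.Injective p) {r : ℝ} (hr : 0 < r) : ∃ K : ℝ, 0 < K ∧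
    ∀ R S : ℂ → ℂ, DifferentiableOn ℂ R (ball 0 r) → DifferentiableOn ℂ S (ball 0 r) →
      (∀ t ∈ ball (0 : ℂ) r, R t ≠ 0 ∨ S t ≠ 0) →
      (∀ i, ∀ t ∈ ball (0 : ℂ) r, pt (R t) (S t) ≠ (p i : OnePoint ℂ)) →
      ∀ (G : ℂ → ℂ) (g : ℂ), HasDerivAt G g 0 → (∀ᶠ t in 𝓝 (0 : ℂ), pt (R t) (S t) = (G t : OnePoint ℂ)) →
        ‖g‖ ≤ K * (1 + ‖G 0‖ ^ 2) := by
  obtain ⟨C, hC⟩ := Pool.Agent.H84.TE.lan3 (x := 0) hr (α := fun i _ => p i) (β := fun _ _ => 1)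
    (fun i => differentiableOn_const _) (fun i => differentiableOn_const _) (by
      intro i j hij z _ h
      rw [mul_one, mul_one, sub_eq_zero] at h
      exact hij (hp h))
  refine ⟨max C 1, lt_of_lt_of_le one_pos (le_max_right _ _), ?_⟩
  intro R S hR hS hne hom G g hG hGev
  have h0 : (0 : ℂ) ∈ ball (0 : ℂ) r := mem_ball_self hr
  have hn0 : ball (0 : ℂ) r ∈ 𝓝 (0 : ℂ) := isOpen_ball.mem_nhds h0
  have hR' : HasDerivAt R (deriv R 0) 0 := (hR.differentiableAt hn0).hasDerivAt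
  have hS' : HasDerivAt S (deriv S 0) 0 := (hS.differentiableAt hn0).hasDerivAt
  have h1 := hC R S hR hS (by
    intro i t ht h
    have h2 : R t = p i * S t := by linear_combination h
    by_cases hSt : S t = 0
    · rcases hne t ht with h3 | h3
      · apply h3
        rw [h2, hSt, mul_zero]
      · exact h3 hSt
    · apply hom i t ht
      unfold pt
      rw [if_neg hSt, h2, mul_div_cancel_right₀ _ hSt])
  have hS0 : S 0 ≠ 0 := by
    intro h
    have h3 := hGev.self_of_nhds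
    unfold pt at h3
    rw [if_pos h] at h3
    exact OnePoint.infty_ne_coe _ h3
  have hRG : R =ᶠ[𝓝 0] fun t => G t * S t := by
    have h3 : ∀ᶠ t in 𝓝 (0 : ℂ), S t ≠ 0 := hS'.continuousAt.eventually_ne hS0
    filter_upwards [hGev, h3] with t h4 h5
    unfold pt at h4
    rw [if_neg h5] at h4
    have h6 := OnePoint.coe_injective h4
    rw [div_eq_iff h5] at h6
    exact h6
  have hd : deriv R 0 = g * S 0 + G 0 * deriv S 0 := by
    have h3 : HasDerivAt (fun t => G t * S t) (g * S 0 + G 0 * deriv S 0) 0 := hG.mul hS'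
    exact (h3.congr_of_eventuallyEq hRG).deriv
  have hR0 : R 0 = G 0 * S 0 := hRG.self_of_nhds
  have h2 : deriv R 0 * S 0 - R 0 * deriv S 0 = g * S 0 ^ 2 := by
    rw [hd, hR0]
    ring
  rw [h2, hR0, norm_mul, norm_mul, norm_pow] at h1
  have hp0 : 0 < ‖S 0‖ ^ 2 := by
    have := norm_pos_iff.2 hS0
    positivity
  have h3 : ‖g‖ * ‖S 0‖ ^ 2 ≤ (max C 1 * (1 + ‖G 0‖ ^ 2)) * ‖S 0‖ ^ 2 := by
    refine h1.trans ?_
    calc C * ((‖G 0‖ * ‖S 0‖) ^ 2 + ‖S 0‖ ^ 2) ≤ max C 1 * ((‖G 0‖ * ‖S 0‖) ^ 2 + ‖S 0‖ ^ 2) :=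
          mul_le_mul_of_nonneg_right (le_max_left _ _) (by positivity)
      _ = (max C 1 * (1 + ‖G 0‖ ^ 2)) * ‖S 0‖ ^ 2 := by ring
  exact le_of_mul_le_mul_right h3 hp0

end Pool.Agent.H79.ES
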