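import Pool.Agent.H79.ES.EDf

/-!
# Module MXX: the derivative of the iterates along a curve of maps

PROOF. `it_der`: induction on `n`: `n = 0`: constant. Step: `it (x t) (n + 1) c = ev (x t).1 (it (x t) n c) / ev (x t).2 (it (x t) n c)`; `t ↦ ev (x t).1 (u t)` has at `0` the derivative `ev w.1 (u 0) + dev v0.1 (u 0) * u'` (`ev p z = ∑ i, p i * z ^ i`: `HasDerivAt.sum`, product and power rule; the coordinates of `x` are differentiable:
`hasDerivAt_pi`, `HasDerivAt.fst`, `.snd`), quotient rule (`ev v0.2 (it v0 n c) ≠ 0`), `wv v z = dev v.1 z * ev v.2 z - ev v.1 z * dev v.2 z`, and `XX` has this recursion. `XX_sum`: induction on `n`: `XX v0 w (n + 2) c = xi v0 w (it v0 (n + 1) c) + (wv v0 (it v0 (n + 1) c) / ev v0.2 (it v0 (n + 1) c) ^ 2) * XX v0 w (n + 1) c`,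
`trD v0 (n + 1) (it v0 1 c) = trD v0 n (it v0 1 c) * (wv v0 (it v0 (n + 1) c) / ev v0.2 (it v0 (n + 1) c) ^ 2)` (`Finset.prod_range_succ`, `it v0 n (it v0 1 c) = it v0 (n + 1) c`: `it_add`), `Finset.sum_range_succ`, all `trD v0 k (it v0 1 c) ≠ 0`.
-/

set_option autoImplicit false

open Filter Topology Polynomial Metric Set

namespace Pool.Agent.H79.ES

open Pool.Agent.H44.Fatou Pool.Agent.H32.BT Pool.Agent.H79.Eul Pool.Agent.H79.Par Pool.Agent.H61.TT
open Pool.Agent.H35.EX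

variable {d : ℕ} {v0 : E d} {c α γ : ℂ}

private theorem mxx_ev {P : ℂ → Fin (d + 1) → ℂ} {P' : Fin (d + 1) → ℂ} {u : ℂ → ℂ} {u' : ℂ}
    (hP : HasDerivAt P P' 0) (hu : HasDerivAt u u' 0) :
    HasDerivAt (fun t => ev (P t) (u t)) (ev P' (u 0) + dev (P 0) (u 0) * u') 0 := by
  have h1 : ev P' (u 0) + dev (P 0) (u 0) * u' = ∑ i : Fin (d + 1),
      (P' i * u 0 ^ (i : ℕ) + P 0 i * (((i : ℕ) : ℂ) * u 0 ^ ((i : ℕ) - 1) * u')) := by
    unfold ev dev
    rw [Finset.sum_add_distrib, Finset.sum_mul]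
    congr 1
    refine Finset.sum_congr rfl fun i _ => ?_
    ring
  rw [h1]
  unfold ev
  apply HasDerivAt.fun_sum
  intro i _
  exact (hasDerivAt_pi.1 hP i).mul (hu.pow (i : ℕ))

theorem it_der {x : ℂ → E d} {w : E d} (hx0 : x 0 = v0) (hx : HasDerivAt x w 0)
    (hden : ∀ k, ev v0.2 (it v0 k c) ≠ 0) (n : ℕ) :
    HasDerivAt (fun t => it (x t) n c) (XX v0 w n c) 0 := by
  induction n with
  | zero =>
    exact hasDerivAt_const (0 : ℂ) c
  | succ n ih =>
    have h1 := mxx_ev hx.fst ih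
    have h2 := mxx_ev hx.snd ih
    have h3 := h1.div h2 (by
      rw [hx0]
      exact hden n)
    have h4 : XX v0 w (n + 1) c = ((ev w.1 (it (x 0) n c) + dev (x 0).1 (it (x 0) n c) *
        XX v0 w n c) * ev (x 0).2 (it (x 0) n c) - ev (x 0).1 (it (x 0) n c) *
        (ev w.2 (it (x 0) n c) + dev (x 0).2 (it (x 0) n c) * XX v0 w n c)) /
        ev (x 0).2 (it (x 0) n c) ^ 2 := by
      rw [hx0]
      simp only [XX, xi, wv]
      ring
    rw [h4]
    exact h3

theorem XX_sum (w : E d) (htr : ∀ k, trD v0 k (it v0 1 c) ≠ 0) (n : ℕ) :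
    XX v0 w (n + 1) c = trD v0 n (it v0 1 c) *
      ∑ k ∈ Finset.range (n + 1), xi v0 w (it v0 k c) / trD v0 k (it v0 1 c) := by
  induction n with
  | zero =>
    simp [XX, trD, it]
  | succ n ih =>
    have h1 : trD v0 (n + 1) (it v0 1 c) = trD v0 n (it v0 1 c) *
        (wv v0 (it v0 (n + 1) c) / ev v0.2 (it v0 (n + 1) c) ^ 2) := by
      have h2 : it v0 n (it v0 1 c) = it v0 (n + 1) c := (Pool.Agent.H79.Par.it_add v0 n 1 c).symm
      rw [← h2]
      simp only [trD, Finset.prod_range_succ]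
    have h2 : XX v0 w (n + 1 + 1) c = xi v0 w (it v0 (n + 1) c) +
        wv v0 (it v0 (n + 1) c) / ev v0.2 (it v0 (n + 1) c) ^ 2 * XX v0 w (n + 1) c := rfl
    have h3 := htr (n + 1)
    rw [Finset.sum_range_succ _ (n + 1), mul_add, mul_div_cancel₀ _ h3, h2, ih, h1]
    ring

end Pool.Agent.H79.ES
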