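import Pool.Agent.H79.ES.MDI
import Pool.Agent.H79.ES.MDK
import Pool.Agent.H79.ES.MCU
import Pool.Agent.H79.ES.MXX
import Pool.Agent.H79.ES.MRS
import Pool.Agent.H79.ES.MLD
import Pool.Agent.H79.Par.CopNear

/-!
# Chapter 6 (owner: helper41): summable critical points are active

`dir`: linear algebra (MDI, from `transp`) and the conditions in terms of polynomials (MDK). `curve` (MCU): an analytic curve of
maps with `c` critical, `α ↦ c`, `γ ↦ α`. `act`: if `c` is not periodic for small `t`, then `f_t^n(c)` omits `c, α, γ`: Landau at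
`t = 0` (MRS, MLD), but the derivative of `f_t^n(c)` (MXX) is too big.
-/

set_option autoImplicit false

open MeasureTheory Metric Set Polynomial Filter Topology

namespace Pool.Agent.H79.ES

open Pool.Agent.H44.Fatou Pool.Agent.H32.BT Pool.Agent.H79.Eul Pool.Agent.H79.Par Pool.Agent.H61.TT
open Pool.Agent.H35.EX

variable {d : ℕ} {v0 : E d} {c α γ : ℂ}

theorem dir (hR : RatD d (pol v0.1) (pol v0.2)) (h : Ch v0 c α γ) : ∃ (w : E d) (κ : ℂ),
    (X - C c) ^ 2 ∣ pol w.1 - C (it v0 1 c) * pol w.2 - C κ * pol v0.2 ∧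
      ev w.1 α = c * ev w.2 α ∧ ev w.1 γ = α * ev w.2 γ ∧
      ∑' k, xi v0 w (it v0 k c) / trD v0 k (it v0 1 c) ≠ 0 := by
  obtain ⟨w, h1, h2, h3, h4⟩ := dir0 hR h
  obtain ⟨κ, h5, h6, h7⟩ := dirK h h1 h2 h3
  exact ⟨w, κ, h5, h6, h7, h4⟩

/-- the image of a point given by an equation -/
private theorem rf_eq {v : E d} (hcop : IsCoprime (pol v.1) (pol v.2)) {x y : ℂ}
    (h : ev v.1 x = y * ev v.2 x) : Rf v (x : OnePoint ℂ) = (y : OnePoint ℂ) := by
  have h2 : (pol v.2).eval x ≠ 0 := by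
    intro h0
    rw [← pol_eval, ← pol_eval, h0, mul_zero] at h
    exact (coprime_eval hcop x).elim (fun h1 => h1 h) (fun h1 => h1 h0)
  unfold Rf
  rw [rat_coe_of_ne h2, pol_eval, pol_eval, h, mul_div_cancel_right₀]
  rwa [← pol_eval]

/-- a summable critical point is active (in a good chart) -/
theorem act (hR : RatD d (pol v0.1) (pol v0.2)) (h : Ch v0 c α γ) :
    ∀ ε : ℝ, 0 < ε → ∃ v ∈ ball v0 ε, IsCrit (Rf v) (c : OnePoint ℂ) ∧ ∃ n : ℕ, 0 < n ∧
      (Rf v)^[n] (c : OnePoint ℂ) = (c : OnePoint ℂ) := by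
  intro ε hε
  by_contra hcon
  push Not at hcon
  obtain ⟨w, κ, hk, hα, hγ, hL⟩ := dir hR h
  obtain ⟨x, r0, hr0, hxd, hx0, hxder, hx⟩ := curve hR h hk hα hγ
  have hlim : Tendsto x (𝓝 0) (𝓝 v0) := by
    have h1 := hxder.continuousAt.tendsto
    rwa [hx0] at h1
  have hd1 : 1 ≤ d := by have := hR.hd; omega
  have hev : ∀ᶠ t in 𝓝 (0 : ℂ), x t ∈ ball v0 ε ∧ (IsCoprime (pol (x t).1) (pol (x t).2) ∧
      max (pol (x t).1).natDegree (pol (x t).2).natDegree = d) :=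
    (hlim.eventually (ball_mem_nhds v0 hε)).and (hlim.eventually (cop_near hR.cop hR.deg hd1))
  obtain ⟨r1, hr1, hb⟩ := Metric.eventually_nhds_iff_ball.1 hev
  obtain ⟨r, hrdef⟩ : ∃ r, r = min r0 r1 := ⟨_, rfl⟩
  have hr : 0 < r := by rw [hrdef]; exact lt_min hr0 hr1
  have hsub0 : ball (0 : ℂ) r ⊆ ball 0 r0 := by
    rw [hrdef]; exact ball_subset_ball (min_le_left _ _)
  have hsub1 : ball (0 : ℂ) r ⊆ ball 0 r1 := by
    rw [hrdef]; exact ball_subset_ball (min_le_right _ _)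
  have hcop : ∀ t ∈ ball (0 : ℂ) r, IsCoprime (pol (x t).1) (pol (x t).2) ∧
      max (pol (x t).1).natDegree (pol (x t).2).natDegree = d := fun t ht => (hb t (hsub1 ht)).2
  have hcrit : ∀ t ∈ ball (0 : ℂ) r, IsCrit (Rf (x t)) (c : OnePoint ℂ) := by
    intro t ht
    refine crit_of_wr (hcop t ht).1 (by rw [(hcop t ht).2]; exact hd1) ?_
    rw [← wv_cf (d := d) (pol_deg _) (pol_deg _), cf_pol, cf_pol]
    exact (hx t (hsub0 ht)).1
  have hno1 : ∀ t ∈ ball (0 : ℂ) r, ∀ n, 0 < n → (Rf (x t))^[n] (c : OnePoint ℂ) ≠ (c : OnePoint ℂ) :=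
    fun t ht n hn => hcon (x t) (hb t (hsub1 ht)).1 (hcrit t ht) n hn
  have hno2 : ∀ t ∈ ball (0 : ℂ) r, ∀ n, 0 < n → (Rf (x t))^[n] (c : OnePoint ℂ) ≠ (α : OnePoint ℂ) := by
    intro t ht n hn h1
    apply hno1 t ht (n + 1) (Nat.succ_pos n)
    rw [Function.iterate_succ_apply', h1]
    exact rf_eq (hcop t ht).1 (hx t (hsub0 ht)).2.1
  have hno3 : ∀ t ∈ ball (0 : ℂ) r, ∀ n, 0 < n → (Rf (x t))^[n] (c : OnePoint ℂ) ≠ (γ : OnePoint ℂ) := by
    intro t ht n hn h1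
    apply hno2 t ht (n + 1) (Nat.succ_pos n)
    rw [Function.iterate_succ_apply', h1]
    exact rf_eq (hcop t ht).1 (hx t (hsub0 ht)).2.2
  obtain ⟨p, hp⟩ : ∃ p : Fin 3 → ℂ, p = ![c, α, γ] := ⟨_, rfl⟩
  have hp0 : p 0 = c := by rw [hp]; rfl
  have hp1 : p 1 = α := by rw [hp]; rfl
  have hp2 : p 2 = γ := by rw [hp]; rfl
  have hpi : Function.Injective p := by
    intro i j hij
    fin_cases i <;> fin_cases j <;> simp only [Fin.zero_eta, Fin.mk_one, Fin.reduceFinMk, hp0, hp1, hp2] at hij ⊢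
    · exact absurd hij.symm (ne4 h)
    · exact absurd hij.symm (ne5 h)
    · exact absurd hij (ne4 h)
    · exact absurd hij (ne3 h)
    · exact absurd hij (ne5 h)
    · exact absurd hij.symm (ne3 h)
  obtain ⟨K, hK, hlan⟩ := lan_pt hpi hr
  -- the estimate for every `n`
  have key : ∀ n : ℕ, ‖XX v0 w (n + 1) c‖ ≤ K * (1 + ‖it v0 (n + 1) c‖ ^ 2) := by
    intro n
    obtain ⟨R, S, hRd, hSd, hRS⟩ := hom_curve (hxd.mono hsub0) hcop c (n + 1)
    have h1 := hlan R S hRd hSd (fun t ht => (hRS t ht).1) ?_ (fun t => it (x t) (n + 1) c)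
      (XX v0 w (n + 1) c) (it_der hx0 hxder h.cr.den (n + 1)) ?_
    · rwa [hx0] at h1
    · intro i t ht
      rw [← (hRS t ht).2]
      fin_cases i
      · show _ ≠ ((p 0 : ℂ) : OnePoint ℂ)
        rw [hp0]
        exact hno1 t ht _ (Nat.succ_pos n)
      · show _ ≠ ((p 1 : ℂ) : OnePoint ℂ)
        rw [hp1]
        exact hno2 t ht _ (Nat.succ_pos n)
      · show _ ≠ ((p 2 : ℂ) : OnePoint ℂ)
        rw [hp2]
        exact hno3 t ht _ (Nat.succ_pos n)
    · have ho : Orb v0 (fun j => it v0 j c) (n + 1) := fun j _ => ⟨h.cr.den j, rfl⟩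
      have h2 := orb_near ho
      have h3 : Tendsto (fun t : ℂ => (x t, c)) (𝓝 0) (𝓝 (v0, c)) :=
        hlim.prodMk_nhds tendsto_const_nhds
      filter_upwards [h3.eventually h2, ball_mem_nhds (0 : ℂ) hr] with t ht1 ht2
      rw [← (hRS t ht2).2]
      exact rat_it ht1
  -- the limit
  have hsum : Summable fun k => xi v0 w (it v0 k c) / trD v0 k (it v0 1 c) := by
    by_contra h1
    exact hL (tsum_eq_zero_of_not_summable h1)
  have hT := (hsum.hasSum.tendsto_sum_nat.comp (tendsto_add_atTop_nat 1)).norm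
  have h0 := h.cr.sm.tendsto_atTop_zero
  have h0' : Tendsto (fun n => K * ((1 + ‖it v0 (n + 1) c‖ ^ 2) / ‖trD v0 n (it v0 1 c)‖)) atTop (𝓝 0) := by
    have := h0.const_mul K
    rwa [mul_zero] at this
  have hle : ‖∑' k, xi v0 w (it v0 k c) / trD v0 k (it v0 1 c)‖ ≤ 0 := by
    refine le_of_tendsto_of_tendsto hT h0' (Eventually.of_forall fun n => ?_)
    have h1 := key n
    rw [XX_sum w h.cr.tr n, norm_mul] at h1
    have h2 : 0 < ‖trD v0 n (it v0 1 c)‖ := norm_pos_iff.2 (h.cr.tr n)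
    show ‖∑ k ∈ Finset.range (n + 1), xi v0 w (it v0 k c) / trD v0 k (it v0 1 c)‖ ≤
      K * ((1 + ‖it v0 (n + 1) c‖ ^ 2) / ‖trD v0 n (it v0 1 c)‖)
    rw [← mul_div_assoc, le_div_iff₀ h2, mul_comm]
    exact h1
  exact hL (norm_le_zero_iff.1 hle)

end Pool.Agent.H79.ES
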