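import Pool.Agent.H79.ES.NTR
import Pool.Agent.H44.RR.CHT
import Pool.Agent.H44.RG.BLP
import Pool.Agent.H35.NA.Alg

/-!
# Module NCH: good charts for a summable critical point

PROOF. `Rf v0` is onto (`rat_surjective`, H35/NA/Alg): choose `a, g` on the sphere with `Rf v0 a = c`, `Rf v0 g = a`. Let `S` be the set of all critical points, their images, the orbit of `c`, `a`, `g`, and all `x` with `Rf v0 x` in the
orbit of `c` or `Rf v0 x = a` (countable: `crit_finite`, `rat_fiber_finite`; compare `chart_ex`, H44/RR/CHT). Take `s : ℂ` with `(s : OnePoint ℂ) ∉ S`, `φ` from `exists_mob s`; the conjugation as in `chart_ex` (`chartNull_pol1`, `chartNull_pol2`). Let `v1 = Lin s v0`, `g1 = Rf v1`. A point `x ≠ s` has `φ x` finite. `c1, α, γ` are the finite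
points `φ c, φ a, φ g`. The orbit of `c1` is finite (`iter_conj`). `wv v1 c1 = 0`: `isCrit_conj`, `crit_coe`, `wv_cf`, `cf_pol`. `Summ`: `summ_conj` with `chord_bilip`; `crs_of`. `(fib .. u).natDegree = d` if `g1 ∞ ≠ u` for finite `u`: the coefficient of `X ^ d` of `a - C u * b` is `v1.1 (last) - u * v1.2 (last)`, `rat_infty`, `dg = d`
(`natDegree_eq_of_le_of_coeff_ne_zero`); `g1 ∞ = g1 (φ s) = φ (Rf v0 s)` and `Rf v0 s` is not in the orbit of `c`, not `a`. `a1, a2, g1, g2`: `g1 α = c1` is finite, so `ev v1.2 α ≠ 0` (`rat_coe`, `pt`) and `it v1 1 α = c1`. `ni`: `∞ = φ s`, `s` is not critical. `cb`: `(ww ..).eval x = 0` makes `x` critical (`crit_of_wr`, `ww = Wr`), if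
`b x = 0` then `g1 x = ∞ = φ s`, so `s` is the image of the critical point `φ⁻¹ x`.
-/

set_option autoImplicit false

open Filter Topology Polynomial Metric Set

namespace Pool.Agent.H79.ES

open Pool.Agent.H44.Fatou Pool.Agent.H32.BT Pool.Agent.H79.Eul Pool.Agent.H79.Par Pool.Agent.H35.EX
open Pool.Agent.H44.RG Pool.Agent.H44.RR

variable {d : ℕ}

/-- a finite image -/
private theorem rf_fin {v : E d} {z w : ℂ} (h : Rf v (z : OnePoint ℂ) = (w : OnePoint ℂ)) :
    ev v.2 z ≠ 0 ∧ it v 1 z = w := by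
  have hb : (pol v.2).eval z ≠ 0 := by
    intro h0
    unfold Rf at h
    rw [rat_coe, h0] at h
    unfold pt at h
    rw [if_pos rfl] at h
    exact OnePoint.coe_ne_infty _ h.symm
  refine ⟨?_, ?_⟩
  · rw [← pol_eval]
    exact hb
  · unfold Rf at h
    rw [rat_coe_of_ne hb] at h
    have h1 := OnePoint.coe_injective h
    rw [pol_eval, pol_eval] at h1
    exact h1

/-- the fibre has full degree if the image of infinity is different -/
private theorem fib_reg {v : E d} (hcop : IsCoprime (pol v.1) (pol v.2))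
    (hdeg : max (pol v.1).natDegree (pol v.2).natDegree = d) {u : ℂ}
    (hu : Rf v OnePoint.infty ≠ (u : OnePoint ℂ)) :
    (Pool.Agent.H61.TT.fib (pol v.1) (pol v.2) u).natDegree = d := by
  have hdg : dg (pol v.1) (pol v.2) = d := hdeg
  have hne := coeff_dg hcop
  rw [hdg] at hne
  unfold Rf at hu
  rw [rat_infty, hdg] at hu
  refine natDegree_eq_of_le_of_coeff_ne_zero ?_ ?_
  · unfold Pool.Agent.H61.TT.fib
    refine (natDegree_sub_le _ _).trans (max_le (pol_deg _) ?_)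
    exact (natDegree_C_mul_le _ _).trans (pol_deg _)
  · intro h0
    unfold Pool.Agent.H61.TT.fib at h0
    rw [coeff_sub, coeff_C_mul, sub_eq_zero] at h0
    by_cases hB : (pol v.2).coeff d = 0
    · rw [hB, mul_zero] at h0
      rcases hne with h1 | h1
      · exact h1 h0
      · exact h1 hB
    · apply hu
      unfold pt
      rw [if_neg hB, h0, mul_div_cancel_right₀ _ hB]

theorem chart_ch {v0 : E d} (hd : 2 ≤ d) (hcop : IsCoprime (pol v0.1) (pol v0.2))
    (hdeg : max (pol v0.1).natDegree (pol v0.2).natDegree = d) {c : OnePoint ℂ} (hc : IsCrit (Rf v0) c)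
    (hs : Summ (Rf v0) (Rf v0 c)) :
    ∃ (s : ℂ) (φ : OnePoint ℂ ≃ₜ OnePoint ℂ) (c1 α γ : ℂ), φ c = (c1 : OnePoint ℂ) ∧
      (∀ v : E d, IsCoprime (pol v.1) (pol v.2) →
        max (pol v.1).natDegree (pol v.2).natDegree = d →
        IsCoprime (pol (Lin s v).1) (pol (Lin s v).2) ∧
        max (pol (Lin s v).1).natDegree (pol (Lin s v).2).natDegree = d ∧
        ∀ x, Rf (Lin s v) (φ x) = φ (Rf v x)) ∧
      Ch (Lin s v0) c1 α γ := by
  have hd1 : 1 ≤ max (pol v0.1).natDegree (pol v0.2).natDegree := by rw [hdeg]; omega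
  have hfin : {x | IsCrit (Rf v0) x}.Finite := crit_finite hcop hd1
  have hfib : ∀ y, (Rf v0 ⁻¹' {y}).Finite := fun y => rat_fiber_finite hcop hd1 y
  have hsurj : Function.Surjective (Rf v0) := Pool.Agent.H35.NA.rat_surjective hcop hd1
  obtain ⟨a, ha⟩ := hsurj c
  obtain ⟨g, hg⟩ := hsurj a
  obtain ⟨S, hSdef⟩ : ∃ S : Set (OnePoint ℂ), S = ((({x | IsCrit (Rf v0) x} ∪
      Rf v0 '' {x | IsCrit (Rf v0) x}) ∪ Set.range (fun j : ℕ => (Rf v0)^[j] c)) ∪ {a, g}) ∪
      ((⋃ j : ℕ, Rf v0 ⁻¹' {(Rf v0)^[j] c}) ∪ Rf v0 ⁻¹' {a}) := ⟨_, rfl⟩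
  have hScount : S.Countable := by
    rw [hSdef]
    refine Set.Countable.union (Set.Countable.union (Set.Countable.union
      (Set.Countable.union hfin.countable (hfin.image _).countable) (Set.countable_range _)) ?_)
      (Set.Countable.union (Set.countable_iUnion fun j => (hfib _).countable) (hfib _).countable)
    exact (Set.toFinite _).countable
  have hbad : {b : ℂ | (b : OnePoint ℂ) ∈ S}.Countable := countable_coe hScount
  obtain ⟨s, hsS⟩ := (hbad.dense_compl ℂ).nonempty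
  have hsS' : (s : OnePoint ℂ) ∉ S := hsS
  rw [hSdef] at hsS'
  simp only [Set.mem_union, not_or] at hsS'
  obtain ⟨⟨⟨⟨s1, s2⟩, s3⟩, s4⟩, s5, s6⟩ := hsS'
  have hs1 : ¬ IsCrit (Rf v0) (s : OnePoint ℂ) := s1
  have hs2 : ∀ x, IsCrit (Rf v0) x → Rf v0 x ≠ (s : OnePoint ℂ) := fun x hx h => s2 ⟨x, hx, h⟩
  have hs3 : ∀ j, (Rf v0)^[j] c ≠ (s : OnePoint ℂ) := fun j h => s3 ⟨j, h⟩
  have hs4 : a ≠ (s : OnePoint ℂ) := fun h => s4 (by rw [h]; exact Set.mem_insert _ _)
  have hs4' : g ≠ (s : OnePoint ℂ) := fun h => s4 (by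
    rw [h]
    exact Set.mem_insert_of_mem _ (Set.mem_singleton _))
  have hs5 : ∀ j, Rf v0 (s : OnePoint ℂ) ≠ (Rf v0)^[j] c :=
    fun j h => s5 (Set.mem_iUnion.2 ⟨j, h⟩)
  have hs6 : Rf v0 (s : OnePoint ℂ) ≠ a := fun h => s6 h
  obtain ⟨φ, hφ1, hφs, hφi, hφ⟩ := exists_mob s
  have hall : ∀ v : E d, IsCoprime (pol v.1) (pol v.2) →
      max (pol v.1).natDegree (pol v.2).natDegree = d →
      IsCoprime (pol (Lin s v).1) (pol (Lin s v).2) ∧
      max (pol (Lin s v).1).natDegree (pol (Lin s v).2).natDegree = d ∧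
      ∀ x, Rf (Lin s v) (φ x) = φ (Rf v x) := by
    intro v hc he
    obtain ⟨h1, h2, h3⟩ := hφ d _ _ hc he (by omega)
    unfold Rf
    rw [chartNull_pol1, chartNull_pol2]
    exact ⟨h1, h2, h3⟩
  obtain ⟨L, hL, hbil⟩ := chord_bilip hφs hφ1 hφi
  obtain ⟨hcop', hdeg', hconj⟩ := hall v0 hcop hdeg
  have hne : ∀ x : OnePoint ℂ, x ≠ (s : OnePoint ℂ) → ∃ z : ℂ, (z : OnePoint ℂ) = φ x := by
    intro x hx
    refine OnePoint.ne_infty_iff_exists.1 ?_
    intro h
    rw [← hφs] at h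
    exact hx (φ.injective h)
  obtain ⟨c1, hc1⟩ := hne c (hs3 0)
  obtain ⟨α, hα⟩ := hne a hs4
  obtain ⟨γ, hγ⟩ := hne g hs4'
  have hmax' : 1 ≤ max (pol (Lin s v0).1).natDegree (pol (Lin s v0).2).natDegree := by
    rw [hdeg']
    omega
  have hiter : ∀ j, (Rf (Lin s v0))^[j] (c1 : OnePoint ℂ) = φ ((Rf v0)^[j] c) := by
    intro j
    rw [hc1, iter_conj φ hconj]
  have hfin1 : ∀ j : ℕ, (Rf (Lin s v0))^[j] (c1 : OnePoint ℂ) ≠ OnePoint.infty := by
    intro j h
    rw [hiter, ← hφs] at h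
    exact hs3 j (φ.injective h)
  have horb := (orb_all hfin1).2
  have hinfim : Rf (Lin s v0) OnePoint.infty = φ (Rf v0 (s : OnePoint ℂ)) := by
    rw [← hφs, hconj]
  refine ⟨s, φ, c1, α, γ, hc1.symm, hall, ?_⟩
  have hA := rf_fin (v := Lin s v0) (z := α) (w := c1) (by rw [hα, hc1, hconj, ha])
  have hG := rf_fin (v := Lin s v0) (z := γ) (w := α) (by rw [hγ, hα, hconj, hg])
  refine ⟨crs_of hfin1 ?_ ?_ ?_, hA.1, hA.2, hG.1, hG.2, ?_, ?_, ?_, ?_⟩
  · have h1 : Rf (Lin s v0) (c1 : OnePoint ℂ) = φ (Rf v0 c) := by rw [hc1, hconj]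
    rw [h1]
    exact summ_conj hL hbil hconj hs
  · rw [Pool.Agent.H61.TT.wv_pol]
    have h1 : IsCrit (Rf (Lin s v0)) (c1 : OnePoint ℂ) := by
      rw [hc1, isCrit_conj φ hconj]
      exact hc
    exact crit_coe h1
  · intro k
    refine fib_reg hcop' hdeg' ?_
    rw [← horb (k + 1), hiter, hinfim]
    intro h
    exact hs5 (k + 1) (φ.injective h)
  · refine fib_reg hcop' hdeg' ?_
    rw [hc1, hinfim]
    intro h
    exact hs5 0 (φ.injective h)
  · refine fib_reg hcop' hdeg' ?_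
    rw [hα, hinfim]
    intro h
    exact hs6 (φ.injective h)
  · have h1 : ¬ IsCrit (Rf (Lin s v0)) OnePoint.infty := by
      rw [← hφs, isCrit_conj φ hconj]
      exact hs1
    exact h1
  · intro x hx hb
    have h1 : IsCrit (Rf (Lin s v0)) (x : OnePoint ℂ) := crit_of_wr hcop' hmax' hx
    have h2 : Rf (Lin s v0) (x : OnePoint ℂ) = OnePoint.infty := by
      unfold Rf
      rw [rat_coe, hb]
      unfold pt
      rw [if_pos rfl]
    obtain ⟨y, hy⟩ := φ.surjective (x : OnePoint ℂ)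
    rw [← hy] at h1 h2
    rw [isCrit_conj φ hconj] at h1
    rw [hconj, ← hφs] at h2
    exact hs2 y h1 (φ.injective h2)

end Pool.Agent.H79.ES
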