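import Pool.Agent.H79.ES.EM
import Pool.Agent.H79.ES.NCH
import Pool.Agent.H79.ES.NSA
import Pool.Agent.H79.ES.NNA

/-!
# Chapter 7 (owner: helper41): the statements on the sphere

`act_pt`: chart (NCH) and `act`. `nwd`: by induction on `n` every nonempty open subset of the closure contains a map with at least
`n` attracted critical points (NNA, NSA); impossible. `unst`: conjugacy preserves the number of attracted critical points.
-/

set_option autoImplicit false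

open MeasureTheory Metric Set Polynomial Filter Topology

namespace Pool.Agent.H79.ES

open Pool.Agent.H44.Fatou Pool.Agent.H32.BT Pool.Agent.H79.Eul Pool.Agent.H79.Par Pool.Agent.H35.EX
open Pool.Agent.H44.RG Pool.Agent.H44.RR

/-- a summable critical point is periodic for maps arbitrarily near -/
theorem act_pt {d : ℕ} (hd : 2 ≤ d) {v0 : E d} (hcop : IsCoprime (pol v0.1) (pol v0.2))
    (hdeg : max (pol v0.1).natDegree (pol v0.2).natDegree = d) {c : OnePoint ℂ} (hc : IsCrit (Rf v0) c)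
    (hs : Summ (Rf v0) (Rf v0 c)) : ∀ ε : ℝ, 0 < ε → ∃ v ∈ ball v0 ε, IsCoprime (pol v.1) (pol v.2) ∧
      max (pol v.1).natDegree (pol v.2).natDegree = d ∧ IsCrit (Rf v) c ∧
        ∃ n : ℕ, 0 < n ∧ (Rf v)^[n] c = c := by
  intro ε hε
  obtain ⟨s, φ, c1, α, γ, hφc, hall, hCh⟩ := chart_ch hd hcop hdeg hc hs
  obtain ⟨hcop', hdeg', -⟩ := hall v0 hcop hdeg
  obtain ⟨G, hG, hLc, hGL, hLG⟩ := lin_inv s d
  have hlim : Tendsto G (𝓝 (Lin s v0)) (𝓝 v0) := by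
    have h1 := hG.tendsto (Lin s v0)
    rwa [hGL] at h1
  have hev : ∀ᶠ v in 𝓝 (Lin s v0), G v ∈ ball v0 ε ∧ (IsCoprime (pol (G v).1) (pol (G v).2) ∧
      max (pol (G v).1).natDegree (pol (G v).2).natDegree = d) :=
    (hlim.eventually (ball_mem_nhds v0 hε)).and
      (hlim.eventually (cop_near hcop hdeg (by omega)))
  obtain ⟨δ, hδ, hb⟩ := Metric.eventually_nhds_iff_ball.1 hev
  obtain ⟨v, hv, hcr, n, hn, hper⟩ := act ⟨hd, hcop', hdeg'⟩ hCh δ hδ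
  obtain ⟨h1, h2, h3⟩ := hb v hv
  obtain ⟨-, -, hcj⟩ := hall (G v) h2 h3
  rw [hLG] at hcj
  refine ⟨G v, h1, h2, h3, ?_, n, hn, ?_⟩
  · rw [← isCrit_conj φ hcj, hφc]
    exact hcr
  · apply φ.injective
    rw [← iter_conj φ hcj, hφc]
    exact hper

theorem act_sph {d : ℕ} (hd : 2 ≤ d) {v0 : E d} (hcop : IsCoprime (pol v0.1) (pol v0.2))
    (hdeg : max (pol v0.1).natDegree (pol v0.2).natDegree = d) {c : OnePoint ℂ} (hc : IsCrit (Rf v0) c)
    (hs : Summ (Rf v0) (Rf v0 c)) : ∀ ε : ℝ, 0 < ε → ∃ v ∈ ball v0 ε, IsCoprime (pol v.1) (pol v.2) ∧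
      max (pol v.1).natDegree (pol v.2).natDegree = d ∧ ∃ c' : OnePoint ℂ, chord c c' < ε ∧ IsCrit (Rf v) c' ∧
        ∃ n : ℕ, 0 < n ∧ (Rf v)^[n] c' = c' := by
  intro ε hε
  obtain ⟨v, h1, h2, h3, h4, h5⟩ := act_pt hd hcop hdeg hc hs ε hε
  refine ⟨v, h1, h2, h3, c, ?_, h4, h5⟩
  rw [chord_zero]
  exact hε

/-- near a map with a summable critical point there are maps with more attracted critical points -/
theorem more {d : ℕ} (hd : 2 ≤ d) {v0 : E d} (hcop : IsCoprime (pol v0.1) (pol v0.2))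
    (hdeg : max (pol v0.1).natDegree (pol v0.2).natDegree = d) {c : OnePoint ℂ} (hc : IsCrit (Rf v0) c)
    (hs : Summ (Rf v0) (Rf v0 c)) {ε : ℝ} (hε : 0 < ε) : ∃ v ∈ ball v0 ε, IsCoprime (pol v.1) (pol v.2) ∧
      max (pol v.1).natDegree (pol v.2).natDegree = d ∧ NA v0 + 1 ≤ NA v := by
  obtain ⟨ε1, hε1, hup⟩ := na_up hd hcop hdeg (not_att hd hcop hdeg hs)
  obtain ⟨v, h1, h2, h3, h4, n, hn, h5⟩ := act_pt hd hcop hdeg hc hs (min ε ε1) (lt_min hε hε1)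
  refine ⟨v, ball_subset_ball (min_le_left _ _) h1, h2, h3, ?_⟩
  refine hup v (ball_subset_ball (min_le_right _ _) h1) c ?_ h4 (per_att hd h2 h3 h4 hn h5)
  rw [chord_zero]
  exact hε1

theorem nwd {d : ℕ} (hd : 2 ≤ d) : IsNowhereDense {v : E d | IsCoprime (pol v.1) (pol v.2) ∧
    max (pol v.1).natDegree (pol v.2).natDegree = d ∧ ∃ c, IsCrit (Rf v) c ∧ Summ (Rf v) (Rf v c)} := by
  obtain ⟨S, hS⟩ : ∃ S : Set (E d), S = {v : E d | IsCoprime (pol v.1) (pol v.2) ∧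
    max (pol v.1).natDegree (pol v.2).natDegree = d ∧ ∃ c, IsCrit (Rf v) c ∧ Summ (Rf v) (Rf v c)} :=
    ⟨_, rfl⟩
  rw [← hS]
  unfold IsNowhereDense
  by_contra hne
  have hne' : (interior (closure S)).Nonempty := Set.nonempty_iff_ne_empty.2 hne
  obtain ⟨U, hU⟩ : ∃ U, U = interior (closure S) := ⟨_, rfl⟩
  rw [← hU] at hne'
  have hUo : IsOpen U := by rw [hU]; exact isOpen_interior
  have hUS : U ⊆ closure S := by rw [hU]; exact interior_subset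
  have hmeet : ∀ V : Set (E d), IsOpen V → (V ∩ U).Nonempty → (V ∩ U ∩ S).Nonempty := by
    rintro V hV ⟨v, hv⟩
    exact mem_closure_iff.1 (hUS hv.2) _ (hV.inter hUo) hv
  have key : ∀ n : ℕ, ∃ v ∈ U, (IsCoprime (pol v.1) (pol v.2) ∧
      max (pol v.1).natDegree (pol v.2).natDegree = d) ∧ n ≤ NA v := by
    intro n
    induction n with
    | zero =>
      obtain ⟨v, hv⟩ := hne'
      obtain ⟨v1, hv1, hv2⟩ := hmeet Set.univ isOpen_univ ⟨v, Set.mem_univ _, hv⟩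
      rw [hS] at hv2
      exact ⟨v1, hv1.2, ⟨hv2.1, hv2.2.1⟩, Nat.zero_le _⟩
    | succ n ih =>
      obtain ⟨v0, hv0, ⟨hcop, hdeg⟩, hn⟩ := ih
      obtain ⟨V, hV, hVo, hvV⟩ := _root_.eventually_nhds_iff.1 (na_low hd hcop hdeg)
      obtain ⟨v1, ⟨hv1, hv1U⟩, hv1S⟩ := hmeet V hVo ⟨v0, hvV, hv0⟩
      have h1 := hV v1 hv1
      rw [hS] at hv1S
      obtain ⟨hc1, hd1, c, hc, hs⟩ := hv1S
      obtain ⟨ε, hε, hεU⟩ := Metric.isOpen_iff.1 hUo v1 hv1U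
      obtain ⟨v2, h2, h3, h4, h5⟩ := more hd hc1 hd1 hc hs hε
      exact ⟨v2, hεU h2, ⟨h3, h4⟩, by omega⟩
  obtain ⟨v, -, ⟨h1, h2⟩, h3⟩ := key (2 * d + 1)
  have h4 := na_le hd h1 h2
  omega

theorem unst {d : ℕ} (hd : 2 ≤ d) {v0 : E d} (hcop : IsCoprime (pol v0.1) (pol v0.2))
    (hdeg : max (pol v0.1).natDegree (pol v0.2).natDegree = d) {c : OnePoint ℂ} (hc : IsCrit (Rf v0) c)
    (hs : Summ (Rf v0) (Rf v0 c)) (ε : ℝ) (hε : 0 < ε) : ∃ v ∈ ball v0 ε, IsCoprime (pol v.1) (pol v.2) ∧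
      max (pol v.1).natDegree (pol v.2).natDegree = d ∧
        ¬ ∃ h : OnePoint ℂ ≃ₜ OnePoint ℂ, ∀ x, h (Rf v0 x) = Rf v (h x) := by
  obtain ⟨v, h1, h2, h3, h4⟩ := more hd hcop hdeg hc hs hε
  refine ⟨v, h1, h2, h3, ?_⟩
  rintro ⟨h, hh⟩
  have hh' : ∀ x, Rf v (h x) = h (Rf v0 x) := fun x => (hh x).symm
  have h5 : {z : OnePoint ℂ | IsCrit (Rf v) z ∧ Att (Rf v) z} =
      h '' {z : OnePoint ℂ | IsCrit (Rf v0) z ∧ Att (Rf v0) z} := by
    ext z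
    constructor
    · rintro ⟨h6, h7⟩
      obtain ⟨y, rfl⟩ := h.surjective z
      exact ⟨y, ⟨(isCrit_conj h hh' y).1 h6, (att_conj h hh' y).1 h7⟩, rfl⟩
    · rintro ⟨y, ⟨h6, h7⟩, rfl⟩
      exact ⟨(isCrit_conj h hh' y).2 h6, (att_conj h hh' y).2 h7⟩
  have h6 : NA v = NA v0 := by
    unfold NA
    rw [h5, Set.ncard_image_of_injective _ h.injective]
  omega

end Pool.Agent.H79.ES
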