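import Pool.Agent.H79.ES.ETF
import Pool.Agent.H79.ES.EC
import Pool.Agent.H79.ES.EG
import Pool.Agent.H84.TE.RFC
import Pool.Agent.H91.CS.TEQ
import Pool.Agent.H91.CS.TLF

/-!
# Transversality for every summable critical point of every rational map

`trans_fin` (finite orbits): ETF. `transp`: the functional of a summable critical point is not a combination of
`h ↦ h'(c), h(α), h(γ)`.
-/

set_option autoImplicit false

open MeasureTheory Metric Set Polynomial Filter Topology

namespace Pool.Agent.H79.ES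

open Pool.Agent.H44.Fatou Pool.Agent.H32.BT Pool.Agent.H79.Eul Pool.Agent.H79.Par Pool.Agent.H61.TT
open Pool.Agent.H35.EX Pool.Agent.H91.CS Pool.Agent.H84.TE

/-- infinitely many simple poles: impossible -/
theorem ps_false {d : ℕ} {a b : Polynomial ℂ} {P β : ℕ → ℂ} (h : PS d a b P β)
    (ho : PO d a b P β Nat.succ) (hni : ¬ IsCrit (rat a b) OnePoint.infty)
    (hcb : ∀ x, (ww a b).eval x = 0 → b.eval x ≠ 0) : False := by
  have hβ : Summable fun k => ‖β k‖ := by
    refine Summable.of_nonneg_of_le (fun k => norm_nonneg _) (fun k => ?_) h.wt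
    nlinarith [norm_nonneg (β k), sq_nonneg ‖P k‖]
  have hqm := qs_meas β P
  have hfin := qs_fin' h.wt h.s0 h.s1
  have hlf : LF a b (qs β P) := lf_of h.rat (equal_pos h.rat hqm hfin h.push)
  obtain ⟨δ, M, hδ, hG⟩ := good h (ent h ho)
  obtain ⟨K, hK⟩ := eventually_atTop.1 ho.hB
  refine rfc h.rat hni hcb hβ hlf ⟨δ, hδ, M, fun hae => ?_⟩ (x := fun k => P (k + K))
    (B := fun k => β (k + K + 1)) (fun i j hij => by simpa using h.inj hij) (fun k => ?_)
    (fun k => h.ne _) ?_ ?_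
  · have h1 : nu β P {z | ∀ ε : ℝ, 0 < ε → ∃ᶠ n in atTop,
      ‖(gg a b)^[n] z‖ ≤ M ∧ ∃ g, Uni a b δ n z g ∧ ‖deriv g ((gg a b)^[n] z)‖ ≤ ε} = 0 := by
      unfold nu
      refine (withDensity_apply_eq_zero hqm.enorm).2 ?_
      refine measure_mono_null ?_ hae
      rintro z ⟨hz1, hz2⟩ hz3
      refine hz3 (by simpa using hz1) fun ε hε => (hz2 ε hε).mono ?_
      rintro n ⟨hn1, g, hn2, hn3⟩
      exact ⟨hn1, g, hn2.diff, hn2.cen, fun w hw => ⟨hn2.den w hw, hn2.inv w hw⟩, hn3⟩
    exact hG.ne' h1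
  · have h1 := hK (k + 1 + K) (by omega)
    have e1 : Nat.succ (k + 1 + K) = k + 1 + K + 1 := rfl
    have e2 : k + 1 + K = k + K + 1 := by ring
    rw [e1] at h1
    show β (k + 1 + K + 1) * Pool.Agent.H61.TT.dg a b (P (k + 1 + K)) = β (k + K + 1)
    rw [h1, e2]
  · have h1 : Tendsto β atTop (𝓝 0) := hβ.of_norm.tendsto_atTop_zero
    exact h1.comp (tendsto_add_atTop_nat (K + 1))
  · refine Eventually.of_forall fun k => ?_
    have h1 : rs β P (P (k + K)) = β (k + K) := by
      unfold rs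
      rw [tsum_eq_single (k + K)]
      · exact Set.indicator_of_mem (s := {j : ℕ | P j = P (k + K)}) rfl β
      · intro j hj
        exact Set.indicator_of_notMem (s := {j : ℕ | P j = P (k + K)}) (fun hj2 => hj (h.inj hj2)) β
    rw [h1]
    exact h.ne _

theorem transp {d : ℕ} {v0 : E d} {c α γ : ℂ} (hR : RatD d (pol v0.1) (pol v0.2)) (h : Ch v0 c α γ)
    (a1 a2 a3 : ℂ) : ∃ w : E d, ∑' k, xi v0 w (it v0 k c) / trD v0 k (it v0 1 c) ≠
      a1 * deriv (xi v0 w) c + a2 * xi v0 w α + a3 * xi v0 w γ := by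
  rcases (Set.range fun k => it v0 (k + 1) c).finite_or_infinite with hf | hi
  · exact trans_fin hR h hf a1 a2 a3
  by_contra hcon
  push Not at hcon
  obtain ⟨P, β, h1, h2⟩ := ps_of_van hR h hi hcon
  exact ps_false h1 h2 h.ni h.cb

end Pool.Agent.H79.ES
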