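import Pool.Agent.H79.ES.EA
import Pool.Agent.H79.ES.EFI
import Pool.Agent.H91.CS.TORD
import Pool.Agent.H61.TT.Orbit
import Pool.Agent.H61.TT.Surj

/-!
# Module ETF: transversality for finite orbits

PROOF. `van_red` and `fin_false`. If `f'(c) = 0` and `(f')'(c) = 0` then `ww` has a double root at `c` and `(X - c) ^ 3` divides `a - f(c) b`, so `3 ≤ d`.
-/

set_option autoImplicit false

open MeasureTheory Metric Set Polynomial Filter Topology

namespace Pool.Agent.H79.ES

open Pool.Agent.H44.Fatou Pool.Agent.H32.BT Pool.Agent.H79.Eul Pool.Agent.H79.Par Pool.Agent.H61.TT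
open Pool.Agent.H35.EX

theorem three_le {d : ℕ} {a b : Polynomial ℂ} (h : RatD d a b) {c : ℂ} (hb : b.eval c ≠ 0)
    (h0 : Pool.Agent.H61.TT.dg a b c = 0) (h1 : deriv (Pool.Agent.H61.TT.dg a b) c = 0) : 3 ≤ d := by
  have hw0 : (ww a b).eval c = 0 := by
    by_contra hne
    exact (dg_ne hb).2 hne h0
  have hw1 : (derivative (ww a b)).eval c = 0 := by
    have e2 : HasDerivAt (fun z => b.eval z ^ 2) (2 * b.eval c * (derivative b).eval c) c := by
      have e3 := (b.hasDerivAt c).mul (b.hasDerivAt c)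
      have e4 : (fun z => b.eval z ^ 2) = fun z => b.eval z * b.eval z := by
        funext z
        ring
      rw [e4]
      refine e3.congr_deriv ?_
      ring
    have h2 : HasDerivAt (fun z => (ww a b).eval z / b.eval z ^ 2)
        (((derivative (ww a b)).eval c * b.eval c ^ 2 -
          (ww a b).eval c * (2 * b.eval c * (derivative b).eval c)) / (b.eval c ^ 2) ^ 2) c :=
      ((ww a b).hasDerivAt c).div e2 (pow_ne_zero 2 hb)
    have h3 : deriv (Pool.Agent.H61.TT.dg a b) c = _ := h2.deriv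
    rw [h1, hw0, zero_mul, sub_zero] at h3
    have h4 := h3.symm
    rw [div_eq_zero_iff] at h4
    rcases h4 with h4 | h4
    · rcases mul_eq_zero.1 h4 with h5 | h5
      · exact h5
      · exact absurd h5 (pow_ne_zero 2 hb)
    · exact absurd h4 (pow_ne_zero 2 (pow_ne_zero 2 hb))
  have hm : 2 ≤ (ww a b).rootMultiplicity c := by
    have h5 : 1 < (ww a b).rootMultiplicity c :=
      (one_lt_rootMultiplicity_iff_isRoot (ww_ne h)).2 ⟨hw0, hw1⟩
    omega
  have h6 : (X - C c) ^ 3 ∣ fib a b (gg a b c) :=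
    (pow_dvd_pow _ (by omega)).trans (Pool.Agent.H91.CS.ord_fib h hb)
  have h7 := natDegree_le_of_dvd h6 (fib_ne h _)
  rw [natDegree_pow, natDegree_X_sub_C] at h7
  have h8 : (fib a b (gg a b c)).natDegree ≤ d := by
    unfold fib
    refine (natDegree_sub_le _ _).trans (max_le ?_ ?_)
    · exact h.deg ▸ le_max_left _ _
    · exact (natDegree_C_mul_le _ _).trans (h.deg ▸ le_max_right _ _)
  omega

theorem trans_fin {d : ℕ} {v0 : E d} {c α γ : ℂ} (hR : RatD d (pol v0.1) (pol v0.2)) (h : Ch v0 c α γ)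
    (hfin : (Set.range fun k => it v0 (k + 1) c).Finite) (a1 a2 a3 : ℂ) :
    ∃ w : E d, ∑' k, xi v0 w (it v0 k c) / trD v0 k (it v0 1 c) ≠
      a1 * deriv (xi v0 w) c + a2 * xi v0 w α + a3 * xi v0 w γ := by
  by_contra hcon
  push Not at hcon
  obtain ⟨h2, h3, h1, hs0, hs1, hpush⟩ := van_red hR h hcon
  have hbc : (pol v0.2).eval c ≠ 0 := by
    rw [← ev_pol]
    exact h.cr.den 0
  have hitP : ∀ k, it v0 k (it v0 1 c) = Pv v0 c k := fun k => (it_add v0 k 1 c).symm
  have hB : ∀ k, Bv v0 c (k + 1) * Pool.Agent.H61.TT.dg (pol v0.1) (pol v0.2) (Pv v0 c k) = Bv v0 c k := by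
    intro k
    have e1 := h.cr.tr k
    have e2 := h.cr.tr (k + 1)
    unfold Bv
    rw [trD_succ, hitP] at e2 ⊢
    have e3 := left_ne_zero_of_mul e2
    field_simp
  have hcP : ∀ k, Pv v0 c k ≠ c := by
    intro k hk
    apply h.cr.tr (k + 1)
    rw [trD_succ, hitP, hk, ← dg_eq, h.cr.crit, zero_div, zero_mul]
  have hdg0 : Pool.Agent.H61.TT.dg (pol v0.1) (pol v0.2) c = 0 := by
    rw [← dg_eq, h.cr.crit, zero_div]
  have hnorm : ∀ k, ‖Bv v0 c k‖ = 1 / ‖trD v0 k (it v0 1 c)‖ := by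
    intro k
    unfold Bv
    rw [norm_div, norm_one]
  have hβ : Summable fun k => ‖Bv v0 c k‖ := by
    refine Summable.of_nonneg_of_le (fun k => norm_nonneg _) (fun k => ?_) h.cr.sm
    rw [hnorm]
    apply div_le_div_of_nonneg_right _ (norm_nonneg _)
    have := sq_nonneg ‖it v0 (k + 1) c‖
    linarith
  refine fin_false hR (P := Pv v0 c) (β := Bv v0 c) (c := c) (a1 := a1) hbc hcP
    (h1.imp id fun h4 => three_le hR hbc hdg0 h4) (fun k => ?_) (fun k => ?_) hB ?_ h.cr.reg hβ hs0 hs1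
    hpush hfin fun η hη => ?_
  · rw [← ev_pol]
    exact h.cr.den (k + 1)
  · exact (it_succ v0 (k + 1) c).symm
  · unfold Bv
    simp [trD]
  · obtain ⟨w, hw⟩ := xi_surj hR hη
    have h4 := hcon w
    rw [h2, h3, zero_mul, zero_mul, add_zero, add_zero] at h4
    have h5 : xi v0 w = fun z => η.eval z / (pol v0.2).eval z ^ 2 := funext hw
    rw [h5] at h4
    have hb0 : ∀ k, (pol v0.2).eval (it v0 k c) ≠ 0 := fun k => by
      rw [← ev_pol]
      exact h.cr.den k
    have hsum : Summable fun k => η.eval (it v0 k c) / (pol v0.2).eval (it v0 k c) ^ 2 /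
        trD v0 k (it v0 1 c) := by
      rw [← summable_nat_add_iff 1]
      obtain ⟨M, hM⟩ : ∃ M : ℝ, ∀ k, ‖η.eval (Pv v0 c k) / (pol v0.2).eval (Pv v0 c k) ^ 2‖ ≤ M := by
        obtain ⟨M, hM⟩ := (hfin.image fun z => ‖η.eval z / (pol v0.2).eval z ^ 2‖).bddAbove
        exact ⟨M, fun k => hM ⟨Pv v0 c k, ⟨k, rfl⟩, rfl⟩⟩
      refine Summable.of_norm_bounded (g := fun k => M * ‖Bv v0 c (k + 1)‖)
        (((summable_nat_add_iff 1).2 hβ).mul_left M) fun k => ?_
      rw [norm_div, hnorm]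
      have := mul_le_mul_of_nonneg_right (hM k)
        (by positivity : (0 : ℝ) ≤ 1 / ‖trD v0 (k + 1) (it v0 1 c)‖)
      rw [mul_one_div] at this
      exact this
    rw [hsum.tsum_eq_zero_add] at h4
    rw [← h4]
    congr 1
    · simp [trD, it]
    · refine tsum_congr fun k => ?_
      unfold Bv Pv
      ring

end Pool.Agent.H79.ES
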