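import Pool.Agent.H79.ES.EB
import Pool.Agent.H91.CS.TLF

/-!
# Chapter 4 (good times): definitions

`al`: the truncated entropy function `min 1 (- log rh)`, with values in `[0, 1]`. `Hyp η n`: the time `n` is hyperbolic (Pliss): all the
backward averages of `al` are at least `η`. `Tame ε M n`: the orbit does not come too close to the zeros of `qs`, to infinity, to the
critical points and to the poles, with errors growing like `exp (ε j)` backwards from the time `n`.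
-/

set_option autoImplicit false

open MeasureTheory Metric Set Polynomial Filter Topology

namespace Pool.Agent.H79.ES

open Pool.Agent.H61.TT Pool.Agent.H35.EX Pool.Agent.H91.CS

/-- the truncated entropy function -/
noncomputable def al (a b : Polynomial ℂ) (β P : ℕ → ℂ) (x : ℂ) : ℝ :=
  max 0 (min 1 (-Real.log (rh a b β P x)))

/-- `n` is a hyperbolic time of `z` -/
def Hyp (a b : Polynomial ℂ) (β P : ℕ → ℂ) (η : ℝ) (n : ℕ) : Set ℂ :=
  {z | ∀ j ≤ n, η * j ≤ ∑ i ∈ Finset.range j, al a b β P ((gg a b)^[n - j + i] z)}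

/-- there is no bad event up to the time `n` -/
def Tame (a b : Polynomial ℂ) (β P : ℕ → ℂ) (ε M : ℝ) (n : ℕ) : Set ℂ :=
  {z | ‖qs β P ((gg a b)^[n] z)‖ ≤ M ∧ ∀ j ≤ n,
    ‖(gg a b)^[n - j] z‖ ≤ M * Real.exp (ε * j) ∧
    Real.exp (-(ε * j)) / M ≤ ‖qs β P ((gg a b)^[n - j] z)‖ ∧
    Real.exp (-(ε * j)) / M ≤ ‖(ww a b * b).eval ((gg a b)^[n - j] z)‖}

/-- the alignment holds along the whole orbit of `z` -/
def Aln (a b : Polynomial ℂ) (β P : ℕ → ℂ) (z : ℂ) : Prop :=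
  ∀ n, qs β P ((gg a b)^[n] z) ≠ 0 ∧ b.eval ((gg a b)^[n] z) ≠ 0 ∧
    0 < rh a b β P ((gg a b)^[n] z) ∧ rh a b β P ((gg a b)^[n] z) ≤ 1 ∧
    ‖qs β P ((gg a b)^[n] z)‖ = rh a b β P ((gg a b)^[n] z) *
      ‖Pool.Agent.H61.TT.dg a b ((gg a b)^[n] z)‖ ^ 2 * ‖qs β P ((gg a b)^[n + 1] z)‖

end Pool.Agent.H79.ES
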