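import Pool.Agent.H79.ES.GPL

/-!
# Module GHY: the hyperbolic times have positive frequency

PROOF. `μ = nu β P` is finite (`nu_fin`) and invariant (`nu_pres`, `measurable_gg`: so `MeasurePreserving (gg a b) μ μ`, and `MeasurePreserving.iterate`). `al` is measurable (`qs_meas`, `Measurable` of `dg`: quotient of polynomials, `Real.measurable_log`) with values in `[0, 1]`. `L = ∫ al dμ > 0`: `al ≥ 0` and `al x > 0` when
`0 < rh x < 1`; by `rh_ae` (`μ` is absolutely continuous and `qs ≠ 0` `μ`-a.e.: `withDensity_absolutelyContinuous`, `ae_withDensity_iff`, `‖qs‖ₑ ≠ 0`) `0 < rh` almost everywhere, so `μ {0 < al} ≥ μ {rh < 1} > 0` (`integral_pos_iff_support_of_nonneg`). Take `η = L / (2 (μ univ + 1))`, `lam = L / 2`.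
Integrate `pliss` for `u i = al ((gg a b)^[i] z)`: `∫ al ∘ (gg a b)^[i] dμ = L` (`MeasurePreserving.integral_comp'` or via `map`: `integral_map`), the cardinality is `∑ n ∈ Icc 1 N, indicator (Hyp η n) 1 z` (`Finset.card_filter`, `Nat.cast_sum`), `integral_indicator_one`. So `∑ μ.real (Hyp η n) ≥ N L - η N μ.real univ ≥ N L / 2`.
-/

set_option autoImplicit false

open MeasureTheory Metric Set Polynomial Filter Topology

namespace Pool.Agent.H79.ES

open Pool.Agent.H61.TT Pool.Agent.H35.EX Pool.Agent.H91.CS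

variable {d : ℕ} {a b : Polynomial ℂ} {P β : ℕ → ℂ}

private theorem ghy_dg_meas : Measurable (fun x => Pool.Agent.H61.TT.dg a b x) := by
  unfold Pool.Agent.H61.TT.dg
  fun_prop

private theorem ghy_rh_meas : Measurable (rh a b β P) := by
  unfold rh
  exact ((qs_meas β P).norm).div ((ghy_dg_meas.norm.pow_const 2).mul
    ((qs_meas β P).comp measurable_gg).norm)

theorem al_meas : Measurable (al a b β P) := by
  unfold al
  exact measurable_const.max (measurable_const.min (Real.measurable_log.comp ghy_rh_meas).neg)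

theorem hyp_meas (η : ℝ) (n : ℕ) : MeasurableSet (Hyp a b β P η n) := by
  have h1 : Hyp a b β P η n = ⋂ j, ⋂ (_ : j ≤ n),
      {z | η * j ≤ ∑ i ∈ Finset.range j, al a b β P ((gg a b)^[n - j + i] z)} := by
    ext z
    simp only [Hyp, mem_ofPred_eq, mem_iInter]
  rw [h1]
  refine MeasurableSet.iInter fun j => MeasurableSet.iInter fun _ =>
    measurableSet_le measurable_const (Finset.measurable_sum _ fun i _ => ?_)
  exact al_meas.comp (measurable_gg.iterate _)

private theorem ghy_al_nonneg (x : ℂ) : 0 ≤ al a b β P x := le_max_left _ _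

private theorem ghy_al_le (x : ℂ) : al a b β P x ≤ 1 :=
  max_le zero_le_one (min_le_left _ _)

private theorem ghy_int (h : PS d a b P β) (i : ℕ) :
    Integrable (fun x => al a b β P ((gg a b)^[i] x)) (nu β P) := by
  have := nu_fin h
  refine Integrable.of_bound (al_meas.comp (measurable_gg.iterate i)).aestronglyMeasurable 1 ?_
  refine Eventually.of_forall fun x => ?_
  rw [Real.norm_of_nonneg (ghy_al_nonneg _)]
  exact ghy_al_le _

private theorem ghy_mp (h : PS d a b P β) : MeasurePreserving (gg a b) (nu β P) (nu β P) := by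
  refine ⟨measurable_gg, ?_⟩
  ext T hT
  rw [Measure.map_apply measurable_gg hT, nu_pres h hT]

private theorem ghy_inv (h : PS d a b P β) (i : ℕ) :
    ∫ x, al a b β P ((gg a b)^[i] x) ∂(nu β P) = ∫ x, al a b β P x ∂(nu β P) := by
  have h1 := (ghy_mp h).iterate i
  have h2 := integral_map (μ := nu β P) (φ := (gg a b)^[i]) (f := al a b β P)
    h1.measurable.aemeasurable al_meas.aestronglyMeasurable
  rw [h1.map_eq] at h2
  exact h2.symm

private theorem ghy_pos (h : PS d a b P β) (hent : 0 < nu β P {x | rh a b β P x < 1}) :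
    0 < ∫ x, al a b β P x ∂(nu β P) := by
  rw [integral_pos_iff_support_of_nonneg (fun x => ghy_al_nonneg x) (ghy_int h 0)]
  refine lt_of_lt_of_le hent (measure_mono_ae ?_)
  have h1 : ∀ᵐ x ∂(nu β P), 0 < rh a b β P x := by
    unfold nu
    rw [ae_withDensity_iff (qs_meas β P).enorm]
    filter_upwards [rh_ae h] with x hx hne
    have h2 : qs β P x ≠ 0 := by
      intro h3
      rw [h3, enorm_zero] at hne
      exact hne rfl
    exact (hx h2).2.2.2.1
  filter_upwards [h1] with x hx hx1
  have hx1' : rh a b β P x < 1 := hx1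
  show x ∈ Function.support (al a b β P)
  rw [Function.mem_support]
  have h3 : 0 < -Real.log (rh a b β P x) := by
    have := Real.log_neg hx hx1'
    linarith
  have h4 : 0 < al a b β P x := by
    unfold al
    exact lt_max_of_lt_right (lt_min one_pos h3)
  exact h4.ne'

theorem hyp_freq (h : PS d a b P β) (hent : 0 < nu β P {x | rh a b β P x < 1}) :
    ∃ η lam : ℝ, 0 < η ∧ 0 < lam ∧ ∀ N : ℕ,
      lam * N ≤ ∑ n ∈ Finset.Icc 1 N, (nu β P).real (Hyp a b β P η n) := by
  classical
  have hfin := nu_fin h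
  set L := ∫ x, al a b β P x ∂(nu β P) with hL
  have hL0 : 0 < L := ghy_pos h hent
  set u := (nu β P).real univ with hu
  have hu0 : 0 ≤ u := measureReal_nonneg
  refine ⟨L / (2 * (u + 1)), L / 2, by positivity, by positivity, fun N => ?_⟩
  set η := L / (2 * (u + 1)) with hη
  have hη0 : 0 < η := by positivity
  have hηu : η * u ≤ L / 2 := by
    rw [hη, div_mul_eq_mul_div, div_le_div_iff₀ (by positivity) (by norm_num)]
    nlinarith
  have hpt : ∀ z : ℂ, ∑ i ∈ Finset.range N, al a b β P ((gg a b)^[i] z) - η * N ≤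
      ∑ n ∈ Finset.Icc 1 N, (Hyp a b β P η n).indicator (fun _ => (1 : ℝ)) z := by
    intro z
    have h1 := pliss (u := fun i => al a b β P ((gg a b)^[i] z)) (fun i => ghy_al_le _) hη0.le N
    refine h1.trans (le_of_eq ?_)
    rw [Finset.card_filter, Nat.cast_sum]
    refine Finset.sum_congr rfl fun n _ => ?_
    by_cases hz : z ∈ Hyp a b β P η n
    · have hz' : ∀ j ≤ n, η * j ≤ ∑ i ∈ Finset.range j, al a b β P ((gg a b)^[n - j + i] z) := hz
      rw [Set.indicator_of_mem hz, if_pos hz']
      norm_num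
    · have hz' : ¬ ∀ j ≤ n, η * j ≤ ∑ i ∈ Finset.range j, al a b β P ((gg a b)^[n - j + i] z) := hz
      rw [Set.indicator_of_notMem hz, if_neg hz']
      norm_num
  have hi1 : Integrable (fun z => ∑ i ∈ Finset.range N, al a b β P ((gg a b)^[i] z)) (nu β P) :=
    integrable_finsetSum _ fun i _ => ghy_int h i
  have hi2 : ∀ n, Integrable ((Hyp a b β P η n).indicator (fun _ => (1 : ℝ))) (nu β P) :=
    fun n => (integrable_const 1).indicator (hyp_meas η n)
  have h2 := integral_mono (μ := nu β P) (hi1.sub (integrable_const (η * N)))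
    (integrable_finsetSum (Finset.Icc 1 N) fun n _ => hi2 n) hpt
  have h2' : ∫ z, (∑ i ∈ Finset.range N, al a b β P ((gg a b)^[i] z) - η * N) ∂(nu β P) ≤
      ∫ z, ∑ n ∈ Finset.Icc 1 N, (Hyp a b β P η n).indicator (fun _ => (1 : ℝ)) z ∂(nu β P) := h2
  clear h2
  rename' h2' => h2
  rw [integral_sub hi1 (integrable_const _), integral_finsetSum _ (fun i _ => ghy_int h i),
    integral_finsetSum _ (fun n _ => hi2 n), integral_const] at h2
  have h3 : ∀ n, ∫ z, (Hyp a b β P η n).indicator (fun _ => (1 : ℝ)) z ∂(nu β P) =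
      (nu β P).real (Hyp a b β P η n) := by
    intro n
    have := integral_indicator_one (μ := nu β P) (hyp_meas (a := a) (b := b) (β := β) (P := P) η n)
    exact this
  simp only [h3, ghy_inv h] at h2
  rw [Finset.sum_const, Finset.card_range, nsmul_eq_mul, smul_eq_mul] at h2
  have h4 : (0 : ℝ) ≤ N := Nat.cast_nonneg N
  refine le_trans ?_ h2
  nlinarith [mul_le_mul_of_nonneg_right hηu h4]

end Pool.Agent.H79.ES
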