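import Pool.Agent.H79.ES.GDf
import Pool.Agent.H80.AJ.Cover
import Pool.Agent.H44.DN.CNU
import Pool.Agent.H80.AJ.InvDiff

/-!
# Module GIV: the inverse of an injective holomorphic function

PROOF. `univ_cover` (H80/AJ/Cover): `ball (f x) (ρ * ‖deriv f x‖ / 16) ⊆ f '' ball x ρ`. `ψ = Function.invFunOn f (ball x ρ)`: `ψ w ∈ ball x ρ`, `f (ψ w) = w` on this ball, `ψ (f x) = x` by injectivity. Holomorphic: `deriv f ≠ 0` on the ball (injective holomorphic functions: search the library, for instance H80/AJ, H44/DN `br_der`, H84/TE `rdn`, or Mathlib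
`AnalyticAt.eventually_constant_or_nhds_le_map_nhds`; compare the proof in H44/DN/CNU), and by `cnu_inv` a local inverse `ψ'` near `w0 = f u0`, `u0 = ψ w0`, agrees with `ψ` near `w0`: `ψ' w` is in the ball and `f (ψ' w) = w = f (ψ w)`, injectivity. If `deriv f x = 0` the ball is empty. (There may be a ready lemma: grep `invFunOn` in H44, H61, H80, H84, H35.)
-/

set_option autoImplicit false

open MeasureTheory Metric Set Polynomial Filter Topology

namespace Pool.Agent.H79.ES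

open Pool.Agent.H61.TT Pool.Agent.H35.EX Pool.Agent.H91.CS

theorem inj_inv {f : ℂ → ℂ} {x : ℂ} {ρ : ℝ} (hρ : 0 < ρ) (hf : DifferentiableOn ℂ f (ball x ρ))
    (hi : InjOn f (ball x ρ)) : ∃ ψ : ℂ → ℂ,
      DifferentiableOn ℂ ψ (ball (f x) (ρ * ‖deriv f x‖ / 16)) ∧ ψ (f x) = x ∧
      ∀ w ∈ ball (f x) (ρ * ‖deriv f x‖ / 16), ψ w ∈ ball x ρ ∧ f (ψ w) = w := by
  have hgan : AnalyticOnNhd ℂ f (ball x ρ) := hf.analyticOnNhd isOpen_ball
  have hopen : ∀ s ⊆ ball x ρ, IsOpen s → IsOpen (f '' s) := by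
    rcases hgan.is_constant_or_isOpen (convex_ball x ρ).isPreconnected with ⟨w, hw⟩ | h1
    · exfalso
      have h1 : x ∈ ball x ρ := mem_ball_self hρ
      have h2 : x + ((ρ / 2 : ℝ) : ℂ) ∈ ball x ρ := by
        rw [mem_ball_iff_norm, add_sub_cancel_left, Complex.norm_real,
          Real.norm_of_nonneg (by positivity)]
        linarith
      have h3 := hi h1 h2 ((hw _ h1).trans (hw _ h2).symm)
      have h4 : ((ρ / 2 : ℝ) : ℂ) = 0 := by linear_combination -h3
      have h5 : ρ / 2 = 0 := by exact_mod_cast h4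
      linarith
    · exact h1
  have hcov := Pool.Agent.H80.AJ.univ_cover hρ hf hi
  obtain ⟨k, hk⟩ : ∃ k : ℂ → ℂ, k = Function.invFunOn f (ball x ρ) := ⟨_, rfl⟩
  have hkmem : ∀ w ∈ f '' ball x ρ, k w ∈ ball x ρ := fun w hw => by
    rw [hk]
    exact Function.invFunOn_mem hw
  have hkeq : ∀ w ∈ f '' ball x ρ, f (k w) = w := fun w hw => by
    rw [hk]
    exact Function.invFunOn_eq hw
  have hkg : ∀ y ∈ ball x ρ, k (f y) = y := by
    intro y hy
    have hw : f y ∈ f '' ball x ρ := mem_image_of_mem f hy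
    exact hi (hkmem _ hw) hy (hkeq _ hw)
  have hkc : ContinuousOn k (f '' ball x ρ) := by
    rintro w ⟨y, hy, rfl⟩
    apply ContinuousAt.continuousWithinAt
    rw [ContinuousAt, hkg y hy]
    intro N hN
    obtain ⟨N', hN'N, hN'o, hyN'⟩ := _root_.mem_nhds_iff.1 hN
    have h1 : IsOpen (f '' (N' ∩ ball x ρ)) :=
      hopen _ inter_subset_right (hN'o.inter isOpen_ball)
    have h2 : f y ∈ f '' (N' ∩ ball x ρ) := mem_image_of_mem f ⟨hyN', hy⟩
    rw [Filter.mem_map]
    filter_upwards [h1.mem_nhds h2] with v hv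
    obtain ⟨u, hu, rfl⟩ := hv
    show k (f u) ∈ N
    rw [hkg u hu.2]
    exact hN'N hu.1
  have hkd : ∀ w ∈ f '' ball x ρ, DifferentiableAt ℂ k w := by
    intro w hw
    exact Pool.Agent.H32.BT.diff_of_inverse ((hopen _ subset_rfl isOpen_ball).mem_nhds hw) hkc
      isOpen_ball (hkmem w hw) hf (fun v hv _ => hkeq v hv)
  exact ⟨k, fun w hw => (hkd w (hcov hw)).differentiableWithinAt, hkg x (mem_ball_self hρ),
    fun w hw => ⟨hkmem w (hcov hw), hkeq w (hcov hw)⟩⟩

end Pool.Agent.H79.ES
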