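import Pool.Agent.H79.ES.GDf

/-!
# Module GLW: the measure of the bad events

PROOF. Three parts, each at most `C t ^ p` for `0 < t ≤ 1`; take the smallest `p` and the sum of the constants (`t ^ p ≤ t ^ q` for `q ≤ p`, `Real.rpow_le_rpow_of_exponent_ge`). (1) `{t⁻¹ < ‖x‖}`: `nu_tail` with `T = t⁻¹`: `C t`. (2) `{‖qs x‖ < t}`: `T = t ^ (- 1 / 3)`: it is contained in `{T < ‖x‖} ∪ ({‖qs x‖ < t} ∩ closedBall 0 T)`;
the second set has measure `∫ ‖qs‖ₑ ≤ t * π T ^ 2` (`withDensity_apply`, `Complex.volume_closedBall`), so `C / T + π t T ^ 2 = (C + π) t ^ (1 / 3)`. (3) `{‖p x‖ < t}` for the polynomial `p = ww a b * b ≠ 0` (`ww_ne`, `ae_b`): `p = C l * ∏ (X - z_i)` over the roots (`Polynomial.eq_prod_roots_of_splits`/`IsAlgClosed.splits`), `D = natDegree`. If `D = 0` the set is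
empty for `t ≤ ‖l‖` and for `t > ‖l‖` use `μ univ ≤ μ univ * (t / ‖l‖)`. If `D ≥ 1`: if `‖p x‖ < t` then `‖x - z_i‖ < (t / ‖l‖) ^ (1 / D)` for some root (otherwise the product is at least `t / ‖l‖`), so the measure is at most `∑ C (t / ‖l‖) ^ (1 / D)` by `nu_ball`.
-/

set_option autoImplicit false

open MeasureTheory Metric Set Polynomial Filter Topology

namespace Pool.Agent.H79.ES

open Pool.Agent.H61.TT Pool.Agent.H35.EX Pool.Agent.H91.CS

variable {d : ℕ} {a b : Polynomial ℂ} {P β : ℕ → ℂ}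

private def Bd (μ : Measure ℂ) (E : ℝ → Set ℂ) : Prop :=
  ∃ C p : ℝ, 0 < C ∧ 0 < p ∧ ∀ t : ℝ, 0 < t → t ≤ 1 → μ (E t) ≤ ENNReal.ofReal (C * t ^ p)

private theorem Bd.union {μ : Measure ℂ} {E F : ℝ → Set ℂ} (hE : Bd μ E) (hF : Bd μ F) :
    Bd μ (fun t => E t ∪ F t) := by
  obtain ⟨C, p, hC, hp, h1⟩ := hE
  obtain ⟨C', p', hC', hp', h2⟩ := hF
  refine ⟨C + C', min p p', by positivity, lt_min hp hp', fun t ht ht1 => ?_⟩
  refine (measure_union_le _ _).trans ((add_le_add (h1 t ht ht1) (h2 t ht ht1)).trans ?_)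
  rw [← ENNReal.ofReal_add (by positivity) (by positivity)]
  refine ENNReal.ofReal_le_ofReal ?_
  have h3 := Real.rpow_le_rpow_of_exponent_ge ht ht1 (min_le_left p p')
  have h4 := Real.rpow_le_rpow_of_exponent_ge ht ht1 (min_le_right p p')
  nlinarith

private theorem Bd.mono {μ : Measure ℂ} {E F : ℝ → Set ℂ} (hF : Bd μ F)
    (h : ∀ t : ℝ, 0 < t → t ≤ 1 → E t ⊆ F t) : Bd μ E := by
  obtain ⟨C, p, hC, hp, h1⟩ := hF
  exact ⟨C, p, hC, hp, fun t ht ht1 => (measure_mono (h t ht ht1)).trans (h1 t ht ht1)⟩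

private theorem Bd.pow {μ : Measure ℂ} {E : ℝ → Set ℂ} (hE : Bd μ E) {q : ℝ} (hq : 0 < q) :
    Bd μ (fun t => E (t ^ q)) := by
  obtain ⟨C, p, hC, hp, h1⟩ := hE
  refine ⟨C, q * p, hC, by positivity, fun t ht ht1 => ?_⟩
  refine (h1 (t ^ q) (Real.rpow_pos_of_pos ht q) (Real.rpow_le_one ht.le ht1 hq.le)).trans ?_
  rw [← Real.rpow_mul ht.le]

private theorem glw_poly (h : PS d a b P β) (n : ℕ) : ∀ Q : Polynomial ℂ, Q ≠ 0 →
    Q.natDegree = n → Bd (nu β P) (fun t => {x | ‖Q.eval x‖ < t}) := by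
  have hfin := nu_fin h
  induction n with
  | zero =>
    intro Q hQ hd
    obtain ⟨c, rfl⟩ := Polynomial.natDegree_eq_zero.1 hd
    have hc : c ≠ 0 := by
      intro h0
      apply hQ
      rw [h0, map_zero]
    have hc' : 0 < ‖c‖ := norm_pos_iff.2 hc
    have hu : 0 ≤ (nu β P).real univ := measureReal_nonneg
    refine ⟨((nu β P).real univ + 1) / ‖c‖, 1, by positivity, one_pos, fun t ht ht1 => ?_⟩
    by_cases htc : t ≤ ‖c‖
    · have h1 : {x : ℂ | ‖(C c).eval x‖ < t} = ∅ := by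
        rw [Set.eq_empty_iff_forall_notMem]
        intro x hx
        have h2 : ‖(C c).eval x‖ < t := hx
        rw [eval_C] at h2
        linarith
      show (nu β P) {x : ℂ | ‖(C c).eval x‖ < t} ≤ _
      rw [h1, measure_empty]
      exact zero_le
    · refine (measure_mono (subset_univ _)).trans ?_
      rw [← ofReal_measureReal (measure_ne_top _ _), Real.rpow_one]
      refine ENNReal.ofReal_le_ofReal ?_
      rw [div_mul_eq_mul_div, le_div_iff₀ hc']
      push Not at htc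
      nlinarith
  | succ n ih =>
    intro Q hQ hd
    have hdeg : Q.degree ≠ 0 := by
      intro h0
      have := Polynomial.natDegree_eq_of_degree_eq_some (n := 0) (by simpa using h0)
      omega
    obtain ⟨z, hz⟩ := IsAlgClosed.exists_root Q hdeg
    obtain ⟨Q', hQ'⟩ := dvd_iff_isRoot.2 hz
    have hQ'0 : Q' ≠ 0 := by
      rintro rfl
      apply hQ
      rw [hQ', mul_zero]
    have hd' : Q'.natDegree = n := by
      have h1 := Polynomial.natDegree_mul (X_sub_C_ne_zero z) hQ'0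
      rw [← hQ', hd, natDegree_X_sub_C] at h1
      omega
    have h1 : Bd (nu β P) (fun t => ball z t) := by
      obtain ⟨C, hC, h2⟩ := nu_ball h
      refine ⟨C, 1, hC, one_pos, fun t ht _ => ?_⟩
      rw [Real.rpow_one]
      exact h2 z t ht
    refine ((h1.pow (q := 1 / 2) (by norm_num)).union
      ((ih Q' hQ'0 hd').pow (q := 1 / 2) (by norm_num))).mono ?_
    intro t ht ht1 x hx
    have hx' : ‖Q.eval x‖ < t := hx
    rw [hQ', eval_mul, eval_sub, eval_X, eval_C, norm_mul] at hx'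
    by_contra hcon
    rw [Set.mem_union, not_or] at hcon
    obtain ⟨h3, h4⟩ := hcon
    rw [mem_ball, dist_eq_norm, not_lt] at h3
    have h4' : ¬ (‖Q'.eval x‖ < t ^ (1 / 2 : ℝ)) := h4
    rw [not_lt] at h4'
    have h5 : t ^ (1 / 2 : ℝ) * t ^ (1 / 2 : ℝ) = t := by
      rw [← Real.rpow_add ht]
      norm_num
    have h6 : 0 ≤ t ^ (1 / 2 : ℝ) := Real.rpow_nonneg ht.le _
    have h7 := mul_le_mul h3 h4' h6 (norm_nonneg _)
    linarith

theorem nu_event (h : PS d a b P β) : ∃ C p : ℝ, 0 < C ∧ 0 < p ∧ ∀ t : ℝ, 0 < t → t ≤ 1 →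
    nu β P {x | ‖qs β P x‖ < t ∨ t⁻¹ < ‖x‖ ∨ ‖(ww a b * b).eval x‖ < t} ≤
      ENNReal.ofReal (C * t ^ p) := by
  have hfin := nu_fin h
  have hQ : ww a b * b ≠ 0 := mul_ne_zero (ww_ne h.rat) (b_ne h.rat)
  have h3 := glw_poly h _ (ww a b * b) hQ rfl
  have h1 : Bd (nu β P) (fun t => {x : ℂ | t⁻¹ < ‖x‖}) := by
    obtain ⟨C, hC, h2⟩ := nu_tail h
    refine ⟨C, 1, hC, one_pos, fun t ht ht1 => ?_⟩
    have h4 := h2 t⁻¹ ((one_le_inv₀ ht).2 ht1)
    rw [Real.rpow_one]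
    rwa [div_inv_eq_mul] at h4
  have h2 : Bd (nu β P) (fun t => {x : ℂ | ‖qs β P x‖ < t}) := by
    have h4 : Bd (nu β P) (fun t => {x : ℂ | ‖qs β P x‖ < t} ∩ closedBall 0 (t ^ (1 / 4 : ℝ))⁻¹) := by
      refine ⟨Real.pi, 1 / 2, Real.pi_pos, by norm_num, fun t ht ht1 => ?_⟩
      have hm : MeasurableSet ({x : ℂ | ‖qs β P x‖ < t} ∩ closedBall 0 (t ^ (1 / 4 : ℝ))⁻¹) :=
        (measurableSet_lt (qs_meas β P).norm measurable_const).inter measurableSet_closedBall
      unfold nu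
      rw [withDensity_apply _ hm]
      have h5 : ∫⁻ x in {x : ℂ | ‖qs β P x‖ < t} ∩ closedBall 0 (t ^ (1 / 4 : ℝ))⁻¹, ‖qs β P x‖ₑ ≤
          ∫⁻ x in {x : ℂ | ‖qs β P x‖ < t} ∩ closedBall 0 (t ^ (1 / 4 : ℝ))⁻¹, ENNReal.ofReal t := by
        refine setLIntegral_mono' hm fun x hx => ?_
        have h6 : ‖qs β P x‖ < t := hx.1
        rw [← ofReal_norm]
        exact ENNReal.ofReal_le_ofReal h6.le
      refine h5.trans ?_
      rw [setLIntegral_const]
      refine (mul_le_mul_right (measure_mono Set.inter_subset_right) (ENNReal.ofReal t)).trans ?_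
      rw [Complex.volume_closedBall]
      have h7 : ((NNReal.pi : NNReal) : ENNReal) = ENNReal.ofReal Real.pi := by
        rw [← NNReal.coe_real_pi, ENNReal.ofReal_coe_nnreal]
      have hs : 0 < t ^ (1 / 4 : ℝ) := Real.rpow_pos_of_pos ht _
      have h8 : t = (t ^ (1 / 4 : ℝ)) ^ 4 := by
        rw [← Real.rpow_natCast, ← Real.rpow_mul ht.le]
        norm_num
      have h9 : t ^ (1 / 2 : ℝ) = (t ^ (1 / 4 : ℝ)) ^ 2 := by
        rw [← Real.rpow_natCast, ← Real.rpow_mul ht.le]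
        norm_num
      rw [h7, ← ENNReal.ofReal_pow (by positivity), ← ENNReal.ofReal_mul (by positivity),
        ← ENNReal.ofReal_mul (by positivity), h9]
      refine ENNReal.ofReal_le_ofReal (le_of_eq ?_)
      set s := t ^ (1 / 4 : ℝ) with hsd
      rw [h8]
      field_simp
    refine ((h1.pow (q := 1 / 4) (by norm_num)).union h4).mono ?_
    intro t ht ht1 x hx
    by_cases hx1 : (t ^ (1 / 4 : ℝ))⁻¹ < ‖x‖
    · exact Or.inl hx1
    · refine Or.inr ⟨hx, ?_⟩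
      rw [mem_closedBall, dist_zero_right]
      exact not_lt.1 hx1
  obtain ⟨C, p, hC, hp, h4⟩ := (h2.union (h1.union h3))
  refine ⟨C, p, hC, hp, fun t ht ht1 => ?_⟩
  exact h4 t ht ht1

end Pool.Agent.H79.ES
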