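import Pool.Agent.H79.ES.GDf

/-!
# Module GPL: the lemma of Pliss

PROOF. `S n = ∑ i < n, (u i - η)`. `n` is in the filter iff `S m ≤ S n` for all `m ≤ n` (`m = n - j`; `∑ i ∈ range j, u (n - j + i) = ∑ i ∈ Ico (n - j) n, u i`: `Finset.sum_Ico_eq_sum_range`,
`Finset.sum_range_add_sum_Ico` or `Finset.sum_Ico_eq_sub`). Let `c N` be the cardinality. Induction on `N`: `∀ m ≤ N, S m ≤ c N`. `N = 0`: `S 0 = 0`. `N + 1`, `m = N + 1` (for `m ≤ N` use `c N ≤ c (N + 1)`): if `N + 1` is in the filter, `c (N + 1) = c N + 1`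
(`Finset.Icc_insert_succ_right` or `Finset.filter_insert`, `N + 1` is new) and `S (N + 1) ≤ S N + 1 ≤ c N + 1`. If not, there is `m ≤ N` with `S (N + 1) < S m ≤ c N ≤ c (N + 1)`.
-/

set_option autoImplicit false

open MeasureTheory Metric Set Polynomial Filter Topology

namespace Pool.Agent.H79.ES

open Pool.Agent.H61.TT Pool.Agent.H35.EX Pool.Agent.H91.CS

open Classical in
theorem pliss {u : ℕ → ℝ} (h1 : ∀ i, u i ≤ 1) {η : ℝ} (hη : 0 ≤ η) (N : ℕ) :
    ∑ i ∈ Finset.range N, u i - η * N ≤ (((Finset.Icc 1 N).filter fun n =>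
      ∀ j ≤ n, η * j ≤ ∑ i ∈ Finset.range j, u (n - j + i)).card : ℝ) := by
  set S : ℕ → ℝ := fun n => ∑ i ∈ Finset.range n, u i - η * n with hS
  set c : ℕ → ℕ := fun N => ((Finset.Icc 1 N).filter fun n =>
      ∀ j ≤ n, η * j ≤ ∑ i ∈ Finset.range j, u (n - j + i)).card with hc
  have hsum : ∀ n j : ℕ, j ≤ n → ∑ i ∈ Finset.range j, u (n - j + i) =
      ∑ i ∈ Finset.range n, u i - ∑ i ∈ Finset.range (n - j), u i := by
    intro n j hj
    have h2 := Finset.sum_range_add_sum_Ico u (Nat.sub_le n j)
    rw [Finset.sum_Ico_eq_sum_range] at h2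
    have h3 : n - (n - j) = j := by omega
    rw [h3] at h2
    linarith
  have hmem : ∀ n : ℕ, (∀ m ≤ n, S m ≤ S n) → ∀ j ≤ n, η * j ≤ ∑ i ∈ Finset.range j, u (n - j + i) := by
    intro n hn j hj
    have h2 := hn (n - j) (Nat.sub_le n j)
    rw [hsum n j hj]
    simp only [hS] at h2
    rw [Nat.cast_sub hj] at h2
    linarith
  have hcm : ∀ N, c N ≤ c (N + 1) := by
    intro N
    refine Finset.card_le_card (Finset.filter_subset_filter _ ?_)
    exact Finset.Icc_subset_Icc_right (by omega)
  have key : ∀ N : ℕ, ∀ m ≤ N, S m ≤ c N := by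
    intro N
    induction N with
    | zero =>
      intro m hm
      have : m = 0 := by omega
      subst this
      simp [hS]
    | succ N ih =>
      intro m hm
      by_cases hmN : m ≤ N
      · exact (ih m hmN).trans (by exact_mod_cast hcm N)
      have hm' : m = N + 1 := by omega
      subst hm'
      by_cases hx : ∀ m ≤ N + 1, S m ≤ S (N + 1)
      · have h2 : c N + 1 ≤ c (N + 1) := by
          refine Finset.card_lt_card ?_
          rw [Finset.ssubset_iff_of_subset (Finset.filter_subset_filter _
            (Finset.Icc_subset_Icc_right (by omega)))]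
          refine ⟨N + 1, ?_, ?_⟩
          · rw [Finset.mem_filter, Finset.mem_Icc]
            exact ⟨⟨by omega, le_rfl⟩, hmem (N + 1) hx⟩
          · rw [Finset.mem_filter, Finset.mem_Icc]
            omega
        have h3 : S (N + 1) ≤ S N + 1 := by
          simp only [hS]
          rw [Finset.sum_range_succ]
          push_cast
          have := h1 N
          nlinarith
        have h4 := ih N le_rfl
        have h5 : ((c N : ℝ)) + 1 ≤ c (N + 1) := by exact_mod_cast h2
        linarith
      · push Not at hx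
        obtain ⟨m, hm1, hm2⟩ := hx
        have hmN' : m ≤ N := by
          rcases Nat.lt_or_ge m (N + 1) with h | h
          · omega
          · have : m = N + 1 := by omega
            rw [this] at hm2
            exact absurd hm2 (lt_irrefl _)
        have h4 := ih m hmN'
        have h5 : ((c N : ℝ)) ≤ c (N + 1) := by exact_mod_cast hcm N
        linarith
  exact key N N le_rfl

end Pool.Agent.H79.ES
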