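import Pool.Agent.H79.ES.GDf

/-!
# Module GUN: univalent branches: injectivity, derivative, composition

PROOF. `uni_inj`: apply `(gg a b)^[n]`. `uni_der`: `it_deriv` (H79/MZ/ALI; `dn` is the product) at `z` (finite orbit: `den` at the centre), composed with `g`: the derivative of `(gg a b)^[n] ∘ g` is `1` (compare the end of `al_br`, EB). `uni_step`: `(gg a b)^[j + 1] y = (gg a b)^[j] (gg a b y)` is `rfl`; for `w` in the smaller ball `g w` is in `ball (gg a b y) τ`, so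
`gg a b (ψ (g w)) = g w` and `(gg a b)^[i + 1] (ψ (g w)) = (gg a b)^[i] (g w)`.
-/

set_option autoImplicit false

open MeasureTheory Metric Set Polynomial Filter Topology

namespace Pool.Agent.H79.ES

open Pool.Agent.H61.TT Pool.Agent.H35.EX Pool.Agent.H91.CS

variable {d : ℕ} {a b : Polynomial ℂ} {P β : ℕ → ℂ}


theorem uni_inj {r : ℝ} {n : ℕ} {z : ℂ} {g : ℂ → ℂ} (hg : Uni a b r n z g) :
    InjOn g (ball ((gg a b)^[n] z) r) := by
  intro x hx y hy hxy
  rw [← hg.inv x hx, ← hg.inv y hy, hxy]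

theorem uni_der {r : ℝ} (hr : 0 < r) {n : ℕ} {z : ℂ} {g : ℂ → ℂ} (hg : Uni a b r n z g) :
    ‖dn a b n z‖ * ‖deriv g ((gg a b)^[n] z)‖ = 1 := by
  obtain ⟨c, hc⟩ : ∃ c : ℂ, c = (gg a b)^[n] z := ⟨_, rfl⟩
  have hU : ball ((gg a b)^[n] z) r ∈ 𝓝 ((gg a b)^[n] z) := ball_mem_nhds _ hr
  have h6 : HasDerivAt g (deriv g ((gg a b)^[n] z)) ((gg a b)^[n] z) :=
    ((hg.diff _ (mem_ball_self hr)).differentiableAt hU).hasDerivAt
  have h5 := Pool.Agent.H79.MZ.it_deriv (a := a) n (g ((gg a b)^[n] z))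
    (hg.den _ (mem_ball_self hr))
  have h7 := h5.comp _ h6
  have h8 : HasDerivAt ((gg a b)^[n] ∘ g) 1 ((gg a b)^[n] z) := by
    refine (hasDerivAt_id _).congr_of_eventuallyEq ?_
    filter_upwards [hU] with w hw
    exact hg.inv w hw
  have h9 := h7.unique h8
  rw [hg.cen] at h9
  rw [← norm_mul]
  unfold dn
  rw [h9, norm_one]

theorem uni_step {r r' τ : ℝ} {j : ℕ} {y : ℂ} {g ψ : ℂ → ℂ} (hg : Uni a b r j (gg a b y) g)
    (hr : r' ≤ r) (hψ : DifferentiableOn ℂ ψ (ball (gg a b y) τ)) (hψ0 : ψ (gg a b y) = y)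
    (hψ1 : ∀ w ∈ ball (gg a b y) τ, b.eval (ψ w) ≠ 0 ∧ gg a b (ψ w) = w)
    (hs : ∀ w ∈ ball ((gg a b)^[j] (gg a b y)) r', g w ∈ ball (gg a b y) τ) :
    Uni a b r' (j + 1) y (ψ ∘ g) := by
  have hsub : ball ((gg a b)^[j] (gg a b y)) r' ⊆ ball ((gg a b)^[j] (gg a b y)) r :=
    ball_subset_ball hr
  refine ⟨?_, ?_, ?_, ?_⟩
  · exact hψ.comp (hg.diff.mono hsub) hs
  · show ψ (g ((gg a b)^[j] (gg a b y))) = y
    rw [hg.cen, hψ0]
  · intro w hw i hi
    have hw2 : w ∈ ball ((gg a b)^[j] (gg a b y)) r' := hw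
    have h1 := hψ1 _ (hs w hw2)
    cases i with
    | zero => exact h1.1
    | succ i =>
      rw [Function.iterate_succ_apply]
      show b.eval ((gg a b)^[i] (gg a b (ψ (g w)))) ≠ 0
      rw [h1.2]
      exact hg.den w (hsub hw2) i (by omega)
  · intro w hw
    have hw2 : w ∈ ball ((gg a b)^[j] (gg a b y)) r' := hw
    have h1 := hψ1 _ (hs w hw2)
    rw [Function.iterate_succ_apply]
    show (gg a b)^[j] (gg a b (ψ (g w))) = w
    rw [h1.2]
    exact hg.inv w (hsub hw2)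

end Pool.Agent.H79.ES
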