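import Pool.Agent.H79.ES.MXI
import Pool.Agent.H79.ES.ET
import Pool.Agent.H79.MZ.EXP1

/-!
# Module MDI: a direction with the three conditions on which the functional does not vanish

PROOF. `xi v0 w z` is linear in `w` for every `z` (`ev` is linear in the coefficients; unfold `ev`, `Finset.sum_add_distrib`; compare `xi_lin`, H79/MZ/EXP1), so is `deriv (xi v0 w) c` (`xi v0 w` is differentiable at `c` because `ev v0.2 c ≠ 0`, `h.cr.den 0`; `deriv_add`, `deriv_const_mul`), and so is
`L w = ∑' k, xi v0 w (it v0 k c) / trD v0 k (it v0 1 c)`: the series is summable by `xi_le` (with `ev v0.1 z / ev v0.2 z = it v0 (k + 1) c` for `z = it v0 k c`) and `h.cr.sm`. If `L` vanished on the intersection of the kernels of the three functionals it would be in their span (`mem_span_of_iInf_ker_le_ker` with `Fin 3`,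
`Submodule.mem_span_range_iff_exists_fun`, `Fin.sum_univ_three`), against `transp`.
-/

set_option autoImplicit false

open Filter Topology Polynomial Metric Set

namespace Pool.Agent.H79.ES

open Pool.Agent.H44.Fatou Pool.Agent.H32.BT Pool.Agent.H79.Eul Pool.Agent.H79.Par Pool.Agent.H61.TT
open Pool.Agent.H35.EX

variable {d : ℕ} {v0 : E d} {c α γ : ℂ}

private theorem mdi_eta (v0 w : E d) (z : ℂ) : xi v0 w z =
    (pol w.1 * pol v0.2 - pol v0.1 * pol w.2).eval z / (pol v0.2).eval z ^ 2 := by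
  unfold xi
  simp only [ev_pol, eval_sub, eval_mul]

theorem sm_xi (hR : RatD d (pol v0.1) (pol v0.2)) (h : CrS v0 c) (w : E d) :
    Summable fun k => xi v0 w (it v0 k c) / trD v0 k (it v0 1 c) := by
  have hη : (pol w.1 * pol v0.2 - pol v0.1 * pol w.2).natDegree ≤ 2 * d := by
    refine (natDegree_sub_le _ _).trans (max_le ?_ ?_)
    · refine natDegree_mul_le.trans ?_
      have := pol_deg w.1
      have := pol_deg v0.2
      omega
    · refine natDegree_mul_le.trans ?_
      have := pol_deg v0.1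
      have := pol_deg w.2
      omega
  obtain ⟨K, hK0, hK⟩ := Pool.Agent.H91.CS.eta_bound hR hη
  refine Summable.of_norm_bounded
    (g := fun k => K * ((1 + ‖it v0 (k + 1) c‖ ^ 2) / ‖trD v0 k (it v0 1 c)‖)) (h.sm.mul_left K) fun k => ?_
  have h2 : (pol v0.2).eval (it v0 k c) ≠ 0 := by
    rw [← ev_pol]
    exact h.den k
  have h1 := hK (it v0 k c) h2
  rw [← it_succ] at h1
  rw [norm_div, mdi_eta, ← mul_div_assoc]
  exact div_le_div_of_nonneg_right h1 (norm_nonneg _)

theorem xi_diff (w : E d) {z : ℂ} (hz : ev v0.2 z ≠ 0) : DifferentiableAt ℂ (xi v0 w) z := by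
  have h1 : xi v0 w = fun z => (pol w.1 * pol v0.2 - pol v0.1 * pol w.2).eval z /
      (pol v0.2).eval z ^ 2 := funext fun z => mdi_eta v0 w z
  rw [h1]
  rw [ev_pol] at hz
  exact (Polynomial.differentiableAt _).div ((Polynomial.differentiableAt _).pow 2) (pow_ne_zero 2 hz)

/-- the functional of the summable critical point -/
noncomputable def Lf (hR : RatD d (pol v0.1) (pol v0.2)) (h : CrS v0 c) : E d →ₗ[ℂ] ℂ where
  toFun w := ∑' k, xi v0 w (it v0 k c) / trD v0 k (it v0 1 c)
  map_add' u w := by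
    rw [← (sm_xi hR h u).tsum_add (sm_xi hR h w)]
    refine tsum_congr fun k => ?_
    rw [(Pool.Agent.H79.MZ.xi_lin v0 _ u w 0).1, add_div]
  map_smul' s w := by
    rw [RingHom.id_apply, smul_eq_mul, ← tsum_mul_left]
    refine tsum_congr fun k => ?_
    rw [(Pool.Agent.H79.MZ.xi_lin v0 _ w w s).2, mul_div_assoc]

/-- evaluation of the tangent vector -/
noncomputable def Le (v0 : E d) (z : ℂ) : E d →ₗ[ℂ] ℂ where
  toFun w := xi v0 w z
  map_add' u w := (Pool.Agent.H79.MZ.xi_lin v0 _ u w 0).1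
  map_smul' s w := (Pool.Agent.H79.MZ.xi_lin v0 _ w w s).2

/-- derivative of the tangent vector -/
noncomputable def Ld (v0 : E d) (z : ℂ) (hz : ev v0.2 z ≠ 0) : E d →ₗ[ℂ] ℂ where
  toFun w := deriv (xi v0 w) z
  map_add' u w := by
    rw [show xi v0 (u + w) = fun z => xi v0 u z + xi v0 w z from
      funext fun z => (Pool.Agent.H79.MZ.xi_lin v0 _ u w 0).1]
    exact deriv_fun_add (xi_diff u hz) (xi_diff w hz)
  map_smul' s w := by
    rw [show xi v0 (s • w) = fun z => s * xi v0 w z from
      funext fun z => (Pool.Agent.H79.MZ.xi_lin v0 _ w w s).2]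
    rw [deriv_const_mul_field, RingHom.id_apply, smul_eq_mul]

/-- a direction killed by `h'(c), h(α), h(γ)` but not by the functional -/
theorem dir0 (hR : RatD d (pol v0.1) (pol v0.2)) (h : Ch v0 c α γ) : ∃ w : E d,
    deriv (xi v0 w) c = 0 ∧ xi v0 w α = 0 ∧ xi v0 w γ = 0 ∧
      ∑' k, xi v0 w (it v0 k c) / trD v0 k (it v0 1 c) ≠ 0 := by
  by_contra hcon
  push Not at hcon
  have hc : ev v0.2 c ≠ 0 := h.cr.den 0
  have h1 : Lf hR h.cr ∈ Submodule.span ℂ (Set.range ![Ld v0 c hc, Le v0 α, Le v0 γ]) := by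
    apply mem_span_of_iInf_ker_le_ker
    intro w hw
    rw [Submodule.mem_iInf] at hw
    have e0 := hw 0
    have e1 := hw 1
    have e2 := hw 2
    rw [LinearMap.mem_ker] at e0 e1 e2 ⊢
    exact hcon w e0 e1 e2
  obtain ⟨g, hg⟩ := (Submodule.mem_span_range_iff_exists_fun ℂ).1 h1
  obtain ⟨w, hw⟩ := transp hR h (g 0) (g 1) (g 2)
  apply hw
  have h2 := LinearMap.congr_fun hg w
  rw [Fin.sum_univ_three] at h2
  exact h2.symm

end Pool.Agent.H79.ES
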