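import Pool.Agent.H79.ES.EDf

/-!
# Module MNE: the critical point, its value and its preimages are distinct

PROOF. (1) `trD v0 (k + 1) (it v0 1 c) ≠ 0` contains the factor `wv v0 (it v0 k (it v0 1 c)) / _ = wv v0 (it v0 (k + 1) c) / _` (`it_add`), but `wv v0 c = 0`. (2) `it v0 1 α = c`, `it v0 1 (it v0 1 c) = it v0 2 c ≠ c` by (1). (3) `α = γ` would give `α = it v0 1 γ = it v0 1 α = c`, so `it v0 1 c = c`, against (1). (4) same.
(5) `γ = c` would give `it v0 1 c = α`, against (2).
-/

set_option autoImplicit false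

open Filter Topology Polynomial Metric Set

namespace Pool.Agent.H79.ES

open Pool.Agent.H44.Fatou Pool.Agent.H32.BT Pool.Agent.H79.Eul Pool.Agent.H79.Par Pool.Agent.H61.TT
open Pool.Agent.H35.EX

variable {d : ℕ} {v0 : E d} {c α γ : ℂ}

theorem ne1 (h : Ch v0 c α γ) (k : ℕ) : it v0 (k + 1) c ≠ c := by
  intro he
  have ht := h.cr.tr (k + 1)
  apply ht
  unfold trD
  refine Finset.prod_eq_zero (Finset.mem_range.2 (Nat.lt_succ_self k)) ?_
  have h1 : it v0 k (it v0 1 c) = it v0 (k + 1) c := (it_add v0 k 1 c).symm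
  rw [h1, he, h.cr.crit, zero_div]

theorem ne2 (h : Ch v0 c α γ) : it v0 1 c ≠ α := by
  intro he
  apply ne1 h 1
  rw [it_add v0 1 1 c, he, h.a2]

theorem ne3 (h : Ch v0 c α γ) : α ≠ γ := by
  intro he
  have h1 : it v0 1 α = α := by
    have := h.g2
    rwa [← he] at this
  have h2 : α = c := h1.symm.trans h.a2
  apply ne1 h 0
  rw [h2] at h1
  exact h1

theorem ne4 (h : Ch v0 c α γ) : α ≠ c := by
  intro he
  apply ne1 h 0
  have := h.a2
  rw [he] at this
  exact this

theorem ne5 (h : Ch v0 c α γ) : γ ≠ c := by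
  intro he
  apply ne2 h
  have := h.g2
  rw [he] at this
  exact this

end Pool.Agent.H79.ES
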