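import Pool.Agent.H79.ES.EDf

/-!
# Module MXI: the derivative of the map in the direction `w` is bounded in the chordal metric

PROOF. Let `a = ev v0.1`, `b = ev v0.2`, `m z = max 1 ‖z‖`. (1) `‖ev p z‖ ≤ (∑ i, ‖p i‖) * m z ^ d` (`‖z ^ i‖ ≤ m z ^ i ≤ m z ^ d`). (2) There is `s > 0` with `s * m z ^ (2 * d) ≤ ‖a z‖ ^ 2 + ‖b z‖ ^ 2` for all `z`: on `closedBall 0 1` the right hand side is continuous and positive
(coprime: `coprime_eval`, `pol_eval`), so it has a positive minimum; for `1 ≤ ‖z‖`, `u = z⁻¹`, `ev p z = z ^ d * ev (fun i => p (Fin.rev i)) u` (compare `rv`, H44/Fatou/Mob2), and `‖ev (rv v0).1 u‖ ^ 2 + ‖ev (rv v0).2 u‖ ^ 2` is continuous and positive on `closedBall 0 1` (for `u ≠ 0` by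
coprimality, at `u = 0` it is `‖v0.1 (Fin.last d)‖ ^ 2 + ‖v0.2 (Fin.last d)‖ ^ 2 > 0` since the degree is `d`: `last_ne`, H79/Par/CopNear). (3) `‖xi v0 w z‖ = ‖ev w.1 z * b z - a z * ev w.2 z‖ / ‖b z‖ ^ 2 ≤ K1 * m z ^ (2 * d) / ‖b z‖ ^ 2 ≤ (K1 / s) * (‖a z‖ ^ 2 + ‖b z‖ ^ 2) / ‖b z‖ ^ 2`.
-/

set_option autoImplicit false

open Filter Topology Polynomial Metric Set

namespace Pool.Agent.H79.ES

open Pool.Agent.H44.Fatou Pool.Agent.H32.BT Pool.Agent.H79.Eul Pool.Agent.H79.Par Pool.Agent.H61.TT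
open Pool.Agent.H35.EX

variable {d : ℕ} {v0 : E d} {c α γ : ℂ}

private theorem mxi_ev_le (p : Fin (d + 1) → ℂ) (z : ℂ) :
    ‖ev p z‖ ≤ (∑ i, ‖p i‖) * (max 1 ‖z‖) ^ d := by
  unfold ev
  rw [Finset.sum_mul]
  refine (norm_sum_le _ _).trans (Finset.sum_le_sum (fun i _ => ?_))
  rw [norm_mul, norm_pow]
  refine mul_le_mul_of_nonneg_left ?_ (norm_nonneg _)
  calc ‖z‖ ^ (i : ℕ) ≤ (max 1 ‖z‖) ^ (i : ℕ) :=
        pow_le_pow_left₀ (norm_nonneg _) (le_max_right _ _) _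
    _ ≤ (max 1 ‖z‖) ^ d := pow_le_pow_right₀ (le_max_left _ _) (by omega)

private theorem mxi_cont (p : Fin (d + 1) → ℂ) : Continuous (ev p) := by
  unfold ev
  fun_prop

private theorem mxi_low {f g : ℂ → ℂ} (hf : Continuous f) (hg : Continuous g)
    (h : ∀ z, f z ≠ 0 ∨ g z ≠ 0) :
    ∃ s : ℝ, 0 < s ∧ ∀ z : ℂ, ‖z‖ ≤ 1 → s ≤ ‖f z‖ ^ 2 + ‖g z‖ ^ 2 := by
  have hF : Continuous (fun z => ‖f z‖ ^ 2 + ‖g z‖ ^ 2) :=
    (hf.norm.pow 2).add (hg.norm.pow 2)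
  obtain ⟨z0, _, hz0⟩ := (isCompact_closedBall (0 : ℂ) 1).exists_isMinOn
    ⟨0, mem_closedBall_self (by norm_num)⟩ hF.continuousOn
  refine ⟨‖f z0‖ ^ 2 + ‖g z0‖ ^ 2, ?_, fun z hz => ?_⟩
  · rcases h z0 with h1 | h1
    · have : 0 < ‖f z0‖ := norm_pos_iff.2 h1
      positivity
    · have : 0 < ‖g z0‖ := norm_pos_iff.2 h1
      positivity
  · exact isMinOn_iff.1 hz0 z (by rw [mem_closedBall_zero_iff]; exact hz)

private theorem mxi_lower (hR : RatD d (pol v0.1) (pol v0.2)) : ∃ s : ℝ, 0 < s ∧ ∀ z : ℂ,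
    s * ((max 1 ‖z‖) ^ d) ^ 2 ≤ ‖ev v0.1 z‖ ^ 2 + ‖ev v0.2 z‖ ^ 2 := by
  have hne : ∀ z, ev v0.1 z ≠ 0 ∨ ev v0.2 z ≠ 0 := by
    intro z
    have := coprime_eval hR.cop z
    rwa [pol_eval, pol_eval] at this
  have hne' : ∀ u, ev (rv v0).1 u ≠ 0 ∨ ev (rv v0).2 u ≠ 0 := by
    intro u
    by_cases hu : u = 0
    · subst hu
      rw [CopNearAux.ev_zero', CopNearAux.ev_zero']
      have hl := CopNearAux.last_ne hR.deg (by have := hR.hd; omega)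
      simpa [rv] using hl
    · have h1 := ev_rev v0.1 (c := u⁻¹) (inv_ne_zero hu)
      have h2 := ev_rev v0.2 (c := u⁻¹) (inv_ne_zero hu)
      rw [inv_inv] at h1 h2
      rcases hne u⁻¹ with h3 | h3
      · left
        intro h4
        apply h3
        rw [h1]
        have h5 : ev (fun i => v0.1 (Fin.rev i)) u = 0 := h4
        rw [h5, zero_mul]
      · right
        intro h4
        apply h3
        rw [h2]
        have h5 : ev (fun i => v0.2 (Fin.rev i)) u = 0 := h4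
        rw [h5, zero_mul]
  obtain ⟨s1, hs1, h1⟩ := mxi_low (mxi_cont v0.1) (mxi_cont v0.2) hne
  obtain ⟨s2, hs2, h2⟩ := mxi_low (mxi_cont (rv v0).1) (mxi_cont (rv v0).2) hne'
  refine ⟨min s1 s2, lt_min hs1 hs2, fun z => ?_⟩
  rcases le_total ‖z‖ 1 with hz | hz
  · rw [max_eq_left hz, one_pow, one_pow, mul_one]
    exact (min_le_left _ _).trans (h1 z hz)
  · rw [max_eq_right hz]
    have hz0 : z ≠ 0 := norm_pos_iff.1 (lt_of_lt_of_le one_pos hz)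
    have hu : ‖z⁻¹‖ ≤ 1 := by
      rw [norm_inv]
      exact inv_le_one_of_one_le₀ hz
    have e1 : ev v0.1 z = ev (rv v0).1 z⁻¹ * z ^ d := ev_rev v0.1 hz0
    have e2 : ev v0.2 z = ev (rv v0).2 z⁻¹ * z ^ d := ev_rev v0.2 hz0
    rw [e1, e2, norm_mul, norm_mul, norm_pow]
    have h3 := (min_le_right s1 s2).trans (h2 _ hu)
    have h4 : 0 ≤ (‖z‖ ^ d) ^ 2 := by positivity
    calc min s1 s2 * (‖z‖ ^ d) ^ 2
        ≤ (‖ev (rv v0).1 z⁻¹‖ ^ 2 + ‖ev (rv v0).2 z⁻¹‖ ^ 2) * (‖z‖ ^ d) ^ 2 :=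
          mul_le_mul_of_nonneg_right h3 h4
      _ = _ := by ring

theorem xi_le (hR : RatD d (pol v0.1) (pol v0.2)) (w : E d) : ∃ K : ℝ, 0 < K ∧ ∀ z : ℂ, ev v0.2 z ≠ 0 →
    ‖xi v0 w z‖ ≤ K * (1 + ‖ev v0.1 z / ev v0.2 z‖ ^ 2) := by
  obtain ⟨s, hs, hlow⟩ := mxi_lower hR
  set A : ℝ := ∑ i, ‖v0.1 i‖ with hA
  set B : ℝ := ∑ i, ‖v0.2 i‖ with hB
  set W1 : ℝ := ∑ i, ‖w.1 i‖ with hW1
  set W2 : ℝ := ∑ i, ‖w.2 i‖ with hW2
  have hA0 : 0 ≤ A := Finset.sum_nonneg (fun i _ => norm_nonneg _)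
  have hB0 : 0 ≤ B := Finset.sum_nonneg (fun i _ => norm_nonneg _)
  have hW10 : 0 ≤ W1 := Finset.sum_nonneg (fun i _ => norm_nonneg _)
  have hW20 : 0 ≤ W2 := Finset.sum_nonneg (fun i _ => norm_nonneg _)
  set K1 : ℝ := W1 * B + A * W2 + 1 with hK1
  have hK10 : 0 < K1 := by positivity
  refine ⟨K1 / s, by positivity, fun z hz => ?_⟩
  set m : ℝ := (max 1 ‖z‖) ^ d with hm
  have hm0 : 0 ≤ m := by positivity
  have hb0 : 0 < ‖ev v0.2 z‖ := norm_pos_iff.2 hz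
  have h1 : ‖ev w.1 z * ev v0.2 z - ev v0.1 z * ev w.2 z‖ ≤ K1 * m ^ 2 := by
    calc ‖ev w.1 z * ev v0.2 z - ev v0.1 z * ev w.2 z‖
        ≤ ‖ev w.1 z * ev v0.2 z‖ + ‖ev v0.1 z * ev w.2 z‖ := norm_sub_le _ _
      _ = ‖ev w.1 z‖ * ‖ev v0.2 z‖ + ‖ev v0.1 z‖ * ‖ev w.2 z‖ := by rw [norm_mul, norm_mul]
      _ ≤ (W1 * m) * (B * m) + (A * m) * (W2 * m) :=
          add_le_add
            (mul_le_mul (mxi_ev_le w.1 z) (mxi_ev_le v0.2 z) (norm_nonneg _) (by positivity))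
            (mul_le_mul (mxi_ev_le v0.1 z) (mxi_ev_le w.2 z) (norm_nonneg _) (by positivity))
      _ = (W1 * B + A * W2) * m ^ 2 := by ring
      _ ≤ K1 * m ^ 2 := mul_le_mul_of_nonneg_right (by rw [hK1]; linarith) (by positivity)
  have h2 : m ^ 2 ≤ (‖ev v0.1 z‖ ^ 2 + ‖ev v0.2 z‖ ^ 2) / s := by
    rw [le_div_iff₀ hs, mul_comm]
    exact hlow z
  have h3 : ‖xi v0 w z‖ = ‖ev w.1 z * ev v0.2 z - ev v0.1 z * ev w.2 z‖ / ‖ev v0.2 z‖ ^ 2 := by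
    unfold xi
    rw [norm_div, norm_pow]
  rw [h3, norm_div]
  calc ‖ev w.1 z * ev v0.2 z - ev v0.1 z * ev w.2 z‖ / ‖ev v0.2 z‖ ^ 2
      ≤ (K1 * m ^ 2) / ‖ev v0.2 z‖ ^ 2 := div_le_div_of_nonneg_right h1 (by positivity)
    _ ≤ (K1 * ((‖ev v0.1 z‖ ^ 2 + ‖ev v0.2 z‖ ^ 2) / s)) / ‖ev v0.2 z‖ ^ 2 :=
        div_le_div_of_nonneg_right (mul_le_mul_of_nonneg_left h2 hK10.le) (by positivity)
    _ = K1 / s * (1 + (‖ev v0.1 z‖ / ‖ev v0.2 z‖) ^ 2) := by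
        field_simp
        ring

end Pool.Agent.H79.ES
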