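import Pool.Agent.H44.RG.GDf
import Pool.Agent.H79.Par.PerDec
import Pool.Agent.H79.ES.EDf

/-!
# Module NTR: summability in a chart

PROOF. `tr_low`: as `pl_low` (H44/RG/PLE; copy its proof) but keep the denominators: with `x = it v0 1 c`, `z k = it v0 k x`, `y → x`: `a k * chord x y ≤ chord (f^[k] x) (f^[k] y)` says `a k * ‖x - y‖ / (√(1 + ‖x‖ ^ 2) √(1 + ‖y‖ ^ 2)) ≤ ‖it v0 k x - it v0 k y‖ / (√(1 + ‖it v0 k x‖ ^ 2) √(1 + ‖it v0 k y‖ ^ 2))`; divide by `‖x - y‖`, `y → x`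
(`it v0 k` is continuous at `x`): `a k / (1 + ‖x‖ ^ 2) ≤ ‖trD v0 k x‖ / (1 + ‖z k‖ ^ 2)`. `crs_of`: `crit`, `reg` given, `den` from `hfin` (`orb_all`, `Orb`), `tr` and `sm` from `tr_low` and `∑ 1 / a k < ∞` (as `pl_sum`); `it v0 k (it v0 1 c) = it v0 (k + 1) c` (`it_add`).
-/

set_option autoImplicit false

open Filter Topology Polynomial Metric Set

namespace Pool.Agent.H79.ES

open Pool.Agent.H44.Fatou Pool.Agent.H32.BT Pool.Agent.H79.Eul Pool.Agent.H79.Par Pool.Agent.H35.EX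
open Pool.Agent.H44.RG Pool.Agent.H44.RR

variable {d : ℕ}

theorem tr_low {v0 : E d} {c : ℂ}
    (hfin : ∀ j : ℕ, (Rf v0)^[j] (c : OnePoint ℂ) ≠ OnePoint.infty) {a : ℕ → ℝ}
    (h : ∀ n, ∀ᶠ y in 𝓝 (Rf v0 (c : OnePoint ℂ)), a n * chord (Rf v0 (c : OnePoint ℂ)) y ≤
      chord ((Rf v0)^[n] (Rf v0 (c : OnePoint ℂ))) ((Rf v0)^[n] y)) (k : ℕ) :
    a k * (1 + ‖it v0 (k + 1) c‖ ^ 2) ≤ (1 + ‖it v0 1 c‖ ^ 2) * ‖trD v0 k (it v0 1 c)‖ := by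
  rw [it_add v0 k 1 c]
  obtain ⟨x, hx⟩ : ∃ x, x = it v0 1 c := ⟨_, rfl⟩
  rw [← hx]
  have hfx : Rf v0 (c : OnePoint ℂ) = (x : OnePoint ℂ) := by
    have h1 := (orb_all hfin).2 1
    rw [Function.iterate_one] at h1
    rw [h1, hx]
  have hfin' : ∀ j : ℕ, (Rf v0)^[j] (x : OnePoint ℂ) ≠ OnePoint.infty := by
    intro j
    rw [← hfx, ← Function.iterate_succ_apply]
    exact hfin (j + 1)
  obtain ⟨horb, hit⟩ := orb_all hfin'
  rw [hfx] at h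
  have hx1 : 0 < 1 + ‖x‖ ^ 2 := by positivity
  have hz1 : 0 < 1 + ‖it v0 k x‖ ^ 2 := by positivity
  have hder := tr_hasDerivAt v0 x k fun i hi => (horb k i hi).1
  have hslope := (hasDerivAt_iff_tendsto_slope.1 hder).norm
  have h1 : ∀ᶠ y : ℂ in 𝓝 x, ∀ j < k, ev v0.2 (it v0 j y) ≠ 0 := by
    have h2 := orb_near (horb k)
    have h3 : Tendsto (fun y : ℂ => (v0, y)) (𝓝 x) (𝓝 (v0, x)) :=
      (Continuous.prodMk continuous_const continuous_id).tendsto x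
    exact h3.eventually h2
  have h2 : ∀ᶠ y : ℂ in 𝓝 x, a k * chord (x : OnePoint ℂ) (y : OnePoint ℂ) ≤
      chord ((Rf v0)^[k] (x : OnePoint ℂ)) ((Rf v0)^[k] (y : OnePoint ℂ)) :=
    (OnePoint.continuous_coe.tendsto x).eventually (h k)
  have h3 : Tendsto (fun y : ℂ => a k / (√(1 + ‖x‖ ^ 2) * √(1 + ‖y‖ ^ 2))) (𝓝[≠] x)
      (𝓝 (a k / (1 + ‖x‖ ^ 2))) := by
    have h4 : Continuous fun y : ℂ => a k / (√(1 + ‖x‖ ^ 2) * √(1 + ‖y‖ ^ 2)) := by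
      apply Continuous.div continuous_const
      · exact continuous_const.mul
          (Real.continuous_sqrt.comp (continuous_const.add (continuous_norm.pow 2)))
      · intro y
        positivity
    have h5 : Tendsto (fun y : ℂ => a k / (√(1 + ‖x‖ ^ 2) * √(1 + ‖y‖ ^ 2))) (𝓝[≠] x)
        (𝓝 (a k / (√(1 + ‖x‖ ^ 2) * √(1 + ‖x‖ ^ 2)))) :=
      (h4.tendsto x).mono_left nhdsWithin_le_nhds
    rwa [Real.mul_self_sqrt hx1.le] at h5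
  have h4 : Tendsto (fun y : ℂ => ‖slope (it v0 k) x y‖ *
      (√(1 + ‖it v0 k x‖ ^ 2) * √(1 + ‖it v0 k y‖ ^ 2))⁻¹) (𝓝[≠] x)
      (𝓝 (‖trD v0 k x‖ * (1 + ‖it v0 k x‖ ^ 2)⁻¹)) := by
    refine hslope.mul ?_
    have h5 : Tendsto (fun y : ℂ => (√(1 + ‖it v0 k x‖ ^ 2) * √(1 + ‖it v0 k y‖ ^ 2))⁻¹) (𝓝[≠] x)
        (𝓝 (√(1 + ‖it v0 k x‖ ^ 2) * √(1 + ‖it v0 k x‖ ^ 2))⁻¹) := by
      refine Tendsto.inv₀ ?_ (by positivity)
      refine tendsto_const_nhds.mul ?_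
      have h6 : Continuous fun w : ℂ => √(1 + ‖w‖ ^ 2) :=
        Real.continuous_sqrt.comp (continuous_const.add (continuous_norm.pow 2))
      exact ((h6.tendsto _).comp hder.continuousAt).mono_left nhdsWithin_le_nhds
    rwa [Real.mul_self_sqrt hz1.le] at h5
  have h5 : a k / (1 + ‖x‖ ^ 2) ≤ ‖trD v0 k x‖ * (1 + ‖it v0 k x‖ ^ 2)⁻¹ := by
    refine le_of_tendsto_of_tendsto h3 h4 ?_
    filter_upwards [nhdsWithin_le_nhds h1, nhdsWithin_le_nhds h2, self_mem_nhdsWithin]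
      with y hy1 hy2 hy3
    have hyx : 0 < ‖y - x‖ := by
      rw [norm_pos_iff, sub_ne_zero]
      exact hy3
    rw [hit k, rat_it hy1] at hy2
    have e1 : chord (x : OnePoint ℂ) (y : OnePoint ℂ) =
        ‖x - y‖ / (√(1 + ‖x‖ ^ 2) * √(1 + ‖y‖ ^ 2)) := rfl
    have e2 : chord ((it v0 k x : ℂ) : OnePoint ℂ) ((it v0 k y : ℂ) : OnePoint ℂ) =
        ‖it v0 k x - it v0 k y‖ / (√(1 + ‖it v0 k x‖ ^ 2) * √(1 + ‖it v0 k y‖ ^ 2)) := rfl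
    rw [e1, e2, norm_sub_rev x y, norm_sub_rev (it v0 k x)] at hy2
    rw [slope_def_field, norm_div, ← div_eq_mul_inv, div_right_comm, le_div_iff₀ hyx]
    calc a k / (√(1 + ‖x‖ ^ 2) * √(1 + ‖y‖ ^ 2)) * ‖y - x‖ =
          a k * (‖y - x‖ / (√(1 + ‖x‖ ^ 2) * √(1 + ‖y‖ ^ 2))) := by ring
      _ ≤ _ := hy2
  rw [← div_eq_mul_inv, div_le_div_iff₀ hx1 hz1] at h5
  linarith

theorem crs_of {v0 : E d} {c : ℂ} (hfin : ∀ j : ℕ, (Rf v0)^[j] (c : OnePoint ℂ) ≠ OnePoint.infty)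
    (hS : Summ (Rf v0) (Rf v0 (c : OnePoint ℂ))) (hc : wv v0 c = 0)
    (hreg : ∀ k, (Pool.Agent.H61.TT.fib (pol v0.1) (pol v0.2) (it v0 (k + 1) c)).natDegree = d) :
    CrS v0 c := by
  obtain ⟨a, ha, hsum, hexp⟩ := hS
  have key := tr_low hfin hexp
  have hx1 : 0 < 1 + ‖it v0 1 c‖ ^ 2 := by positivity
  have hk1 : ∀ k, 0 < 1 + ‖it v0 (k + 1) c‖ ^ 2 := fun k => by positivity
  have hpos : ∀ k, 0 < ‖trD v0 k (it v0 1 c)‖ := fun k => by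
    have h1 := (mul_pos (ha k) (hk1 k)).trans_le (key k)
    exact pos_of_mul_pos_right h1 hx1.le
  refine ⟨hc, fun k => ((orb_all hfin).1 (k + 1) k (Nat.lt_succ_self k)).1,
    fun k => norm_pos_iff.1 (hpos k), ?_, hreg⟩
  refine Summable.of_nonneg_of_le (fun k => (div_pos (hk1 k) (hpos k)).le) (fun k => ?_)
    (hsum.mul_left (1 + ‖it v0 1 c‖ ^ 2))
  rw [mul_one_div, div_le_div_iff₀ (hpos k) (ha k)]
  linarith [key k]

end Pool.Agent.H79.ES
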